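import Pool.Agent.T2H10.WB.Stm

open MeasureTheory Set Filter Topology

namespace Pool.Agent.T2H10.WB

namespace APX

lemma pp_eq (τ : ℝ) (_hτ : 0 < τ) (z : ℝ × ℝ) :
    pp τ z = (Real.exp (-(1 / (4 * τ)) * z.1 ^ 2) * Real.exp (-(1 / (4 * τ)) * z.2 ^ 2)) * (4 * Real.pi * τ)⁻¹ := by
  unfold pp
  rw [← Real.exp_add, div_eq_mul_inv]
  congr 2
  field_simp
  ring

lemma pp_int (τ : ℝ) (hτ : 0 < τ) : Integrable (pp τ) ∧ ∫ z, pp τ z = 1 := by
  have hb : (0 : ℝ) < 1 / (4 * τ) := by positivity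
  have hfun : pp τ = fun z : ℝ × ℝ => (Real.exp (-(1 / (4 * τ)) * z.1 ^ 2) *
      Real.exp (-(1 / (4 * τ)) * z.2 ^ 2)) * (4 * Real.pi * τ)⁻¹ := by
    funext z; exact pp_eq τ hτ z
  have h1 := integrable_exp_neg_mul_sq hb
  constructor
  · rw [hfun]
    exact (h1.mul_prod h1).mul_const _
  · rw [hfun, integral_mul_const, Measure.volume_eq_prod,
      integral_prod_mul (fun x : ℝ => Real.exp (-(1 / (4 * τ)) * x ^ 2))
        (fun x : ℝ => Real.exp (-(1 / (4 * τ)) * x ^ 2)), integral_gaussian,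
      Real.mul_self_sqrt (by positivity)]
    have := Real.pi_pos
    field_simp

lemma mul_pp (τ : ℝ) (hτ : 0 < τ) (z : ℝ × ℝ) (x : ℝ) (hx : x ^ 2 ≤ z.1 ^ 2 + z.2 ^ 2) :
    |x| * pp τ z ≤ 2 * Real.sqrt (2 * τ) * pp (2 * τ) z := by
  have hpi := Real.pi_pos
  set q := z.1 ^ 2 + z.2 ^ 2 with hq
  have hs : 0 < Real.sqrt (2 * τ) := Real.sqrt_pos.mpr (by positivity)
  have hs2 : Real.sqrt (2 * τ) ^ 2 = 2 * τ := Real.sq_sqrt (by positivity)
  -- |x| ≤ sqrt (2 τ) * (1 + q/(8 τ))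
  have h1 : |x| ≤ Real.sqrt (2 * τ) * (q / (8 * τ) + 1) := by
    have h2 : (|x| - 2 * Real.sqrt (2 * τ)) ^ 2 ≥ 0 := sq_nonneg _
    have h3 : |x| ^ 2 = x ^ 2 := sq_abs x
    have h4 : Real.sqrt (2 * τ) * (q / (8 * τ) + 1) = (q + 8 * τ) / (4 * Real.sqrt (2 * τ)) := by
      rw [eq_div_iff (by positivity)]
      have : Real.sqrt (2 * τ) * (q / (8 * τ) + 1) * (4 * Real.sqrt (2 * τ)) =
          4 * (q / (8 * τ) + 1) * Real.sqrt (2 * τ) ^ 2 := by ring
      rw [this, hs2]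
      field_simp
      ring
    rw [h4, le_div_iff₀ (by positivity)]
    nlinarith
  have h5 : q / (8 * τ) + 1 ≤ Real.exp (q / (8 * τ)) := Real.add_one_le_exp _
  have h6 : |x| ≤ Real.sqrt (2 * τ) * Real.exp (q / (8 * τ)) :=
    h1.trans (mul_le_mul_of_nonneg_left h5 hs.le)
  have h7 : pp τ z = Real.exp (-(q / (4 * τ))) / (4 * Real.pi * τ) := rfl
  have h8 : pp (2 * τ) z = Real.exp (-(q / (4 * (2 * τ)))) / (4 * Real.pi * (2 * τ)) := rfl
  rw [h7, h8]
  have h9 : Real.exp (-(q / (4 * τ))) = Real.exp (-(q / (8 * τ))) * Real.exp (-(q / (8 * τ))) := by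
    rw [← Real.exp_add]; congr 1; field_simp; ring
  have h10 : Real.exp (-(q / (4 * (2 * τ)))) = Real.exp (-(q / (8 * τ))) := by
    congr 2; ring
  rw [h9, h10]
  have h11 : |x| * Real.exp (-(q / (8 * τ))) ≤ Real.sqrt (2 * τ) := by
    calc |x| * Real.exp (-(q / (8 * τ))) ≤ (Real.sqrt (2 * τ) * Real.exp (q / (8 * τ))) *
          Real.exp (-(q / (8 * τ))) := mul_le_mul_of_nonneg_right h6 (Real.exp_pos _).le
      _ = Real.sqrt (2 * τ) := by
          rw [mul_assoc, ← Real.exp_add, add_neg_cancel, Real.exp_zero, mul_one]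
  calc |x| * (Real.exp (-(q / (8 * τ))) * Real.exp (-(q / (8 * τ))) / (4 * Real.pi * τ))
      = (|x| * Real.exp (-(q / (8 * τ)))) * (Real.exp (-(q / (8 * τ))) / (4 * Real.pi * τ)) := by ring
    _ ≤ Real.sqrt (2 * τ) * (Real.exp (-(q / (8 * τ))) / (4 * Real.pi * τ)) :=
        mul_le_mul_of_nonneg_right h11 (by positivity)
    _ = 2 * Real.sqrt (2 * τ) * (Real.exp (-(q / (8 * τ))) / (4 * Real.pi * (2 * τ))) := by
        field_simp

lemma lip (u : ℝ × ℝ → ℝ) (hu : Dec u) : ∃ L : ℝ, 0 ≤ L ∧ ∀ z a : ℝ × ℝ,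
    |u z - u a| ≤ L * (|z.1 - a.1| + |z.2 - a.2|) := by
  obtain ⟨C, c, hC, hc, h⟩ := hu.dec
  refine ⟨2 * C, by positivity, fun z a => ?_⟩
  have hb : ∀ w : ℝ × ℝ, |DX u w| ≤ C ∧ |DY u w| ≤ C := by
    intro w
    have he : Real.exp (-(c * (|w.1| + |w.2|))) ≤ 1 := by
      rw [Real.exp_le_one_iff]
      have : 0 ≤ c * (|w.1| + |w.2|) := by positivity
      linarith
    obtain ⟨_, h2, h3⟩ := h w
    exact ⟨h2.trans (by nlinarith), h3.trans (by nlinarith)⟩
  have hd : ∀ w ∈ (univ : Set (ℝ × ℝ)), DifferentiableAt ℝ u w := fun w _ =>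
    (hu.smooth.differentiable (by norm_num)) w
  have hn : ∀ w ∈ (univ : Set (ℝ × ℝ)), ‖fderiv ℝ u w‖ ≤ 2 * C := by
    intro w _
    refine ContinuousLinearMap.opNorm_le_bound _ (by positivity) fun v => ?_
    have hv : fderiv ℝ u w v = v.1 * DX u w + v.2 * DY u w := by
      have : v = v.1 • ((1 : ℝ), (0 : ℝ)) + v.2 • ((0 : ℝ), (1 : ℝ)) := by
        ext <;> simp
      conv_lhs => rw [this]
      rw [map_add, map_smul, map_smul]
      rfl
    rw [hv, Real.norm_eq_abs]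
    have h1 : |v.1| ≤ ‖v‖ := norm_fst_le v
    have h2 : |v.2| ≤ ‖v‖ := norm_snd_le v
    calc |v.1 * DX u w + v.2 * DY u w| ≤ |v.1| * |DX u w| + |v.2| * |DY u w| := by
          rw [← abs_mul, ← abs_mul]; exact abs_add_le _ _
      _ ≤ ‖v‖ * C + ‖v‖ * C := by
          gcongr
          · exact (hb w).1
          · exact (hb w).2
      _ = 2 * C * ‖v‖ := by ring
  have := (convex_univ : Convex ℝ (univ : Set (ℝ × ℝ))).norm_image_sub_le_of_norm_fderiv_le hd hn
    (mem_univ a) (mem_univ z)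
  rw [Real.norm_eq_abs] at this
  refine this.trans (mul_le_mul_of_nonneg_left ?_ (by positivity))
  rw [Prod.norm_def]
  exact max_le (by simp [Real.norm_eq_abs]) (by simp [Real.norm_eq_abs])

end APX

theorem pAPX : S_APX := by
  intro u hu
  obtain ⟨L, hL, hlip⟩ := APX.lip u hu
  obtain ⟨C, c, hC, hc, h⟩ := hu.dec
  refine ⟨L * 8, fun τ a hτ => ?_⟩
  obtain ⟨hi, h1⟩ := APX.pp_int τ hτ
  obtain ⟨hi2, h12⟩ := APX.pp_int (2 * τ) (by positivity)
  have hpp0 : ∀ (σ : ℝ), 0 < σ → ∀ z, 0 ≤ pp σ z := by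
    intro σ hσ z
    unfold pp
    have := Real.pi_pos
    positivity
  have his : Integrable (fun z => pp τ (z - a)) := hi.comp_sub_right a
  have hi2s : Integrable (fun z => pp (2 * τ) (z - a)) := hi2.comp_sub_right a
  have h1s : ∫ z, pp τ (z - a) = 1 := by rw [integral_sub_right_eq_self (pp τ) a, h1]
  have h12s : ∫ z, pp (2 * τ) (z - a) = 1 := by rw [integral_sub_right_eq_self (pp (2 * τ)) a, h12]
  have hub : ∀ z, |u z| ≤ C := by
    intro w
    have he : Real.exp (-(c * (|w.1| + |w.2|))) ≤ 1 := by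
      rw [Real.exp_le_one_iff]
      have : 0 ≤ c * (|w.1| + |w.2|) := by positivity
      linarith
    exact (h w).1.trans (by nlinarith)
  have hiu : Integrable (fun z => u z * pp τ (z - a)) := by
    refine Integrable.bdd_mul his hu.smooth.continuous.aestronglyMeasurable (c := C) ?_
    exact Eventually.of_forall fun z => by rw [Real.norm_eq_abs]; exact hub z
  have hE : (∫ z, u z * pp τ (z - a)) - u a = ∫ z, (u z - u a) * pp τ (z - a) := by
    have : (fun z => (u z - u a) * pp τ (z - a)) = fun z => u z * pp τ (z - a) - u a * pp τ (z - a) := by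
      funext z; ring
    rw [this, integral_sub hiu (his.const_mul _), integral_const_mul, h1s, mul_one]
  rw [hE, ← Real.norm_eq_abs]
  have hb : ∀ z, ‖(u z - u a) * pp τ (z - a)‖ ≤ L * (4 * Real.sqrt (2 * τ)) * pp (2 * τ) (z - a) := by
    intro z
    rw [norm_mul, Real.norm_eq_abs, Real.norm_eq_abs, abs_of_nonneg (hpp0 τ hτ _)]
    have e1 := APX.mul_pp τ hτ (z - a) (z.1 - a.1) (by
      have : (z - a).1 = z.1 - a.1 := rfl
      rw [this]; nlinarith [sq_nonneg (z - a).2])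
    have e2 := APX.mul_pp τ hτ (z - a) (z.2 - a.2) (by
      have : (z - a).2 = z.2 - a.2 := rfl
      rw [this]; nlinarith [sq_nonneg (z - a).1])
    calc |u z - u a| * pp τ (z - a) ≤ (L * (|z.1 - a.1| + |z.2 - a.2|)) * pp τ (z - a) :=
          mul_le_mul_of_nonneg_right (hlip z a) (hpp0 τ hτ _)
      _ = L * (|z.1 - a.1| * pp τ (z - a) + |z.2 - a.2| * pp τ (z - a)) := by ring
      _ ≤ L * (2 * Real.sqrt (2 * τ) * pp (2 * τ) (z - a) + 2 * Real.sqrt (2 * τ) * pp (2 * τ) (z - a)) := by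
          gcongr
      _ = L * (4 * Real.sqrt (2 * τ)) * pp (2 * τ) (z - a) := by ring
  refine (norm_integral_le_of_norm_le (hi2s.const_mul (L * (4 * Real.sqrt (2 * τ))))
    (Eventually.of_forall hb)).trans ?_
  rw [integral_const_mul, h12s, mul_one]
  have hs2 : Real.sqrt (2 * τ) = Real.sqrt 2 * Real.sqrt τ := Real.sqrt_mul (by norm_num) τ
  rw [hs2]
  have h2 : Real.sqrt 2 ≤ 2 := by
    rw [Real.sqrt_le_left (by norm_num)]; norm_num
  have h3 : 0 ≤ Real.sqrt τ := Real.sqrt_nonneg τ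
  have h4 : 0 ≤ L * Real.sqrt τ := by positivity
  nlinarith

end Pool.Agent.T2H10.WB
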