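import Pool.Agent.T2H10.WB.Stm

open MeasureTheory Set Filter Topology

namespace Pool.Agent.T2H10.WB

namespace BAS

/-- the integrand -/
noncomputable def F (κ q τ : ℝ) : ℝ :=
  Real.exp (-(κ ^ 2 * τ)) * (Real.exp (-(q / (4 * τ))) / (2 * Real.pi * τ))

theorem F_nonneg {κ q τ : ℝ} (hτ : 0 < τ) : 0 ≤ F κ q τ := by
  unfold F
  have := Real.pi_pos
  positivity

theorem F_pos {κ q τ : ℝ} (hτ : 0 < τ) : 0 < F κ q τ := by
  unfold F
  have := Real.pi_pos
  positivity

theorem F_meas (κ : ℝ) : Measurable (Function.uncurry (F κ)) := by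
  unfold F Function.uncurry
  fun_prop

theorem F_meas' (κ q : ℝ) : Measurable (F κ q) := by
  unfold F
  fun_prop

theorem F_le {κ q τ : ℝ} (hq : 0 < q) (hτ : 0 < τ) :
    F κ q τ ≤ (4 / q / (2 * Real.pi)) * Real.exp (-κ ^ 2 * τ) := by
  have hpi := Real.pi_pos
  have h1 : Real.exp (-(q / (4 * τ))) / τ ≤ 4 / q := by
    have hx : 0 < q / (4 * τ) := by positivity
    have h2 : q / (4 * τ) * Real.exp (-(q / (4 * τ))) ≤ 1 := by
      have h3 : q / (4 * τ) ≤ Real.exp (q / (4 * τ)) := by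
        have := Real.add_one_le_exp (q / (4 * τ))
        linarith
      calc q / (4 * τ) * Real.exp (-(q / (4 * τ)))
          ≤ Real.exp (q / (4 * τ)) * Real.exp (-(q / (4 * τ))) :=
            mul_le_mul_of_nonneg_right h3 (Real.exp_pos _).le
        _ = 1 := by rw [← Real.exp_add, add_neg_cancel, Real.exp_zero]
    have h4 : Real.exp (-(q / (4 * τ))) / τ =
        4 / q * (q / (4 * τ) * Real.exp (-(q / (4 * τ)))) := by
      field_simp
    rw [h4]
    have h5 : 0 ≤ 4 / q := by positivity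
    nlinarith
  have h6 : F κ q τ = (Real.exp (-(q / (4 * τ))) / τ) * (Real.exp (-κ ^ 2 * τ) / (2 * Real.pi)) := by
    unfold F
    have : -(κ ^ 2 * τ) = -κ ^ 2 * τ := by ring
    rw [this]
    field_simp
  rw [h6]
  calc (Real.exp (-(q / (4 * τ))) / τ) * (Real.exp (-κ ^ 2 * τ) / (2 * Real.pi))
      ≤ (4 / q) * (Real.exp (-κ ^ 2 * τ) / (2 * Real.pi)) := by
        apply mul_le_mul_of_nonneg_right h1
        positivity
    _ = (4 / q / (2 * Real.pi)) * Real.exp (-κ ^ 2 * τ) := by ring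

theorem F_int {κ q : ℝ} (hκ : 0 < κ) (hq : 0 < q) : IntegrableOn (F κ q) (Ioi 0) := by
  have h1 : IntegrableOn (fun τ : ℝ => (4 / q / (2 * Real.pi)) * Real.exp (-κ ^ 2 * τ)) (Ioi 0) := by
    have h := exp_neg_integrableOn_Ioi (0 : ℝ) (b := κ ^ 2) (by positivity)
    exact h.const_mul _
  refine Integrable.mono' h1 (F_meas' κ q).aestronglyMeasurable ?_
  refine (ae_restrict_iff' measurableSet_Ioi).2 (Eventually.of_forall fun τ hτ => ?_)
  rw [Real.norm_of_nonneg (F_nonneg hτ)]
  exact F_le hq hτ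

theorem two_Gf (κ ε : ℝ) (z : ℝ × ℝ) :
    2 * Gf κ ε z = ∫ τ in Ioi ε, F κ (z.1 ^ 2 + z.2 ^ 2) τ := by
  unfold Gf
  rw [← integral_const_mul]
  refine integral_congr_ae (Eventually.of_forall fun τ => ?_)
  simp only [F, pp]
  by_cases hτ : τ = 0
  · simp [hτ]
  · have hpi := Real.pi_pos.ne'
    field_simp
    ring

theorem q_pos {z : ℝ × ℝ} (hz : z ≠ 0) : 0 < z.1 ^ 2 + z.2 ^ 2 := by
  by_contra h
  push_neg at h
  apply hz
  have h1 : z.1 = 0 := by nlinarith [sq_nonneg z.1, sq_nonneg z.2]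
  have h2 : z.2 = 0 := by nlinarith [sq_nonneg z.1, sq_nonneg z.2]
  exact Prod.ext h1 h2

end BAS

open BAS in
theorem pBAS : S_BAS := by
  intro κ hκ
  refine ⟨?_, fun q hq => F_int hκ hq, ?_, ?_, ?_, ?_, ?_⟩
  · exact ((F_meas κ).stronglyMeasurable.integral_prod_right (ν := volume.restrict (Ioi 0))).measurable
  · intro q hq
    have h := (setIntegral_pos_iff_support_of_nonneg_ae
      ((ae_restrict_iff' measurableSet_Ioi).2 (Eventually.of_forall fun τ hτ => F_nonneg hτ))
      (F_int hκ hq)).2 ?_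
    · exact h
    · have hs : Function.support (F κ q) ∩ Ioi 0 = Ioi 0 := by
        apply inter_eq_right.2
        intro τ hτ
        exact (F_pos hτ).ne'
      rw [hs]
      simp
  · intro q
    exact setIntegral_nonneg measurableSet_Ioi fun τ hτ => F_nonneg hτ
  · intro q r hq hqr
    refine setIntegral_mono_on (F_int hκ (hq.trans_le hqr)) (F_int hκ hq) measurableSet_Ioi ?_
    intro τ hτ
    have hτ' : 0 < τ := hτ
    have hpi := Real.pi_pos
    apply mul_le_mul_of_nonneg_left _ (Real.exp_pos _).le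
    apply div_le_div_of_nonneg_right _ (by positivity)
    apply Real.exp_le_exp.2
    have : q / (4 * τ) ≤ r / (4 * τ) := div_le_div_of_nonneg_right hqr (by positivity)
    linarith
  · intro ε z hε
    constructor
    · have h := two_Gf κ ε z
      have h2 : 0 ≤ ∫ τ in Ioi ε, F κ (z.1 ^ 2 + z.2 ^ 2) τ :=
        setIntegral_nonneg measurableSet_Ioi fun τ hτ => F_nonneg (hε.trans hτ)
      linarith
    · intro hz
      rw [two_Gf]
      refine setIntegral_mono_set (F_int hκ (q_pos hz)) ?_ ?_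
      · exact (ae_restrict_iff' measurableSet_Ioi).2 (Eventually.of_forall fun τ hτ => F_nonneg hτ)
      · exact (Ioi_subset_Ioi hε.le).eventuallyLE
  · intro z hz
    have hF := F_int (κ := κ) hκ (q_pos hz)
    have h1 : ∀ ε : ℝ, 0 < ε → 2 * Gf κ ε z =
        ∫ τ in Ioi 0, (Ioi ε).indicator (F κ (z.1 ^ 2 + z.2 ^ 2)) τ := by
      intro ε hε
      rw [two_Gf, setIntegral_indicator measurableSet_Ioi, inter_eq_right.2 (Ioi_subset_Ioi hε.le)]
    have h2 : Tendsto (fun ε : ℝ => ∫ τ in Ioi 0, (Ioi ε).indicator (F κ (z.1 ^ 2 + z.2 ^ 2)) τ)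
        (𝓝[>] 0) (𝓝 (∫ τ in Ioi 0, F κ (z.1 ^ 2 + z.2 ^ 2) τ)) := by
      refine tendsto_integral_filter_of_dominated_convergence (F κ (z.1 ^ 2 + z.2 ^ 2)) ?_ ?_ hF ?_
      · exact Eventually.of_forall fun ε =>
          ((F_meas' κ _).indicator measurableSet_Ioi).aestronglyMeasurable
      · refine Eventually.of_forall fun ε => (ae_restrict_iff' measurableSet_Ioi).2
          (Eventually.of_forall fun τ hτ => ?_)
        by_cases h : τ ∈ Ioi ε
        · rw [indicator_of_mem h, Real.norm_of_nonneg (F_nonneg hτ)]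
        · rw [indicator_of_notMem h, norm_zero]
          exact F_nonneg hτ
      · refine (ae_restrict_iff' measurableSet_Ioi).2 (Eventually.of_forall fun τ hτ => ?_)
        refine tendsto_const_nhds.congr' ?_
        filter_upwards [Ioo_mem_nhdsGT (show (0 : ℝ) < τ from hτ)] with ε hε
        rw [indicator_of_mem (show τ ∈ Ioi ε from hε.2)]
    refine h2.congr' ?_
    filter_upwards [self_mem_nhdsWithin] with ε hε
    exact (h1 ε hε).symm

end Pool.Agent.T2H10.WB
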