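import Pool.Agent.T2H10.WB.Stm

open MeasureTheory Set Filter Topology

namespace Pool.Agent.T2H10.WB

namespace CNV

open ENNReal

noncomputable section

/-- the integrand of `kk` -/
def ig (κ q τ : ℝ) : ℝ := Real.exp (-(κ ^ 2 * τ)) * (Real.exp (-(q / (4 * τ))) / (2 * Real.pi * τ))

/-- `kk` as a Lebesgue integral -/
def K (κ q : ℝ) : ℝ≥0∞ := ∫⁻ τ in Ioi (0 : ℝ), ENNReal.ofReal (ig κ q τ)

theorem ig_nonneg (κ q : ℝ) {τ : ℝ} (h : 0 < τ) : 0 ≤ ig κ q τ := by
  unfold ig
  have := Real.pi_pos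
  positivity

theorem ig_meas (κ : ℝ) : Measurable (fun p : ℝ × ℝ => ig κ p.1 p.2) := by
  unfold ig
  fun_prop

theorem kk_eq (κ q : ℝ) : kk κ q = (K κ q).toReal := by
  unfold kk K
  rw [integral_eq_lintegral_of_nonneg_ae]
  · rfl
  · filter_upwards [ae_restrict_mem measurableSet_Ioi] with τ hτ
    exact ig_nonneg κ q hτ
  · have h : Measurable (fun τ : ℝ => ig κ q τ) := by
      unfold ig
      fun_prop
    exact h.aestronglyMeasurable

theorem K_meas (κ : ℝ) : Measurable (K κ) := by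
  unfold K
  have h : Measurable (fun p : ℝ × ℝ => ENNReal.ofReal (ig κ p.1 p.2)) :=
    ENNReal.measurable_ofReal.comp (ig_meas κ)
  exact h.lintegral_prod_right'

/-- one dimensional Gaussian convolution -/
theorem gauss (τ σ s t : ℝ) (hτ : 0 < τ) (hσ : 0 < σ) :
    ∫⁻ r : ℝ, ENNReal.ofReal (Real.exp (-((s - r) ^ 2 / (4 * τ))) * Real.exp (-((r - t) ^ 2 / (4 * σ)))) =
      ENNReal.ofReal (Real.exp (-((s - t) ^ 2 / (4 * (τ + σ)))) * Real.sqrt (4 * Real.pi * (τ * σ / (τ + σ)))) := by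
  set b : ℝ := (τ + σ) / (4 * τ * σ) with hb
  set m : ℝ := (s * σ + t * τ) / (τ + σ) with hm
  have hb0 : 0 < b := by positivity
  have hsum : τ + σ ≠ 0 := by positivity
  have hfun : ∀ r : ℝ, Real.exp (-((s - r) ^ 2 / (4 * τ))) * Real.exp (-((r - t) ^ 2 / (4 * σ))) =
      Real.exp (-((s - t) ^ 2 / (4 * (τ + σ)))) * Real.exp (-b * (r - m) ^ 2) := by
    intro r
    rw [← Real.exp_add, ← Real.exp_add]
    congr 1
    rw [hb, hm]
    field_simp
    ring
  have hint : Integrable (fun r : ℝ => Real.exp (-b * (r - m) ^ 2)) := by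
    have h := integrable_exp_neg_mul_sq hb0
    exact h.comp_sub_right m
  have hval : ∫ r : ℝ, Real.exp (-b * (r - m) ^ 2) = Real.sqrt (4 * Real.pi * (τ * σ / (τ + σ))) := by
    rw [integral_sub_right_eq_self (fun r : ℝ => Real.exp (-b * r ^ 2)) m, integral_gaussian]
    congr 1
    rw [hb]
    field_simp
  rw [← ofReal_integral_eq_lintegral_ofReal]
  · congr 1
    rw [integral_congr_ae (Filter.Eventually.of_forall hfun), integral_const_mul, hval]
  · have : (fun r : ℝ => Real.exp (-((s - r) ^ 2 / (4 * τ))) * Real.exp (-((r - t) ^ 2 / (4 * σ)))) =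
      fun r => Real.exp (-((s - t) ^ 2 / (4 * (τ + σ)))) * Real.exp (-b * (r - m) ^ 2) := funext hfun
    rw [this]
    exact hint.const_mul _
  · exact Filter.Eventually.of_forall fun r => by positivity

/-- Beta(1/2, 1/2) -/
theorem beta (w : ℝ) (hw : 0 < w) :
    ∫⁻ τ in Ioo (0 : ℝ) w, ENNReal.ofReal (1 / Real.sqrt (τ * (w - τ))) = ENNReal.ofReal Real.pi := by
  have hcont : ContinuousOn (fun τ : ℝ => Real.arcsin ((2 * τ - w) / w)) (Icc 0 w) :=
    (Real.continuous_arcsin.comp (by fun_prop)).continuousOn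
  have hderiv : ∀ x ∈ Ioo (0 : ℝ) w, HasDerivAt (fun τ : ℝ => Real.arcsin ((2 * τ - w) / w))
      (1 / Real.sqrt (x * (w - x))) x := by
    intro x hx
    have h1 : HasDerivAt (fun τ : ℝ => (2 * τ - w) / w) (2 / w) x := by
      have := (((hasDerivAt_id x).const_mul 2).sub_const w).div_const w
      simpa using this
    have hne1 : (2 * x - w) / w ≠ -1 := by
      intro h
      rw [div_eq_iff hw.ne'] at h
      have := hx.1
      linarith
    have hne2 : (2 * x - w) / w ≠ 1 := by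
      intro h
      rw [div_eq_iff hw.ne'] at h
      have := hx.2
      linarith
    have h2 := (Real.hasDerivAt_arcsin hne1 hne2).comp x h1
    refine h2.congr_deriv ?_
    have hpos : 0 < x * (w - x) := mul_pos hx.1 (by have := hx.2; linarith)
    have he : 1 - ((2 * x - w) / w) ^ 2 = (2 / w) ^ 2 * (x * (w - x)) := by
      field_simp
      ring
    rw [he, Real.sqrt_mul (by positivity), Real.sqrt_sq (by positivity)]
    have hs : 0 < Real.sqrt (x * (w - x)) := Real.sqrt_pos.mpr hpos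
    field_simp
  have hnn : ∀ x ∈ Ioo (0 : ℝ) w, 0 ≤ 1 / Real.sqrt (x * (w - x)) := fun x _ => by positivity
  have hii : IntegrableOn (fun x : ℝ => 1 / Real.sqrt (x * (w - x))) (Ioc 0 w) :=
    intervalIntegral.integrableOn_deriv_of_nonneg hcont hderiv hnn
  have hii2 : IntervalIntegrable (fun x : ℝ => 1 / Real.sqrt (x * (w - x))) volume 0 w := by
    rw [intervalIntegrable_iff_integrableOn_Ioc_of_le hw.le]
    exact hii
  have hval := intervalIntegral.integral_eq_sub_of_hasDerivAt_of_le hw.le hcont hderiv hii2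
  rw [intervalIntegral.integral_of_le hw.le, MeasureTheory.integral_Ioc_eq_integral_Ioo] at hval
  have e1 : (2 * w - w) / w = 1 := by field_simp; ring
  have e2 : (2 * 0 - w) / w = -1 := by field_simp; ring
  rw [e1, e2, Real.arcsin_one, Real.arcsin_neg_one] at hval
  rw [← ofReal_integral_eq_lintegral_ofReal, hval]
  · congr 1
    ring
  · exact hii.mono_set Ioo_subset_Ioc_self
  · filter_upwards [ae_restrict_mem measurableSet_Ioo] with x hx
    exact hnn x hx

/-- `τ, σ > 0` with `w = τ + σ` -/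
theorem split (Φ : ℝ → ℝ → ℝ≥0∞) (hΦ : Measurable (Function.uncurry Φ)) :
    ∫⁻ τ in Ioi (0 : ℝ), ∫⁻ σ in Ioi (0 : ℝ), Φ τ σ =
      ∫⁻ w in Ioi (0 : ℝ), ∫⁻ τ in Ioo (0 : ℝ) w, Φ τ (w - τ) := by
  have hL : ∫⁻ τ in Ioi (0 : ℝ), ∫⁻ σ in Ioi (0 : ℝ), Φ τ σ =
      ∫⁻ τ : ℝ, ∫⁻ w : ℝ, (if 0 < τ ∧ τ < w then Φ τ (w - τ) else 0) := by
    rw [← lintegral_indicator measurableSet_Ioi]
    refine lintegral_congr fun τ => ?_
    by_cases hτ : 0 < τ
    · rw [indicator_of_mem (show τ ∈ Ioi (0 : ℝ) from hτ), ← lintegral_indicator measurableSet_Ioi]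
      rw [← lintegral_sub_right_eq_self (fun σ => (Ioi (0 : ℝ)).indicator (fun σ => Φ τ σ) σ) τ]
      refine lintegral_congr fun w => ?_
      by_cases hw : τ < w
      · rw [if_pos ⟨hτ, hw⟩, indicator_of_mem (show w - τ ∈ Ioi (0 : ℝ) by simpa using hw)]
      · rw [if_neg (fun h => hw h.2), indicator_of_notMem (show w - τ ∉ Ioi (0 : ℝ) by simpa using hw)]
    · rw [indicator_of_notMem (show τ ∉ Ioi (0 : ℝ) from hτ)]
      symm
      rw [lintegral_eq_zero_iff']
      · exact Filter.Eventually.of_forall fun w => if_neg (fun h => hτ h.1)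
      · have : (fun w : ℝ => if 0 < τ ∧ τ < w then Φ τ (w - τ) else 0) = fun _ => 0 :=
          funext fun w => if_neg (fun h => hτ h.1)
        rw [this]
        exact aemeasurable_const
  rw [hL, lintegral_lintegral_swap, ← lintegral_indicator measurableSet_Ioi]
  · refine lintegral_congr fun w => ?_
    by_cases hw : 0 < w
    · rw [indicator_of_mem (show w ∈ Ioi (0 : ℝ) from hw), ← lintegral_indicator measurableSet_Ioo]
      refine lintegral_congr fun τ => ?_
      by_cases hτ : 0 < τ ∧ τ < w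
      · rw [if_pos hτ, indicator_of_mem (show τ ∈ Ioo (0 : ℝ) w from hτ)]
      · rw [if_neg hτ, indicator_of_notMem (show τ ∉ Ioo (0 : ℝ) w from hτ)]
    · rw [indicator_of_notMem (show w ∉ Ioi (0 : ℝ) from hw)]
      have : (fun τ : ℝ => if 0 < τ ∧ τ < w then Φ τ (w - τ) else 0) = fun _ => 0 :=
        funext fun τ => if_neg (fun h => hw (h.1.trans h.2))
      rw [this, lintegral_zero]
  · refine Measurable.aemeasurable ?_
    have hm : Measurable (fun p : ℝ × ℝ => Φ p.1 (p.2 - p.1)) :=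
      hΦ.comp (by fun_prop : Measurable (fun p : ℝ × ℝ => (p.1, p.2 - p.1)))
    refine Measurable.ite ?_ hm measurable_const
    exact (measurableSet_lt measurable_const measurable_fst).inter
      (measurableSet_lt measurable_fst measurable_snd)

/-- `∫ K K` -/
theorem KK (κ s t : ℝ) :
    ∫⁻ r : ℝ, K κ ((s - r) ^ 2) * K κ ((r - t) ^ 2) =
      ∫⁻ w in Ioi (0 : ℝ), ENNReal.ofReal (Real.exp (-(κ ^ 2 * w)) *
        (Real.exp (-((s - t) ^ 2 / (4 * w))) / Real.sqrt (4 * Real.pi * w))) := by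
  have h1 : ∀ r : ℝ, K κ ((s - r) ^ 2) * K κ ((r - t) ^ 2) =
      ∫⁻ τ in Ioi (0 : ℝ), ∫⁻ σ in Ioi (0 : ℝ),
        ENNReal.ofReal (ig κ ((s - r) ^ 2) τ) * ENNReal.ofReal (ig κ ((r - t) ^ 2) σ) := by
    intro r
    unfold K
    rw [← lintegral_mul_const]
    · refine lintegral_congr fun τ => ?_
      rw [← lintegral_const_mul]
      unfold ig
      fun_prop
    · unfold ig
      fun_prop
  rw [lintegral_congr h1, lintegral_lintegral_swap]
  · have h2 : ∀ τ : ℝ, ∫⁻ r : ℝ, ∫⁻ σ in Ioi (0 : ℝ),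
        ENNReal.ofReal (ig κ ((s - r) ^ 2) τ) * ENNReal.ofReal (ig κ ((r - t) ^ 2) σ) =
        ∫⁻ σ in Ioi (0 : ℝ), ∫⁻ r : ℝ,
        ENNReal.ofReal (ig κ ((s - r) ^ 2) τ) * ENNReal.ofReal (ig κ ((r - t) ^ 2) σ) := by
      intro τ
      rw [lintegral_lintegral_swap]
      refine Measurable.aemeasurable ?_
      unfold ig
      fun_prop
    rw [lintegral_congr h2]
    have h3 : ∀ τ ∈ Ioi (0 : ℝ), ∀ σ ∈ Ioi (0 : ℝ), ∫⁻ r : ℝ,
        ENNReal.ofReal (ig κ ((s - r) ^ 2) τ) * ENNReal.ofReal (ig κ ((r - t) ^ 2) σ) =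
        ENNReal.ofReal (Real.exp (-(κ ^ 2 * (τ + σ))) *
          (Real.exp (-((s - t) ^ 2 / (4 * (τ + σ)))) / Real.sqrt (4 * Real.pi * (τ + σ))) / Real.pi) *
            ENNReal.ofReal (1 / Real.sqrt (τ * σ)) := by
      intro τ hτ σ hσ
      have hτ' : 0 < τ := hτ
      have hσ' : 0 < σ := hσ
      have hpi := Real.pi_pos
      have e : ∀ r : ℝ, ENNReal.ofReal (ig κ ((s - r) ^ 2) τ) * ENNReal.ofReal (ig κ ((r - t) ^ 2) σ) =
          ENNReal.ofReal (Real.exp (-(κ ^ 2 * (τ + σ))) / (4 * Real.pi ^ 2 * (τ * σ))) *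
          ENNReal.ofReal (Real.exp (-((s - r) ^ 2 / (4 * τ))) * Real.exp (-((r - t) ^ 2 / (4 * σ)))) := by
        intro r
        rw [← ENNReal.ofReal_mul (ig_nonneg _ _ hτ'), ← ENNReal.ofReal_mul (by positivity)]
        congr 1
        unfold ig
        have : Real.exp (-(κ ^ 2 * (τ + σ))) = Real.exp (-(κ ^ 2 * τ)) * Real.exp (-(κ ^ 2 * σ)) := by
          rw [← Real.exp_add]
          congr 1
          ring
        rw [this]
        field_simp
        ring
      rw [lintegral_congr e, lintegral_const_mul, gauss τ σ s t hτ' hσ', ← ENNReal.ofReal_mul (by positivity),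
        ← ENNReal.ofReal_mul (by positivity)]
      · congr 1
        have q1 : Real.sqrt (4 * Real.pi * (τ * σ / (τ + σ))) =
            Real.sqrt (4 * Real.pi) * Real.sqrt (τ * σ) / Real.sqrt (τ + σ) := by
          rw [Real.sqrt_mul (by positivity), Real.sqrt_div (by positivity)]
          ring
        have q2 : Real.sqrt (4 * Real.pi * (τ + σ)) = Real.sqrt (4 * Real.pi) * Real.sqrt (τ + σ) := by
          rw [Real.sqrt_mul (by positivity)]
        have q3 : τ * σ = Real.sqrt (τ * σ) * Real.sqrt (τ * σ) :=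
          (Real.mul_self_sqrt (by positivity)).symm
        have q4 : 4 * Real.pi = Real.sqrt (4 * Real.pi) * Real.sqrt (4 * Real.pi) :=
          (Real.mul_self_sqrt (by positivity)).symm
        rw [q1, q2]
        have p1 : 0 < Real.sqrt (4 * Real.pi) := Real.sqrt_pos.mpr (by positivity)
        have p2 : 0 < Real.sqrt (τ * σ) := Real.sqrt_pos.mpr (by positivity)
        have p3 : 0 < Real.sqrt (τ + σ) := Real.sqrt_pos.mpr (by positivity)
        have q5 : 4 * Real.pi ^ 2 * (τ * σ) =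
            Real.pi * (Real.sqrt (4 * Real.pi) * Real.sqrt (4 * Real.pi)) * (Real.sqrt (τ * σ) * Real.sqrt (τ * σ)) := by
          rw [← q3, ← q4]
          ring
        rw [q5]
        field_simp
      · fun_prop
    rw [setLIntegral_congr_fun measurableSet_Ioi (fun τ hτ =>
      setLIntegral_congr_fun measurableSet_Ioi (fun σ hσ => h3 τ hτ σ hσ))]
    rw [split]
    · refine setLIntegral_congr_fun measurableSet_Ioi fun w hw => ?_
      have hw' : 0 < w := hw
      have hpi := Real.pi_pos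
      have e : ∀ τ : ℝ, ENNReal.ofReal (Real.exp (-(κ ^ 2 * (τ + (w - τ)))) *
          (Real.exp (-((s - t) ^ 2 / (4 * (τ + (w - τ))))) / Real.sqrt (4 * Real.pi * (τ + (w - τ)))) / Real.pi) *
            ENNReal.ofReal (1 / Real.sqrt (τ * (w - τ))) =
          ENNReal.ofReal (Real.exp (-(κ ^ 2 * w)) *
          (Real.exp (-((s - t) ^ 2 / (4 * w))) / Real.sqrt (4 * Real.pi * w)) / Real.pi) *
            ENNReal.ofReal (1 / Real.sqrt (τ * (w - τ))) := by
        intro τ
        rw [add_sub_cancel]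
      simp only [e]
      rw [lintegral_const_mul, beta w hw', ← ENNReal.ofReal_mul (by positivity)]
      · congr 1
        field_simp
      · fun_prop
    · fun_prop
  · refine Measurable.aemeasurable ?_
    have h : Measurable (fun p : (ℝ × ℝ) × ℝ =>
        ENNReal.ofReal (ig κ ((s - p.1.1) ^ 2) p.1.2) * ENNReal.ofReal (ig κ ((p.1.1 - t) ^ 2) p.2)) := by
      unfold ig
      fun_prop
    exact h.lintegral_prod_right'

end

end CNV

theorem pCNV (hLAP : S_LAP) : S_CNV := by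
  intro κ s t hκ hst
  have hv := hLAP κ (s - t) hκ
  have hpi := Real.pi_pos
  set F : ℝ → ℝ := fun w => Real.exp (-(κ ^ 2 * w)) *
    (Real.exp (-((s - t) ^ 2 / (4 * w))) / Real.sqrt (4 * Real.pi * w)) with hF
  have hpos : 0 < Real.exp (-(κ * |s - t|)) / (2 * κ) := by positivity
  have hFint : IntegrableOn F (Ioi 0) := by
    by_contra h
    have : ∫ w in Ioi (0 : ℝ), F w = 0 := integral_undef h
    rw [this] at hv
    exact absurd hv hpos.ne
  have hlin : ∫⁻ w in Ioi (0 : ℝ), ENNReal.ofReal (F w) =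
      ENNReal.ofReal (Real.exp (-(κ * |s - t|)) / (2 * κ)) := by
    rw [← hv, ofReal_integral_eq_lintegral_ofReal hFint]
    filter_upwards [ae_restrict_mem measurableSet_Ioi] with w hw
    have : (0 : ℝ) < w := hw
    simp only [hF, Pi.zero_apply]
    positivity
  have hKK := CNV.KK κ s t
  have hKK2 : ∫⁻ r : ℝ, CNV.K κ ((s - r) ^ 2) * CNV.K κ ((r - t) ^ 2) =
      ENNReal.ofReal (Real.exp (-(κ * |s - t|)) / (2 * κ)) := by
    rw [hKK]
    exact hlin
  have hfun : (fun r : ℝ => kk κ ((s - r) ^ 2) * kk κ ((r - t) ^ 2)) =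
      fun r => (CNV.K κ ((s - r) ^ 2) * CNV.K κ ((r - t) ^ 2)).toReal := by
    funext r
    rw [CNV.kk_eq, CNV.kk_eq, ENNReal.toReal_mul]
  have hm : Measurable (fun r : ℝ => CNV.K κ ((s - r) ^ 2) * CNV.K κ ((r - t) ^ 2)) := by
    have h1 : Measurable (fun r : ℝ => CNV.K κ ((s - r) ^ 2)) := (CNV.K_meas κ).comp (by fun_prop)
    have h2 : Measurable (fun r : ℝ => CNV.K κ ((r - t) ^ 2)) := (CNV.K_meas κ).comp (by fun_prop)
    exact h1.mul h2
  have hne : ∫⁻ r : ℝ, CNV.K κ ((s - r) ^ 2) * CNV.K κ ((r - t) ^ 2) ≠ ⊤ := by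
    rw [hKK2]
    exact ENNReal.ofReal_ne_top
  rw [hfun]
  refine ⟨integrable_toReal_of_lintegral_ne_top hm.aemeasurable hne, ?_⟩
  rw [integral_toReal hm.aemeasurable (ae_lt_top hm hne), hKK2, ENNReal.toReal_ofReal hpos.le]

end Pool.Agent.T2H10.WB
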