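import Pool.Agent.T2H10.WB.Stm

set_option autoImplicit false

open MeasureTheory Set Filter Topology

namespace Pool.Agent.T2H10.WB

noncomputable section

namespace DBD

/-- primitive of `exp (-a/τ)/τ²` -/
def Fp (a τ : ℝ) : ℝ := if τ ≤ 0 then 0 else Real.exp (-(a / τ)) / a

lemma Fp_deriv (a : ℝ) (ha : 0 < a) (τ : ℝ) (hτ : 0 < τ) :
    HasDerivAt (Fp a) (Real.exp (-(a / τ)) / τ ^ 2) τ := by
  have h1 : HasDerivAt (fun x : ℝ => Real.exp (-(a / x)) / a)
      (Real.exp (-(a / τ)) * (-(-a / τ ^ 2)) / a) τ := by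
    have h2 : HasDerivAt (fun x : ℝ => a / x) (-a / τ ^ 2) τ := by
      have h5 : HasDerivAt (fun x : ℝ => a * x⁻¹) (-a / τ ^ 2) τ :=
        ((hasDerivAt_inv hτ.ne').const_mul a).congr_deriv (by ring)
      simpa only [div_eq_mul_inv] using h5
    exact (h2.neg.exp).div_const a
  have h3 : HasDerivAt (fun x : ℝ => Real.exp (-(a / x)) / a)
      (Real.exp (-(a / τ)) / τ ^ 2) τ := by
    convert h1 using 1
    field_simp
  refine h3.congr_of_eventuallyEq ?_
  filter_upwards [lt_mem_nhds hτ] with x hx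
  unfold Fp
  rw [if_neg (not_le.2 hx)]

lemma Fp_cont (a : ℝ) (ha : 0 < a) : ContinuousWithinAt (Fp a) (Ici 0) 0 := by
  have h0 : Fp a 0 = 0 := by unfold Fp; rw [if_pos le_rfl]
  unfold ContinuousWithinAt
  rw [h0]
  have h1 : Tendsto (fun τ : ℝ => Real.exp (-(a / τ)) / a) (𝓝[>] 0) (𝓝 0) := by
    have h2 : Tendsto (fun τ : ℝ => a / τ) (𝓝[>] 0) atTop := by
      simp only [div_eq_mul_inv]
      exact Tendsto.const_mul_atTop ha tendsto_inv_nhdsGT_zero
    have h3 := (Real.tendsto_exp_neg_atTop_nhds_zero.comp h2).div_const a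
    rw [zero_div] at h3
    exact h3
  rw [← Ioi_union_left, nhdsWithin_union, nhdsWithin_singleton, tendsto_sup]
  constructor
  · refine h1.congr' ?_
    filter_upwards [self_mem_nhdsWithin] with x hx
    unfold Fp
    rw [if_neg (not_le.2 hx)]
  · rw [tendsto_pure_left]
    intro s hs
    rw [h0]
    exact mem_of_mem_nhds hs

lemma Fp_top (a : ℝ) : Tendsto (Fp a) atTop (𝓝 (1 / a)) := by
  have h1 : Tendsto (fun τ : ℝ => Real.exp (-(a / τ)) / a) atTop (𝓝 (Real.exp (-0) / a)) := by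
    have h2 : Tendsto (fun τ : ℝ => a / τ) atTop (𝓝 0) := tendsto_const_nhds.div_atTop tendsto_id
    exact ((Real.continuous_exp.tendsto _).comp h2.neg).div_const a
  rw [neg_zero, Real.exp_zero] at h1
  refine h1.congr' ?_
  filter_upwards [eventually_gt_atTop 0] with x hx
  unfold Fp
  rw [if_neg (not_le.2 hx)]

lemma integ (a : ℝ) (ha : 0 < a) :
    IntegrableOn (fun τ : ℝ => Real.exp (-(a / τ)) / τ ^ 2) (Ioi 0) ∧
    (∫ τ in Ioi (0 : ℝ), Real.exp (-(a / τ)) / τ ^ 2) = 1 / a := by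
  constructor
  · exact integrableOn_Ioi_deriv_of_nonneg (Fp_cont a ha) (fun x hx => Fp_deriv a ha x hx)
      (fun x _ => by positivity) (Fp_top a)
  · rw [integral_Ioi_of_hasDerivAt_of_nonneg (Fp_cont a ha) (fun x hx => Fp_deriv a ha x hx)
      (fun x _ => by positivity) (Fp_top a)]
    unfold Fp
    rw [if_pos le_rfl, sub_zero]

lemma point (κ q r d τ : ℝ) (hκ : 1 ≤ κ) (hr : 0 < r) (hd : 0 ≤ d) (hd2 : d ≤ r ^ 2 / 4)
    (hq : q = r ^ 2 - d) (hτ : 0 < τ) :
    Real.exp (-(κ ^ 2 * τ)) * (Real.exp (-(q / (4 * τ))) / (2 * Real.pi * τ)) -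
      Real.exp (-(κ ^ 2 * τ)) * (Real.exp (-(r ^ 2 / (4 * τ))) / (2 * Real.pi * τ)) ≤
      (Real.exp (-(r / 2)) * (d / (8 * Real.pi))) * (Real.exp (-(r ^ 2 / 8 / τ)) / τ ^ 2) := by
  have hpi := Real.pi_pos
  have h1 : Real.exp (-(r ^ 2 / (4 * τ))) = Real.exp (-(q / (4 * τ))) * Real.exp (-(d / (4 * τ))) := by
    rw [← Real.exp_add]
    congr 1
    rw [hq]; field_simp; ring
  have h2 : 1 - d / (4 * τ) ≤ Real.exp (-(d / (4 * τ))) := by
    have := Real.add_one_le_exp (-(d / (4 * τ)))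
    linarith
  have h3 : Real.exp (-(κ ^ 2 * τ)) * Real.exp (-(q / (4 * τ))) ≤
      Real.exp (-(r / 2)) * Real.exp (-(r ^ 2 / 8 / τ)) := by
    rw [← Real.exp_add, ← Real.exp_add, Real.exp_le_exp]
    have e1 : r / 2 + r ^ 2 / 8 / τ ≤ κ ^ 2 * τ + q / (4 * τ) := by
      have e2 : r / 2 + r ^ 2 / 8 / τ ≤ τ + (3 * r ^ 2 / 4) / (4 * τ) := by
        rw [← sub_nonneg]
        have : τ + (3 * r ^ 2 / 4) / (4 * τ) - (r / 2 + r ^ 2 / 8 / τ) = (τ - r / 4) ^ 2 / τ := by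
          field_simp; ring
        rw [this]; positivity
      have e3 : τ ≤ κ ^ 2 * τ := by
        have e5 : 1 ≤ κ ^ 2 := by nlinarith
        nlinarith
      have e4 : (3 * r ^ 2 / 4) / (4 * τ) ≤ q / (4 * τ) := by
        apply div_le_div_of_nonneg_right _ (by positivity)
        rw [hq]; linarith
      linarith
    linarith
  calc Real.exp (-(κ ^ 2 * τ)) * (Real.exp (-(q / (4 * τ))) / (2 * Real.pi * τ)) -
      Real.exp (-(κ ^ 2 * τ)) * (Real.exp (-(r ^ 2 / (4 * τ))) / (2 * Real.pi * τ))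
      = (Real.exp (-(κ ^ 2 * τ)) * Real.exp (-(q / (4 * τ)))) / (2 * Real.pi * τ) *
        (1 - Real.exp (-(d / (4 * τ)))) := by rw [h1]; ring
    _ ≤ (Real.exp (-(κ ^ 2 * τ)) * Real.exp (-(q / (4 * τ)))) / (2 * Real.pi * τ) *
        (d / (4 * τ)) := by
        apply mul_le_mul_of_nonneg_left _ (by positivity)
        linarith
    _ ≤ (Real.exp (-(r / 2)) * Real.exp (-(r ^ 2 / 8 / τ))) / (2 * Real.pi * τ) *
        (d / (4 * τ)) := by
        apply mul_le_mul_of_nonneg_right _ (by positivity)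
        exact div_le_div_of_nonneg_right h3 (by positivity)
    _ = _ := by field_simp; ring

end DBD

open DBD

theorem pDBD (hBAS : S_BAS) : S_DBD := by
  refine ⟨1, 1, one_pos, one_pos, ?_⟩
  intro κ θ s t hκ hθ hθ1 hs ht
  obtain ⟨-, hint, -, -, hmono, -, -⟩ := hBAS κ (by linarith)
  have hpi := Real.pi_pos
  have hcos1 := Real.cos_le_one θ
  have hcos2 := Real.one_sub_sq_div_two_le_cos (x := θ)
  set r := s + t with hr
  set d := 2 * s * t * (1 - Real.cos θ) with hd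
  have hr0 : 0 < r := by rw [hr]; linarith
  have hst : 0 < s * t := mul_pos hs ht
  have hd0 : 0 ≤ d := by
    rw [hd]
    have : 0 ≤ 1 - Real.cos θ := by linarith
    positivity
  have hdθ : d ≤ r ^ 2 * θ ^ 2 / 4 := by
    have h1 : 2 * s * t ≤ r ^ 2 / 2 := by rw [hr]; nlinarith [sq_nonneg (s - t)]
    have h2 : 1 - Real.cos θ ≤ θ ^ 2 / 2 := by linarith
    calc d ≤ (r ^ 2 / 2) * (θ ^ 2 / 2) := by
          rw [hd]
          exact mul_le_mul h1 h2 (by linarith) (by positivity)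
      _ = _ := by ring
  have hd4 : d ≤ r ^ 2 / 4 := by
    have : θ ^ 2 ≤ 1 := by nlinarith
    nlinarith [sq_nonneg r]
  have hq : s ^ 2 + t ^ 2 + 2 * s * t * Real.cos θ = r ^ 2 - d := by
    rw [hr, hd]; ring
  have hq0 : 0 < r ^ 2 - d := by nlinarith [sq_pos_of_pos hr0]
  have hDD : DD κ θ s t = kk κ (r ^ 2 - d) - kk κ (r ^ 2) := by
    unfold DD
    rw [hq]
  rw [hDD]
  constructor
  · have := hmono (r ^ 2 - d) (r ^ 2) hq0 (by linarith)
    linarith
  · unfold kk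
    rw [← integral_sub (hint _ hq0) (hint _ (by positivity))]
    obtain ⟨hi1, hi2⟩ := integ (r ^ 2 / 8) (by positivity)
    have h1 : (∫ τ in Ioi (0 : ℝ), (Real.exp (-(κ ^ 2 * τ)) *
          (Real.exp (-((r ^ 2 - d) / (4 * τ))) / (2 * Real.pi * τ)) -
        Real.exp (-(κ ^ 2 * τ)) * (Real.exp (-(r ^ 2 / (4 * τ))) / (2 * Real.pi * τ)))) ≤
        ∫ τ in Ioi (0 : ℝ), (Real.exp (-(r / 2)) * (d / (8 * Real.pi))) *
          (Real.exp (-(r ^ 2 / 8 / τ)) / τ ^ 2) := by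
      refine setIntegral_mono_on ((hint _ hq0).sub (hint _ (by positivity)))
        (hi1.const_mul _) measurableSet_Ioi fun τ hτ => ?_
      exact point κ (r ^ 2 - d) r d τ hκ hr0 hd0 hd4 rfl hτ
    refine h1.trans ?_
    rw [integral_const_mul, hi2]
    have h2 : Real.exp (-(r / 2)) * (d / (8 * Real.pi)) * (1 / (r ^ 2 / 8)) =
        (d / (Real.pi * r ^ 2)) * Real.exp (-(r / 2)) := by
      field_simp
    rw [h2]
    apply mul_le_mul_of_nonneg_right _ (Real.exp_nonneg _)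
    rw [div_le_iff₀ (by positivity)]
    have h3 := Real.pi_gt_three
    have h4 : 0 ≤ θ ^ 2 * r ^ 2 := by positivity
    nlinarith

end

end Pool.Agent.T2H10.WB
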