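import Pool.Agent.T2H10.WB.Stm

/-!
# Project WB: lower bound for the effect of the bending on the energy
-/

open MeasureTheory Set Filter Topology
open scoped ENNReal

namespace Pool.Agent.T2H10.WB

noncomputable section

namespace DLO

theorem setL (g : ℝ → ℝ≥0∞) (h : ∀ t ≤ 0, g t = 0) : ∫⁻ t in Ioi (0 : ℝ), g t = ∫⁻ t, g t := by
  rw [← lintegral_indicator measurableSet_Ioi]
  refine lintegral_congr fun t => ?_
  by_cases ht : t ∈ Ioi (0 : ℝ)
  · rw [indicator_of_mem ht]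
  · rw [indicator_of_notMem ht, h t (not_lt.1 ht)]

theorem cube (r : ℝ) :
    ∫⁻ s : ℝ, ENNReal.ofReal s * ENNReal.ofReal (r - s) = ENNReal.ofReal (r ^ 3 / 6) := by
  rcases le_or_gt r 0 with hr | hr
  · have h1 : ENNReal.ofReal (r ^ 3 / 6) = 0 := by
      rw [ENNReal.ofReal_eq_zero]
      have : r ^ 3 ≤ 0 := Odd.pow_nonpos (by decide) hr
      linarith
    rw [h1]
    rw [lintegral_eq_zero_iff (by fun_prop)]
    refine ae_of_all _ fun s => ?_
    rcases le_or_gt s 0 with hs | hs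
    · simp [ENNReal.ofReal_of_nonpos hs]
    · simp [ENNReal.ofReal_of_nonpos (show r - s ≤ 0 by linarith)]
  · have h1 : ∀ s : ℝ, ENNReal.ofReal s * ENNReal.ofReal (r - s) =
        (Ioc 0 r).indicator (fun s => ENNReal.ofReal (s * (r - s))) s := by
      intro s
      by_cases hs : s ∈ Ioc 0 r
      · rw [indicator_of_mem hs, ENNReal.ofReal_mul hs.1.le]
      · rw [indicator_of_notMem hs]
        rcases le_or_gt s 0 with h | h
        · simp [ENNReal.ofReal_of_nonpos h]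
        · have h2 : r < s := by
            by_contra h3
            exact hs ⟨h, not_lt.1 h3⟩
          simp [ENNReal.ofReal_of_nonpos (show r - s ≤ 0 by linarith)]
    simp_rw [h1]
    rw [lintegral_indicator measurableSet_Ioc, ← ofReal_integral_eq_lintegral_ofReal]
    · congr 1
      rw [← intervalIntegral.integral_of_le hr.le]
      have h2 : ∀ s ∈ uIcc 0 r, HasDerivAt (fun s : ℝ => r * s ^ 2 / 2 - s ^ 3 / 3)
          (s * (r - s)) s := by
        intro s _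
        have := (((hasDerivAt_pow 2 s).const_mul r).div_const 2).sub ((hasDerivAt_pow 3 s).div_const 3)
        refine this.congr_deriv ?_
        push_cast
        ring
      rw [intervalIntegral.integral_eq_sub_of_hasDerivAt h2
        (Continuous.intervalIntegrable (by fun_prop) _ _)]
      ring
    · exact (Continuous.integrableOn_Icc (by fun_prop)).mono_set Ioc_subset_Icc_self
    · rw [EventuallyLE, ae_restrict_iff' measurableSet_Ioc]
      refine ae_of_all _ fun s hs => ?_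
      exact mul_nonneg hs.1.le (by linarith [hs.2])

theorem conv {F : ℝ → ℝ≥0∞} (hF : Measurable F) :
    ∫⁻ s in Ioi (0 : ℝ), ∫⁻ t in Ioi (0 : ℝ), ENNReal.ofReal s * (ENNReal.ofReal t * F (s + t)) =
      ∫⁻ r, ENNReal.ofReal (r ^ 3 / 6) * F r := by
  have h1 : ∀ s : ℝ, ∫⁻ t in Ioi (0 : ℝ), ENNReal.ofReal s * (ENNReal.ofReal t * F (s + t)) =
      ∫⁻ r, ENNReal.ofReal s * (ENNReal.ofReal (r - s) * F r) := by
    intro s
    rw [setL _ (fun t ht => by simp [ENNReal.ofReal_of_nonpos ht]),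
      ← lintegral_add_left_eq_self (fun r => ENNReal.ofReal s * (ENNReal.ofReal (r - s) * F r)) s]
    refine lintegral_congr fun t => ?_
    rw [add_sub_cancel_left]
  simp_rw [h1]
  rw [setL _ (fun s hs => by simp [ENNReal.ofReal_of_nonpos hs])]
  rw [lintegral_lintegral_swap]
  · refine lintegral_congr fun r => ?_
    have h2 : ∀ s : ℝ, ENNReal.ofReal s * (ENNReal.ofReal (r - s) * F r) =
        ENNReal.ofReal s * ENNReal.ofReal (r - s) * F r := fun s => (mul_assoc _ _ _).symm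
    simp_rw [h2]
    rw [lintegral_mul_const _ (by fun_prop), cube]
  · apply Measurable.aemeasurable
    exact (ENNReal.measurable_ofReal.comp measurable_fst).mul
      ((ENNReal.measurable_ofReal.comp (measurable_snd.sub measurable_fst)).mul
        (hF.comp measurable_snd))

theorem gauss {τ : ℝ} (hτ : 0 < τ) :
    ∫⁻ r : ℝ, ENNReal.ofReal (r ^ 3 / 6) * ENNReal.ofReal (Real.exp (-(r ^ 2 / (4 * τ)))) =
      ENNReal.ofReal (4 / 3 * τ ^ 2) := by
  have hb : 0 < 1 / (4 * τ) := by positivity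
  have h0 : ∀ t : ℝ, t ≤ 0 → ENNReal.ofReal (t ^ 3 / 6) *
      ENNReal.ofReal (Real.exp (-(t ^ 2 / (4 * τ)))) = 0 := by
    intro t ht
    rw [ENNReal.ofReal_of_nonpos, zero_mul]
    have : t ^ 3 ≤ 0 := Odd.pow_nonpos (by decide) ht
    linarith
  rw [← setL _ h0]
  have h1 : ∫⁻ r in Ioi (0 : ℝ), ENNReal.ofReal (r ^ 3 / 6) *
      ENNReal.ofReal (Real.exp (-(r ^ 2 / (4 * τ)))) =
      ∫⁻ r in Ioi (0 : ℝ), ENNReal.ofReal
        (1 / 6 * (r ^ (3 : ℝ) * Real.exp (-(1 / (4 * τ)) * r ^ (2 : ℝ)))) := by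
    refine setLIntegral_congr_fun measurableSet_Ioi fun r hr => ?_
    have hr' : (0 : ℝ) < r := hr
    show ENNReal.ofReal (r ^ 3 / 6) * ENNReal.ofReal (Real.exp (-(r ^ 2 / (4 * τ)))) = _
    rw [← ENNReal.ofReal_mul (by positivity)]
    congr 1
    rw [show (3 : ℝ) = ((3 : ℕ) : ℝ) by norm_num, show (2 : ℝ) = ((2 : ℕ) : ℝ) by norm_num,
      Real.rpow_natCast, Real.rpow_natCast]
    have h2 : -(r ^ 2 / (4 * τ)) = -(1 / (4 * τ)) * r ^ 2 := by ring
    rw [h2]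
    ring
  rw [h1, ← ofReal_integral_eq_lintegral_ofReal]
  · congr 1
    rw [integral_const_mul, integral_rpow_mul_exp_neg_mul_rpow (by norm_num) (by norm_num) hb]
    have h2 : (-(3 + 1) / 2 : ℝ) = ((-2 : ℤ) : ℝ) := by norm_num
    have h3 : ((3 + 1) / 2 : ℝ) = 2 := by norm_num
    rw [h2, h3, Real.rpow_intCast, Real.Gamma_two]
    field_simp
    norm_num
  · exact (integrableOn_rpow_mul_exp_neg_mul_rpow (by norm_num) (by norm_num) hb).const_mul _
  · rw [EventuallyLE, ae_restrict_iff' measurableSet_Ioi]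
    refine ae_of_all _ fun r hr => ?_
    have hr' : (0 : ℝ) < r := hr
    show (0 : ℝ) ≤ _
    positivity

/-- the kernel of the lower bound -/
def M (κ r : ℝ) : ℝ≥0∞ := ∫⁻ τ in Ioi (0 : ℝ),
  ENNReal.ofReal (Real.exp (-(κ ^ 2 * τ)) * (Real.exp (-(r ^ 2 / (4 * τ))) / (8 * Real.pi * τ ^ 2)))

theorem M_joint (κ : ℝ) : Measurable fun p : ℝ × ℝ => ENNReal.ofReal
    (Real.exp (-(κ ^ 2 * p.2)) * (Real.exp (-(p.1 ^ 2 / (4 * p.2))) / (8 * Real.pi * p.2 ^ 2))) := by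
  fun_prop

theorem M_meas (κ : ℝ) : Measurable (M κ) := by
  unfold M
  exact Measurable.lintegral_prod_right' (f := fun p : ℝ × ℝ => ENNReal.ofReal
    (Real.exp (-(κ ^ 2 * p.2)) * (Real.exp (-(p.1 ^ 2 / (4 * p.2))) / (8 * Real.pi * p.2 ^ 2))))
    (M_joint κ)

theorem total {κ : ℝ} (hκ : 0 < κ) :
    ∫⁻ r, ENNReal.ofReal (r ^ 3 / 6) * M κ r = ENNReal.ofReal (1 / (6 * Real.pi * κ ^ 2)) := by
  have h1 : ∀ r : ℝ, ENNReal.ofReal (r ^ 3 / 6) * M κ r = ∫⁻ τ in Ioi (0 : ℝ),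
      ENNReal.ofReal (r ^ 3 / 6) * ENNReal.ofReal (Real.exp (-(κ ^ 2 * τ)) *
        (Real.exp (-(r ^ 2 / (4 * τ))) / (8 * Real.pi * τ ^ 2))) := by
    intro r
    unfold M
    rw [lintegral_const_mul]
    fun_prop
  simp_rw [h1]
  rw [lintegral_lintegral_swap (by
    apply Measurable.aemeasurable
    unfold Function.uncurry
    exact Measurable.mul (by fun_prop) (M_joint κ))]
  have h2 : ∫⁻ τ in Ioi (0 : ℝ), (∫⁻ r : ℝ, ENNReal.ofReal (r ^ 3 / 6) *
      ENNReal.ofReal (Real.exp (-(κ ^ 2 * τ)) *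
        (Real.exp (-(r ^ 2 / (4 * τ))) / (8 * Real.pi * τ ^ 2)))) =
      ∫⁻ τ in Ioi (0 : ℝ), ENNReal.ofReal (1 / (6 * Real.pi) * Real.exp (-κ ^ 2 * τ)) := by
    refine setLIntegral_congr_fun measurableSet_Ioi fun τ hτ => ?_
    have hτ' : (0 : ℝ) < τ := hτ
    have hp := Real.pi_pos
    have h3 : ∀ r : ℝ, ENNReal.ofReal (r ^ 3 / 6) * ENNReal.ofReal (Real.exp (-(κ ^ 2 * τ)) *
        (Real.exp (-(r ^ 2 / (4 * τ))) / (8 * Real.pi * τ ^ 2))) =
        ENNReal.ofReal (Real.exp (-(κ ^ 2 * τ)) / (8 * Real.pi * τ ^ 2)) *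
          (ENNReal.ofReal (r ^ 3 / 6) * ENNReal.ofReal (Real.exp (-(r ^ 2 / (4 * τ))))) := by
      intro r
      have h4 : Real.exp (-(κ ^ 2 * τ)) * (Real.exp (-(r ^ 2 / (4 * τ))) / (8 * Real.pi * τ ^ 2)) =
          (Real.exp (-(κ ^ 2 * τ)) / (8 * Real.pi * τ ^ 2)) * Real.exp (-(r ^ 2 / (4 * τ))) := by
        ring
      rw [h4, ENNReal.ofReal_mul (by positivity)]
      ring
    show (∫⁻ r : ℝ, ENNReal.ofReal (r ^ 3 / 6) * ENNReal.ofReal (Real.exp (-(κ ^ 2 * τ)) *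
        (Real.exp (-(r ^ 2 / (4 * τ))) / (8 * Real.pi * τ ^ 2)))) = _
    simp_rw [h3]
    rw [lintegral_const_mul _ (by fun_prop), gauss hτ', ← ENNReal.ofReal_mul (by positivity)]
    congr 1
    have h5 : -(κ ^ 2 * τ) = -κ ^ 2 * τ := by ring
    rw [h5]
    field_simp
    norm_num
  rw [h2, ← ofReal_integral_eq_lintegral_ofReal]
  · congr 1
    have hk : -κ ^ 2 < 0 := by
      have : 0 < κ ^ 2 := by positivity
      linarith
    rw [integral_const_mul, integral_exp_mul_Ioi hk 0]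
    have := hκ.ne'
    simp only [mul_zero, Real.exp_zero]
    field_simp
  · refine (integrableOn_exp_mul_Ioi ?_ 0).const_mul _
    have : 0 < κ ^ 2 := by positivity
    linarith
  · refine ae_of_all _ fun τ => ?_
    have hp := Real.pi_pos
    show (0 : ℝ) ≤ _
    positivity

/-- pointwise lower bound -/
theorem point (hBAS : S_BAS) {κ θ s t : ℝ} (hκ : 0 < κ) (hc : 0 ≤ Real.cos θ) (hs : 0 < s)
    (ht : 0 < t) :
    ENNReal.ofReal (2 * (1 - Real.cos θ)) * (ENNReal.ofReal s * (ENNReal.ofReal t * M κ (s + t))) ≤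
      ENNReal.ofReal (DD κ θ s t) := by
  have hc1 : Real.cos θ ≤ 1 := Real.cos_le_one θ
  obtain ⟨-, hint, -⟩ := hBAS κ hκ
  set q : ℝ := s ^ 2 + t ^ 2 + 2 * s * t * Real.cos θ with hq
  have hq0 : 0 < q := by positivity
  have hr0 : 0 < (s + t) ^ 2 := by positivity
  have hd : (s + t) ^ 2 - q = 2 * (1 - Real.cos θ) * (s * t) := by
    rw [hq]
    ring
  have hi1 := hint q hq0
  have hi2 := hint _ hr0
  have hDD : DD κ θ s t = ∫ τ in Ioi (0 : ℝ), (Real.exp (-(κ ^ 2 * τ)) *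
      (Real.exp (-(q / (4 * τ))) / (2 * Real.pi * τ)) - Real.exp (-(κ ^ 2 * τ)) *
      (Real.exp (-((s + t) ^ 2 / (4 * τ))) / (2 * Real.pi * τ))) := by
    rw [integral_sub hi1 hi2]
    rfl
  have hlow : ∀ τ ∈ Ioi (0 : ℝ), 2 * (1 - Real.cos θ) * (s * t) * (Real.exp (-(κ ^ 2 * τ)) *
      (Real.exp (-((s + t) ^ 2 / (4 * τ))) / (8 * Real.pi * τ ^ 2))) ≤
      Real.exp (-(κ ^ 2 * τ)) * (Real.exp (-(q / (4 * τ))) / (2 * Real.pi * τ)) -
      Real.exp (-(κ ^ 2 * τ)) * (Real.exp (-((s + t) ^ 2 / (4 * τ))) / (2 * Real.pi * τ)) := by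
    intro τ hτ
    have hτ' : (0 : ℝ) < τ := hτ
    have hp := Real.pi_pos
    have h1 : Real.exp (-(q / (4 * τ))) = Real.exp (-((s + t) ^ 2 / (4 * τ))) *
        Real.exp (((s + t) ^ 2 - q) / (4 * τ)) := by
      rw [← Real.exp_add]
      congr 1
      ring
    have h2 := Real.add_one_le_exp (((s + t) ^ 2 - q) / (4 * τ))
    rw [← hd]
    have h3 : Real.exp (-(κ ^ 2 * τ)) * (Real.exp (-(q / (4 * τ))) / (2 * Real.pi * τ)) -
        Real.exp (-(κ ^ 2 * τ)) * (Real.exp (-((s + t) ^ 2 / (4 * τ))) / (2 * Real.pi * τ)) =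
        Real.exp (-(κ ^ 2 * τ)) * Real.exp (-((s + t) ^ 2 / (4 * τ))) / (2 * Real.pi * τ) *
          (Real.exp (((s + t) ^ 2 - q) / (4 * τ)) - 1) := by
      rw [h1]
      ring
    have h4 : ((s + t) ^ 2 - q) * (Real.exp (-(κ ^ 2 * τ)) *
        (Real.exp (-((s + t) ^ 2 / (4 * τ))) / (8 * Real.pi * τ ^ 2))) =
        Real.exp (-(κ ^ 2 * τ)) * Real.exp (-((s + t) ^ 2 / (4 * τ))) / (2 * Real.pi * τ) *
          (((s + t) ^ 2 - q) / (4 * τ)) := by
      field_simp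
      ring
    rw [h3, h4]
    refine mul_le_mul_of_nonneg_left (by linarith) (by positivity)
  have hnn : 0 ≤ 2 * (1 - Real.cos θ) * (s * t) := by
    have : 0 ≤ 1 - Real.cos θ := by linarith
    positivity
  have hpos : ∀ τ ∈ Ioi (0 : ℝ), 0 ≤ Real.exp (-(κ ^ 2 * τ)) *
      (Real.exp (-(q / (4 * τ))) / (2 * Real.pi * τ)) -
      Real.exp (-(κ ^ 2 * τ)) * (Real.exp (-((s + t) ^ 2 / (4 * τ))) / (2 * Real.pi * τ)) := by
    intro τ hτ
    refine le_trans ?_ (hlow τ hτ)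
    have hτ' : (0 : ℝ) < τ := hτ
    have hp := Real.pi_pos
    positivity
  have hi3 : Integrable (fun τ : ℝ => Real.exp (-(κ ^ 2 * τ)) *
      (Real.exp (-(q / (4 * τ))) / (2 * Real.pi * τ)) - Real.exp (-(κ ^ 2 * τ)) *
      (Real.exp (-((s + t) ^ 2 / (4 * τ))) / (2 * Real.pi * τ))) (volume.restrict (Ioi 0)) :=
    hi1.sub hi2
  rw [hDD, ofReal_integral_eq_lintegral_ofReal hi3 (by
    rw [EventuallyLE, ae_restrict_iff' measurableSet_Ioi]
    exact ae_of_all _ hpos)]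
  have h5 : ENNReal.ofReal (2 * (1 - Real.cos θ)) *
      (ENNReal.ofReal s * (ENNReal.ofReal t * M κ (s + t))) =
      ENNReal.ofReal (2 * (1 - Real.cos θ) * (s * t)) * M κ (s + t) := by
    rw [ENNReal.ofReal_mul (p := 2 * (1 - Real.cos θ)) (by linarith), ENNReal.ofReal_mul hs.le]
    ring
  rw [h5]
  unfold M
  rw [← lintegral_const_mul _ (by fun_prop)]
  refine setLIntegral_mono' measurableSet_Ioi fun τ hτ => ?_
  rw [← ENNReal.ofReal_mul hnn]
  exact ENNReal.ofReal_le_ofReal (hlow τ hτ)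

/-- the product measure -/
abbrev μ2 : Measure (ℝ × ℝ) := (volume.restrict (Ioi (0 : ℝ))).prod (volume.restrict (Ioi (0 : ℝ)))

theorem mem_ae : ∀ᵐ z ∂μ2, 0 < z.1 ∧ 0 < z.2 := by
  unfold μ2
  rw [Measure.prod_restrict, ae_restrict_iff' (measurableSet_Ioi.prod measurableSet_Ioi)]
  exact ae_of_all _ fun z hz => ⟨hz.1, hz.2⟩

theorem lower (hBAS : S_BAS) {κ θ : ℝ} (hκ : 0 < κ) (hc : 0 ≤ Real.cos θ)
    (hm : Measurable (kk κ)) :
    ENNReal.ofReal (2 * (1 - Real.cos θ) * (1 / (6 * Real.pi * κ ^ 2))) ≤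
      ∫⁻ z, ENNReal.ofReal (DD κ θ z.1 z.2) ∂μ2 := by
  have hc1 : Real.cos θ ≤ 1 := Real.cos_le_one θ
  rw [ENNReal.ofReal_mul (by linarith), ← total hκ, ← conv (M_meas κ)]
  have hmeas : Measurable fun z : ℝ × ℝ => ENNReal.ofReal (DD κ θ z.1 z.2) := by
    unfold DD
    apply ENNReal.measurable_ofReal.comp
    exact (hm.comp (by fun_prop)).sub (hm.comp (by fun_prop))
  rw [lintegral_prod _ hmeas.aemeasurable, ← lintegral_const_mul' _ _ ENNReal.ofReal_ne_top]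
  refine setLIntegral_mono' measurableSet_Ioi fun s hs => ?_
  rw [← lintegral_const_mul' _ _ ENNReal.ofReal_ne_top]
  refine setLIntegral_mono' measurableSet_Ioi fun t ht => ?_
  exact point hBAS hκ hc hs ht

theorem exp_int : IntegrableOn (fun s : ℝ => Real.exp (-(s / 2))) (Ioi 0) := by
  have h := integrableOn_exp_mul_Ioi (a := -(1 / 2)) (by norm_num) 0
  refine h.congr_fun (fun s _ => ?_) measurableSet_Ioi
  show Real.exp (-(1 / 2) * s) = Real.exp (-(s / 2))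
  congr 1
  ring

theorem exp_le (x : ℝ) (hx : 0 ≤ x) : x * Real.exp (-(x / 2)) ≤ 4 * Real.exp (-(x / 4)) := by
  have h1 := Real.add_one_le_exp (x / 4)
  have h2 : Real.exp (-(x / 2)) = Real.exp (-(x / 4)) * Real.exp (-(x / 4)) := by
    rw [← Real.exp_add]
    congr 1
    ring
  have h3 : Real.exp (-(x / 4)) * Real.exp (x / 4) = 1 := by
    rw [← Real.exp_add]
    simp
  have h4 := Real.exp_pos (-(x / 4))
  rw [h2]
  nlinarith [mul_le_mul_of_nonneg_left h1 h4.le, mul_nonneg hx h4.le]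

theorem exp4_int : IntegrableOn (fun s : ℝ => Real.exp (-(s / 4))) (Ioi 0) ∧
    ∫ s in Ioi (0 : ℝ), Real.exp (-(s / 4)) = 4 := by
  have h := integrableOn_exp_mul_Ioi (a := -(1 / 4)) (by norm_num) 0
  have h' := integral_exp_mul_Ioi (a := -(1 / 4)) (by norm_num) 0
  have e : (fun s : ℝ => Real.exp (-(1 / 4) * s)) = fun s : ℝ => Real.exp (-(s / 4)) := by
    funext s
    congr 1
    ring
  rw [e] at h h'
  refine ⟨h, ?_⟩
  rw [h']
  norm_num

end DLO

theorem pDLO (hDBD : S_DBD) (hBAS : S_BAS) : S_DLO := by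
  obtain ⟨C0, θ0, hC0, hθ0, hD⟩ := hDBD
  refine ⟨64 * C0 + 1, min θ0 1, by positivity, lt_min hθ0 one_pos, ?_⟩
  intro κ θ ν hκ1 hκ2 hθ hθ1 hν0 hν1
  have hθθ0 : θ < θ0 := lt_of_lt_of_le hθ1 (min_le_left _ _)
  have hθ1' : θ < 1 := lt_of_lt_of_le hθ1 (min_le_right _ _)
  have hκ : 0 < κ := by linarith
  have hm : Measurable (kk κ) := (hBAS κ hκ).1
  have hcosb := Real.cos_bound (x := θ) (by rw [abs_of_pos hθ]; exact hθ1'.le)
  rw [abs_of_pos hθ, abs_le] at hcosb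
  have hc : 0 ≤ Real.cos θ := by
    have h1 : θ ^ 2 ≤ 1 := by nlinarith
    have h2 : θ ^ 4 ≤ 1 := by nlinarith [sq_nonneg θ]
    linarith [hcosb.1]
  have hDm : Measurable fun z : ℝ × ℝ => DD κ θ z.1 z.2 := by
    unfold DD
    exact (hm.comp (by fun_prop)).sub (hm.comp (by fun_prop))
  set h : ℝ × ℝ → ℝ := fun z => Real.exp (-(ν * z.1)) * Real.exp (-(ν * z.2)) * DD κ θ z.1 z.2
    with hh
  have hhm : Measurable h := by
    rw [hh]
    exact (Measurable.mul (by fun_prop) (by fun_prop)).mul hDm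
  -- bounds
  have hb : ∀ z : ℝ × ℝ, 0 < z.1 → 0 < z.2 → 0 ≤ h z ∧
      h z ≤ C0 * θ ^ 2 * (Real.exp (-(z.1 / 2)) * Real.exp (-(z.2 / 2))) := by
    intro z h1 h2
    obtain ⟨h3, h4⟩ := hD κ θ z.1 z.2 hκ1 hθ hθθ0 h1 h2
    have h5 : Real.exp (-(ν * z.1)) ≤ 1 := Real.exp_le_one_iff.2 (by
      have := mul_nonneg hν0 h1.le
      linarith)
    have h6 : Real.exp (-(ν * z.2)) ≤ 1 := Real.exp_le_one_iff.2 (by
      have := mul_nonneg hν0 h2.le
      linarith)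
    have h7 : Real.exp (-(ν * z.1)) * Real.exp (-(ν * z.2)) ≤ 1 :=
      mul_le_one₀ h5 (Real.exp_pos _).le h6
    refine ⟨by positivity, ?_⟩
    have h8 : Real.exp (-((z.1 + z.2) / 2)) = Real.exp (-(z.1 / 2)) * Real.exp (-(z.2 / 2)) := by
      rw [← Real.exp_add]
      congr 1
      ring
    rw [← h8]
    calc h z ≤ 1 * DD κ θ z.1 z.2 := mul_le_mul_of_nonneg_right h7 h3
      _ ≤ _ := by rw [one_mul]; exact h4
  have hLint : Integrable (fun z : ℝ × ℝ => C0 * θ ^ 2 *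
      (Real.exp (-(z.1 / 2)) * Real.exp (-(z.2 / 2)))) DLO.μ2 :=
    (Integrable.mul_prod DLO.exp_int DLO.exp_int).const_mul _
  have hhint : Integrable h DLO.μ2 := by
    refine hLint.mono' hhm.aestronglyMeasurable ?_
    filter_upwards [DLO.mem_ae] with z hz
    rw [Real.norm_eq_abs, abs_of_nonneg (hb z hz.1 hz.2).1]
    exact (hb z hz.1 hz.2).2
  have hB : ∫ z, h z ∂DLO.μ2 = ∫ s in Ioi (0 : ℝ), ∫ t in Ioi (0 : ℝ),
      Real.exp (-(ν * s)) * Real.exp (-(ν * t)) * DD κ θ s t := by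
    rw [integral_prod _ hhint]
  rw [← hB]
  -- the error term
  have hKint : Integrable (fun z : ℝ × ℝ => 4 * ν * (C0 * θ ^ 2) *
      (Real.exp (-(z.1 / 4)) * Real.exp (-(z.2 / 4)))) DLO.μ2 :=
    (Integrable.mul_prod DLO.exp4_int.1 DLO.exp4_int.1).const_mul _
  have hK : ∫ z, 4 * ν * (C0 * θ ^ 2) *
      (Real.exp (-(z.1 / 4)) * Real.exp (-(z.2 / 4))) ∂DLO.μ2 = 64 * ν * (C0 * θ ^ 2) := by
    rw [integral_const_mul, integral_prod_mul (fun s : ℝ => Real.exp (-(s / 4)))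
      (fun s : ℝ => Real.exp (-(s / 4))), DLO.exp4_int.2]
    ring
  have hpt : ∀ z : ℝ × ℝ, 0 < z.1 → 0 < z.2 → DD κ θ z.1 z.2 ≤ h z + 4 * ν * (C0 * θ ^ 2) *
      (Real.exp (-(z.1 / 4)) * Real.exp (-(z.2 / 4))) := by
    intro z h1 h2
    obtain ⟨h3, h4⟩ := hD κ θ z.1 z.2 hκ1 hθ hθθ0 h1 h2
    have h5 : 1 - ν * (z.1 + z.2) ≤ Real.exp (-(ν * z.1)) * Real.exp (-(ν * z.2)) := by
      rw [← Real.exp_add]
      have := Real.add_one_le_exp (-(ν * z.1) + -(ν * z.2))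
      linarith
    have h6 := mul_le_mul_of_nonneg_right h5 h3
    have h7 : (z.1 + z.2) * DD κ θ z.1 z.2 ≤ C0 * θ ^ 2 *
        (4 * (Real.exp (-(z.1 / 4)) * Real.exp (-(z.2 / 4)))) := by
      have h8 := DLO.exp_le (z.1 + z.2) (by linarith)
      have h9 : Real.exp (-((z.1 + z.2) / 4)) = Real.exp (-(z.1 / 4)) * Real.exp (-(z.2 / 4)) := by
        rw [← Real.exp_add]
        congr 1
        ring
      rw [h9] at h8
      calc (z.1 + z.2) * DD κ θ z.1 z.2 ≤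
            (z.1 + z.2) * (C0 * θ ^ 2 * Real.exp (-((z.1 + z.2) / 2))) :=
            mul_le_mul_of_nonneg_left h4 (by linarith)
        _ = C0 * θ ^ 2 * ((z.1 + z.2) * Real.exp (-((z.1 + z.2) / 2))) := by ring
        _ ≤ _ := mul_le_mul_of_nonneg_left h8 (by positivity)
    have h8 := mul_le_mul_of_nonneg_left h7 hν0
    have h9 : h z = Real.exp (-(ν * z.1)) * Real.exp (-(ν * z.2)) * DD κ θ z.1 z.2 := rfl
    rw [h9]
    nlinarith
  have hlow := DLO.lower hBAS hκ hc hm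
  have hup : ∫⁻ z, ENNReal.ofReal (DD κ θ z.1 z.2) ∂DLO.μ2 ≤
      ENNReal.ofReal (∫ z, h z ∂DLO.μ2 + 64 * ν * (C0 * θ ^ 2)) := by
    have hsum : Integrable (fun z : ℝ × ℝ => h z + 4 * ν * (C0 * θ ^ 2) *
      (Real.exp (-(z.1 / 4)) * Real.exp (-(z.2 / 4)))) DLO.μ2 := hhint.add hKint
    rw [← hK, ← integral_add hhint hKint, ofReal_integral_eq_lintegral_ofReal hsum]
    · refine lintegral_mono_ae ?_
      filter_upwards [DLO.mem_ae] with z hz
      exact ENNReal.ofReal_le_ofReal (hpt z hz.1 hz.2)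
    · filter_upwards [DLO.mem_ae] with z hz
      have := (hb z hz.1 hz.2).1
      show 0 ≤ h z + 4 * ν * (C0 * θ ^ 2) * (Real.exp (-(z.1 / 4)) * Real.exp (-(z.2 / 4)))
      positivity
  have hpos : 0 ≤ ∫ z, h z ∂DLO.μ2 := by
    refine integral_nonneg_of_ae ?_
    filter_upwards [DLO.mem_ae] with z hz
    exact (hb z hz.1 hz.2).1
  have hmain := (ENNReal.ofReal_le_ofReal_iff (by positivity)).1 (hlow.trans hup)
  have hp := Real.pi_pos
  have hp3 := Real.pi_gt_three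
  -- numerical part
  have hκs : 0 < κ ^ 2 := by positivity
  have hcl : θ ^ 2 / 2 - θ ^ 4 * (5 / 96) ≤ 1 - Real.cos θ := by linarith [hcosb.2]
  have hinv : (1 - θ ^ 2) ≤ 1 / κ ^ 2 := by
    rw [le_div_iff₀ hκs]
    nlinarith [sq_nonneg (θ ^ 2)]
  have h1 : 2 * (1 - Real.cos θ) * (1 / (6 * Real.pi * κ ^ 2)) =
      (1 - Real.cos θ) * (1 / κ ^ 2) / (3 * Real.pi) := by
    field_simp
    ring
  rw [h1] at hmain
  have hθ2 : θ ^ 2 < 1 := by nlinarith
  have h2 : (θ ^ 2 / 2 - θ ^ 4 * (5 / 96)) * (1 - θ ^ 2) ≤ (1 - Real.cos θ) * (1 / κ ^ 2) := by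
    refine mul_le_mul hcl hinv (by linarith) (by linarith [Real.cos_le_one θ])
  have h3 : θ ^ 2 / 2 - θ ^ 4 ≤ (θ ^ 2 / 2 - θ ^ 4 * (5 / 96)) * (1 - θ ^ 2) := by
    nlinarith [sq_nonneg (θ ^ 3), sq_nonneg (θ ^ 2)]
  have h4 : (θ ^ 2 / 2 - θ ^ 4) / (3 * Real.pi) ≤
      (1 - Real.cos θ) * (1 / κ ^ 2) / (3 * Real.pi) :=
    div_le_div_of_nonneg_right (h3.trans h2) (by positivity)
  have h5 : (θ ^ 2 / 2 - θ ^ 4) / (3 * Real.pi) = θ ^ 2 / (6 * Real.pi) - θ ^ 4 / (3 * Real.pi) := by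
    field_simp
    ring
  have h6 : θ ^ 4 / (3 * Real.pi) ≤ θ ^ 3 := by
    rw [div_le_iff₀ (by positivity)]
    have h7 : θ ^ 4 ≤ θ ^ 3 := by nlinarith [pow_pos hθ 3]
    nlinarith [pow_pos hθ 3]
  have h8 : 64 * ν * (C0 * θ ^ 2) ≤ 64 * C0 * θ ^ 3 := by
    have h9 : ν * θ ^ 2 ≤ θ ^ 3 := by
      calc ν * θ ^ 2 ≤ θ ^ 2 * θ ^ 2 := mul_le_mul_of_nonneg_right hν1 (by positivity)
        _ ≤ θ ^ 3 := by nlinarith [pow_pos hθ 3]
    nlinarith
  rw [h5] at h4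
  linarith

end

end Pool.Agent.T2H10.WB
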