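import Pool.Agent.T2H10.WB.Stm

open MeasureTheory Set Filter Topology

namespace Pool.Agent.T2H10.WB

namespace DUP

/-- `∫ y e^{-c y}` by inversion -/
theorem inv_int (c : ℝ) (hc : 0 < c) :
    IntegrableOn (fun τ : ℝ => 1 / τ ^ 3 * Real.exp (-(c / τ))) (Ioi 0) ∧
    (∫ τ in Ioi (0 : ℝ), 1 / τ ^ 3 * Real.exp (-(c / τ))) = 1 / c ^ 2 := by
  have hi : IntegrableOn (fun y : ℝ => y ^ (1 : ℝ) * Real.exp (-c * y)) (Ioi 0) := by
    have := integrableOn_rpow_mul_exp_neg_mul_rpow (s := 1) (p := 1) (b := c) (by norm_num) one_pos hc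
    simpa using this
  have hv : (∫ y in Ioi (0 : ℝ), y ^ (1 : ℝ) * Real.exp (-c * y)) = 1 / c ^ 2 := by
    have := integral_rpow_mul_exp_neg_mul_rpow (p := 1) (q := 1) (b := c) one_pos (by norm_num) hc
    simp only [Real.rpow_one] at this ⊢
    rw [this]
    norm_num [Real.Gamma_two]
  have heq : ∀ τ ∈ Ioi (0 : ℝ), (|(-1 : ℝ)| * τ ^ ((-1 : ℝ) - 1)) • ((τ ^ (-1 : ℝ)) ^ (1 : ℝ) *
      Real.exp (-c * τ ^ (-1 : ℝ))) = 1 / τ ^ 3 * Real.exp (-(c / τ)) := by
    intro τ hτ
    have hτ' : (0 : ℝ) < τ := hτ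
    rw [Real.rpow_neg_one, Real.rpow_one, abs_neg, abs_one, one_mul, smul_eq_mul,
      show ((-1 : ℝ) - 1) = -((2 : ℕ) : ℝ) by norm_num, Real.rpow_neg hτ'.le, Real.rpow_natCast]
    rw [show -c * τ⁻¹ = -(c / τ) by ring]
    field_simp
  constructor
  · have h1 := (integrableOn_Ioi_comp_rpow_iff (fun y : ℝ => y ^ (1 : ℝ) * Real.exp (-c * y))
      (by norm_num : (-1 : ℝ) ≠ 0)).mpr hi
    exact h1.congr_fun heq measurableSet_Ioi
  · have h1 := integral_comp_rpow_Ioi (fun y : ℝ => y ^ (1 : ℝ) * Real.exp (-c * y))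
      (by norm_num : (-1 : ℝ) ≠ 0)
    rw [hv] at h1
    rw [← h1]
    exact (setIntegral_congr_fun measurableSet_Ioi heq).symm

/-- `∫ e^{-c y}` by inversion -/
theorem inv_int' (c : ℝ) (hc : 0 < c) :
    IntegrableOn (fun τ : ℝ => 1 / τ ^ 2 * Real.exp (-(c / τ))) (Ioi 0) := by
  have hi : IntegrableOn (fun y : ℝ => Real.exp (-c * y)) (Ioi 0) := by
    have := integrableOn_rpow_mul_exp_neg_mul_rpow (s := 0) (p := 1) (b := c) (by norm_num) one_pos hc
    simpa using this
  have heq : ∀ τ ∈ Ioi (0 : ℝ), (|(-1 : ℝ)| * τ ^ ((-1 : ℝ) - 1)) •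
      Real.exp (-c * τ ^ (-1 : ℝ)) = 1 / τ ^ 2 * Real.exp (-(c / τ)) := by
    intro τ hτ
    have hτ' : (0 : ℝ) < τ := hτ
    rw [Real.rpow_neg_one, abs_neg, abs_one, one_mul, smul_eq_mul,
      show ((-1 : ℝ) - 1) = -((2 : ℕ) : ℝ) by norm_num, Real.rpow_neg hτ'.le, Real.rpow_natCast]
    rw [show -c * τ⁻¹ = -(c / τ) by ring]
    field_simp
  have h1 := (integrableOn_Ioi_comp_rpow_iff (fun y : ℝ => Real.exp (-c * y))
      (by norm_num : (-1 : ℝ) ≠ 0)).mpr hi
  exact h1.congr_fun heq measurableSet_Ioi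

/-- the kernel of the first order term -/
noncomputable def aa (κ r : ℝ) : ℝ :=
  ∫ τ in Ioi (0 : ℝ), Real.exp (-(κ ^ 2 * τ)) * (1 / (4 * Real.pi * τ ^ 2) * Real.exp (-(r ^ 2 / (4 * τ))))

theorem aa_int (κ r : ℝ) (hκ : 0 < κ) (hr : 0 < r) : IntegrableOn (fun τ : ℝ =>
    Real.exp (-(κ ^ 2 * τ)) * (1 / (4 * Real.pi * τ ^ 2) * Real.exp (-(r ^ 2 / (4 * τ))))) (Ioi 0) := by
  have h1 := (inv_int' (r ^ 2 / 4) (by positivity)).const_mul (1 / (4 * Real.pi))
  refine Integrable.mono' h1 ?_ ?_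
  · apply Measurable.aestronglyMeasurable
    fun_prop
  · rw [ae_restrict_iff' measurableSet_Ioi]
    refine Eventually.of_forall fun τ hτ => ?_
    have hτ' : (0 : ℝ) < τ := hτ
    rw [Real.norm_of_nonneg (by positivity)]
    have e1 : r ^ 2 / (4 * τ) = r ^ 2 / 4 / τ := by field_simp
    rw [e1]
    have h2 : Real.exp (-(κ ^ 2 * τ)) ≤ 1 := by
      rw [Real.exp_le_one_iff]
      have : 0 ≤ κ ^ 2 * τ := by positivity
      linarith
    calc Real.exp (-(κ ^ 2 * τ)) * (1 / (4 * Real.pi * τ ^ 2) * Real.exp (-(r ^ 2 / 4 / τ)))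
        ≤ 1 * (1 / (4 * Real.pi * τ ^ 2) * Real.exp (-(r ^ 2 / 4 / τ))) := by
          apply mul_le_mul_of_nonneg_right h2 (by positivity)
      _ = 1 / (4 * Real.pi) * (1 / τ ^ 2 * Real.exp (-(r ^ 2 / 4 / τ))) := by
          field_simp

/-- the triangle -/
theorem tri (F : ℝ → ENNReal) (hF : Measurable F) :
    (∫⁻ s in Ioi (0 : ℝ), ∫⁻ t in Ioi (0 : ℝ), ENNReal.ofReal (s * t) * F (s + t)) =
      ∫⁻ r in Ioi (0 : ℝ), ENNReal.ofReal (r ^ 3 / 6) * F r := by
  -- indicator form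
  set K : ℝ → ℝ → ENNReal := fun s r =>
    (if 0 < s ∧ s < r then ENNReal.ofReal (s * (r - s)) * F r else 0) with hK
  have hset : MeasurableSet {p : ℝ × ℝ | 0 < p.1 ∧ p.1 < p.2} :=
    (measurableSet_lt measurable_const measurable_fst).inter (measurableSet_lt measurable_fst measurable_snd)
  have hKm : Measurable (Function.uncurry K) := by
    have : Function.uncurry K = fun p : ℝ × ℝ =>
        (if 0 < p.1 ∧ p.1 < p.2 then ENNReal.ofReal (p.1 * (p.2 - p.1)) * F p.2 else 0) := by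
      funext p
      rfl
    rw [this]
    apply Measurable.ite hset
    · exact (ENNReal.measurable_ofReal.comp (measurable_fst.mul (measurable_snd.sub measurable_fst))).mul
        (hF.comp measurable_snd)
    · exact measurable_const
  have h1 : (∫⁻ s in Ioi (0 : ℝ), ∫⁻ t in Ioi (0 : ℝ), ENNReal.ofReal (s * t) * F (s + t)) =
      ∫⁻ s, ∫⁻ r, K s r := by
    rw [← lintegral_indicator measurableSet_Ioi]
    apply lintegral_congr
    intro s
    by_cases hs : 0 < s
    · rw [indicator_of_mem (show s ∈ Ioi 0 from hs), ← lintegral_indicator measurableSet_Ioi]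
      rw [← lintegral_add_right_eq_self (fun r => K s r) s]
      apply lintegral_congr
      intro t
      by_cases ht : 0 < t
      · rw [indicator_of_mem (show t ∈ Ioi 0 from ht)]
        simp only [hK]
        rw [if_pos ⟨hs, by linarith⟩, add_sub_cancel_right, add_comm t s]
      · rw [indicator_of_notMem (show t ∉ Ioi 0 from ht)]
        simp only [hK]
        rw [if_neg]
        intro hcon
        exact ht (by linarith [hcon.2])
    · rw [indicator_of_notMem (show s ∉ Ioi 0 from hs)]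
      symm
      rw [lintegral_eq_zero_iff']
      · refine Eventually.of_forall fun r => ?_
        simp only [hK, Pi.zero_apply]
        rw [if_neg]
        exact fun hcon => hs hcon.1
      · exact (hKm.comp measurable_prodMk_left).aemeasurable
  rw [h1, lintegral_lintegral_swap hKm.aemeasurable, ← lintegral_indicator measurableSet_Ioi]
  apply lintegral_congr
  intro r
  by_cases hr : 0 < r
  · rw [indicator_of_mem (show r ∈ Ioi 0 from hr)]
    have e1 : ∀ s, K s r = (Ioo 0 r).indicator (fun s => ENNReal.ofReal (s * (r - s))) s * F r := by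
      intro s
      simp only [hK]
      by_cases h : s ∈ Ioo 0 r
      · rw [indicator_of_mem h, if_pos ⟨h.1, h.2⟩]
      · rw [indicator_of_notMem h, if_neg, zero_mul]
        exact fun hcon => h ⟨hcon.1, hcon.2⟩
    simp_rw [e1]
    rw [lintegral_mul_const, lintegral_indicator measurableSet_Ioo]
    · congr 1
      rw [← ofReal_integral_eq_lintegral_ofReal]
      · congr 1
        rw [← integral_Ioc_eq_integral_Ioo, ← intervalIntegral.integral_of_le hr.le]
        have : ∀ s : ℝ, s * (r - s) = r * s - s ^ 2 := fun s => by ring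
        simp_rw [this]
        rw [intervalIntegral.integral_sub, intervalIntegral.integral_const_mul, integral_id, integral_pow]
        · ring
        · exact (continuous_const.mul continuous_id).intervalIntegrable _ _
        · exact (continuous_pow 2).intervalIntegrable _ _
      · apply (Continuous.integrableOn_Icc (a := 0) (b := r) (by fun_prop)).mono_set Ioo_subset_Icc_self
      · rw [EventuallyLE, ae_restrict_iff' measurableSet_Ioo]
        exact Eventually.of_forall fun s hs => mul_nonneg hs.1.le (by linarith [hs.2])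
    · exact (ENNReal.measurable_ofReal.comp (by fun_prop)).indicator measurableSet_Ioo
  · rw [indicator_of_notMem (show r ∉ Ioi 0 from hr), lintegral_eq_zero_iff']
    · refine Eventually.of_forall fun s => ?_
      simp only [hK, Pi.zero_apply]
      rw [if_neg]
      exact fun hcon => hr (lt_trans hcon.1 hcon.2)
    · exact (hKm.comp measurable_prodMk_right).aemeasurable

/-- the third moment -/
theorem mom3 (τ : ℝ) (hτ : 0 < τ) :
    (∫⁻ r in Ioi (0 : ℝ), ENNReal.ofReal (r ^ 3 / 6 * Real.exp (-(r ^ 2 / (4 * τ))))) =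
      ENNReal.ofReal (4 / 3 * τ ^ 2) := by
  have h1 := integral_rpow_mul_exp_neg_mul_rpow (p := 2) (q := 3) (b := 1 / (4 * τ)) two_pos (by norm_num)
    (by positivity)
  have h2 := integrableOn_rpow_mul_exp_neg_mul_rpow (p := 2) (s := 3) (b := 1 / (4 * τ)) (by norm_num) two_pos
    (by positivity)
  have heq : ∀ r ∈ Ioi (0 : ℝ), 1 / 6 * (r ^ (3 : ℝ) * Real.exp (-(1 / (4 * τ)) * r ^ (2 : ℝ))) =
      r ^ 3 / 6 * Real.exp (-(r ^ 2 / (4 * τ))) := by
    intro r _
    rw [show (3 : ℝ) = ((3 : ℕ) : ℝ) by norm_num, show (2 : ℝ) = ((2 : ℕ) : ℝ) by norm_num, Real.rpow_natCast,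
      Real.rpow_natCast]
    rw [show -(1 / (4 * τ)) * r ^ 2 = -(r ^ 2 / (4 * τ)) by ring]
    ring
  have h3 : IntegrableOn (fun r : ℝ => r ^ 3 / 6 * Real.exp (-(r ^ 2 / (4 * τ)))) (Ioi 0) := by
    have h4 : IntegrableOn (fun r : ℝ => 1 / 6 * (r ^ (3 : ℝ) * Real.exp (-(1 / (4 * τ)) * r ^ (2 : ℝ)))) (Ioi 0) :=
      h2.const_mul _
    exact h4.congr_fun heq measurableSet_Ioi
  rw [← ofReal_integral_eq_lintegral_ofReal h3]
  · congr 1
    rw [← setIntegral_congr_fun measurableSet_Ioi heq, integral_const_mul, h1]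
    norm_num [Real.Gamma_two]
    field_simp
    norm_num
  · rw [EventuallyLE, ae_restrict_iff' measurableSet_Ioi]
    refine Eventually.of_forall fun r hr => ?_
    have hr' : (0 : ℝ) < r := hr
    simp only [Pi.zero_apply]
    positivity

/-- the main term -/
theorem aaL (κ : ℝ) (hκ : 0 < κ) :
    (∫⁻ r in Ioi (0 : ℝ), ENNReal.ofReal (r ^ 3 / 6) * ENNReal.ofReal (aa κ r)) =
      ENNReal.ofReal (1 / (3 * Real.pi * κ ^ 2)) := by
  set G : ℝ → ℝ → ENNReal := fun r τ => ENNReal.ofReal (r ^ 3 / 6) * ENNReal.ofReal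
    (Real.exp (-(κ ^ 2 * τ)) * (1 / (4 * Real.pi * τ ^ 2) * Real.exp (-(r ^ 2 / (4 * τ))))) with hG
  have hGm : Measurable (Function.uncurry G) := by
    have : Function.uncurry G = fun p : ℝ × ℝ => ENNReal.ofReal (p.1 ^ 3 / 6) * ENNReal.ofReal
      (Real.exp (-(κ ^ 2 * p.2)) * (1 / (4 * Real.pi * p.2 ^ 2) * Real.exp (-(p.1 ^ 2 / (4 * p.2))))) := by
      funext p
      rfl
    rw [this]
    fun_prop
  have h1 : (∫⁻ r in Ioi (0 : ℝ), ENNReal.ofReal (r ^ 3 / 6) * ENNReal.ofReal (aa κ r)) =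
      ∫⁻ r in Ioi (0 : ℝ), ∫⁻ τ in Ioi (0 : ℝ), G r τ := by
    apply setLIntegral_congr_fun measurableSet_Ioi
    intro r hr
    simp only [hG]
    rw [lintegral_const_mul]
    · congr 1
      unfold aa
      rw [ofReal_integral_eq_lintegral_ofReal (aa_int κ r hκ hr)]
      rw [EventuallyLE, ae_restrict_iff' measurableSet_Ioi]
      refine Eventually.of_forall fun τ hτ => ?_
      have hτ' : (0 : ℝ) < τ := hτ
      simp only [Pi.zero_apply]
      positivity
    · fun_prop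
  rw [h1, lintegral_lintegral_swap hGm.aemeasurable]
  have h2 : (∫⁻ τ in Ioi (0 : ℝ), ∫⁻ r in Ioi (0 : ℝ), G r τ) =
      ∫⁻ τ in Ioi (0 : ℝ), ENNReal.ofReal (1 / (3 * Real.pi) * Real.exp (-κ ^ 2 * τ)) := by
    apply setLIntegral_congr_fun measurableSet_Ioi
    intro τ hτ
    have hτ' : (0 : ℝ) < τ := hτ
    have h3 : ∀ r ∈ Ioi (0 : ℝ), G r τ = ENNReal.ofReal (Real.exp (-(κ ^ 2 * τ)) * (1 / (4 * Real.pi * τ ^ 2))) *
        ENNReal.ofReal (r ^ 3 / 6 * Real.exp (-(r ^ 2 / (4 * τ)))) := by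
      intro r hr
      have hr' : (0 : ℝ) < r := hr
      simp only [hG]
      rw [← ENNReal.ofReal_mul (by positivity), ← ENNReal.ofReal_mul (by positivity)]
      congr 1
      ring
    simp only
    rw [setLIntegral_congr_fun measurableSet_Ioi h3, lintegral_const_mul _ (by fun_prop), mom3 τ hτ',
      ← ENNReal.ofReal_mul (by positivity)]
    congr 1
    rw [show -κ ^ 2 * τ = -(κ ^ 2 * τ) by ring]
    have : Real.pi ≠ 0 := Real.pi_ne_zero
    field_simp
  rw [h2, ← ofReal_integral_eq_lintegral_ofReal]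
  · congr 1
    rw [integral_const_mul]
    have h4 := integral_exp_neg_mul_rpow (p := 1) (b := κ ^ 2) one_pos (by positivity)
    have h5 : (∫ x in Ioi (0 : ℝ), Real.exp (-κ ^ 2 * x)) = 1 / κ ^ 2 := by
      have h6 := integral_exp_mul_Ioi (a := -κ ^ 2) (by nlinarith [sq_pos_of_pos hκ]) 0
      rw [h6]
      simp
    rw [h5]
    field_simp
  · apply Integrable.const_mul
    have := integrableOn_rpow_mul_exp_neg_mul_rpow (s := 0) (p := 1) (b := κ ^ 2) (by norm_num) one_pos (by positivity)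
    unfold IntegrableOn at this
    simpa using this
  · exact Eventually.of_forall fun τ => by simp only [Pi.zero_apply]; positivity

theorem exp_bd (x : ℝ) (hx : 0 ≤ x) : Real.exp x - 1 ≤ x + x ^ 2 * Real.exp x := by
  have h1 : Real.exp x - 1 ≤ x * Real.exp x := by
    have h2 := Real.add_one_le_exp (-x)
    have h3 : Real.exp x * Real.exp (-x) = 1 := by rw [← Real.exp_add]; simp
    nlinarith [Real.exp_pos x]
  nlinarith [mul_le_mul_of_nonneg_left h1 hx]

/-- the pointwise bound -/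
theorem pt (hBAS : S_BAS) (κ θ s t : ℝ) (hκ : 1 ≤ κ) (hθ : 0 < θ) (hθ1 : θ < 1) (hs : 0 < s) (ht : 0 < t) :
    DD κ θ s t ≤ (1 - Real.cos θ) * (s * t * aa κ (s + t)) +
      θ ^ 4 / (8 * Real.pi) * Real.exp (-((s + t) / 2)) := by
  have hκ0 : 0 < κ := by linarith
  obtain ⟨-, hint, -, -, -, -, -⟩ := hBAS κ hκ0
  set r := s + t with hr
  have hr0 : 0 < r := by positivity
  set d := 2 * s * t * (1 - Real.cos θ) with hd
  have hcos0 : 0 ≤ 1 - Real.cos θ := by linarith [Real.cos_le_one θ]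
  have hcos1 : 1 - Real.cos θ ≤ θ ^ 2 / 2 := by linarith [Real.one_sub_sq_div_two_le_cos (x := θ)]
  have hd0 : 0 ≤ d := by positivity
  have hst : s * t ≤ r ^ 2 / 4 := by rw [hr]; nlinarith [sq_nonneg (s - t)]
  have hd1 : d ≤ r ^ 2 * θ ^ 2 / 4 := by
    calc d = 2 * ((s * t) * (1 - Real.cos θ)) := by rw [hd]; ring
      _ ≤ 2 * ((r ^ 2 / 4) * (θ ^ 2 / 2)) := by
          apply mul_le_mul_of_nonneg_left _ (by norm_num)
          exact mul_le_mul hst hcos1 hcos0 (by positivity)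
      _ = r ^ 2 * θ ^ 2 / 4 := by ring
  have hd2 : d ≤ r ^ 2 / 4 := by
    refine hd1.trans ?_
    have : θ ^ 2 ≤ 1 := pow_le_one₀ hθ.le hθ1.le
    nlinarith [sq_nonneg r]
  have hq1 : s ^ 2 + t ^ 2 + 2 * s * t * Real.cos θ = r ^ 2 - d := by rw [hr, hd]; ring
  have hq1p : 0 < r ^ 2 - d := by nlinarith [sq_pos_of_pos hr0]
  have hq2p : 0 < r ^ 2 := by positivity
  have i1 := hint (r ^ 2 - d) hq1p
  have i2 := hint (r ^ 2) hq2p
  obtain ⟨i3, v3⟩ := inv_int (r ^ 2 / 8) (by positivity)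
  have i4 := aa_int κ r hκ0 hr0
  unfold DD kk
  rw [hq1, ← integral_sub i1 i2]
  have hv : (1 - Real.cos θ) * (s * t * aa κ r) + θ ^ 4 / (8 * Real.pi) * Real.exp (-(r / 2)) ≥
      ∫ τ in Ioi (0 : ℝ), ((1 - Real.cos θ) * (s * t) * (Real.exp (-(κ ^ 2 * τ)) *
        (1 / (4 * Real.pi * τ ^ 2) * Real.exp (-(r ^ 2 / (4 * τ))))) +
        Real.exp (-(r / 2)) * (d ^ 2 / (32 * Real.pi)) * (1 / τ ^ 3 * Real.exp (-(r ^ 2 / 8 / τ)))) := by
    rw [integral_add (i4.const_mul _) (i3.const_mul _), integral_const_mul, integral_const_mul, v3]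
    change _ ≤ _
    have e1 : (1 - Real.cos θ) * (s * t) * (∫ τ in Ioi (0 : ℝ), Real.exp (-(κ ^ 2 * τ)) *
        (1 / (4 * Real.pi * τ ^ 2) * Real.exp (-(r ^ 2 / (4 * τ))))) = (1 - Real.cos θ) * (s * t * aa κ r) := by
      unfold aa
      ring
    rw [e1]
    have e2 : Real.exp (-(r / 2)) * (d ^ 2 / (32 * Real.pi)) * (1 / (r ^ 2 / 8) ^ 2) ≤
        θ ^ 4 / (8 * Real.pi) * Real.exp (-(r / 2)) := by
      have h1 : d ^ 2 ≤ (r ^ 2 * θ ^ 2 / 4) ^ 2 := pow_le_pow_left₀ hd0 hd1 2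
      calc Real.exp (-(r / 2)) * (d ^ 2 / (32 * Real.pi)) * (1 / (r ^ 2 / 8) ^ 2)
          ≤ Real.exp (-(r / 2)) * ((r ^ 2 * θ ^ 2 / 4) ^ 2 / (32 * Real.pi)) * (1 / (r ^ 2 / 8) ^ 2) := by
            gcongr
        _ = θ ^ 4 / (8 * Real.pi) * Real.exp (-(r / 2)) := by
            have : Real.pi ≠ 0 := Real.pi_ne_zero
            field_simp
            ring
    linarith
  refine le_trans ?_ hv
  apply setIntegral_mono_on (i1.sub i2) ((i4.const_mul _).add (i3.const_mul _)) measurableSet_Ioi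
  intro τ hτ
  have hτ' : (0 : ℝ) < τ := hτ
  simp only [Pi.sub_apply, Pi.add_apply]
  set x := d / (4 * τ) with hx
  have hx0 : 0 ≤ x := by positivity
  set E := Real.exp (-(κ ^ 2 * τ)) with hE
  set R := Real.exp (-(r ^ 2 / (4 * τ))) with hR
  have e1 : Real.exp (-((r ^ 2 - d) / (4 * τ))) = R * Real.exp x := by
    rw [hR, hx, ← Real.exp_add]
    congr 1
    ring
  have hE0 : 0 < E := Real.exp_pos _
  have hR0 : 0 < R := Real.exp_pos _
  rw [e1]
  have k1 : E * (R * Real.exp x / (2 * Real.pi * τ)) - E * (R / (2 * Real.pi * τ)) =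
      E * R / (2 * Real.pi * τ) * (Real.exp x - 1) := by ring
  rw [k1]
  have k2 : E * R / (2 * Real.pi * τ) * (Real.exp x - 1) ≤ E * R / (2 * Real.pi * τ) * (x + x ^ 2 * Real.exp x) :=
    mul_le_mul_of_nonneg_left (exp_bd x hx0) (by positivity)
  refine k2.trans ?_
  rw [mul_add]
  apply add_le_add
  · apply le_of_eq
    rw [hx, hd]
    have : Real.pi ≠ 0 := Real.pi_ne_zero
    field_simp
  · have k3 : E * R * Real.exp x ≤ Real.exp (-(r / 2)) * Real.exp (-(r ^ 2 / 8 / τ)) := by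
      rw [hE, hR, hx, ← Real.exp_add, ← Real.exp_add, ← Real.exp_add]
      apply Real.exp_le_exp.mpr
      have k4 : r / 2 ≤ τ + r ^ 2 / (16 * τ) := by
        rw [← sub_nonneg]
        have : τ + r ^ 2 / (16 * τ) - r / 2 = (τ - r / 4) ^ 2 / τ := by field_simp; ring
        rw [this]
        positivity
      have k5 : τ ≤ κ ^ 2 * τ := le_mul_of_one_le_left hτ'.le (one_le_pow₀ hκ)
      have k6 : d / (4 * τ) ≤ r ^ 2 / 4 / (4 * τ) := by gcongr
      have k7 : r ^ 2 / 4 / (4 * τ) = r ^ 2 / (16 * τ) := by field_simp; ring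
      have k8 : r ^ 2 / 8 / τ = 2 * (r ^ 2 / (16 * τ)) := by field_simp; ring
      have k9 : r ^ 2 / (4 * τ) = 4 * (r ^ 2 / (16 * τ)) := by field_simp; ring
      rw [k8, k9]
      rw [k7] at k6
      linarith
    calc E * R / (2 * Real.pi * τ) * (x ^ 2 * Real.exp x) = (E * R * Real.exp x) * (x ^ 2 / (2 * Real.pi * τ)) := by ring
      _ ≤ (Real.exp (-(r / 2)) * Real.exp (-(r ^ 2 / 8 / τ))) * (x ^ 2 / (2 * Real.pi * τ)) :=
          mul_le_mul_of_nonneg_right k3 (by positivity)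
      _ = Real.exp (-(r / 2)) * (d ^ 2 / (32 * Real.pi)) * (1 / τ ^ 3 * Real.exp (-(r ^ 2 / 8 / τ))) := by
          rw [hx]
          have : Real.pi ≠ 0 := Real.pi_ne_zero
          field_simp
          ring

theorem ofReal_int_le {μ : Measure ℝ} (f : ℝ → ℝ) (hf : 0 ≤ᵐ[μ] f) :
    ENNReal.ofReal (∫ x, f x ∂μ) ≤ ∫⁻ x, ENNReal.ofReal (f x) ∂μ := by
  by_cases h : Integrable f μ
  · rw [ofReal_integral_eq_lintegral_ofReal h hf]
  · rw [integral_undef h]
    simp

end DUP

open DUP in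
theorem pDUP (hDBD : S_DBD) (hBAS : S_BAS) : S_DUP := by
  obtain ⟨C0, t0, hC0, ht0, hD⟩ := hDBD
  refine ⟨1 / (2 * Real.pi), min t0 1, by positivity, lt_min ht0 one_pos, ?_⟩
  intro κ θ hκ hθ hlt
  have hθt : θ < t0 := lt_of_lt_of_le hlt (min_le_left _ _)
  have hθ1 : θ < 1 := lt_of_lt_of_le hlt (min_le_right _ _)
  have hκ0 : 0 < κ := by linarith
  have hcos0 : 0 ≤ 1 - Real.cos θ := by linarith [Real.cos_le_one θ]
  have hcos1 : 1 - Real.cos θ ≤ θ ^ 2 / 2 := by linarith [Real.one_sub_sq_div_two_le_cos (x := θ)]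
  have hDD0 : ∀ s t, 0 < s → 0 < t → 0 ≤ DD κ θ s t := fun s t hs ht => (hD κ θ s t hκ hθ hθt hs ht).1
  have haa0 : ∀ r, 0 ≤ aa κ r := by
    intro r
    unfold aa
    apply setIntegral_nonneg measurableSet_Ioi
    intro τ hτ
    have hτ' : (0 : ℝ) < τ := hτ
    positivity
  have haam : Measurable (aa κ) := by
    have hG : StronglyMeasurable (Function.uncurry fun r τ : ℝ =>
      Real.exp (-(κ ^ 2 * τ)) * (1 / (4 * Real.pi * τ ^ 2) * Real.exp (-(r ^ 2 / (4 * τ))))) := by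
      apply Measurable.stronglyMeasurable
      have : (Function.uncurry fun r τ : ℝ =>
        Real.exp (-(κ ^ 2 * τ)) * (1 / (4 * Real.pi * τ ^ 2) * Real.exp (-(r ^ 2 / (4 * τ))))) = fun p : ℝ × ℝ =>
        Real.exp (-(κ ^ 2 * p.2)) * (1 / (4 * Real.pi * p.2 ^ 2) * Real.exp (-(p.1 ^ 2 / (4 * p.2)))) := by
        funext p
        rfl
      rw [this]
      fun_prop
    exact (hG.integral_prod_right (ν := volume.restrict (Ioi 0))).measurable
  have step1 : ENNReal.ofReal (∫ s in Ioi (0 : ℝ), ∫ t in Ioi (0 : ℝ), DD κ θ s t) ≤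
      ∫⁻ s in Ioi (0 : ℝ), ∫⁻ t in Ioi (0 : ℝ), ENNReal.ofReal (DD κ θ s t) := by
    refine (ofReal_int_le _ ?_).trans ?_
    · rw [EventuallyLE, ae_restrict_iff' measurableSet_Ioi]
      exact Eventually.of_forall fun s hs => setIntegral_nonneg measurableSet_Ioi fun t ht => hDD0 s t hs ht
    · apply setLIntegral_mono_ae' measurableSet_Ioi
      refine Eventually.of_forall fun s hs => ?_
      apply ofReal_int_le
      rw [EventuallyLE, ae_restrict_iff' measurableSet_Ioi]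
      exact Eventually.of_forall fun t ht => hDD0 s t hs ht
  have step2 : (∫⁻ s in Ioi (0 : ℝ), ∫⁻ t in Ioi (0 : ℝ), ENNReal.ofReal (DD κ θ s t)) ≤
      ∫⁻ s in Ioi (0 : ℝ), ∫⁻ t in Ioi (0 : ℝ), (ENNReal.ofReal (1 - Real.cos θ) *
        (ENNReal.ofReal (s * t) * ENNReal.ofReal (aa κ (s + t))) +
          ENNReal.ofReal (θ ^ 4 / (8 * Real.pi)) * (ENNReal.ofReal (Real.exp (-(1 / 2) * s)) *
            ENNReal.ofReal (Real.exp (-(1 / 2) * t)))) := by
    apply setLIntegral_mono_ae' measurableSet_Ioi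
    refine Eventually.of_forall fun s hs => ?_
    apply setLIntegral_mono_ae' measurableSet_Ioi
    refine Eventually.of_forall fun t ht => ?_
    have hs' : (0 : ℝ) < s := hs
    have ht' : (0 : ℝ) < t := ht
    rw [← ENNReal.ofReal_mul (by positivity), ← ENNReal.ofReal_mul hcos0, ← ENNReal.ofReal_mul (by positivity),
      ← ENNReal.ofReal_mul (by positivity), ← ENNReal.ofReal_add, ← Real.exp_add]
    · apply ENNReal.ofReal_le_ofReal
      have h1 := pt hBAS κ θ s t hκ hθ hθ1 hs' ht'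
      rw [show -(1 / 2) * s + -(1 / 2) * t = -((s + t) / 2) by ring]
      exact h1
    · have := haa0 (s + t)
      positivity
    · positivity
  have hexp : (∫⁻ s in Ioi (0 : ℝ), ENNReal.ofReal (Real.exp (-(1 / 2) * s))) = ENNReal.ofReal 2 := by
    rw [← ofReal_integral_eq_lintegral_ofReal]
    · congr 1
      have h6 := integral_exp_mul_Ioi (a := -(1 / 2 : ℝ)) (by norm_num) 0
      rw [h6]
      norm_num
    · have := integrableOn_rpow_mul_exp_neg_mul_rpow (s := 0) (p := 1) (b := 1 / 2) (by norm_num) one_pos (by norm_num)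
      unfold IntegrableOn at this
      simpa using this
    · exact Eventually.of_forall fun τ => by simp only [Pi.zero_apply]; positivity
  have step3 : (∫⁻ s in Ioi (0 : ℝ), ∫⁻ t in Ioi (0 : ℝ), (ENNReal.ofReal (1 - Real.cos θ) *
        (ENNReal.ofReal (s * t) * ENNReal.ofReal (aa κ (s + t))) +
          ENNReal.ofReal (θ ^ 4 / (8 * Real.pi)) * (ENNReal.ofReal (Real.exp (-(1 / 2) * s)) *
            ENNReal.ofReal (Real.exp (-(1 / 2) * t))))) =
      ENNReal.ofReal (1 - Real.cos θ) * ENNReal.ofReal (1 / (3 * Real.pi * κ ^ 2)) +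
        ENNReal.ofReal (θ ^ 4 / (8 * Real.pi)) * (ENNReal.ofReal 2 * ENNReal.ofReal 2) := by
    have h1 : ∀ s ∈ Ioi (0 : ℝ), (∫⁻ t in Ioi (0 : ℝ), (ENNReal.ofReal (1 - Real.cos θ) *
        (ENNReal.ofReal (s * t) * ENNReal.ofReal (aa κ (s + t))) +
          ENNReal.ofReal (θ ^ 4 / (8 * Real.pi)) * (ENNReal.ofReal (Real.exp (-(1 / 2) * s)) *
            ENNReal.ofReal (Real.exp (-(1 / 2) * t))))) =
        ENNReal.ofReal (1 - Real.cos θ) * (∫⁻ t in Ioi (0 : ℝ), ENNReal.ofReal (s * t) *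
          ENNReal.ofReal (aa κ (s + t))) + ENNReal.ofReal (θ ^ 4 / (8 * Real.pi)) *
            (ENNReal.ofReal (Real.exp (-(1 / 2) * s)) * ENNReal.ofReal 2) := by
      intro s _
      rw [lintegral_add_right _ (by fun_prop), lintegral_const_mul _ (by fun_prop), lintegral_const_mul _ (by fun_prop),
        lintegral_const_mul _ (by fun_prop), hexp]
    rw [setLIntegral_congr_fun measurableSet_Ioi h1, lintegral_add_right _ (by fun_prop), lintegral_const_mul,
      tri (fun r => ENNReal.ofReal (aa κ r)) (by fun_prop), aaL κ hκ0, lintegral_const_mul _ (by fun_prop),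
      lintegral_mul_const _ (by fun_prop), hexp]
    apply Measurable.lintegral_prod_right'
      (f := fun p : ℝ × ℝ => ENNReal.ofReal (p.1 * p.2) * ENNReal.ofReal (aa κ (p.1 + p.2)))
    fun_prop
  have h4 := step1.trans (step2.trans_eq step3)
  rw [← ENNReal.ofReal_mul hcos0, ← ENNReal.ofReal_mul (by norm_num), ← ENNReal.ofReal_mul (by positivity),
    ← ENNReal.ofReal_add (by positivity) (by positivity), ENNReal.ofReal_le_ofReal_iff (by positivity)] at h4
  refine h4.trans ?_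
  have hk1 : 1 ≤ κ ^ 2 := by nlinarith
  have h5 : (1 - Real.cos θ) * (1 / (3 * Real.pi * κ ^ 2)) ≤ θ ^ 2 / (6 * Real.pi) := by
    calc (1 - Real.cos θ) * (1 / (3 * Real.pi * κ ^ 2)) ≤ θ ^ 2 / 2 * (1 / (3 * Real.pi * 1)) := by
          apply mul_le_mul hcos1 _ (by positivity) (by positivity)
          apply one_div_le_one_div_of_le (by positivity)
          gcongr
      _ = θ ^ 2 / (6 * Real.pi) := by
          have : Real.pi ≠ 0 := Real.pi_ne_zero
          field_simp
          ring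
  have h6 : θ ^ 4 / (8 * Real.pi) * (2 * 2) = 1 / (2 * Real.pi) * θ ^ 4 := by
    have : Real.pi ≠ 0 := Real.pi_ne_zero
    field_simp
    ring
  rw [h6]
  linarith

end Pool.Agent.T2H10.WB
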