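import Pool.Agent.T2H10.WB.Stm

set_option autoImplicit false

open MeasureTheory Set Filter Topology

namespace Pool.Agent.T2H10.WB

noncomputable section

namespace ENE

lemma cont_Gm (θ : ℝ) : Continuous (Gm θ) := by
  unfold Gm
  fun_prop

lemma Gf_even (κ ε : ℝ) (z : ℝ × ℝ) : Gf κ ε (-z) = Gf κ ε z := by
  unfold Gf pp
  simp only [Prod.fst_neg, Prod.snd_neg, neg_sq]

end ENE

open ENE

theorem pENE (hGDE : S_GDE) (hPSI : S_PSI) (hPAI : S_PAI) (hSEM : S_SEM) (hHEA : S_HEA) :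
    S_ENE := by
  intro κ ε θ φ hκ hε hφ hs
  have hG := (hGDE κ ε hκ hε).1
  obtain ⟨C, c, hC, hc, hdec⟩ := hG.dec
  have hGb : ∀ z, |Gf κ ε z| ≤ C := by
    intro z
    refine ((hdec z).1).trans ?_
    have h1 : Real.exp (-(c * (|z.1| + |z.2|))) ≤ 1 := by
      rw [Real.exp_le_one_iff]
      have := abs_nonneg z.1
      have := abs_nonneg z.2
      have : 0 ≤ c * (|z.1| + |z.2|) := by positivity
      linarith
    nlinarith
  have hGc : Continuous (Gf κ ε) := hG.smooth.continuous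
  have hφi : Integrable φ := hφ.integrable_of_hasCompactSupport hs
  have hpi : ∀ b : ℝ × ℝ, Integrable (fun z => pp ε (z - b)) :=
    fun b => (hHEA.1 ε hε).1.comp_sub_right b
  have key : ∀ b : ℝ × ℝ, (∫ z, psi κ ε θ φ z * pp ε (z - b)) =
      ∫ t, φ t * ∫ z, Gf κ ε (z - Gm θ t) * pp ε (z - b) := by
    intro b
    unfold psi
    have hint : Integrable (Function.uncurry fun (z : ℝ × ℝ) (t : ℝ) =>
        Gf κ ε (z - Gm θ t) * (pp ε (z - b) * φ t)) (volume.prod volume) := by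
      have h1 : Integrable (fun p : (ℝ × ℝ) × ℝ => pp ε (p.1 - b) * φ p.2)
        (volume.prod volume) := (hpi b).mul_prod hφi
      have hcont : Continuous fun p : (ℝ × ℝ) × ℝ => Gf κ ε (p.1 - Gm θ p.2) :=
        hGc.comp (continuous_fst.sub ((cont_Gm θ).comp continuous_snd))
      exact h1.bdd_mul (c := C) hcont.aestronglyMeasurable
        (Eventually.of_forall fun p => by rw [Real.norm_eq_abs]; exact hGb _)
    calc (∫ z, (∫ t, φ t * Gf κ ε (z - Gm θ t)) * pp ε (z - b))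
        = ∫ z, ∫ t, Gf κ ε (z - Gm θ t) * (pp ε (z - b) * φ t) := by
          refine integral_congr_ae (Eventually.of_forall fun z => ?_)
          show (∫ t, φ t * Gf κ ε (z - Gm θ t)) * pp ε (z - b) =
            ∫ t, Gf κ ε (z - Gm θ t) * (pp ε (z - b) * φ t)
          rw [← integral_mul_const]
          refine integral_congr_ae (Eventually.of_forall fun t => ?_)
          show φ t * Gf κ ε (z - Gm θ t) * pp ε (z - b) =
            Gf κ ε (z - Gm θ t) * (pp ε (z - b) * φ t)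
          ring
      _ = ∫ t, ∫ z, Gf κ ε (z - Gm θ t) * (pp ε (z - b) * φ t) := integral_integral_swap hint
      _ = ∫ t, φ t * ∫ z, Gf κ ε (z - Gm θ t) * pp ε (z - b) := by
          refine integral_congr_ae (Eventually.of_forall fun t => ?_)
          show (∫ z, Gf κ ε (z - Gm θ t) * (pp ε (z - b) * φ t)) =
            φ t * ∫ z, Gf κ ε (z - Gm θ t) * pp ε (z - b)
          rw [← integral_const_mul]
          refine integral_congr_ae (Eventually.of_forall fun z => ?_)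
          show Gf κ ε (z - Gm θ t) * (pp ε (z - b) * φ t) =
            φ t * (Gf κ ε (z - Gm θ t) * pp ε (z - b))
          ring
  have h1 := hPAI κ ε θ φ (psi κ ε θ φ) hκ hε hφ hs (hPSI κ ε θ φ hκ hε hφ hs).1
  have h2 : HH κ (psi κ ε θ φ) = ∫ z, (DX (psi κ ε θ φ) z * DX (psi κ ε θ φ) z +
      DY (psi κ ε θ φ) z * DY (psi κ ε θ φ) z + κ ^ 2 * psi κ ε θ φ z * psi κ ε θ φ z) := by
    unfold HH
    refine integral_congr_ae (Eventually.of_forall fun z => ?_)
    show DX (psi κ ε θ φ) z ^ 2 + DY (psi κ ε θ φ) z ^ 2 + κ ^ 2 * psi κ ε θ φ z ^ 2 = _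
    ring
  rw [h2, h1]
  refine integral_congr_ae (Eventually.of_forall fun s => ?_)
  show φ s * (Real.exp (-(κ ^ 2 * ε)) * ∫ z, psi κ ε θ φ z * pp ε (z - Gm θ s)) =
    ∫ t, φ s * φ t * Gf κ (2 * ε) (Gm θ s - Gm θ t)
  rw [key, ← integral_const_mul, ← integral_const_mul]
  refine integral_congr_ae (Eventually.of_forall fun t => ?_)
  show φ s * (Real.exp (-(κ ^ 2 * ε)) * (φ t * ∫ z, Gf κ ε (z - Gm θ t) * pp ε (z - Gm θ s))) =
    φ s * φ t * Gf κ (2 * ε) (Gm θ s - Gm θ t)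
  have h3 := hSEM.2 κ ε (Gm θ t) (Gm θ s) hκ hε
  have h4 : Gf κ (2 * ε) (Gm θ s - Gm θ t) = Gf κ (2 * ε) (Gm θ t - Gm θ s) := by
    rw [← Gf_even, neg_sub]
  rw [h4, ← h3]
  ring

end

end Pool.Agent.T2H10.WB
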