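import Pool.Agent.T2H10.WB.Stm

/-! # Package FGH: the one-dimensional resolvent -/

set_option autoImplicit false

open MeasureTheory Set Filter Topology

namespace Pool.Agent.T2H10.WB

noncomputable section

namespace FGH

lemma exp_int {c : ℝ} (hc : 0 < c) : Integrable (fun s : ℝ => Real.exp (-(c * |s|))) := by
  have h1 : IntegrableOn (fun s : ℝ => Real.exp (-(c * |s|))) (Ioi 0) := by
    refine (exp_neg_integrableOn_Ioi 0 hc).congr_fun (fun s hs => ?_) measurableSet_Ioi
    simp only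
    rw [abs_of_pos (mem_Ioi.1 hs), neg_mul]
  have h2 : IntegrableOn (fun s : ℝ => Real.exp (-(c * |s|))) (Iic 0) := by
    have h3 : IntegrableOn (fun s : ℝ => Real.exp (c * s)) (Iic 0) :=
      integrableOn_exp_mul_Iic hc 0
    refine h3.congr_fun (fun s hs => ?_) measurableSet_Iic
    simp only
    rw [abs_of_nonpos (mem_Iic.1 hs)]
    congr 1
    ring
  rw [← integrableOn_univ, ← Iic_union_Ioi (a := (0 : ℝ))]
  exact h2.union h1

/-- products of functions with exponential decay are integrable -/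
lemma prod_int {u v : ℝ → ℝ} (hu : Continuous u) (hv : Continuous v) {C D c d : ℝ} (hc : 0 < c)
    (hd : 0 < d) (h1 : ∀ s, |u s| ≤ C * Real.exp (-(c * |s|)))
    (h2 : ∀ s, |v s| ≤ D * Real.exp (-(d * |s|))) : Integrable (fun s => u s * v s) := by
  have hC : 0 ≤ C := by
    have := (abs_nonneg _).trans (h1 0)
    simpa using this
  refine ((exp_int hd).const_mul (C * D)).mono' (hu.mul hv).aestronglyMeasurable
    (ae_of_all _ fun s => ?_)
  rw [Real.norm_eq_abs, abs_mul]
  have h3 : Real.exp (-(c * |s|)) ≤ 1 := Real.exp_le_one_iff.2 (by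
    have := mul_nonneg hc.le (abs_nonneg s)
    linarith)
  have h4 : |u s| ≤ C := (h1 s).trans (by nlinarith)
  calc |u s| * |v s| ≤ C * (D * Real.exp (-(d * |s|))) :=
        mul_le_mul h4 (h2 s) (abs_nonneg _) hC
    _ = _ := by ring

section

variable {κ : ℝ} {φ : ℝ → ℝ}

/-- left part -/
def P (κ : ℝ) (φ : ℝ → ℝ) (s : ℝ) : ℝ := ∫ t in Iic s, Real.exp (κ * t) * φ t

/-- right part -/
def Q (κ : ℝ) (φ : ℝ → ℝ) (s : ℝ) : ℝ := ∫ t in Ioi s, Real.exp (-(κ * t)) * φ t

/-- solution -/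
def F (κ : ℝ) (φ : ℝ → ℝ) (s : ℝ) : ℝ :=
  1 / (2 * κ) * (Real.exp (-(κ * s)) * P κ φ s + Real.exp (κ * s) * Q κ φ s)

/-- its derivative -/
def D (κ : ℝ) (φ : ℝ → ℝ) (s : ℝ) : ℝ :=
  1 / 2 * (-(Real.exp (-(κ * s)) * P κ φ s) + Real.exp (κ * s) * Q κ φ s)

lemma int1 (κ : ℝ) (hφ : Continuous φ) (hs : HasCompactSupport φ) :
    Integrable (fun t => Real.exp (κ * t) * φ t) := by
  have h1 : Continuous fun t => Real.exp (κ * t) * φ t := by fun_prop
  exact h1.integrable_of_hasCompactSupport hs.mul_left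

lemma int2 (κ : ℝ) (hφ : Continuous φ) (hs : HasCompactSupport φ) :
    Integrable (fun t => Real.exp (-(κ * t)) * φ t) := by
  have h1 : Continuous fun t => Real.exp (-(κ * t)) * φ t := by fun_prop
  exact h1.integrable_of_hasCompactSupport hs.mul_left

lemma dP (κ : ℝ) (hφ : Continuous φ) (hs : HasCompactSupport φ) (s : ℝ) :
    HasDerivAt (P κ φ) (Real.exp (κ * s) * φ s) s := by
  have h1 : Continuous fun t => Real.exp (κ * t) * φ t := by fun_prop
  have h2 : P κ φ = fun u => (∫ t in Iic 0, Real.exp (κ * t) * φ t) +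
      ∫ t in (0 : ℝ)..u, Real.exp (κ * t) * φ t := by
    funext u
    have := intervalIntegral.integral_Iic_sub_Iic (a := 0) (b := u) (int1 κ hφ hs).integrableOn
      (int1 κ hφ hs).integrableOn
    unfold P
    linarith
  rw [h2]
  exact (h1.integral_hasStrictDerivAt 0 s).hasDerivAt.const_add _

lemma dQ (κ : ℝ) (hφ : Continuous φ) (hs : HasCompactSupport φ) (s : ℝ) :
    HasDerivAt (Q κ φ) (-(Real.exp (-(κ * s)) * φ s)) s := by
  have h1 : Continuous fun t => Real.exp (-(κ * t)) * φ t := by fun_prop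
  have h2 : Q κ φ = fun u => (∫ t, Real.exp (-(κ * t)) * φ t) -
      ((∫ t in Iic 0, Real.exp (-(κ * t)) * φ t) +
      ∫ t in (0 : ℝ)..u, Real.exp (-(κ * t)) * φ t) := by
    funext u
    have h3 := intervalIntegral.integral_Iic_sub_Iic (a := 0) (b := u)
      (int2 κ hφ hs).integrableOn (int2 κ hφ hs).integrableOn
    have h4 := intervalIntegral.integral_Iic_add_Ioi (b := u) (int2 κ hφ hs).integrableOn
      (int2 κ hφ hs).integrableOn
    unfold Q
    linarith
  rw [h2]
  exact ((h1.integral_hasStrictDerivAt 0 s).hasDerivAt.const_add _).const_sub _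

lemma dF (hκ : 0 < κ) (hφ : Continuous φ) (hs : HasCompactSupport φ) (s : ℝ) :
    HasDerivAt (F κ φ) (D κ φ s) s := by
  have h1 : HasDerivAt (fun s => Real.exp (-(κ * s))) (Real.exp (-(κ * s)) * -(κ * 1)) s :=
    (((hasDerivAt_id s).const_mul κ).neg).exp
  have h2 : HasDerivAt (fun s => Real.exp (κ * s)) (Real.exp (κ * s) * (κ * 1)) s :=
    ((hasDerivAt_id s).const_mul κ).exp
  have h3 := ((h1.mul (dP κ hφ hs s)).add (h2.mul (dQ κ hφ hs s))).const_mul (1 / (2 * κ))
  have h4 : Real.exp (-(κ * s)) * Real.exp (κ * s) = 1 := by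
    rw [← Real.exp_add]
    simp
  refine h3.congr_deriv ?_
  unfold D
  have h5 : κ ≠ 0 := hκ.ne'
  field_simp
  linear_combination (0 : ℝ) * h4

lemma dD (hκ : 0 < κ) (hφ : Continuous φ) (hs : HasCompactSupport φ) (s : ℝ) :
    HasDerivAt (D κ φ) (κ ^ 2 * F κ φ s - φ s) s := by
  have h1 : HasDerivAt (fun s => Real.exp (-(κ * s))) (Real.exp (-(κ * s)) * -(κ * 1)) s :=
    (((hasDerivAt_id s).const_mul κ).neg).exp
  have h2 : HasDerivAt (fun s => Real.exp (κ * s)) (Real.exp (κ * s) * (κ * 1)) s :=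
    ((hasDerivAt_id s).const_mul κ).exp
  have h3 := ((h1.mul (dP κ hφ hs s)).neg.add (h2.mul (dQ κ hφ hs s))).const_mul (1 / 2)
  have h4 : Real.exp (-(κ * s)) * Real.exp (κ * s) = 1 := by
    rw [← Real.exp_add]
    simp
  refine h3.congr_deriv ?_
  unfold F
  have h5 : κ ≠ 0 := hκ.ne'
  field_simp
  linear_combination (-2 * φ s) * h4

/-- the kernel formula -/
lemma kern (hκ : 0 < κ) (hφ : Continuous φ) (hs : HasCompactSupport φ) (s : ℝ) :
    ∫ t, φ t * (Real.exp (-(κ * |s - t|)) / (2 * κ)) = F κ φ s := by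
  have hI : Integrable (fun t => φ t * (Real.exp (-(κ * |s - t|)) / (2 * κ))) := by
    have h1 : Continuous fun t => φ t * (Real.exp (-(κ * |s - t|)) / (2 * κ)) := by fun_prop
    exact h1.integrable_of_hasCompactSupport hs.mul_right
  rw [← intervalIntegral.integral_Iic_add_Ioi (b := s) hI.integrableOn hI.integrableOn]
  have h1 : ∫ t in Iic s, φ t * (Real.exp (-(κ * |s - t|)) / (2 * κ)) =
      Real.exp (-(κ * s)) / (2 * κ) * P κ φ s := by
    unfold P
    rw [← integral_const_mul]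
    refine setIntegral_congr_fun measurableSet_Iic fun t ht => ?_
    have h2 : |s - t| = s - t := abs_of_nonneg (sub_nonneg.2 (mem_Iic.1 ht))
    rw [h2, show -(κ * (s - t)) = -(κ * s) + κ * t by ring, Real.exp_add]
    ring
  have h2 : ∫ t in Ioi s, φ t * (Real.exp (-(κ * |s - t|)) / (2 * κ)) =
      Real.exp (κ * s) / (2 * κ) * Q κ φ s := by
    unfold Q
    rw [← integral_const_mul]
    refine setIntegral_congr_fun measurableSet_Ioi fun t ht => ?_
    have h2 : |s - t| = t - s := by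
      rw [abs_of_nonpos (sub_nonpos.2 (mem_Ioi.1 ht).le)]
      ring
    rw [h2, show -(κ * (t - s)) = κ * s + -(κ * t) by ring, Real.exp_add]
    ring
  rw [h1, h2]
  unfold F
  ring

/-- the constant -/
def M (κ : ℝ) (φ : ℝ → ℝ) : ℝ := ∫ t, Real.exp (κ * |t|) * |φ t|

lemma intM (κ : ℝ) (hφ : Continuous φ) (hs : HasCompactSupport φ) :
    Integrable (fun t => Real.exp (κ * |t|) * |φ t|) := by
  have h1 : Continuous fun t => Real.exp (κ * |t|) * |φ t| := by fun_prop
  exact h1.integrable_of_hasCompactSupport (hs.abs.mul_left)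

lemma bP (hκ : 0 < κ) (hφ : Continuous φ) (hs : HasCompactSupport φ) (s : ℝ) :
    |Real.exp (-(κ * s)) * P κ φ s| ≤ M κ φ * Real.exp (-(κ * |s|)) := by
  unfold P M
  rw [← integral_const_mul, ← integral_mul_const]
  refine (abs_integral_le_integral_abs).trans ?_
  refine (setIntegral_mono_on (((int1 κ hφ hs).const_mul _).abs.integrableOn)
    (((intM κ hφ hs).mul_const _).integrableOn) measurableSet_Iic fun t ht => ?_).trans
    (setIntegral_le_integral ((intM κ hφ hs).mul_const _) (ae_of_all _ fun t => by positivity))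
  rw [← mul_assoc, ← Real.exp_add, abs_mul, abs_of_pos (Real.exp_pos _), mul_right_comm,
    ← Real.exp_add]
  refine mul_le_mul_of_nonneg_right (Real.exp_le_exp.2 ?_) (abs_nonneg _)
  have h1 : |s| ≤ |t| + (s - t) := by
    have h2 : |s| ≤ |t| + |s - t| := by
      have := abs_add_le t (s - t)
      simpa using this
    rwa [abs_of_nonneg (sub_nonneg.2 (mem_Iic.1 ht))] at h2
  nlinarith [mul_le_mul_of_nonneg_left h1 hκ.le]

lemma bQ (hκ : 0 < κ) (hφ : Continuous φ) (hs : HasCompactSupport φ) (s : ℝ) :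
    |Real.exp (κ * s) * Q κ φ s| ≤ M κ φ * Real.exp (-(κ * |s|)) := by
  unfold Q M
  rw [← integral_const_mul, ← integral_mul_const]
  refine (abs_integral_le_integral_abs).trans ?_
  refine (setIntegral_mono_on (((int2 κ hφ hs).const_mul _).abs.integrableOn)
    (((intM κ hφ hs).mul_const _).integrableOn) measurableSet_Ioi fun t ht => ?_).trans
    (setIntegral_le_integral ((intM κ hφ hs).mul_const _) (ae_of_all _ fun t => by positivity))
  rw [← mul_assoc, ← Real.exp_add, abs_mul, abs_of_pos (Real.exp_pos _), mul_right_comm,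
    ← Real.exp_add]
  refine mul_le_mul_of_nonneg_right (Real.exp_le_exp.2 ?_) (abs_nonneg _)
  have h1 : |s| ≤ |t| + (t - s) := by
    have h2 : |s| ≤ |t| + |s - t| := by
      have := abs_add_le t (s - t)
      simpa using this
    rwa [abs_of_nonpos (sub_nonpos.2 (mem_Ioi.1 ht).le), neg_sub] at h2
  nlinarith [mul_le_mul_of_nonneg_left h1 hκ.le]

end

end FGH

open FGH in
theorem pFGH : S_FGH := by
  intro κ φ hκ1 hφ hs
  have hκ : 0 < κ := by linarith
  have hM0 : 0 ≤ M κ φ := integral_nonneg fun t => by positivity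
  -- decay
  have hF : ∀ s, |F κ φ s| ≤ (M κ φ + 1) * Real.exp (-(κ * |s|)) := by
    intro s
    have h1 := bP hκ hφ hs s
    have h2 := bQ hκ hφ hs s
    have h3 := Real.exp_pos (-(κ * |s|))
    unfold F
    rw [abs_mul, abs_of_pos (by positivity : 0 < 1 / (2 * κ))]
    have h4 : 1 / (2 * κ) ≤ 1 / 2 := by
      apply one_div_le_one_div_of_le <;> linarith
    have h5 : |Real.exp (-(κ * s)) * P κ φ s + Real.exp (κ * s) * Q κ φ s| ≤
        2 * (M κ φ * Real.exp (-(κ * |s|))) := (abs_add_le _ _).trans (by linarith)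
    calc 1 / (2 * κ) * |Real.exp (-(κ * s)) * P κ φ s + Real.exp (κ * s) * Q κ φ s|
        ≤ 1 / 2 * (2 * (M κ φ * Real.exp (-(κ * |s|)))) :=
          mul_le_mul h4 h5 (abs_nonneg _) (by norm_num)
      _ ≤ (M κ φ + 1) * Real.exp (-(κ * |s|)) := by nlinarith
  have hD : ∀ s, |D κ φ s| ≤ (M κ φ + 1) * Real.exp (-(κ * |s|)) := by
    intro s
    have h1 := bP hκ hφ hs s
    have h2 := bQ hκ hφ hs s
    have h3 := Real.exp_pos (-(κ * |s|))
    unfold D
    rw [abs_mul, abs_of_pos (by norm_num : (0 : ℝ) < 1 / 2)]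
    have h5 : |-(Real.exp (-(κ * s)) * P κ φ s) + Real.exp (κ * s) * Q κ φ s| ≤
        2 * (M κ φ * Real.exp (-(κ * |s|))) := (abs_add_le _ _).trans (by
          rw [abs_neg]
          linarith)
    nlinarith
  have hφd : ∃ C c : ℝ, 0 < C ∧ 0 < c ∧ ∀ s, |φ s| ≤ C * Real.exp (-(c * |s|)) := by
    obtain ⟨B, hB⟩ : ∃ B, ∀ s, |Real.exp (1 * |s|) * φ s| ≤ B := by
      have h1 : Continuous fun s => Real.exp (1 * |s|) * φ s := by fun_prop
      have h2 : HasCompactSupport fun s => Real.exp (1 * |s|) * φ s := hs.mul_left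
      obtain ⟨B, hB⟩ := h2.exists_bound_of_continuous h1
      exact ⟨B, fun s => by simpa [Real.norm_eq_abs] using hB s⟩
    refine ⟨|B| + 1, 1, by positivity, one_pos, fun s => ?_⟩
    have h3 := (hB s).trans (le_abs_self B)
    rw [abs_mul, abs_of_pos (Real.exp_pos _)] at h3
    have h4 : Real.exp (1 * |s|) * Real.exp (-(1 * |s|)) = 1 := by
      rw [← Real.exp_add]
      simp
    have h5 := Real.exp_pos (-(1 * |s|))
    calc |φ s| = (Real.exp (1 * |s|) * |φ s|) * Real.exp (-(1 * |s|)) := by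
          linear_combination (-|φ s|) * h4
      _ ≤ (|B| + 1) * Real.exp (-(1 * |s|)) :=
          mul_le_mul_of_nonneg_right (by linarith) h5.le
  have hFG : FG κ φ (F κ φ) (D κ φ) :=
    { ed := ⟨hφ, hφd⟩
      df := dF hκ hφ hs
      dg := dD hκ hφ hs
      dec := ⟨M κ φ + 1, κ, by linarith, hκ, fun s => ⟨hF s, hD s⟩⟩ }
  have hFc : Continuous (F κ φ) := continuous_iff_continuousAt.2 fun s => (dF hκ hφ hs s).continuousAt
  have hDc : Continuous (D κ φ) := continuous_iff_continuousAt.2 fun s => (dD hκ hφ hs s).continuousAt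
  refine ⟨F κ φ, D κ φ, hFG, ?_, ?_⟩
  · refine integral_congr_ae (ae_of_all _ fun s => ?_)
    simp only
    rw [← kern hκ hφ hs s, ← integral_const_mul]
    refine integral_congr_ae (ae_of_all _ fun t => ?_)
    simp only
    ring
  · obtain ⟨C, c, hC, hc, hφb⟩ := hφd
    -- the function `h = κ² f - φ`
    set h : ℝ → ℝ := fun s => κ ^ 2 * F κ φ s - φ s with hh
    have hhc : Continuous h := by fun_prop
    have hhb : ∀ s, |h s| ≤ (κ ^ 2 * (M κ φ + 1) + C) * Real.exp (-(min κ c * |s|)) := by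
      intro s
      have h1 : Real.exp (-(κ * |s|)) ≤ Real.exp (-(min κ c * |s|)) :=
        Real.exp_le_exp.2 (neg_le_neg (mul_le_mul_of_nonneg_right (min_le_left _ _) (abs_nonneg _)))
      have h2 : Real.exp (-(c * |s|)) ≤ Real.exp (-(min κ c * |s|)) :=
        Real.exp_le_exp.2 (neg_le_neg (mul_le_mul_of_nonneg_right (min_le_right _ _) (abs_nonneg _)))
      have h3 : |h s| ≤ κ ^ 2 * |F κ φ s| + |φ s| := by
        have h4 := abs_sub (κ ^ 2 * F κ φ s) (φ s)
        rwa [abs_mul, abs_of_pos (by positivity : 0 < κ ^ 2)] at h4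
      have h5 := hF s
      have h6 := hφb s
      have h7 : (M κ φ + 1) * Real.exp (-(κ * |s|)) ≤
          (M κ φ + 1) * Real.exp (-(min κ c * |s|)) :=
        mul_le_mul_of_nonneg_left h1 (by linarith)
      have h8 : C * Real.exp (-(c * |s|)) ≤ C * Real.exp (-(min κ c * |s|)) :=
        mul_le_mul_of_nonneg_left h2 hC.le
      have h9 : κ ^ 2 * |F κ φ s| ≤ κ ^ 2 * ((M κ φ + 1) * Real.exp (-(min κ c * |s|))) :=
        mul_le_mul_of_nonneg_left (h5.trans h7) (by positivity)
      nlinarith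
    have hmin : 0 < min κ c := lt_min hκ hc
    have iFF := prod_int hFc hFc hκ hκ hF hF
    have iFD := prod_int hFc hDc hκ hκ hF hD
    have iDD := prod_int hDc hDc hκ hκ hD hD
    have iFh := prod_int hFc hhc hκ hmin hF hhb
    have ihh := prod_int hhc hhc hmin hmin hhb hhb
    have iφφ := prod_int hφ hφ hc hc hφb hφb
    have iφF := prod_int hφ hFc hc hκ hφb hF
    have hibp : ∫ s, F κ φ s * h s = -∫ s, D κ φ s * D κ φ s :=
      integral_mul_deriv_eq_deriv_mul_of_integrable
        (fun s _ => dF hκ hφ hs s) (fun s _ => dD hκ hφ hs s) iFh iDD iFD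
    have hmain : (∫ s, φ s ^ 2) - (∫ s, φ s * F κ φ s) =
        κ ^ 2 * (κ ^ 2 - 1) * (∫ s, F κ φ s ^ 2) - (2 * κ ^ 2 - 1) * (∫ s, F κ φ s * h s) +
          ∫ s, h s ^ 2 := by
      simp only [pow_two (φ _), pow_two (F κ φ _), pow_two (h _)]
      have e1 : Integrable (fun s => κ ^ 2 * (κ ^ 2 - 1) * (F κ φ s * F κ φ s) -
          (2 * κ ^ 2 - 1) * (F κ φ s * h s)) := (iFF.const_mul _).sub (iFh.const_mul _)
      rw [← integral_sub iφφ iφF, ← integral_const_mul, ← integral_const_mul,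
        ← integral_sub (iFF.const_mul _) (iFh.const_mul _), ← integral_add e1 ihh]
      refine integral_congr_ae (ae_of_all _ fun s => ?_)
      simp only [hh]
      ring
    rw [hmain, hibp]
    simp only [pow_two (D κ φ _)]
    ring

end

end Pool.Agent.T2H10.WB
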