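import Pool.Agent.T2H10.WB.Stm

/-!
# GDE: the regularised Green function is `C¹` and decays
-/

open MeasureTheory Set Filter Topology

namespace Pool.Agent.T2H10.WB

noncomputable section

namespace GDE

/-- integrands -/
def g0 (κ : ℝ) (z : ℝ × ℝ) (τ : ℝ) : ℝ := Real.exp (-(κ ^ 2 * τ)) * pp τ z
def g1 (κ : ℝ) (z : ℝ × ℝ) (τ : ℝ) : ℝ := Real.exp (-(κ ^ 2 * τ)) * (-(z.1 / (2 * τ)) * pp τ z)
def g2 (κ : ℝ) (z : ℝ × ℝ) (τ : ℝ) : ℝ := Real.exp (-(κ ^ 2 * τ)) * (-(z.2 / (2 * τ)) * pp τ z)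

lemma amgm (κ τ x y : ℝ) (hτ : 0 < τ) :
    κ / 4 * (|x| + |y|) ≤ κ ^ 2 / 2 * τ + (x ^ 2 + y ^ 2) / (8 * τ) := by
  have h1 : (|x| + |y|) ^ 2 ≤ 2 * (x ^ 2 + y ^ 2) := by
    nlinarith [sq_nonneg (|x| - |y|), sq_abs x, sq_abs y]
  have h2 : (|x| + |y|) ^ 2 / (16 * τ) ≤ (x ^ 2 + y ^ 2) / (8 * τ) := by
    rw [div_le_div_iff₀ (by positivity) (by positivity)]
    nlinarith
  have h3 : κ ^ 2 / 2 * τ + (|x| + |y|) ^ 2 / (16 * τ) - κ / 4 * (|x| + |y|) =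
      ((|x| + |y| - 2 * κ * τ) ^ 2 + 4 * κ ^ 2 * τ ^ 2) / (16 * τ) := by
    field_simp
    ring
  have h4 : 0 ≤ ((|x| + |y| - 2 * κ * τ) ^ 2 + 4 * κ ^ 2 * τ ^ 2) / (16 * τ) := by positivity
  linarith

lemma main (κ ε τ : ℝ) (z : ℝ × ℝ) (hε : 0 < ε) (hτ : ε < τ) (c K : ℝ)
    (hc : |c| * Real.exp (-((z.1 ^ 2 + z.2 ^ 2) / (8 * τ))) ≤ K) :
    |Real.exp (-(κ ^ 2 * τ)) * (c * pp τ z)| ≤
      K / (4 * Real.pi * ε) * Real.exp (-(κ / 4 * (|z.1| + |z.2|))) * Real.exp (-(κ ^ 2 / 2 * τ)) := by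
  have hτ0 : 0 < τ := hε.trans hτ
  have hK : 0 ≤ K := le_trans (by positivity) hc
  have e1 : |Real.exp (-(κ ^ 2 * τ)) * (c * pp τ z)| =
      Real.exp (-(κ ^ 2 / 2 * τ)) * Real.exp (-(κ ^ 2 / 2 * τ + (z.1 ^ 2 + z.2 ^ 2) / (8 * τ))) *
        ((|c| * Real.exp (-((z.1 ^ 2 + z.2 ^ 2) / (8 * τ)))) / (4 * Real.pi * τ)) := by
    have e2 : Real.exp (-(κ ^ 2 * τ)) * Real.exp (-((z.1 ^ 2 + z.2 ^ 2) / (4 * τ))) =
        Real.exp (-(κ ^ 2 / 2 * τ)) * Real.exp (-(κ ^ 2 / 2 * τ + (z.1 ^ 2 + z.2 ^ 2) / (8 * τ))) *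
        Real.exp (-((z.1 ^ 2 + z.2 ^ 2) / (8 * τ))) := by
      rw [← Real.exp_add, ← Real.exp_add, ← Real.exp_add]
      congr 1
      field_simp
      ring
    unfold pp
    rw [abs_mul, abs_mul, abs_of_pos (Real.exp_pos _), abs_of_pos (by positivity :
      0 < Real.exp (-((z.1 ^ 2 + z.2 ^ 2) / (4 * τ))) / (4 * Real.pi * τ))]
    calc Real.exp (-(κ ^ 2 * τ)) * (|c| * (Real.exp (-((z.1 ^ 2 + z.2 ^ 2) / (4 * τ))) / (4 * Real.pi * τ)))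
        = (Real.exp (-(κ ^ 2 * τ)) * Real.exp (-((z.1 ^ 2 + z.2 ^ 2) / (4 * τ)))) * |c| /
            (4 * Real.pi * τ) := by ring
      _ = _ := by rw [e2]; ring
  rw [e1]
  have h1 : Real.exp (-(κ ^ 2 / 2 * τ + (z.1 ^ 2 + z.2 ^ 2) / (8 * τ))) ≤
      Real.exp (-(κ / 4 * (|z.1| + |z.2|))) := by
    apply Real.exp_le_exp.mpr
    have := amgm κ τ z.1 z.2 hτ0
    linarith
  have h2 : (|c| * Real.exp (-((z.1 ^ 2 + z.2 ^ 2) / (8 * τ)))) / (4 * Real.pi * τ) ≤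
      K / (4 * Real.pi * ε) := by
    apply div_le_div₀ hK hc (by positivity)
    have := Real.pi_pos
    nlinarith
  calc Real.exp (-(κ ^ 2 / 2 * τ)) * Real.exp (-(κ ^ 2 / 2 * τ + (z.1 ^ 2 + z.2 ^ 2) / (8 * τ))) *
        ((|c| * Real.exp (-((z.1 ^ 2 + z.2 ^ 2) / (8 * τ)))) / (4 * Real.pi * τ))
      ≤ Real.exp (-(κ ^ 2 / 2 * τ)) * Real.exp (-(κ / 4 * (|z.1| + |z.2|))) *
        (K / (4 * Real.pi * ε)) := by
        apply mul_le_mul (mul_le_mul_of_nonneg_left h1 (Real.exp_pos _).le) h2 (by positivity)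
          (by positivity)
    _ = _ := by ring

/-- the constant -/
def MM (ε : ℝ) : ℝ := (3 + 1 / (4 * ε)) / (4 * Real.pi * ε)

lemma MM_pos (ε : ℝ) (hε : 0 < ε) : 0 < MM ε := by unfold MM; positivity

lemma b0 (κ ε τ : ℝ) (z : ℝ × ℝ) (hε : 0 < ε) (hτ : ε < τ) :
    |g0 κ z τ| ≤ MM ε * Real.exp (-(κ / 4 * (|z.1| + |z.2|))) * Real.exp (-(κ ^ 2 / 2 * τ)) := by
  have hτ0 : 0 < τ := hε.trans hτ
  have h := main κ ε τ z hε hτ 1 (3 + 1 / (4 * ε)) (by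
    rw [abs_one, one_mul]
    have h1 : Real.exp (-((z.1 ^ 2 + z.2 ^ 2) / (8 * τ))) ≤ 1 := by
      rw [Real.exp_le_one_iff]
      have : 0 ≤ (z.1 ^ 2 + z.2 ^ 2) / (8 * τ) := by positivity
      linarith
    have h2 : 0 < 1 / (4 * ε) := by positivity
    linarith)
  rw [one_mul] at h
  exact h

lemma b12 (ε τ x y : ℝ) (hε : 0 < ε) (hτ : ε < τ) :
    |-(x / (2 * τ))| * Real.exp (-((x ^ 2 + y ^ 2) / (8 * τ))) ≤ 3 + 1 / (4 * ε) := by
  have hτ0 : 0 < τ := hε.trans hτ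
  set u : ℝ := (x ^ 2 + y ^ 2) / (8 * τ) with hu
  have hu0 : 0 ≤ u := by positivity
  have h1 : |-(x / (2 * τ))| ≤ 1 / (4 * ε) + 2 * u := by
    rw [abs_neg, abs_div, abs_of_pos (by positivity : (0 : ℝ) < 2 * τ)]
    have h2 : |x| ≤ (1 + x ^ 2) / 2 := by
      nlinarith [sq_nonneg (|x| - 1), sq_abs x]
    have h3 : |x| / (2 * τ) ≤ 1 / (4 * τ) + x ^ 2 / (4 * τ) := by
      have : 1 / (4 * τ) + x ^ 2 / (4 * τ) = ((1 + x ^ 2) / 2) / (2 * τ) := by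
        field_simp
        ring
      rw [this]
      exact div_le_div_of_nonneg_right h2 (by positivity)
    have h4 : 1 / (4 * τ) ≤ 1 / (4 * ε) :=
      one_div_le_one_div_of_le (by positivity) (by linarith)
    have h5 : x ^ 2 / (4 * τ) ≤ 2 * u := by
      have : 2 * u = (x ^ 2 + y ^ 2) / (4 * τ) := by
        rw [hu]; field_simp; ring
      rw [this]
      exact div_le_div_of_nonneg_right (by nlinarith [sq_nonneg y]) (by positivity)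
    linarith
  have h6 : Real.exp (-u) ≤ 1 := by
    rw [Real.exp_le_one_iff]; linarith
  have h7 : u * Real.exp (-u) ≤ 1 := by
    have h8 : u ≤ Real.exp u := by
      have := Real.add_one_le_exp u
      linarith
    calc u * Real.exp (-u) ≤ Real.exp u * Real.exp (-u) :=
          mul_le_mul_of_nonneg_right h8 (Real.exp_pos _).le
      _ = 1 := by rw [← Real.exp_add, add_neg_cancel, Real.exp_zero]
  calc |-(x / (2 * τ))| * Real.exp (-u) ≤ (1 / (4 * ε) + 2 * u) * Real.exp (-u) :=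
        mul_le_mul_of_nonneg_right h1 (Real.exp_pos _).le
    _ = 1 / (4 * ε) * Real.exp (-u) + 2 * (u * Real.exp (-u)) := by ring
    _ ≤ 1 / (4 * ε) * 1 + 2 * 1 := by
        have : 0 < 1 / (4 * ε) := by positivity
        nlinarith
    _ ≤ 3 + 1 / (4 * ε) := by linarith

lemma b1 (κ ε τ : ℝ) (z : ℝ × ℝ) (hε : 0 < ε) (hτ : ε < τ) :
    |g1 κ z τ| ≤ MM ε * Real.exp (-(κ / 4 * (|z.1| + |z.2|))) * Real.exp (-(κ ^ 2 / 2 * τ)) :=
  main κ ε τ z hε hτ _ _ (b12 ε τ z.1 z.2 hε hτ)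

lemma b2 (κ ε τ : ℝ) (z : ℝ × ℝ) (hε : 0 < ε) (hτ : ε < τ) :
    |g2 κ z τ| ≤ MM ε * Real.exp (-(κ / 4 * (|z.1| + |z.2|))) * Real.exp (-(κ ^ 2 / 2 * τ)) :=
  main κ ε τ z hε hτ _ _ (by
    have := b12 ε τ z.2 z.1 hε hτ
    rwa [add_comm (z.2 ^ 2)] at this)

lemma intexp (κ ε : ℝ) (hκ : 0 < κ) :
    Integrable (fun τ => Real.exp (-(κ ^ 2 / 2 * τ))) (volume.restrict (Ioi ε)) := by
  have h := integrableOn_exp_mul_Ioi (a := -(κ ^ 2 / 2)) (by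
    have : 0 < κ ^ 2 / 2 := by positivity
    linarith) ε
  unfold IntegrableOn at h
  simpa only [neg_mul] using h

lemma m0 (κ : ℝ) (z : ℝ × ℝ) : Measurable (g0 κ z) := by
  unfold g0 pp
  fun_prop

lemma m1 (κ : ℝ) (z : ℝ × ℝ) : Measurable (g1 κ z) := by
  unfold g1 pp
  fun_prop

lemma m2 (κ : ℝ) (z : ℝ × ℝ) : Measurable (g2 κ z) := by
  unfold g2 pp
  fun_prop

/-- derivative of the integrand -/
def F' (κ : ℝ) (z : ℝ × ℝ) (τ : ℝ) : ℝ × ℝ →L[ℝ] ℝ :=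
  g1 κ z τ • ContinuousLinearMap.fst ℝ ℝ ℝ + g2 κ z τ • ContinuousLinearMap.snd ℝ ℝ ℝ

lemma hder (κ : ℝ) (z : ℝ × ℝ) (τ : ℝ) (hτ : 0 < τ) :
    HasFDerivAt (fun z => g0 κ z τ) (F' κ z τ) z := by
  have h1 : HasFDerivAt (fun z : ℝ × ℝ => z.1) (ContinuousLinearMap.fst ℝ ℝ ℝ) z := hasFDerivAt_fst
  have h2 : HasFDerivAt (fun z : ℝ × ℝ => z.2) (ContinuousLinearMap.snd ℝ ℝ ℝ) z := hasFDerivAt_snd
  have h3 := ((((h1.pow 2).add (h2.pow 2)).const_mul (-(1 / (4 * τ)))).exp).const_mul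
    (Real.exp (-(κ ^ 2 * τ)) * (1 / (4 * Real.pi * τ)))
  have e : (fun z => g0 κ z τ) = fun z : ℝ × ℝ => Real.exp (-(κ ^ 2 * τ)) * (1 / (4 * Real.pi * τ)) *
      Real.exp (-(1 / (4 * τ)) * (z.1 ^ 2 + z.2 ^ 2)) := by
    funext w
    unfold g0 pp
    rw [show -((w.1 ^ 2 + w.2 ^ 2) / (4 * τ)) = -(1 / (4 * τ)) * (w.1 ^ 2 + w.2 ^ 2) by ring]
    ring
  rw [e]
  refine h3.congr_fderiv ?_
  apply ContinuousLinearMap.ext
  intro v
  unfold F' g1 g2 pp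
  rw [show -((z.1 ^ 2 + z.2 ^ 2) / (4 * τ)) = -(1 / (4 * τ)) * (z.1 ^ 2 + z.2 ^ 2) by ring]
  simp only [Pi.add_apply, ContinuousLinearMap.add_apply, ContinuousLinearMap.smul_apply,
    ContinuousLinearMap.coe_fst', ContinuousLinearMap.coe_snd', smul_eq_mul, nsmul_eq_mul]
  have hπ := Real.pi_pos.ne'
  field_simp
  push_cast
  ring

lemma normF' (κ ε τ : ℝ) (z : ℝ × ℝ) (hκ : 0 < κ) (hε : 0 < ε) (hτ : ε < τ) :
    ‖F' κ z τ‖ ≤ 2 * MM ε * Real.exp (-(κ ^ 2 / 2 * τ)) := by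
  have h0 : Real.exp (-(κ / 4 * (|z.1| + |z.2|))) ≤ 1 := by
    rw [Real.exp_le_one_iff]
    have : 0 ≤ κ / 4 * (|z.1| + |z.2|) := by positivity
    linarith
  have hM := MM_pos ε hε
  have hE := Real.exp_pos (-(κ ^ 2 / 2 * τ))
  have h3 : MM ε * Real.exp (-(κ / 4 * (|z.1| + |z.2|))) * Real.exp (-(κ ^ 2 / 2 * τ)) ≤
      MM ε * Real.exp (-(κ ^ 2 / 2 * τ)) := by
    apply mul_le_mul_of_nonneg_right _ hE.le
    nlinarith
  have h1 : ‖g1 κ z τ • ContinuousLinearMap.fst ℝ ℝ ℝ‖ ≤ |g1 κ z τ| := by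
    rw [norm_smul, Real.norm_eq_abs]
    exact mul_le_of_le_one_right (abs_nonneg _) (ContinuousLinearMap.norm_fst_le ℝ ℝ ℝ)
  have h2 : ‖g2 κ z τ • ContinuousLinearMap.snd ℝ ℝ ℝ‖ ≤ |g2 κ z τ| := by
    rw [norm_smul, Real.norm_eq_abs]
    exact mul_le_of_le_one_right (abs_nonneg _) (ContinuousLinearMap.norm_snd_le ℝ ℝ ℝ)
  have h4 := b1 κ ε τ z hε hτ
  have h5 := b2 κ ε τ z hε hτ
  calc ‖F' κ z τ‖ ≤ ‖g1 κ z τ • ContinuousLinearMap.fst ℝ ℝ ℝ‖ +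
        ‖g2 κ z τ • ContinuousLinearMap.snd ℝ ℝ ℝ‖ := norm_add_le _ _
    _ ≤ 2 * MM ε * Real.exp (-(κ ^ 2 / 2 * τ)) := by linarith

lemma int_of_bound (κ ε : ℝ) (z : ℝ × ℝ) (hκ : 0 < κ) (hε : 0 < ε) (g : ℝ → ℝ) (hm : Measurable g)
    (hb : ∀ τ, ε < τ → |g τ| ≤ MM ε * Real.exp (-(κ / 4 * (|z.1| + |z.2|))) *
      Real.exp (-(κ ^ 2 / 2 * τ))) : Integrable g (volume.restrict (Ioi ε)) := by
  refine Integrable.mono' ((intexp κ ε hκ).const_mul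
    (MM ε * Real.exp (-(κ / 4 * (|z.1| + |z.2|))))) hm.aestronglyMeasurable ?_
  filter_upwards [ae_restrict_mem measurableSet_Ioi] with τ hτ
  exact hb τ hτ

lemma est_of_bound (κ ε : ℝ) (z : ℝ × ℝ) (hκ : 0 < κ) (g : ℝ → ℝ)
    (hb : ∀ τ, ε < τ → |g τ| ≤ MM ε * Real.exp (-(κ / 4 * (|z.1| + |z.2|))) *
      Real.exp (-(κ ^ 2 / 2 * τ))) : |∫ τ in Ioi ε, g τ| ≤
      MM ε * Real.exp (-(κ / 4 * (|z.1| + |z.2|))) * ∫ τ in Ioi ε, Real.exp (-(κ ^ 2 / 2 * τ)) := by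
  rw [← integral_const_mul, ← Real.norm_eq_abs]
  refine norm_integral_le_of_norm_le ((intexp κ ε hκ).const_mul _) ?_
  filter_upwards [ae_restrict_mem measurableSet_Ioi] with τ hτ
  exact hb τ hτ

lemma cont_of (κ ε : ℝ) (hκ : 0 < κ) (hε : 0 < ε) (g : ℝ × ℝ → ℝ → ℝ) (hm : ∀ z, Measurable (g z))
    (hb : ∀ z τ, ε < τ → |g z τ| ≤ MM ε * Real.exp (-(κ / 4 * (|z.1| + |z.2|))) *
      Real.exp (-(κ ^ 2 / 2 * τ))) (hc : ∀ τ, 0 < τ → Continuous fun z => g z τ) :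
    Continuous fun z => ∫ τ in Ioi ε, g z τ := by
  refine MeasureTheory.continuous_of_dominated (F := g) (μ := volume.restrict (Ioi ε))
    (bound := fun τ => MM ε * Real.exp (-(κ ^ 2 / 2 * τ)))
    (fun z => (hm z).aestronglyMeasurable) (fun z => ?_) ((intexp κ ε hκ).const_mul _) ?_
  · filter_upwards [ae_restrict_mem measurableSet_Ioi] with τ hτ
    refine (hb z τ hτ).trans ?_
    have h0 : Real.exp (-(κ / 4 * (|z.1| + |z.2|))) ≤ 1 := by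
      rw [Real.exp_le_one_iff]
      have : 0 ≤ κ / 4 * (|z.1| + |z.2|) := by positivity
      linarith
    have hM := MM_pos ε hε
    apply mul_le_mul_of_nonneg_right _ (Real.exp_pos _).le
    nlinarith
  · filter_upwards [ae_restrict_mem measurableSet_Ioi] with τ hτ
    exact hc τ (hε.trans hτ)

end GDE

open GDE in
/-- GDE -/
theorem pGDE : S_GDE := by
  intro κ ε hκ hε
  have hfd : ∀ z, HasFDerivAt (Gf κ ε) (Gx κ ε z • ContinuousLinearMap.fst ℝ ℝ ℝ +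
      Gy κ ε z • ContinuousLinearMap.snd ℝ ℝ ℝ) z := by
    intro z
    have hF'm : ∀ z, AEStronglyMeasurable (F' κ z) (volume.restrict (Ioi ε)) := by
      intro z
      unfold F'
      exact ((m1 κ z).aestronglyMeasurable.smul_const _).add
        ((m2 κ z).aestronglyMeasurable.smul_const _)
    have h := hasFDerivAt_integral_of_dominated_of_fderiv_le (μ := volume.restrict (Ioi ε))
      (F := fun z τ => g0 κ z τ) (F' := fun z τ => F' κ z τ) (x₀ := z) (s := univ)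
      (bound := fun τ => 2 * MM ε * Real.exp (-(κ ^ 2 / 2 * τ))) univ_mem
      (Eventually.of_forall fun w => (m0 κ w).aestronglyMeasurable)
      (int_of_bound κ ε z hκ hε _ (m0 κ z) fun τ hτ => b0 κ ε τ z hε hτ)
      (hF'm z)
      (by
        filter_upwards [ae_restrict_mem measurableSet_Ioi] with τ hτ w _
        exact normF' κ ε τ w hκ hε hτ)
      ((intexp κ ε hκ).const_mul _)
      (by
        filter_upwards [ae_restrict_mem measurableSet_Ioi] with τ hτ w _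
        exact hder κ w τ (hε.trans hτ))
    have h1 : (∫ τ in Ioi ε, F' κ z τ) = Gx κ ε z • ContinuousLinearMap.fst ℝ ℝ ℝ +
        Gy κ ε z • ContinuousLinearMap.snd ℝ ℝ ℝ := by
      unfold F'
      have i1 := int_of_bound κ ε z hκ hε _ (m1 κ z) fun τ hτ => b1 κ ε τ z hε hτ
      have i2 := int_of_bound κ ε z hκ hε _ (m2 κ z) fun τ hτ => b2 κ ε τ z hε hτ
      rw [integral_add (i1.smul_const _) (i2.smul_const _), integral_smul_const,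
        integral_smul_const]
      rfl
    rw [h1] at h
    exact h
  have hx : ∀ z, DX (Gf κ ε) z = Gx κ ε z := by
    intro z
    unfold DX
    rw [(hfd z).fderiv]
    simp
  have hy : ∀ z, DY (Gf κ ε) z = Gy κ ε z := by
    intro z
    unfold DY
    rw [(hfd z).fderiv]
    simp
  have cx : Continuous (Gx κ ε) := cont_of κ ε hκ hε (fun z τ => g1 κ z τ) (m1 κ)
    (fun z τ hτ => b1 κ ε τ z hε hτ) (fun τ _ => by unfold g1 pp; fun_prop)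
  have cy : Continuous (Gy κ ε) := cont_of κ ε hκ hε (fun z τ => g2 κ z τ) (m2 κ)
    (fun z τ hτ => b2 κ ε τ z hε hτ) (fun τ _ => by unfold g2 pp; fun_prop)
  refine ⟨⟨?_, ?_⟩, fun z => ⟨hx z, hy z⟩⟩
  · rw [contDiff_one_iff_fderiv]
    refine ⟨fun z => (hfd z).differentiableAt, ?_⟩
    have e : fderiv ℝ (Gf κ ε) = fun z => Gx κ ε z • ContinuousLinearMap.fst ℝ ℝ ℝ +
      Gy κ ε z • ContinuousLinearMap.snd ℝ ℝ ℝ := funext fun z => (hfd z).fderiv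
    rw [e]
    exact (cx.smul continuous_const).add (cy.smul continuous_const)
  · set I : ℝ := ∫ τ in Ioi ε, Real.exp (-(κ ^ 2 / 2 * τ)) with hI
    have hI0 : 0 ≤ I := integral_nonneg fun τ => (Real.exp_pos _).le
    have hM := MM_pos ε hε
    have key : ∀ (z : ℝ × ℝ) (a : ℝ), |a| ≤ MM ε * Real.exp (-(κ / 4 * (|z.1| + |z.2|))) * I →
        |a| ≤ MM ε * (I + 1) * Real.exp (-(κ / 4 * (|z.1| + |z.2|))) := by
      intro z a ha
      refine ha.trans ?_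
      have := Real.exp_pos (-(κ / 4 * (|z.1| + |z.2|)))
      nlinarith [mul_pos hM this]
    refine ⟨MM ε * (I + 1), κ / 4, by positivity, by positivity, fun z => ⟨?_, ?_, ?_⟩⟩
    · exact key z _ (est_of_bound κ ε z hκ _ fun τ hτ => b0 κ ε τ z hε hτ)
    · rw [hx]
      exact key z _ (est_of_bound κ ε z hκ _ fun τ hτ => b1 κ ε τ z hε hτ)
    · rw [hy]
      exact key z _ (est_of_bound κ ε z hκ _ fun τ hτ => b2 κ ε τ z hε hτ)

end

end Pool.Agent.T2H10.WB
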