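import Pool.Agent.T2H10.WB.Stm

/-!
# Project WB, package SEM (helper55): the semigroup property of the heat kernel
-/

open MeasureTheory Set Filter Topology

namespace Pool.Agent.T2H10.WB

noncomputable section

namespace SEM

theorem int1 (b m : ℝ) : ∫ x : ℝ, Real.exp (-b * (x - m) ^ 2) = Real.sqrt (Real.pi / b) := by
  rw [integral_sub_right_eq_self (μ := volume) (fun x : ℝ => Real.exp (-b * x ^ 2)) m]
  exact integral_gaussian b

theorem integrable1 {b : ℝ} (hb : 0 < b) (m : ℝ) :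
    Integrable (fun x : ℝ => Real.exp (-b * (x - m) ^ 2)) :=
  (integrable_exp_neg_mul_sq hb).comp_sub_right m

/-- one dimensional convolution -/
theorem conv1 {τ σ : ℝ} (hτ : 0 < τ) (hσ : 0 < σ) (a b : ℝ) :
    ∫ x : ℝ, Real.exp (-((x - a) ^ 2 / (4 * τ))) * Real.exp (-((x - b) ^ 2 / (4 * σ))) =
      Real.exp (-((a - b) ^ 2 / (4 * (τ + σ)))) *
        Real.sqrt (Real.pi / ((τ + σ) / (4 * τ * σ))) := by
  rw [← int1 ((τ + σ) / (4 * τ * σ)) ((σ * a + τ * b) / (τ + σ)), ← integral_const_mul]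
  congr 1
  ext x
  rw [← Real.exp_add, ← Real.exp_add]
  congr 1
  have : τ + σ ≠ 0 := by positivity
  field_simp
  ring

theorem pp_eq (τ : ℝ) (z a : ℝ × ℝ) : pp τ (z - a) =
    (Real.exp (-((z.1 - a.1) ^ 2 / (4 * τ))) * Real.exp (-((z.2 - a.2) ^ 2 / (4 * τ)))) /
      (4 * Real.pi * τ) := by
  unfold pp
  rw [← Real.exp_add]
  congr 2
  simp only [Prod.fst_sub, Prod.snd_sub]
  ring

theorem conv2 {τ σ : ℝ} (hτ : 0 < τ) (hσ : 0 < σ) (a b : ℝ × ℝ) :
    ∫ z, pp τ (z - a) * pp σ (z - b) = pp (τ + σ) (a - b) := by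
  have h1 : ∀ z : ℝ × ℝ, pp τ (z - a) * pp σ (z - b) = (1 / (4 * Real.pi * τ * (4 * Real.pi * σ))) *
      ((Real.exp (-((z.1 - a.1) ^ 2 / (4 * τ))) * Real.exp (-((z.1 - b.1) ^ 2 / (4 * σ)))) *
      (Real.exp (-((z.2 - a.2) ^ 2 / (4 * τ))) * Real.exp (-((z.2 - b.2) ^ 2 / (4 * σ))))) := by
    intro z
    rw [pp_eq, pp_eq]
    field_simp
  have h2 := integral_prod_mul (μ := (volume : Measure ℝ)) (ν := (volume : Measure ℝ)) (L := ℝ)
    (fun x : ℝ => Real.exp (-((x - a.1) ^ 2 / (4 * τ))) * Real.exp (-((x - b.1) ^ 2 / (4 * σ))))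
    (fun x : ℝ => Real.exp (-((x - a.2) ^ 2 / (4 * τ))) * Real.exp (-((x - b.2) ^ 2 / (4 * σ))))
  rw [← Measure.volume_eq_prod] at h2
  rw [integral_congr_ae (Eventually.of_forall h1), integral_const_mul]
  erw [h2]
  rw [conv1 hτ hσ, conv1 hτ hσ, pp_eq]
  have h3 : Real.sqrt (Real.pi / ((τ + σ) / (4 * τ * σ))) *
      Real.sqrt (Real.pi / ((τ + σ) / (4 * τ * σ))) = Real.pi / ((τ + σ) / (4 * τ * σ)) :=
    Real.mul_self_sqrt (by positivity)
  have h4 : Real.exp (-((a.1 - b.1) ^ 2 / (4 * (τ + σ)))) *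
        Real.sqrt (Real.pi / ((τ + σ) / (4 * τ * σ))) *
        (Real.exp (-((a.2 - b.2) ^ 2 / (4 * (τ + σ)))) *
        Real.sqrt (Real.pi / ((τ + σ) / (4 * τ * σ)))) =
      Real.exp (-((a.1 - b.1) ^ 2 / (4 * (τ + σ)))) * Real.exp (-((a.2 - b.2) ^ 2 / (4 * (τ + σ)))) *
        (Real.pi / ((τ + σ) / (4 * τ * σ))) := by
    calc _ = Real.exp (-((a.1 - b.1) ^ 2 / (4 * (τ + σ)))) *
          Real.exp (-((a.2 - b.2) ^ 2 / (4 * (τ + σ)))) *
          (Real.sqrt (Real.pi / ((τ + σ) / (4 * τ * σ))) *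
            Real.sqrt (Real.pi / ((τ + σ) / (4 * τ * σ)))) := by ring
      _ = _ := by rw [h3]
  rw [h4]
  have h5 : τ + σ ≠ 0 := by positivity
  have h6 := Real.pi_ne_zero
  field_simp

theorem pp_nonneg {τ : ℝ} (hτ : 0 < τ) (z : ℝ × ℝ) : 0 ≤ pp τ z := by
  unfold pp
  have := Real.pi_pos
  positivity

theorem pp_le {τ ε : ℝ} (hε : 0 < ε) (h : ε ≤ τ) (z : ℝ × ℝ) : pp τ z ≤ 1 / (4 * Real.pi * ε) := by
  unfold pp
  have hp := Real.pi_pos
  have hτ : 0 < τ := lt_of_lt_of_le hε h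
  have h1 : Real.exp (-((z.1 ^ 2 + z.2 ^ 2) / (4 * τ))) ≤ 1 := by
    rw [Real.exp_le_one_iff]
    have : 0 ≤ (z.1 ^ 2 + z.2 ^ 2) / (4 * τ) := by positivity
    linarith
  exact div_le_div₀ zero_le_one h1 (by positivity)
    (mul_le_mul_of_nonneg_left h (by positivity))

theorem integrable_pp {τ : ℝ} (hτ : 0 < τ) (a : ℝ × ℝ) : Integrable (fun z => pp τ (z - a)) := by
  have hb : 0 < 1 / (4 * τ) := by positivity
  have h2 := (integrable1 hb a.1).mul_prod (integrable1 hb a.2)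
  rw [← Measure.volume_eq_prod] at h2
  refine (h2.div_const (4 * Real.pi * τ)).congr (Eventually.of_forall fun z => ?_)
  show _ = pp τ (z - a)
  rw [pp_eq]
  have e1 : ∀ x : ℝ, -(1 / (4 * τ)) * x ^ 2 = -(x ^ 2 / (4 * τ)) := fun x => by ring
  simp only [e1]

theorem meas_pp : Measurable (fun p : (ℝ × ℝ) × ℝ => pp p.2 p.1) := by
  unfold pp
  fun_prop

theorem integrable_exp {κ : ℝ} (hκ : 0 < κ) (ε : ℝ) :
    IntegrableOn (fun τ : ℝ => Real.exp (-(κ ^ 2 * τ))) (Ioi ε) := by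
  have h := exp_neg_integrableOn_Ioi ε (b := κ ^ 2) (by positivity)
  refine h.congr_fun (fun x _ => ?_) measurableSet_Ioi
  simp only [neg_mul]

end SEM

set_option maxHeartbeats 400000 in
theorem pSEM : S_SEM := by
  refine ⟨fun τ σ a b hτ hσ => SEM.conv2 hτ hσ a b, ?_⟩
  intro κ ε a b hκ hε
  have hint : Integrable (Function.uncurry fun (z : ℝ × ℝ) (τ : ℝ) =>
      Real.exp (-(κ ^ 2 * τ)) * pp τ (z - a) * pp ε (z - b))
      ((volume : Measure (ℝ × ℝ)).prod ((volume : Measure ℝ).restrict (Ioi ε))) := by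
    have h1 : Integrable (fun p : (ℝ × ℝ) × ℝ =>
        (1 / (4 * Real.pi * ε) * pp ε (p.1 - b)) * Real.exp (-(κ ^ 2 * p.2)))
        ((volume : Measure (ℝ × ℝ)).prod ((volume : Measure ℝ).restrict (Ioi ε))) :=
      ((SEM.integrable_pp hε b).const_mul _).mul_prod (SEM.integrable_exp hκ ε)
    refine h1.mono' ?_ ?_
    · have m1 : Measurable (fun p : (ℝ × ℝ) × ℝ => pp p.2 (p.1 - a)) := by
        unfold pp
        simp only [Prod.fst_sub, Prod.snd_sub]
        fun_prop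
      have m2 : Measurable (fun p : (ℝ × ℝ) × ℝ => pp ε (p.1 - b)) := by
        unfold pp
        simp only [Prod.fst_sub, Prod.snd_sub]
        fun_prop
      have m3 : Measurable (fun p : (ℝ × ℝ) × ℝ => Real.exp (-(κ ^ 2 * p.2))) := by fun_prop
      exact ((m3.mul m1).mul m2).aestronglyMeasurable
    · have hae : ∀ᵐ p : (ℝ × ℝ) × ℝ ∂((volume : Measure (ℝ × ℝ)).prod
          ((volume : Measure ℝ).restrict (Ioi ε))), ε < p.2 := by
        have : ∀ᵐ τ : ℝ ∂((volume : Measure ℝ).restrict (Ioi ε)), ε < τ :=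
          ae_restrict_mem measurableSet_Ioi
        exact Measure.quasiMeasurePreserving_snd.ae this
      filter_upwards [hae] with p hp
      have h2 : 0 < p.2 := hε.trans hp
      have h3 := SEM.pp_nonneg h2 (p.1 - a)
      have h4 := SEM.pp_nonneg hε (p.1 - b)
      have h5 := SEM.pp_le hε hp.le (p.1 - a)
      have h6 := Real.exp_pos (-(κ ^ 2 * p.2))
      show ‖Real.exp (-(κ ^ 2 * p.2)) * pp p.2 (p.1 - a) * pp ε (p.1 - b)‖ ≤ _
      rw [Real.norm_eq_abs, abs_of_nonneg (by positivity)]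
      calc Real.exp (-(κ ^ 2 * p.2)) * pp p.2 (p.1 - a) * pp ε (p.1 - b)
          ≤ Real.exp (-(κ ^ 2 * p.2)) * (1 / (4 * Real.pi * ε)) * pp ε (p.1 - b) := by
            gcongr
        _ = _ := by ring
  have h1 : ∀ z : ℝ × ℝ, Gf κ ε (z - a) * pp ε (z - b) =
      ∫ τ in Ioi ε, Real.exp (-(κ ^ 2 * τ)) * pp τ (z - a) * pp ε (z - b) := by
    intro z
    unfold Gf
    rw [← integral_mul_const]
  rw [integral_congr_ae (Eventually.of_forall h1), integral_integral_swap hint, ← integral_const_mul]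
  have h2 : ∀ τ ∈ Ioi ε, Real.exp (-(κ ^ 2 * ε)) *
      (∫ z : ℝ × ℝ, Real.exp (-(κ ^ 2 * τ)) * pp τ (z - a) * pp ε (z - b)) =
      Real.exp (-(κ ^ 2 * (τ + ε))) * pp (τ + ε) (a - b) := by
    intro τ hτ
    have hτ' : 0 < τ := hε.trans hτ
    have h3 : ∀ z : ℝ × ℝ, Real.exp (-(κ ^ 2 * τ)) * pp τ (z - a) * pp ε (z - b) =
        Real.exp (-(κ ^ 2 * τ)) * (pp τ (z - a) * pp ε (z - b)) := fun z => mul_assoc _ _ _
    rw [integral_congr_ae (Eventually.of_forall h3), integral_const_mul, SEM.conv2 hτ' hε,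
      ← mul_assoc, ← Real.exp_add]
    congr 2
    ring
  rw [setIntegral_congr_fun measurableSet_Ioi h2]
  unfold Gf
  rw [← integral_indicator measurableSet_Ioi, ← integral_indicator measurableSet_Ioi,
    ← integral_add_right_eq_self (μ := volume) ((Ioi (2 * ε)).indicator fun τ : ℝ =>
      Real.exp (-(κ ^ 2 * τ)) * pp τ (a - b)) ε]
  congr 1
  ext τ
  by_cases h : ε < τ
  · rw [indicator_of_mem (show τ ∈ Ioi ε from h),
      indicator_of_mem (show τ + ε ∈ Ioi (2 * ε) from by rw [mem_Ioi]; linarith)]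
  · rw [indicator_of_notMem (show τ ∉ Ioi ε from h),
      indicator_of_notMem (show τ + ε ∉ Ioi (2 * ε) from by rw [mem_Ioi]; linarith)]

end

end Pool.Agent.T2H10.WB
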