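import Pool.Agent.T2H10.WB.Stm
import Pool.Agent.T2H10.WB.SEM

/-!
# Project WB, package HEA (helper55): the heat equation
-/

open MeasureTheory Set Filter Topology

namespace Pool.Agent.T2H10.WB

noncomputable section

namespace HEA

theorem int_pp {τ : ℝ} (hτ : 0 < τ) : ∫ z, pp τ z = 1 := by
  have h1 : ∀ z : ℝ × ℝ, pp τ z = (1 / (4 * Real.pi * τ)) *
      (Real.exp (-(1 / (4 * τ)) * (z.1 - 0) ^ 2) * Real.exp (-(1 / (4 * τ)) * (z.2 - 0) ^ 2)) := by
    intro z
    unfold pp
    rw [← Real.exp_add, sub_zero, sub_zero, div_eq_mul_inv, mul_comm, one_div (4 * Real.pi * τ)]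
    congr 2
    ring
  have h2 := integral_prod_mul (μ := (volume : Measure ℝ)) (ν := (volume : Measure ℝ)) (L := ℝ)
    (fun x : ℝ => Real.exp (-(1 / (4 * τ)) * (x - 0) ^ 2))
    (fun x : ℝ => Real.exp (-(1 / (4 * τ)) * (x - 0) ^ 2))
  rw [← Measure.volume_eq_prod] at h2
  rw [integral_congr_ae (Eventually.of_forall h1), integral_const_mul]
  erw [h2]
  rw [SEM.int1]
  have hp := Real.pi_pos
  have h3 : Real.sqrt (Real.pi / (1 / (4 * τ))) * Real.sqrt (Real.pi / (1 / (4 * τ))) =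
      Real.pi / (1 / (4 * τ)) := Real.mul_self_sqrt (by positivity)
  rw [h3]
  field_simp

theorem int_pp_sub {τ : ℝ} (hτ : 0 < τ) (a : ℝ × ℝ) : ∫ z, pp τ (z - a) = 1 := by
  rw [integral_sub_right_eq_self (μ := volume) (fun z : ℝ × ℝ => pp τ z) a]
  exact int_pp hτ

theorem bdd_of_dec {u : ℝ × ℝ → ℝ} (hu : Dec u) : ∃ C : ℝ, 0 < C ∧ ∀ z, |u z| ≤ C := by
  obtain ⟨C, c, hC, hc, h⟩ := hu.dec
  refine ⟨C, hC, fun z => (h z).1.trans ?_⟩
  have h1 : Real.exp (-(c * (|z.1| + |z.2|))) ≤ 1 := by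
    rw [Real.exp_le_one_iff]
    have : 0 ≤ c * (|z.1| + |z.2|) := by positivity
    linarith
  calc C * Real.exp (-(c * (|z.1| + |z.2|))) ≤ C * 1 := by gcongr
    _ = C := mul_one C

theorem cont_pp (τ : ℝ) (a : ℝ × ℝ) : Continuous fun z : ℝ × ℝ => pp τ (z - a) := by
  unfold pp
  simp only [Prod.fst_sub, Prod.snd_sub]
  fun_prop

theorem cont_sd (a : ℝ × ℝ) : Continuous fun z : ℝ × ℝ => sd z a := by
  unfold sd
  fun_prop

theorem sd_nonneg (z a : ℝ × ℝ) : 0 ≤ sd z a := by
  unfold sd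
  positivity

theorem pp_sd (τ : ℝ) (z a : ℝ × ℝ) :
    pp τ (z - a) = Real.exp (-(sd z a / (4 * τ))) / (4 * Real.pi * τ) := rfl

theorem deriv_pp (z a : ℝ × ℝ) {t : ℝ} (ht : 0 < t) :
    HasDerivAt (fun τ => pp τ (z - a)) ((sd z a / (4 * t ^ 2) - 1 / t) * pp t (z - a)) t := by
  have ht' : t ≠ 0 := ht.ne'
  have hp := Real.pi_ne_zero
  have h1 : HasDerivAt (fun τ : ℝ => -(sd z a / (4 * τ))) (sd z a / (4 * t ^ 2)) t := by
    have h2 : HasDerivAt (fun τ : ℝ => 4 * τ) 4 t := by
      simpa using (hasDerivAt_id t).const_mul 4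
    have h3 := ((hasDerivAt_const t (sd z a)).div h2 (by positivity)).neg
    refine h3.congr_deriv ?_
    field_simp
    ring
  have h4 : HasDerivAt (fun τ : ℝ => 4 * Real.pi * τ) (4 * Real.pi) t := by
    simpa using (hasDerivAt_id t).const_mul (4 * Real.pi)
  have h5 := h1.exp.div h4 (by positivity)
  have h6 : HasDerivAt (fun τ : ℝ => Real.exp (-(sd z a / (4 * τ))) / (4 * Real.pi * τ))
      ((sd z a / (4 * t ^ 2) - 1 / t) * pp t (z - a)) t := by
    refine h5.congr_deriv ?_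
    rw [pp_sd]
    field_simp
  exact h6

theorem bound {τ t : ℝ} (hτ : 0 < τ) (h1 : τ / 2 < t) (h2 : t < 2 * τ) (z a : ℝ × ℝ) :
    |(sd z a / (4 * t ^ 2) - 1 / t) * pp t (z - a)| ≤ 144 / τ * pp (4 * τ) (z - a) := by
  have ht : 0 < t := by linarith
  have hq := sd_nonneg z a
  have hp := Real.pi_pos
  rw [pp_sd, pp_sd]
  set q := sd z a with hqd
  have e1 : |q / (4 * t ^ 2) - 1 / t| ≤ q / τ ^ 2 + 2 / τ := by
    have h3 : q / (4 * t ^ 2) ≤ q / τ ^ 2 := by
      apply div_le_div_of_nonneg_left hq (by positivity)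
      nlinarith
    have h4 : 1 / t ≤ 2 / τ := by
      rw [div_le_div_iff₀ ht hτ]
      linarith
    have h5 : 0 ≤ q / (4 * t ^ 2) := by positivity
    have h6 : 0 ≤ 1 / t := by positivity
    rw [abs_le]
    constructor
    · have : 0 ≤ q / τ ^ 2 := by positivity
      linarith
    · have : 0 ≤ 2 / τ := by positivity
      linarith
  have e2 : Real.exp (-(q / (4 * t))) ≤ Real.exp (-(q / (8 * τ))) := by
    rw [Real.exp_le_exp, neg_le_neg_iff]
    apply div_le_div_of_nonneg_left hq (by positivity)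
    linarith
  have e3 : Real.exp (-(q / (8 * τ))) = Real.exp (-(q / (16 * τ))) * Real.exp (-(q / (16 * τ))) := by
    rw [← Real.exp_add]
    congr 1
    field_simp
    ring
  have e4 : (q / τ ^ 2 + 2 / τ) * Real.exp (-(q / (16 * τ))) ≤ 18 / τ := by
    have h3 : q / (16 * τ) ≤ Real.exp (q / (16 * τ)) := by
      have := Real.add_one_le_exp (q / (16 * τ))
      linarith
    have h4 : (1 : ℝ) ≤ Real.exp (q / (16 * τ)) := Real.one_le_exp (by positivity)
    have h5 : q / τ ^ 2 + 2 / τ ≤ 18 / τ * Real.exp (q / (16 * τ)) := by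
      have h6 : q / τ ^ 2 = 16 / τ * (q / (16 * τ)) := by
        field_simp
      rw [h6]
      have h7 : 16 / τ * (q / (16 * τ)) ≤ 16 / τ * Real.exp (q / (16 * τ)) :=
        mul_le_mul_of_nonneg_left h3 (by positivity)
      have h8 : 2 / τ * 1 ≤ 2 / τ * Real.exp (q / (16 * τ)) :=
        mul_le_mul_of_nonneg_left h4 (by positivity)
      have h9 : 18 / τ * Real.exp (q / (16 * τ)) =
        16 / τ * Real.exp (q / (16 * τ)) + 2 / τ * Real.exp (q / (16 * τ)) := by ring
      linarith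
    have h10 := mul_le_mul_of_nonneg_right h5 (Real.exp_pos (-(q / (16 * τ)))).le
    rwa [mul_assoc (18 / τ), ← Real.exp_add, add_neg_cancel, Real.exp_zero, mul_one] at h10
  rw [abs_mul, abs_of_pos (show 0 < Real.exp (-(q / (4 * t))) / (4 * Real.pi * t) by positivity)]
  have e5 : Real.exp (-(q / (4 * t))) / (4 * Real.pi * t) ≤
      Real.exp (-(q / (8 * τ))) / (2 * Real.pi * τ) := by
    apply div_le_div₀ (Real.exp_pos _).le e2 (by positivity)
    nlinarith
  calc |q / (4 * t ^ 2) - 1 / t| * (Real.exp (-(q / (4 * t))) / (4 * Real.pi * t))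
      ≤ (q / τ ^ 2 + 2 / τ) * (Real.exp (-(q / (8 * τ))) / (2 * Real.pi * τ)) := by
        apply mul_le_mul e1 e5 (by positivity) (by positivity)
    _ = ((q / τ ^ 2 + 2 / τ) * Real.exp (-(q / (16 * τ)))) *
        (Real.exp (-(q / (16 * τ))) / (2 * Real.pi * τ)) := by rw [e3]; ring
    _ ≤ 18 / τ * (Real.exp (-(q / (16 * τ))) / (2 * Real.pi * τ)) := by
        apply mul_le_mul_of_nonneg_right e4 (by positivity)
    _ = 144 / τ * (Real.exp (-(q / (4 * (4 * τ)))) / (4 * Real.pi * (4 * τ))) := by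
        have : (4 : ℝ) * (4 * τ) = 16 * τ := by ring
        rw [this]
        field_simp
        ring

end HEA

theorem pHEA : S_HEA := by
  refine ⟨fun τ hτ => ⟨?_, HEA.int_pp hτ⟩, ?_⟩
  · have h := SEM.integrable_pp hτ 0
    simpa only [sub_zero] using h
  intro u hu a
  obtain ⟨C, hC, hb⟩ := HEA.bdd_of_dec hu
  have hcu : Continuous u := hu.smooth.continuous
  have hint : ∀ τ : ℝ, 0 < τ → Integrable (fun z => u z * pp τ (z - a)) := by
    intro τ hτ
    refine ((SEM.integrable_pp hτ a).const_mul C).mono'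
      ((hcu.mul (HEA.cont_pp τ a)).aestronglyMeasurable) (Eventually.of_forall fun z => ?_)
    rw [Real.norm_eq_abs, abs_mul, abs_of_nonneg (SEM.pp_nonneg hτ (z - a))]
    exact mul_le_mul_of_nonneg_right (hb z) (SEM.pp_nonneg hτ (z - a))
  constructor
  · intro τ hτ
    have hs : Ioo (τ / 2) (2 * τ) ∈ 𝓝 τ := Ioo_mem_nhds (by linarith) (by linarith)
    have h := hasDerivAt_integral_of_dominated_loc_of_deriv_le (μ := (volume : Measure (ℝ × ℝ)))
      (F := fun τ z => u z * pp τ (z - a))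
      (F' := fun τ z => u z * ((sd z a / (4 * τ ^ 2) - 1 / τ) * pp τ (z - a)))
      (x₀ := τ) (bound := fun z => C * (144 / τ * pp (4 * τ) (z - a))) hs
      (Eventually.of_forall fun t => (hcu.mul (HEA.cont_pp t a)).aestronglyMeasurable)
      (hint τ hτ)
      ((hcu.mul ((((HEA.cont_sd a).div_const _).sub continuous_const).mul
        (HEA.cont_pp τ a))).aestronglyMeasurable)
      (Eventually.of_forall fun z t ht => by
        rw [Real.norm_eq_abs, abs_mul]
        exact mul_le_mul (hb z) (HEA.bound hτ ht.1 ht.2 z a) (abs_nonneg _) hC.le)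
      (((SEM.integrable_pp (by positivity) a).const_mul _).const_mul _)
      (Eventually.of_forall fun z t ht => by
        have ht0 : 0 < t := by
          have := ht.1
          linarith
        exact (HEA.deriv_pp z a ht0).const_mul (u z))
    exact h.2
  · refine ⟨C, fun τ hτ => ?_⟩
    have h1 : ‖∫ z, u z * pp τ (z - a)‖ ≤ ∫ z, C * pp τ (z - a) := by
      refine norm_integral_le_of_norm_le ((SEM.integrable_pp hτ a).const_mul C)
        (Eventually.of_forall fun z => ?_)
      rw [Real.norm_eq_abs, abs_mul, abs_of_nonneg (SEM.pp_nonneg hτ (z - a))]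
      exact mul_le_mul_of_nonneg_right (hb z) (SEM.pp_nonneg hτ (z - a))
    rwa [integral_const_mul, HEA.int_pp_sub hτ, mul_one, Real.norm_eq_abs] at h1

end

end Pool.Agent.T2H10.WB
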