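import Pool.Agent.T2H10.WB.Stm

/-!
# Package IBP: integration by parts against the gradient of the heat kernel
-/

open MeasureTheory Set Filter Topology

namespace Pool.Agent.T2H10.WB

namespace IBP

lemma int1 {c : ℝ} (hc : 0 < c) : Integrable (fun s : ℝ => Real.exp (-(c * |s|))) := by
  have h1 : IntegrableOn (fun s : ℝ => Real.exp (-(c * |s|))) (Ioi 0) := by
    refine (exp_neg_integrableOn_Ioi 0 hc).congr_fun (fun s hs => ?_) measurableSet_Ioi
    simp only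
    rw [abs_of_pos hs]
    congr 1; ring
  have h2 : IntegrableOn (fun s : ℝ => Real.exp (-(c * |s|))) (Iic 0) := by
    refine (integrableOn_exp_mul_Iic hc 0).congr_fun (fun s hs => ?_) measurableSet_Iic
    simp only
    rw [abs_of_nonpos hs]
    congr 1; ring
  have := h2.union h1
  rwa [Iic_union_Ioi, integrableOn_univ] at this

lemma int2 {c : ℝ} (hc : 0 < c) :
    Integrable (fun z : ℝ × ℝ => Real.exp (-(c * (|z.1| + |z.2|)))) := by
  have h := (int1 hc).mul_prod (int1 hc)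
  refine h.congr (Eventually.of_forall fun z => ?_)
  simp only
  rw [← Real.exp_add]
  congr 1
  ring

lemma int3 {C c K : ℝ} (hC : 0 < C) (hc : 0 < c) (f g : ℝ × ℝ → ℝ) (hf : Continuous f) (hg : Continuous g)
    (h1 : ∀ z, |f z| ≤ C * Real.exp (-(c * (|z.1| + |z.2|)))) (h2 : ∀ z, |g z| ≤ K) :
    Integrable (fun z => f z * g z) := by
  refine ((int2 hc).const_mul (C * K)).mono' (hf.mul hg).aestronglyMeasurable
    (Eventually.of_forall fun z => ?_)
  rw [Real.norm_eq_abs, abs_mul]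
  calc |f z| * |g z| ≤ (C * Real.exp (-(c * (|z.1| + |z.2|)))) * K :=
        mul_le_mul (h1 z) (h2 z) (abs_nonneg _) (by positivity)
    _ = _ := by ring

lemma xexp (x : ℝ) : x * Real.exp (-x) ≤ 1 := by
  have h1 := Real.add_one_le_exp x
  have h2 : Real.exp (-x) = (Real.exp x)⁻¹ := Real.exp_neg x
  rw [h2, ← div_eq_mul_inv, div_le_one (Real.exp_pos x)]
  linarith

/-- bounds on the heat kernel -/
lemma ppb {τ : ℝ} (hτ : 0 < τ) (z : ℝ × ℝ) : 0 < pp τ z ∧ pp τ z ≤ 1 / (4 * Real.pi * τ) ∧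
    (z.1 ^ 2 + z.2 ^ 2) / (4 * τ) * pp τ z ≤ 1 / (4 * Real.pi * τ) := by
  have hp : 0 < 4 * Real.pi * τ := by positivity
  unfold pp
  refine ⟨by positivity, ?_, ?_⟩
  · refine div_le_div_of_nonneg_right ?_ hp.le
    rw [Real.exp_le_one_iff]
    have : 0 ≤ (z.1 ^ 2 + z.2 ^ 2) / (4 * τ) := by positivity
    linarith
  · rw [← mul_div_assoc]
    refine div_le_div_of_nonneg_right (xexp _) hp.le

lemma pp_cont {τ : ℝ} (a : ℝ × ℝ) : Continuous fun z => pp τ (z - a) := by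
  unfold pp
  fun_prop

lemma pp_fd {τ : ℝ} (a z _v : ℝ × ℝ) : HasFDerivAt (fun z => pp τ (z - a))
    (pp τ (z - a) • (-(((z.1 - a.1) / (2 * τ)) • ContinuousLinearMap.fst ℝ ℝ ℝ +
      ((z.2 - a.2) / (2 * τ)) • ContinuousLinearMap.snd ℝ ℝ ℝ))) z := by
  have h1 : HasFDerivAt (fun z : ℝ × ℝ => z.1 - a.1) (ContinuousLinearMap.fst ℝ ℝ ℝ) z :=
    (hasFDerivAt_fst).sub_const _
  have h2 : HasFDerivAt (fun z : ℝ × ℝ => z.2 - a.2) (ContinuousLinearMap.snd ℝ ℝ ℝ) z :=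
    (hasFDerivAt_snd).sub_const _
  have h3 := ((((h1.pow 2).add (h2.pow 2)).mul_const (4 * τ)⁻¹).neg).exp.mul_const (4 * Real.pi * τ)⁻¹
  have h4 : HasFDerivAt (fun z => pp τ (z - a)) _ z := h3
  refine h4.congr_fderiv ?_
  ext
  · simp [pp, div_eq_mul_inv]
    ring
  · simp [pp, div_eq_mul_inv]
    ring

/-- the one-dimensional factor and its derivatives -/
lemma fx {τ : ℝ} (a z : ℝ × ℝ) :
    Differentiable ℝ (fun z : ℝ × ℝ => -((z.1 - a.1) / (2 * τ)) * pp τ (z - a)) ∧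
    fderiv ℝ (fun z : ℝ × ℝ => -((z.1 - a.1) / (2 * τ)) * pp τ (z - a)) z (1, 0) =
      ((z.1 - a.1) ^ 2 / (4 * τ ^ 2) - 1 / (2 * τ)) * pp τ (z - a) := by
  have h : ∀ z : ℝ × ℝ, HasFDerivAt (fun z : ℝ × ℝ => -((z.1 - a.1) / (2 * τ)) * pp τ (z - a)) _ z := fun z =>
    ((((hasFDerivAt_fst (𝕜 := ℝ) (p := z)).sub_const a.1).mul_const (2 * τ)⁻¹).neg).mul (pp_fd a z z)
  refine ⟨fun z => (h z).differentiableAt, ?_⟩
  rw [(h z).fderiv]
  simp
  ring

lemma fy {τ : ℝ} (a z : ℝ × ℝ) :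
    Differentiable ℝ (fun z : ℝ × ℝ => -((z.2 - a.2) / (2 * τ)) * pp τ (z - a)) ∧
    fderiv ℝ (fun z : ℝ × ℝ => -((z.2 - a.2) / (2 * τ)) * pp τ (z - a)) z (0, 1) =
      ((z.2 - a.2) ^ 2 / (4 * τ ^ 2) - 1 / (2 * τ)) * pp τ (z - a) := by
  have h : ∀ z : ℝ × ℝ, HasFDerivAt (fun z : ℝ × ℝ => -((z.2 - a.2) / (2 * τ)) * pp τ (z - a)) _ z := fun z =>
    ((((hasFDerivAt_snd (𝕜 := ℝ) (p := z)).sub_const a.2).mul_const (2 * τ)⁻¹).neg).mul (pp_fd a z z)
  refine ⟨fun z => (h z).differentiableAt, ?_⟩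
  rw [(h z).fderiv]
  simp
  ring

/-- all the kernels which occur are bounded -/
lemma kb {τ : ℝ} (hτ : 0 < τ) (x w y : ℝ) (hw : 0 ≤ w) (hxy : x ^ 2 ≤ y)
    (h1 : w ≤ 1 / (4 * Real.pi * τ)) (h2 : y / (4 * τ) * w ≤ 1 / (4 * Real.pi * τ)) :
    |-(x / (2 * τ)) * w| ≤ (1 + 1 / (4 * τ)) * (1 / (4 * Real.pi * τ)) ∧
    |(x ^ 2 / (4 * τ ^ 2) - 1 / (2 * τ)) * w| ≤ (1 / τ + 1 / (2 * τ)) * (1 / (4 * Real.pi * τ)) := by
  set P := 1 / (4 * Real.pi * τ) with hP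
  have hx2 : x ^ 2 / (4 * τ) * w ≤ P := by
    refine le_trans ?_ h2
    exact mul_le_mul_of_nonneg_right (div_le_div_of_nonneg_right hxy (by positivity)) hw
  constructor
  · rw [abs_mul, abs_neg, abs_div, abs_of_pos (by positivity : 0 < 2 * τ), abs_of_nonneg hw]
    have h3 : |x| / (2 * τ) ≤ x ^ 2 / (4 * τ) + 1 / (4 * τ) := by
      rw [← add_div, div_le_div_iff₀ (by positivity) (by positivity)]
      have : 2 * |x| ≤ x ^ 2 + 1 := by nlinarith [sq_abs x, sq_nonneg (|x| - 1)]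
      nlinarith
    calc |x| / (2 * τ) * w ≤ (x ^ 2 / (4 * τ) + 1 / (4 * τ)) * w := mul_le_mul_of_nonneg_right h3 hw
      _ = x ^ 2 / (4 * τ) * w + 1 / (4 * τ) * w := by ring
      _ ≤ P + 1 / (4 * τ) * P := add_le_add hx2 (mul_le_mul_of_nonneg_left h1 (by positivity))
      _ = _ := by ring
  · rw [abs_mul, abs_of_nonneg hw]
    have h4 : |x ^ 2 / (4 * τ ^ 2) - 1 / (2 * τ)| ≤ x ^ 2 / (4 * τ ^ 2) + 1 / (2 * τ) := by
      refine (abs_sub _ _).trans ?_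
      rw [abs_of_nonneg (by positivity), abs_of_nonneg (by positivity)]
    calc _ ≤ (x ^ 2 / (4 * τ ^ 2) + 1 / (2 * τ)) * w := mul_le_mul_of_nonneg_right h4 hw
      _ = 1 / τ * (x ^ 2 / (4 * τ) * w) + 1 / (2 * τ) * w := by
          field_simp
      _ ≤ 1 / τ * P + 1 / (2 * τ) * P :=
          add_le_add (mul_le_mul_of_nonneg_left hx2 (by positivity)) (mul_le_mul_of_nonneg_left h1 (by positivity))
      _ = _ := by ring

end IBP

theorem pIBP : S_IBP := by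
  intro u hu τ a hτ
  obtain ⟨hs, C, c, hC, hc, hdec⟩ := hu
  have hucont : Continuous u := hs.continuous
  have hD : Continuous (fderiv ℝ u) := hs.continuous_fderiv (by norm_num)
  have hDX : Continuous fun z => fderiv ℝ u z (1, 0) := hD.clm_apply continuous_const
  have hDY : Continuous fun z => fderiv ℝ u z (0, 1) := hD.clm_apply continuous_const
  have hud : Differentiable ℝ u := hs.differentiable (by norm_num)
  have hpc : Continuous fun z => pp τ (z - a) := IBP.pp_cont a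
  have hFc : Continuous fun z : ℝ × ℝ => -((z.1 - a.1) / (2 * τ)) * pp τ (z - a) := by
    refine Continuous.mul (by fun_prop) hpc
  have hGc : Continuous fun z : ℝ × ℝ => -((z.2 - a.2) / (2 * τ)) * pp τ (z - a) := by
    refine Continuous.mul (by fun_prop) hpc
  have hF'c : Continuous fun z : ℝ × ℝ => ((z.1 - a.1) ^ 2 / (4 * τ ^ 2) - 1 / (2 * τ)) * pp τ (z - a) := by
    refine Continuous.mul (by fun_prop) hpc
  have hG'c : Continuous fun z : ℝ × ℝ => ((z.2 - a.2) ^ 2 / (4 * τ ^ 2) - 1 / (2 * τ)) * pp τ (z - a) := by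
    refine Continuous.mul (by fun_prop) hpc
  have kx : ∀ z : ℝ × ℝ, _ := fun z => IBP.kb hτ (z.1 - a.1) (pp τ (z - a)) ((z - a).1 ^ 2 + (z - a).2 ^ 2)
    (IBP.ppb hτ (z - a)).1.le (by simp only [Prod.fst_sub]; nlinarith [sq_nonneg (z - a).2])
    (IBP.ppb hτ (z - a)).2.1 (IBP.ppb hτ (z - a)).2.2
  have ky : ∀ z : ℝ × ℝ, _ := fun z => IBP.kb hτ (z.2 - a.2) (pp τ (z - a)) ((z - a).1 ^ 2 + (z - a).2 ^ 2)
    (IBP.ppb hτ (z - a)).1.le (by simp only [Prod.snd_sub]; nlinarith [sq_nonneg (z - a).1])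
    (IBP.ppb hτ (z - a)).2.1 (IBP.ppb hτ (z - a)).2.2
  have iX := IBP.int3 hC hc (fun z => fderiv ℝ u z (1, 0)) _ hDX hFc (fun z => (hdec z).2.1) (fun z => (kx z).1)
  have iY := IBP.int3 hC hc (fun z => fderiv ℝ u z (0, 1)) _ hDY hGc (fun z => (hdec z).2.2) (fun z => (ky z).1)
  have iuX := IBP.int3 hC hc u _ hucont hFc (fun z => (hdec z).1) (fun z => (kx z).1)
  have iuY := IBP.int3 hC hc u _ hucont hGc (fun z => (hdec z).1) (fun z => (ky z).1)
  have iuX' := IBP.int3 hC hc u _ hucont hF'c (fun z => (hdec z).1) (fun z => (kx z).2)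
  have iuY' := IBP.int3 hC hc u _ hucont hG'c (fun z => (hdec z).1) (fun z => (ky z).2)
  have e1 : (∫ z, u z * (((z.1 - a.1) ^ 2 / (4 * τ ^ 2) - 1 / (2 * τ)) * pp τ (z - a))) =
      -∫ z, fderiv ℝ u z (1, 0) * (-((z.1 - a.1) / (2 * τ)) * pp τ (z - a)) := by
    have h := integral_mul_fderiv_eq_neg_fderiv_mul_of_integrable (μ := (volume : Measure (ℝ × ℝ))) (f := u)
      (g := fun z : ℝ × ℝ => -((z.1 - a.1) / (2 * τ)) * pp τ (z - a)) (v := (1, 0)) iX
      (by simp only [(IBP.fx a _).2]; exact iuX') iuX (fun z _ => hud z)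
      (fun z _ => (IBP.fx a z).1 z)
    simp only [(IBP.fx a _).2] at h
    exact h
  have e2 : (∫ z, u z * (((z.2 - a.2) ^ 2 / (4 * τ ^ 2) - 1 / (2 * τ)) * pp τ (z - a))) =
      -∫ z, fderiv ℝ u z (0, 1) * (-((z.2 - a.2) / (2 * τ)) * pp τ (z - a)) := by
    have h := integral_mul_fderiv_eq_neg_fderiv_mul_of_integrable (μ := (volume : Measure (ℝ × ℝ))) (f := u)
      (g := fun z : ℝ × ℝ => -((z.2 - a.2) / (2 * τ)) * pp τ (z - a)) (v := (0, 1)) iY
      (by simp only [(IBP.fy a _).2]; exact iuY') iuY (fun z _ => hud z)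
      (fun z _ => (IBP.fy a z).1 z)
    simp only [(IBP.fy a _).2] at h
    exact h
  unfold DX DY
  rw [integral_add iX iY, ← neg_eq_iff_eq_neg]
  rw [neg_add, ← e1, ← e2, ← integral_add iuX' iuY']
  refine integral_congr_ae (Eventually.of_forall fun z => ?_)
  simp only [sd]
  ring

end Pool.Agent.T2H10.WB
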