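import Pool.Agent.T2H10.WB.Stm

open MeasureTheory Set Filter Topology

namespace Pool.Agent.T2H10.WB

namespace INT

theorem int_exp {c : ℝ} (hc : 0 < c) : Integrable (fun t : ℝ => Real.exp (-(c * |t|))) := by
  rw [← integrableOn_univ, ← Iic_union_Ioi (a := (0 : ℝ))]
  refine IntegrableOn.union ?_ ?_
  · refine (integrableOn_exp_mul_Iic hc 0).congr_fun ?_ measurableSet_Iic
    intro x hx
    simp only [abs_of_nonpos (show x ≤ 0 from hx)]
    congr 1
    ring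
  · refine (exp_neg_integrableOn_Ioi 0 hc).congr_fun ?_ measurableSet_Ioi
    intro x hx
    simp only [abs_of_pos (show 0 < x from hx)]
    congr 1
    ring

theorem sd_ge {θ : ℝ} (h0 : 0 < θ) (h1 : θ < Real.pi / 2) (s t : ℝ) :
    (s - t) ^ 2 / 2 ≤ sd (Gm θ s) (Gm θ t) := by
  have hc : 0 ≤ Real.cos θ := Real.cos_nonneg_of_mem_Icc ⟨by linarith, h1.le⟩
  have h2 : Real.cos (θ / 2) ^ 2 = (1 + Real.cos θ) / 2 := by
    have := Real.cos_sq (θ / 2)
    rw [this]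
    have : 2 * (θ / 2) = θ := by ring
    rw [this]
    ring
  unfold sd Gm
  simp only
  have h3 : (s * Real.cos (θ / 2) - t * Real.cos (θ / 2)) ^ 2 = (s - t) ^ 2 * ((1 + Real.cos θ) / 2) := by
    rw [← h2]; ring
  rw [h3]
  have h4 : 0 ≤ (|s| * Real.sin (θ / 2) - |t| * Real.sin (θ / 2)) ^ 2 := sq_nonneg _
  nlinarith [sq_nonneg (s - t), mul_nonneg (sq_nonneg (s - t)) hc]

theorem kk_le {κ θ : ℝ} (hB : S_BAS) (hκ : 0 < κ) (h0 : 0 < θ) (h1 : θ < Real.pi / 2) (s t : ℝ) :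
    kk κ (sd (Gm θ s) (Gm θ t)) ≤ kk κ ((s - t) ^ 2 / 2) := by
  obtain ⟨-, -, -, -, hm, -, -⟩ := hB κ hκ
  by_cases h : s = t
  · subst h
    simp [sd]
  · have h5 : s - t ≠ 0 := sub_ne_zero.2 h
    exact hm _ _ (by positivity) (sd_ge h0 h1 s t)

theorem kk_le' {κ : ℝ} (hB : S_BAS) (hκ : 0 < κ) (s t : ℝ) :
    kk κ ((s - t) ^ 2) ≤ kk κ ((s - t) ^ 2 / 2) := by
  obtain ⟨-, -, -, -, hm, -, -⟩ := hB κ hκ
  by_cases h : s = t
  · subst h
    simp
  · have h5 : s - t ≠ 0 := sub_ne_zero.2 h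
    refine hm _ _ (by positivity) ?_
    nlinarith [sq_nonneg (s - t)]

theorem G_int {κ : ℝ} (hM : S_MOM) (hκ : 0 < κ) : Integrable (fun x : ℝ => kk κ (x ^ 2 / 2)) := by
  have h := (hM κ hκ).1.comp_div (R := Real.sqrt 2) (by positivity)
  refine h.congr (Eventually.of_forall fun x => ?_)
  simp only
  rw [div_pow, Real.sq_sqrt (by norm_num)]

theorem dom {κ : ℝ} (hM : S_MOM) (hB : S_BAS) (hκ : 0 < κ) {φ : ℝ → ℝ} (hφ : Ed φ) {K : ℝ × ℝ → ℝ}
    (hK : Measurable K) (hK0 : ∀ p, 0 ≤ K p) (hK1 : ∀ p, K p ≤ kk κ ((p.1 - p.2) ^ 2 / 2)) :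
    Integrable (fun p : ℝ × ℝ => φ p.1 * φ p.2 * K p) := by
  obtain ⟨hc, C, c, hC, hcc, hd⟩ := hφ
  have h1 : Integrable (fun p : ℝ × ℝ => C * ((C * Real.exp (-(c * |p.2|))) * kk κ ((p.1 - p.2) ^ 2 / 2))) := by
    have := Integrable.convolution_integrand (ContinuousLinearMap.mul ℝ ℝ) (μ := volume) (ν := volume)
      ((int_exp hcc).const_mul C) (G_int hM hκ)
    exact this.const_mul C
  refine h1.mono' ?_ (Eventually.of_forall fun p => ?_)
  · have := hc.measurable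
    exact (((this.comp measurable_fst).mul (this.comp measurable_snd)).mul hK).aestronglyMeasurable
  · rw [norm_mul, norm_mul, Real.norm_eq_abs, Real.norm_eq_abs, Real.norm_of_nonneg (hK0 p), mul_assoc]
    have h2 : |φ p.1| ≤ C := (hd p.1).trans (by
      have : Real.exp (-(c * |p.1|)) ≤ 1 := Real.exp_le_one_iff.2 (by have := abs_nonneg p.1; nlinarith)
      nlinarith)
    have h3 := hd p.2
    exact mul_le_mul h2 (mul_le_mul h3 (hK1 p) (hK0 p) (by positivity))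
      (mul_nonneg (abs_nonneg _) (hK0 p)) hC.le

theorem Gm_cont (θ : ℝ) : Continuous (Gm θ) := by
  unfold Gm
  fun_prop

end INT

open INT in
theorem pINT (hM : S_MOM) (hB : S_BAS) : S_INT := by
  intro κ θ φ hκ h0 h1 hφ
  have hB' := hB κ hκ
  obtain ⟨hmeas, -, -, hnn, -, -, -⟩ := hB'
  refine ⟨?_, ?_, ?_⟩
  · refine dom hM hB hκ hφ ?_ (fun p => hnn _) fun p => kk_le hB hκ h0 h1 p.1 p.2
    refine hmeas.comp ?_
    unfold sd Gm
    fun_prop
  · refine dom hM hB hκ hφ ?_ (fun p => hnn _) fun p => kk_le' hB hκ p.1 p.2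
    refine hmeas.comp ?_
    fun_prop
  · obtain ⟨hc, C, c, hC, hcc, hd⟩ := hφ
    refine ⟨∫ x : ℝ, C * kk κ (x ^ 2 / 2), fun s => ?_⟩
    have hG := (G_int hM hκ).const_mul C
    have h2 : ∫ x : ℝ, C * kk κ (x ^ 2 / 2) = ∫ t : ℝ, C * kk κ ((s - t) ^ 2 / 2) :=
      (integral_sub_left_eq_self (fun x : ℝ => C * kk κ (x ^ 2 / 2)) volume s).symm
    rw [h2]
    refine integral_mono_of_nonneg (Eventually.of_forall fun t => mul_nonneg (abs_nonneg _) (hnn _))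
      (hG.comp_sub_left s) (Eventually.of_forall fun t => ?_)
    have h3 : |φ t| ≤ C := (hd t).trans (by
      have : Real.exp (-(c * |t|)) ≤ 1 := Real.exp_le_one_iff.2 (by have := abs_nonneg t; nlinarith)
      nlinarith)
    exact mul_le_mul h3 (kk_le hB hκ h0 h1 s t) (hnn _) hC.le

end Pool.Agent.T2H10.WB
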