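import Pool.Agent.T2H10.WB.Stm

open MeasureTheory Set Filter Topology

namespace Pool.Agent.T2H10.WB.LAP

noncomputable def glG (s : ℝ) : ℝ := ∫ y in (0:ℝ)..s, Real.exp (-y ^ 2)

theorem glG_deriv (s : ℝ) : HasDerivAt glG (Real.exp (-s ^ 2)) s :=
  (Continuous.integral_hasStrictDerivAt (by fun_prop : Continuous fun y : ℝ => Real.exp (-y ^ 2))
    0 s).hasDerivAt

theorem glG_int : Integrable (fun y : ℝ => Real.exp (-y ^ 2)) := by
  have h := integrable_exp_neg_mul_sq (b := 1) one_pos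
  simpa using h

theorem glG_top : Tendsto glG atTop (𝓝 (Real.sqrt Real.pi / 2)) := by
  have h := intervalIntegral_tendsto_integral_Ioi (0 : ℝ) (glG_int.integrableOn) tendsto_id
  have h2 := integral_gaussian_Ioi 1
  have h3 : ∫ y in Ioi (0:ℝ), Real.exp (-y ^ 2) = Real.sqrt Real.pi / 2 := by
    simpa using h2
  rw [h3] at h
  exact h

theorem glG_neg (s : ℝ) : glG (-s) = - glG s := by
  unfold glG
  have h := intervalIntegral.integral_comp_neg (a := 0) (b := s) (fun y : ℝ => Real.exp (-y ^ 2))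
  have h2 : ∫ x in (0:ℝ)..s, Real.exp (-(-x) ^ 2) = ∫ x in (0:ℝ)..s, Real.exp (-x ^ 2) := by
    congr 1
    funext x
    rw [neg_sq]
  rw [h2] at h
  rw [h, neg_zero, intervalIntegral.integral_symm]

theorem glG_bot : Tendsto glG atBot (𝓝 (-(Real.sqrt Real.pi / 2))) := by
  have h := (glG_top.comp tendsto_neg_atBot_atTop).neg
  refine h.congr fun s => ?_
  show - glG (-s) = glG s
  rw [glG_neg, neg_neg]

noncomputable def gla (x k t : ℝ) : ℝ := x / (2 * Real.sqrt t) + k * Real.sqrt t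
noncomputable def glb (x k t : ℝ) : ℝ := x / (2 * Real.sqrt t) - k * Real.sqrt t

noncomputable def gl (x k t : ℝ) : ℝ :=
  (1 / k) * (Real.exp (x * k) * glG (gla x k t) - Real.exp (-(x * k)) * glG (glb x k t))

theorem gl_a_deriv (x k t : ℝ) (ht : 0 < t) :
    HasDerivAt (gla x k) (-(x / (4 * Real.sqrt t ^ 3)) + k / (2 * Real.sqrt t)) t := by
  have hr : 0 < Real.sqrt t := Real.sqrt_pos.2 ht
  have h1 := (Real.hasDerivAt_sqrt ht.ne').const_mul 2
  have h2 := (hasDerivAt_const t x).fun_div h1 (by positivity)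
  have h3 := (Real.hasDerivAt_sqrt ht.ne').const_mul k
  refine (h2.fun_add h3).congr_deriv ?_
  field_simp
  ring

theorem gl_b_deriv (x k t : ℝ) (ht : 0 < t) :
    HasDerivAt (glb x k) (-(x / (4 * Real.sqrt t ^ 3)) - k / (2 * Real.sqrt t)) t := by
  have hr : 0 < Real.sqrt t := Real.sqrt_pos.2 ht
  have h1 := (Real.hasDerivAt_sqrt ht.ne').const_mul 2
  have h2 := (hasDerivAt_const t x).fun_div h1 (by positivity)
  have h3 := (Real.hasDerivAt_sqrt ht.ne').const_mul k
  refine (h2.fun_sub h3).congr_deriv ?_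
  field_simp
  ring

theorem gl_deriv (x k t : ℝ) (hk : 0 < k) (ht : 0 < t) :
    HasDerivAt (gl x k) (Real.exp (-(k ^ 2 * t)) * (Real.exp (-(x ^ 2 / (4 * t))) / Real.sqrt t)) t := by
  have hr : 0 < Real.sqrt t := Real.sqrt_pos.2 ht
  have hrt : Real.sqrt t ^ 2 = t := Real.sq_sqrt ht.le
  have h1 := ((glG_deriv (gla x k t)).comp t (gl_a_deriv x k t ht)).const_mul
    (Real.exp (x * k))
  have h2 := ((glG_deriv (glb x k t)).comp t (gl_b_deriv x k t ht)).const_mul
    (Real.exp (-(x * k)))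
  have h3 := (h1.fun_sub h2).const_mul (1 / k)
  have ea : Real.exp (x * k) * Real.exp (-(gla x k t) ^ 2) =
      Real.exp (-(k ^ 2 * t)) * Real.exp (-(x ^ 2 / (4 * t))) := by
    rw [← Real.exp_add, ← Real.exp_add]
    congr 1
    unfold gla
    have : (x / (2 * Real.sqrt t) + k * Real.sqrt t) ^ 2 =
        x ^ 2 / (4 * Real.sqrt t ^ 2) + x * k + k ^ 2 * Real.sqrt t ^ 2 := by
      field_simp
      ring
    rw [this, hrt]
    ring
  have eb : Real.exp (-(x * k)) * Real.exp (-(glb x k t) ^ 2) =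
      Real.exp (-(k ^ 2 * t)) * Real.exp (-(x ^ 2 / (4 * t))) := by
    rw [← Real.exp_add, ← Real.exp_add]
    congr 1
    unfold glb
    have : (x / (2 * Real.sqrt t) - k * Real.sqrt t) ^ 2 =
        x ^ 2 / (4 * Real.sqrt t ^ 2) - x * k + k ^ 2 * Real.sqrt t ^ 2 := by
      field_simp
      ring
    rw [this, hrt]
    ring
  refine h3.congr_deriv ?_
  rw [← mul_assoc, ← mul_assoc, ea, eb]
  field_simp
  ring

theorem sqrt_tend : Tendsto Real.sqrt (𝓝[>] 0) (𝓝[>] 0) := by
  rw [tendsto_nhdsWithin_iff]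
  constructor
  · have h := (Real.continuous_sqrt.tendsto 0).mono_left (nhdsWithin_le_nhds (s := Ioi 0))
    rw [Real.sqrt_zero] at h
    exact h
  · filter_upwards [self_mem_nhdsWithin] with t ht
    exact Real.sqrt_pos.2 ht

theorem gl_zero (x k : ℝ) (hx : 0 ≤ x) :
    Tendsto (gl x k) (𝓝[>] 0) (𝓝 ((1 / k) * ((Real.exp (x * k) - Real.exp (-(x * k))) *
      (Real.sqrt Real.pi / 2)))) := by
  have h0 : Tendsto (fun t => k * Real.sqrt t) (𝓝[>] 0) (𝓝 (k * 0)) :=
    (sqrt_tend.mono_right nhdsWithin_le_nhds).const_mul _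
  rcases hx.eq_or_lt with rfl | hx
  · have hc : Continuous glG := by
      rw [continuous_iff_continuousAt]
      exact fun s => (glG_deriv s).continuousAt
    have hG0 : glG 0 = 0 := by unfold glG; simp
    have ha : Tendsto (gla 0 k) (𝓝[>] 0) (𝓝 0) := by
      have : gla 0 k = fun t => k * Real.sqrt t := by funext t; unfold gla; simp
      rw [this]; simpa using h0
    have hb : Tendsto (glb 0 k) (𝓝[>] 0) (𝓝 0) := by
      have : glb 0 k = fun t => -(k * Real.sqrt t) := by funext t; unfold glb; simp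
      rw [this]; simpa using h0.neg
    have h1 := (hc.tendsto 0).comp ha
    have h2 := (hc.tendsto 0).comp hb
    rw [hG0] at h1 h2
    have h3 := ((h1.const_mul (Real.exp (0 * k))).sub (h2.const_mul (Real.exp (-(0 * k))))).const_mul
      (1 / k)
    simp only [zero_mul, neg_zero, Real.exp_zero, mul_zero, sub_zero, sub_self] at h3 ⊢
    refine h3.congr fun t => ?_
    unfold gl
    simp
  · have h1 : Tendsto (fun t => x / (2 * Real.sqrt t)) (𝓝[>] 0) atTop := by
      have h2 := (tendsto_inv_nhdsGT_zero.comp sqrt_tend).const_mul_atTop (half_pos hx)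
      refine h2.congr fun t => ?_
      show x / 2 * (Real.sqrt t)⁻¹ = _
      rw [← div_eq_mul_inv, div_div]
    have ha : Tendsto (gla x k) (𝓝[>] 0) atTop := h1.atTop_add h0
    have hb : Tendsto (glb x k) (𝓝[>] 0) atTop := h1.atTop_add h0.neg
    have h3 := (((glG_top.comp ha).const_mul (Real.exp (x * k))).sub
      ((glG_top.comp hb).const_mul (Real.exp (-(x * k))))).const_mul (1 / k)
    rw [sub_mul]
    exact h3

theorem gl_top (x k : ℝ) (hk : 0 < k) :
    Tendsto (gl x k) atTop (𝓝 ((1 / k) * ((Real.exp (x * k) + Real.exp (-(x * k))) *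
      (Real.sqrt Real.pi / 2)))) := by
  have hs : Tendsto Real.sqrt atTop atTop := Real.tendsto_sqrt_atTop
  have h1 : Tendsto (fun t => x / (2 * Real.sqrt t)) atTop (𝓝 0) :=
    tendsto_const_nhds.div_atTop (hs.const_mul_atTop two_pos)
  have h0 : Tendsto (fun t => k * Real.sqrt t) atTop atTop :=
    hs.const_mul_atTop hk
  have ha : Tendsto (gla x k) atTop atTop := h1.add_atTop h0
  have hb : Tendsto (glb x k) atTop atBot := h1.add_atBot (tendsto_neg_atTop_atBot.comp h0)
  have h3 := (((glG_top.comp ha).const_mul (Real.exp (x * k))).sub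
      ((glG_bot.comp hb).const_mul (Real.exp (-(x * k))))).const_mul (1 / k)
  have e : (Real.exp (x * k) + Real.exp (-(x * k))) * (Real.sqrt Real.pi / 2) =
      Real.exp (x * k) * (Real.sqrt Real.pi / 2) - Real.exp (-(x * k)) * -(Real.sqrt Real.pi / 2) := by
    ring
  rw [e]
  exact h3

theorem main (x k : ℝ) (hx : 0 ≤ x) (hk : 0 < k) :
    ∫ t in Ioi (0:ℝ), Real.exp (-(k ^ 2 * t)) * (Real.exp (-(x ^ 2 / (4 * t))) / Real.sqrt t) =
      (Real.sqrt Real.pi / k) * Real.exp (-(x * k)) := by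
  obtain ⟨g0, hg0⟩ : ∃ g0, g0 = (1 / k) * ((Real.exp (x * k) - Real.exp (-(x * k))) *
      (Real.sqrt Real.pi / 2)) := ⟨_, rfl⟩
  obtain ⟨g, hg⟩ : ∃ g : ℝ → ℝ, g = fun t => if t ≤ 0 then g0 else gl x k t := ⟨_, rfl⟩
  have hgpos : ∀ t : ℝ, 0 < t → g t = gl x k t := fun t ht => by
    rw [hg]
    exact if_neg (not_le.2 ht)
  have hgzero : g 0 = g0 := by
    rw [hg]
    exact if_pos le_rfl
  have hcont : ContinuousWithinAt g (Ici 0) 0 := by
    rw [← continuousWithinAt_Ioi_iff_Ici]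
    show Tendsto g (𝓝[>] 0) (𝓝 (g 0))
    rw [hgzero, hg0]
    refine (gl_zero x k hx).congr' ?_
    filter_upwards [self_mem_nhdsWithin] with t ht
    exact (hgpos t ht).symm
  have hderiv : ∀ t ∈ Ioi (0:ℝ), HasDerivAt g
      (Real.exp (-(k ^ 2 * t)) * (Real.exp (-(x ^ 2 / (4 * t))) / Real.sqrt t)) t := by
    intro t ht
    refine (gl_deriv x k t hk ht).congr_of_eventuallyEq ?_
    filter_upwards [Ioi_mem_nhds ht] with s hs
    exact hgpos s hs
  have hnn : ∀ t ∈ Ioi (0:ℝ),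
      0 ≤ Real.exp (-(k ^ 2 * t)) * (Real.exp (-(x ^ 2 / (4 * t))) / Real.sqrt t) := by
    intro t ht
    positivity
  have htop : Tendsto g atTop
      (𝓝 ((1 / k) * ((Real.exp (x * k) + Real.exp (-(x * k))) * (Real.sqrt Real.pi / 2)))) := by
    refine (gl_top x k hk).congr' ?_
    filter_upwards [eventually_gt_atTop 0] with t ht
    exact (hgpos t ht).symm
  rw [integral_Ioi_of_hasDerivAt_of_nonneg hcont hderiv hnn htop, hgzero, hg0]
  ring

end Pool.Agent.T2H10.WB.LAP

namespace Pool.Agent.T2H10.WB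

theorem pLAP : S_LAP := by
  intro κ x hκ
  have h := LAP.main |x| κ (abs_nonneg x) hκ
  have hpi : 0 < Real.sqrt Real.pi := Real.sqrt_pos.2 Real.pi_pos
  have e : ∀ w ∈ Ioi (0 : ℝ), Real.exp (-(κ ^ 2 * w)) *
      (Real.exp (-(x ^ 2 / (4 * w))) / Real.sqrt (4 * Real.pi * w)) =
      (1 / (2 * Real.sqrt Real.pi)) *
        (Real.exp (-(κ ^ 2 * w)) * (Real.exp (-(|x| ^ 2 / (4 * w))) / Real.sqrt w)) := by
    intro w hw
    have hw' : 0 < Real.sqrt w := Real.sqrt_pos.2 hw
    have h4 : Real.sqrt (4 * Real.pi * w) = 2 * Real.sqrt Real.pi * Real.sqrt w := by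
      rw [Real.sqrt_mul (by positivity), Real.sqrt_mul (by norm_num),
        show (4 : ℝ) = 2 ^ 2 by norm_num, Real.sqrt_sq (by norm_num)]
    rw [h4, sq_abs]
    field_simp
  rw [setIntegral_congr_fun measurableSet_Ioi e, integral_const_mul, h]
  have e2 : -(|x| * κ) = -(κ * |x|) := by ring
  rw [e2]
  field_simp

end Pool.Agent.T2H10.WB
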