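import Pool.Agent.T2H10.WB.Stm

set_option autoImplicit false

open MeasureTheory Set Filter Topology

namespace Pool.Agent.T2H10.WB

noncomputable section

namespace LBA

theorem ed {φ : ℝ → ℝ} (h1 : Continuous φ) (h2 : HasCompactSupport φ) : Ed φ := by
  refine ⟨h1, ?_⟩
  obtain ⟨R, hR⟩ := h2.isCompact.isBounded.subset_closedBall 0
  obtain ⟨M, hM⟩ := h1.bounded_above_of_compact_support h2
  refine ⟨(|M| + 1) * Real.exp |R|, 1, by positivity, one_pos, fun s => ?_⟩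
  by_cases hs : s ∈ tsupport φ
  · have h3 : |s| ≤ |R| := by
      have := hR hs
      rw [mem_closedBall_zero_iff, Real.norm_eq_abs] at this
      exact this.trans (le_abs_self R)
    have h4 : |φ s| ≤ |M| + 1 := by
      have := hM s
      rw [Real.norm_eq_abs] at this
      linarith [le_abs_self M]
    have h5 : 1 ≤ Real.exp |R| * Real.exp (-(1 * |s|)) := by
      rw [← Real.exp_add]
      apply Real.one_le_exp
      linarith
    calc |φ s| ≤ (|M| + 1) * 1 := by linarith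
      _ ≤ (|M| + 1) * (Real.exp |R| * Real.exp (-(1 * |s|))) := by gcongr
      _ = _ := by ring
  · rw [image_eq_zero_of_notMem_tsupport hs, abs_zero]
    positivity

theorem quad {v2 a b c d : ℝ} (hv : 0 < v2) (hc : c ^ 2 ≤ v2 * d) : 0 ≤ v2 * a ^ 2 + d * b ^ 2 - 2 * c * (a * b) := by
  have h : 0 ≤ v2 * (v2 * a ^ 2 + d * b ^ 2 - 2 * c * (a * b)) := by
    have : v2 * (v2 * a ^ 2 + d * b ^ 2 - 2 * c * (a * b)) = (v2 * a - c * b) ^ 2 + (v2 * d - c ^ 2) * b ^ 2 := by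
      ring
    rw [this]
    have : 0 ≤ v2 * d - c ^ 2 := by linarith
    positivity
  exact nonneg_of_mul_nonneg_right h hv

end LBA

theorem pLBA (hQIN : S_QIN) (hFGH : S_FGH) (hSOB : S_SOB) (hPER : S_PER) (hSPL : S_SPL) : S_LBA := by
  obtain ⟨C, θ0, hC, hθ0, hP⟩ := hPER
  refine ⟨4 * C, min θ0 (min 1 (1 / (8 * C))), by positivity, by positivity,
    fun κ θ hκ hθ hθ1 hκ2 φ hφ hφc => ?_⟩
  have h1 : θ < θ0 := lt_of_lt_of_le hθ1 (min_le_left _ _)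
  have h2 : θ < 1 := lt_of_lt_of_le hθ1 ((min_le_right _ _).trans (min_le_left _ _))
  have h3 : θ < 1 / (8 * C) := lt_of_lt_of_le hθ1 ((min_le_right _ _).trans (min_le_right _ _))
  have hCθ : C * θ < 1 / 8 := by
    rw [lt_div_iff₀ (by positivity)] at h3
    linarith
  have hpi := Real.pi_gt_three
  set ν := θ ^ 2 / (3 * Real.pi) with hν
  have hνpos : 0 < ν := by positivity
  have hν2 : ν ^ 2 = θ ^ 4 / (9 * Real.pi ^ 2) := by
    rw [hν]; field_simp; ring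
  have hνθ : ν ≤ θ ^ 2 / 2 := by
    rw [hν]
    exact div_le_div_of_nonneg_left (by positivity) (by norm_num) (by linarith)
  have hθ2 : θ ^ 2 ≤ 1 := by nlinarith
  rw [← hν2] at hκ2
  have hp5 : 0 < C * θ ^ 5 := by positivity
  have hκ1' : 1 ≤ κ ^ 2 := by rw [hκ2]; nlinarith
  have hκ1 : 1 ≤ κ := by nlinarith
  have hν4 : ν ^ 2 ≤ θ ^ 2 / 4 := by nlinarith
  have hκθ : κ ^ 2 ≤ 1 + θ ^ 2 := by
    rw [hκ2]
    have h5 : 4 * C * θ ^ 5 = 4 * (C * θ) * (θ ^ 2 * θ ^ 2) := by ring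
    have h6 : 4 * (C * θ) * (θ ^ 2 * θ ^ 2) ≤ 4 * (1 / 8) * (1 * θ ^ 2) := by gcongr
    nlinarith
  obtain ⟨f, g, hFG, hA, hQ⟩ := hFGH κ φ hκ1 hφ hφc
  have hE := hQIN κ φ hκ hφ hφc
  have hS := hSPL κ θ φ hκ hθ (by linarith) (LBA.ed hφ hφc)
  have hPe := hP κ θ hκ1 hκθ hθ h1 φ f g hFG
  obtain ⟨hf0, -⟩ := hSOB κ φ f g hFG
  rw [hA] at hE
  set F2 := ∫ s, f s ^ 2 with hF2
  set G2 := ∫ s, g s ^ 2 with hG2
  set H2 := ∫ s, (κ ^ 2 * f s - φ s) ^ 2 with hH2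
  have nF : 0 ≤ F2 := integral_nonneg fun s => sq_nonneg _
  have nG : 0 ≤ G2 := integral_nonneg fun s => sq_nonneg _
  have nH : 0 ≤ H2 := integral_nonneg fun s => sq_nonneg _
  rw [hS]
  set B := ∫ s in Ioi (0 : ℝ), ∫ t in Ioi (0 : ℝ), φ s * φ (-t) * DD κ θ s t
  set P2 := ∫ s, φ s ^ 2
  set Pf := ∫ s, φ s * f s
  -- discriminant
  have hdisc : (ν + C * θ ^ 3) ^ 2 ≤ (κ ^ 2 - 1) * (1 - 2 * (C * θ)) := by
    rw [hκ2]
    have e1 : 2 * ν * (C * θ ^ 3) ≤ C * θ ^ 5 := by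
      have h7 : ν * (C * θ ^ 3) ≤ θ ^ 2 / 2 * (C * θ ^ 3) := by gcongr
      have h8 : θ ^ 2 / 2 * (C * θ ^ 3) = C * θ ^ 5 / 2 := by ring
      linarith
    have e2 : (C * θ ^ 3) ^ 2 ≤ 1 / 8 * (C * θ ^ 5) := by
      have : (C * θ ^ 3) ^ 2 = (C * θ) * (C * θ ^ 5) := by ring
      rw [this]
      gcongr
    have e3 : 2 * (C * θ) * ν ^ 2 ≤ 1 / 2 * (C * θ ^ 5) := by
      have h7 : ν ^ 2 ≤ (θ ^ 2 / 2) ^ 2 := by gcongr
      have h8 : 2 * (C * θ) * ν ^ 2 ≤ 2 * (C * θ) * (θ ^ 2 / 2) ^ 2 := by gcongr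
      have h9 : 2 * (C * θ) * (θ ^ 2 / 2) ^ 2 = 1 / 2 * (C * θ ^ 5) := by ring
      linarith
    have e4 : (4 * C * θ ^ 5) * (2 * (C * θ)) ≤ C * θ ^ 5 := by
      have : (4 * C * θ ^ 5) * (2 * (C * θ)) = (C * θ) * (8 * (C * θ ^ 5)) := by ring
      rw [this]
      have : (C * θ) * (8 * (C * θ ^ 5)) ≤ 1 / 8 * (8 * (C * θ ^ 5)) := by gcongr
      linarith
    have eL : (ν + C * θ ^ 3) ^ 2 = ν ^ 2 + 2 * ν * (C * θ ^ 3) + (C * θ ^ 3) ^ 2 := by ring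
    have eR : (1 + ν ^ 2 + 4 * C * θ ^ 5 - 1) * (1 - 2 * (C * θ)) =
        ν ^ 2 + 4 * (C * θ ^ 5) - 2 * (C * θ) * ν ^ 2 - (4 * C * θ ^ 5) * (2 * (C * θ)) := by ring
    rw [eL, eR]
    linarith
  have hκpos : 0 < κ ^ 2 - 1 := by
    rw [hκ2]
    have := sq_nonneg ν
    have : 0 < ν ^ 2 := by positivity
    linarith
  have hq := LBA.quad (a := Real.sqrt F2) (b := Real.sqrt G2) hκpos hdisc
  rw [Real.sq_sqrt nF, Real.sq_sqrt nG] at hq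
  have hsob : (ν + C * θ ^ 3) * f 0 ^ 2 ≤ (ν + C * θ ^ 3) * (Real.sqrt F2 * Real.sqrt G2) := by
    gcongr
  have hk1 : (κ ^ 2 - 1) * F2 ≤ κ ^ 2 * (κ ^ 2 - 1) * F2 := by
    rw [mul_assoc]
    exact le_mul_of_one_le_left (by positivity) hκ1'
  have hk2 : G2 ≤ (2 * κ ^ 2 - 1) * G2 := le_mul_of_one_le_left nG (by linarith)
  have hk3 : C * θ * H2 ≤ 1 / 8 * H2 := mul_le_mul_of_nonneg_right hCθ.le nH
  rw [← hν] at hPe
  have e6 : C * θ * (G2 + H2) = C * θ * G2 + C * θ * H2 := by ring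
  rw [e6] at hPe
  have e7 : (κ ^ 2 - 1) * F2 + (1 - 2 * (C * θ)) * G2 - 2 * (ν + C * θ ^ 3) * (Real.sqrt F2 * Real.sqrt G2) =
    (κ ^ 2 - 1) * F2 + G2 - 2 * (C * θ * G2) - 2 * ((ν + C * θ ^ 3) * (Real.sqrt F2 * Real.sqrt G2)) := by ring
  rw [e7] at hq
  linarith

end

end Pool.Agent.T2H10.WB
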