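import Pool.Agent.T2H10.WB.Stm

set_option autoImplicit false

open MeasureTheory Set Filter Topology

namespace Pool.Agent.T2H10.WB

namespace LIM

lemma Gm_cont (θ : ℝ) : Continuous (Gm θ) := by
  unfold Gm; fun_prop

lemma Gm_ne {θ s t : ℝ} (h0 : 0 < θ) (h1 : θ < Real.pi / 2) (hst : s ≠ t) : Gm θ s - Gm θ t ≠ 0 := by
  intro h
  have h2 : s * Real.cos (θ / 2) - t * Real.cos (θ / 2) = 0 := by
    have := congrArg Prod.fst h
    simpa [Gm] using this
  have hc : 0 < Real.cos (θ / 2) :=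
    Real.cos_pos_of_mem_Ioo ⟨by linarith [Real.pi_pos], by linarith [Real.pi_pos]⟩
  rw [← sub_mul] at h2
  rcases mul_eq_zero.1 h2 with h3 | h3
  · exact hst (by linarith)
  · exact hc.ne' h3

lemma diag_null : ∀ᵐ p : ℝ × ℝ, p.1 ≠ p.2 := by
  have hd : MeasurableSet {p : ℝ × ℝ | p.1 = p.2} := measurableSet_eq_fun measurable_fst measurable_snd
  rw [ae_iff]
  have h0 : {a : ℝ × ℝ | ¬ a.1 ≠ a.2} = {p : ℝ × ℝ | p.1 = p.2} := by ext; simp
  rw [h0, Measure.volume_eq_prod, Measure.measure_prod_null hd]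
  refine ae_of_all _ fun x => ?_
  have : Prod.mk x ⁻¹' {p : ℝ × ℝ | p.1 = p.2} = {x} := by
    ext y; simp [eq_comm]
  simp [this]

lemma Gf_meas (κ ε : ℝ) : StronglyMeasurable (Gf κ ε) := by
  unfold Gf
  refine StronglyMeasurable.integral_prod_right (f := fun (z : ℝ × ℝ) (τ : ℝ) =>
    Real.exp (-(κ ^ 2 * τ)) * pp τ z) ?_
  apply Measurable.stronglyMeasurable
  unfold Function.uncurry pp
  fun_prop

lemma ed_of {φ : ℝ → ℝ} (hc : Continuous φ) (hs : HasCompactSupport φ) : Ed φ := by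
  obtain ⟨M, hM⟩ := hs.exists_bound_of_continuous hc
  have hsc : HasCompactSupport fun s => φ s * Real.exp |s| := hs.mul_right
  obtain ⟨C, hC⟩ := hsc.exists_bound_of_continuous (by fun_prop)
  refine ⟨hc, max C 1, 1, by positivity, one_pos, fun s => ?_⟩
  have h1 := hC s
  rw [Real.norm_eq_abs, abs_mul, abs_of_pos (Real.exp_pos _)] at h1
  rw [one_mul, Real.exp_neg]
  have he := Real.exp_pos |s|
  rw [← div_eq_mul_inv, le_div_iff₀ he]
  exact h1.trans (le_max_left _ _)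

end LIM

open LIM in
theorem pLIM (hBAS : S_BAS) (hINT : S_INT) : S_LIM := by
  intro κ θ φ hκ h0 h1 hc hs
  obtain ⟨-, -, hk0, hk1, -, hG, hlim⟩ := hBAS κ hκ
  obtain ⟨hi, -, -⟩ := hINT κ θ φ hκ h0 h1 (ed_of hc hs)
  set F : ℝ → ℝ × ℝ → ℝ := fun ε p => φ p.1 * φ p.2 * (2 * Gf κ ε (Gm θ p.1 - Gm θ p.2)) with hF
  have hmeas : ∀ ε, AEStronglyMeasurable (F ε) (volume : Measure (ℝ × ℝ)) := by
    intro ε
    have a1 : Continuous fun p : ℝ × ℝ => φ p.1 * φ p.2 := by fun_prop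
    have a2 : Continuous fun p : ℝ × ℝ => Gm θ p.1 - Gm θ p.2 :=
      ((Gm_cont θ).comp continuous_fst).sub ((Gm_cont θ).comp continuous_snd)
    have a3 : StronglyMeasurable fun p : ℝ × ℝ => Gf κ ε (Gm θ p.1 - Gm θ p.2) :=
      (Gf_meas κ ε).comp_measurable a2.measurable
    exact (a1.aestronglyMeasurable).mul ((a3.const_mul 2).aestronglyMeasurable)
  have hbd : ∀ ε : ℝ, 0 < ε → ∀ᵐ p : ℝ × ℝ, ‖F ε p‖ ≤
      ‖φ p.1 * φ p.2 * kk κ (sd (Gm θ p.1) (Gm θ p.2))‖ := by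
    intro ε hε
    filter_upwards [diag_null] with p hp
    have hz := Gm_ne h0 h1 hp
    have hg := hG ε (Gm θ p.1 - Gm θ p.2) hε
    have hg2 := hg.2 hz
    simp only [hF]
    rw [norm_mul, norm_mul (φ p.1 * φ p.2)]
    refine mul_le_mul_of_nonneg_left ?_ (norm_nonneg _)
    rw [Real.norm_of_nonneg (by linarith [hg.1]), Real.norm_of_nonneg (hk1 _)]
    exact hg2
  have hFi : ∀ ε : ℝ, 0 < ε → Integrable (F ε) (volume : Measure (ℝ × ℝ)) := fun ε hε =>
    hi.mono (hmeas ε) (hbd ε hε)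
  have e1 : EN κ θ φ = ∫ p : ℝ × ℝ, φ p.1 * φ p.2 * kk κ (sd (Gm θ p.1) (Gm θ p.2)) := by
    unfold EN
    rw [Measure.volume_eq_prod, integral_prod _ (by rw [← Measure.volume_eq_prod]; exact hi)]
  have e2 : ∀ᶠ ε in 𝓝[>] (0:ℝ), (∫ p : ℝ × ℝ, F ε p) =
      ∫ s, ∫ t, φ s * φ t * (2 * Gf κ ε (Gm θ s - Gm θ t)) := by
    filter_upwards [self_mem_nhdsWithin] with ε hε
    rw [Measure.volume_eq_prod, integral_prod _ (by rw [← Measure.volume_eq_prod]; exact hFi ε hε)]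
  rw [e1]
  refine Tendsto.congr' e2 ?_
  refine tendsto_integral_filter_of_dominated_convergence
    (fun p => ‖φ p.1 * φ p.2 * kk κ (sd (Gm θ p.1) (Gm θ p.2))‖) (Eventually.of_forall hmeas) ?_
    hi.norm ?_
  · filter_upwards [self_mem_nhdsWithin] with ε hε
    exact hbd ε hε
  · filter_upwards [diag_null] with p hp
    have hz := Gm_ne h0 h1 hp
    exact (hlim _ hz).const_mul _

end Pool.Agent.T2H10.WB
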