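import Pool.Agent.T2H10.WB.Stm

open MeasureTheory Set Filter Topology

namespace Pool.Agent.T2H10.WB

namespace LOW

noncomputable section

theorem iexp (c : ℝ) (hc : 0 < c) : Integrable (fun x : ℝ => Real.exp (-(c * |x|))) := by
  have h1 : IntegrableOn (fun x : ℝ => Real.exp (-(c * |x|))) (Ioi 0) := by
    refine (exp_neg_integrableOn_Ioi 0 hc).congr_fun ?_ measurableSet_Ioi
    intro x hx
    simp only [abs_of_pos (show (0 : ℝ) < x from hx), neg_mul]
  have h2 : IntegrableOn (fun x : ℝ => Real.exp (-(c * |x|))) (Iic 0) := by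
    rw [← Measure.map_neg_eq_self (volume : Measure ℝ)]
    let m : MeasurableEmbedding fun x : ℝ => -x := (Homeomorph.neg ℝ).measurableEmbedding
    rw [m.integrableOn_map_iff]
    simp_rw [Function.comp_def, abs_neg, neg_preimage, neg_Iic, neg_zero]
    exact Iff.mpr integrableOn_Ici_iff_integrableOn_Ioi h1
  have h3 := h2.union h1
  rwa [Iic_union_Ioi, integrableOn_univ] at h3

theorem iexp2 (c : ℝ) (hc : 0 < c) :
    Integrable (fun z : ℝ × ℝ => Real.exp (-(c * (|z.1| + |z.2|)))) := by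
  have h := (iexp c hc).mul_prod (iexp c hc)
  refine h.congr (Filter.Eventually.of_forall fun z => ?_)
  simp only []
  rw [← Real.exp_add]
  congr 1
  ring

/-- compact support gives exponential decay -/
theorem dec_of_cs {f : ℝ × ℝ → ℝ} (hf : Continuous f) (hs : HasCompactSupport f) :
    ∃ C : ℝ, ∀ z, |f z| ≤ C * Real.exp (-(1 * (|z.1| + |z.2|))) := by
  have hc : Continuous (fun z : ℝ × ℝ => f z * Real.exp (|z.1| + |z.2|)) := by fun_prop
  have hcs : HasCompactSupport (fun z : ℝ × ℝ => f z * Real.exp (|z.1| + |z.2|)) := hs.mul_right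
  obtain ⟨C, hC⟩ := hcs.exists_bound_of_continuous hc
  refine ⟨C, fun z => ?_⟩
  have h := hC z
  rw [Real.norm_eq_abs, abs_mul, abs_of_pos (Real.exp_pos _)] at h
  have he : Real.exp (-(1 * (|z.1| + |z.2|))) = (Real.exp (|z.1| + |z.2|))⁻¹ := by
    rw [one_mul, Real.exp_neg]
  rw [he, ← div_eq_mul_inv, le_div_iff₀ (Real.exp_pos _)]
  exact h

theorem DX_cont {u : ℝ × ℝ → ℝ} (h : ContDiff ℝ 1 u) : Continuous (DX u) := by
  unfold DX
  exact (h.continuous_fderiv (by norm_num)).clm_apply continuous_const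

theorem DY_cont {u : ℝ × ℝ → ℝ} (h : ContDiff ℝ 1 u) : Continuous (DY u) := by
  unfold DY
  exact (h.continuous_fderiv (by norm_num)).clm_apply continuous_const

theorem DX_cs {u : ℝ × ℝ → ℝ} (h : HasCompactSupport u) : HasCompactSupport (DX u) := by
  unfold DX
  exact (h.fderiv (𝕜 := ℝ)).comp_left (g := fun L : ℝ × ℝ →L[ℝ] ℝ => L (1, 0)) rfl

theorem DY_cs {u : ℝ × ℝ → ℝ} (h : HasCompactSupport u) : HasCompactSupport (DY u) := by
  unfold DY
  exact (h.fderiv (𝕜 := ℝ)).comp_left (g := fun L : ℝ × ℝ →L[ℝ] ℝ => L (0, 1)) rfl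

theorem dec_u {u : ℝ × ℝ → ℝ} (h : ContDiff ℝ 1 u) (hs : HasCompactSupport u) : Dec u := by
  obtain ⟨C1, h1⟩ := dec_of_cs h.continuous hs
  obtain ⟨C2, h2⟩ := dec_of_cs (DX_cont h) (DX_cs hs)
  obtain ⟨C3, h3⟩ := dec_of_cs (DY_cont h) (DY_cs hs)
  refine ⟨h, |C1| + |C2| + |C3| + 1, 1, by positivity, one_pos, fun z => ?_⟩
  have a1 := le_abs_self C1
  have a2 := le_abs_self C2
  have a3 := le_abs_self C3
  have b1 := abs_nonneg C1
  have b2 := abs_nonneg C2
  have b3 := abs_nonneg C3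
  have e := (Real.exp_pos (-(1 * (|z.1| + |z.2|)))).le
  refine ⟨(h1 z).trans ?_, (h2 z).trans ?_, (h3 z).trans ?_⟩ <;>
  · refine mul_le_mul_of_nonneg_right ?_ e
    linarith

/-- products of exponentially decaying continuous functions are integrable -/
theorem int_mul {f g : ℝ × ℝ → ℝ} (hf : Continuous f) (hg : Continuous g) {C c C' c' : ℝ} (hC : 0 < C) (hc : 0 < c)
    (hC' : 0 < C') (hc' : 0 < c') (h1 : ∀ z, |f z| ≤ C * Real.exp (-(c * (|z.1| + |z.2|))))
    (h2 : ∀ z, |g z| ≤ C' * Real.exp (-(c' * (|z.1| + |z.2|)))) : Integrable (fun z => f z * g z) := by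
  refine ((iexp2 c hc).const_mul (C * C')).mono' (hf.mul hg).aestronglyMeasurable
    (Filter.Eventually.of_forall fun z => ?_)
  rw [Real.norm_eq_abs, abs_mul]
  have e : Real.exp (-(c' * (|z.1| + |z.2|))) ≤ 1 := by
    rw [Real.exp_le_one_iff]
    have : 0 ≤ c' * (|z.1| + |z.2|) := by positivity
    linarith
  have h3 : |g z| ≤ C' := (h2 z).trans (by nlinarith)
  calc |f z| * |g z| ≤ (C * Real.exp (-(c * (|z.1| + |z.2|)))) * C' :=
        mul_le_mul (h1 z) h3 (abs_nonneg _) (by positivity)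
    _ = C * C' * Real.exp (-(c * (|z.1| + |z.2|))) := by ring

/-- the square is nonnegative, expanded -/
theorem expand {u v : ℝ × ℝ → ℝ} (hu : Dec u) (hv : Dec v) (κ : ℝ) :
    0 ≤ HH κ u - 4 * (∫ z, (DX u z * DX v z + DY u z * DY v z + κ ^ 2 * u z * v z)) + 4 * HH κ v := by
  obtain ⟨C, c, hC, hc, hd⟩ := hu.dec
  obtain ⟨C', c', hC', hc', hd'⟩ := hv.dec
  have cu := hu.smooth.continuous
  have cv := hv.smooth.continuous
  have i1 := int_mul (DX_cont hu.smooth) (DX_cont hu.smooth) hC hc hC hc (fun z => (hd z).2.1) (fun z => (hd z).2.1)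
  have i2 := int_mul (DY_cont hu.smooth) (DY_cont hu.smooth) hC hc hC hc (fun z => (hd z).2.2) (fun z => (hd z).2.2)
  have i3 := int_mul cu cu hC hc hC hc (fun z => (hd z).1) (fun z => (hd z).1)
  have j1 := int_mul (DX_cont hv.smooth) (DX_cont hv.smooth) hC' hc' hC' hc' (fun z => (hd' z).2.1) (fun z => (hd' z).2.1)
  have j2 := int_mul (DY_cont hv.smooth) (DY_cont hv.smooth) hC' hc' hC' hc' (fun z => (hd' z).2.2) (fun z => (hd' z).2.2)
  have j3 := int_mul cv cv hC' hc' hC' hc' (fun z => (hd' z).1) (fun z => (hd' z).1)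
  have k1 := int_mul (DX_cont hu.smooth) (DX_cont hv.smooth) hC hc hC' hc' (fun z => (hd z).2.1) (fun z => (hd' z).2.1)
  have k2 := int_mul (DY_cont hu.smooth) (DY_cont hv.smooth) hC hc hC' hc' (fun z => (hd z).2.2) (fun z => (hd' z).2.2)
  have k3 := int_mul cu cv hC hc hC' hc' (fun z => (hd z).1) (fun z => (hd' z).1)
  have I : Integrable (fun z => DX u z ^ 2 + DY u z ^ 2 + κ ^ 2 * u z ^ 2) := by
    refine ((i1.add i2).add (i3.const_mul (κ ^ 2))).congr (Filter.Eventually.of_forall fun z => ?_)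
    simp only [Pi.add_apply]
    ring
  have J : Integrable (fun z => DX v z ^ 2 + DY v z ^ 2 + κ ^ 2 * v z ^ 2) := by
    refine ((j1.add j2).add (j3.const_mul (κ ^ 2))).congr (Filter.Eventually.of_forall fun z => ?_)
    simp only [Pi.add_apply]
    ring
  have K : Integrable (fun z => DX u z * DX v z + DY u z * DY v z + κ ^ 2 * u z * v z) := by
    refine ((k1.add k2).add (k3.const_mul (κ ^ 2))).congr (Filter.Eventually.of_forall fun z => ?_)
    simp only [Pi.add_apply]
    ring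
  have e : HH κ u - 4 * (∫ z, (DX u z * DX v z + DY u z * DY v z + κ ^ 2 * u z * v z)) + 4 * HH κ v =
      ∫ z, ((DX u z - 2 * DX v z) ^ 2 + (DY u z - 2 * DY v z) ^ 2 + κ ^ 2 * (u z - 2 * v z) ^ 2) := by
    have IK : Integrable (fun z => DX u z ^ 2 + DY u z ^ 2 + κ ^ 2 * u z ^ 2 -
        4 * (DX u z * DX v z + DY u z * DY v z + κ ^ 2 * u z * v z)) := I.sub (K.const_mul 4)
    unfold HH
    rw [← integral_const_mul, ← integral_const_mul, ← integral_sub I (K.const_mul 4),
      ← integral_add IK (J.const_mul 4)]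
    refine integral_congr_ae (Filter.Eventually.of_forall fun z => ?_)
    simp only []
    ring
  rw [e]
  exact integral_nonneg fun z => by positivity

theorem Gm_cont (θ : ℝ) : Continuous (Gm θ) := by
  unfold Gm
  fun_prop

theorem phi_cs {u : ℝ × ℝ → ℝ} (hs : HasCompactSupport u) {θ : ℝ} (h0 : 0 < θ) (h1 : θ < Real.pi / 2) :
    HasCompactSupport (fun s => u (Gm θ s)) := by
  have hcos : 0 < Real.cos (θ / 2) := Real.cos_pos_of_mem_Ioo ⟨by linarith [Real.pi_pos], by linarith [Real.pi_pos]⟩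
  obtain ⟨R, hR⟩ := hs.isCompact.isBounded.subset_closedBall (0 : ℝ × ℝ)
  refine HasCompactSupport.intro (isCompact_Icc (a := -(R / Real.cos (θ / 2))) (b := R / Real.cos (θ / 2)))
    fun s hsn => ?_
  by_contra hne
  apply hsn
  have hmem : Gm θ s ∈ tsupport u := subset_tsupport _ (by simpa using hne)
  have h2 := hR hmem
  rw [mem_closedBall_zero_iff] at h2
  have h3 : |s * Real.cos (θ / 2)| ≤ R := by
    have := norm_fst_le (Gm θ s)
    exact this.trans h2
  rw [abs_mul, abs_of_pos hcos, ← le_div_iff₀ hcos] at h3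
  exact abs_le.mp h3

end

end LOW

theorem pLOW (hPSI : S_PSI) (hPAI : S_PAI) (hENE : S_ENE) (hLIM : S_LIM) (hAPX : S_APX) : S_LOW := by
  intro κ θ hκ h0 h1 hE u hu hs
  set φ : ℝ → ℝ := fun s => u (Gm θ s) with hφ
  have cφ : Continuous φ := hu.continuous.comp (LOW.Gm_cont θ)
  have sφ : HasCompactSupport φ := LOW.phi_cs hs h0 h1
  have du := LOW.dec_u hu hs
  have hEφ := hE φ cφ sφ
  have ineq : ∀ ε : ℝ, 0 < ε → 0 ≤ HH κ u -
      4 * (∫ s, φ s * (Real.exp (-(κ ^ 2 * ε)) * ∫ z, u z * pp ε (z - Gm θ s))) +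
      4 * (1 / 2 * ∫ s, ∫ t, φ s * φ t * (2 * Gf κ (2 * ε) (Gm θ s - Gm θ t))) := by
    intro ε hε
    have h := LOW.expand du (hPSI κ ε θ φ hκ hε cφ sφ).1 κ
    rw [hPAI κ ε θ φ u hκ hε cφ sφ du, hENE κ ε θ φ hκ hε cφ sφ] at h
    have e : 1 / 2 * ∫ s, ∫ t, φ s * φ t * (2 * Gf κ (2 * ε) (Gm θ s - Gm θ t)) =
        ∫ s, ∫ t, φ s * φ t * Gf κ (2 * ε) (Gm θ s - Gm θ t) := by
      rw [← integral_const_mul]
      refine integral_congr_ae (Filter.Eventually.of_forall fun s => ?_)
      simp only []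
      rw [← integral_const_mul]
      refine integral_congr_ae (Filter.Eventually.of_forall fun t => ?_)
      simp only []
      ring
    rw [e]
    exact h
  obtain ⟨L, hL⟩ := hAPX u du
  have lim1 : Tendsto (fun ε : ℝ => ∫ s, φ s * (Real.exp (-(κ ^ 2 * ε)) * ∫ z, u z * pp ε (z - Gm θ s)))
      (𝓝[>] 0) (𝓝 (∫ s, φ s * φ s)) := by
    obtain ⟨M, hM⟩ := hs.exists_bound_of_continuous hu.continuous
    have hexp : Tendsto (fun ε : ℝ => Real.exp (-(κ ^ 2 * ε))) (𝓝[>] 0) (𝓝 1) := by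
      have : Continuous (fun ε : ℝ => Real.exp (-(κ ^ 2 * ε))) := by fun_prop
      have h := (this.tendsto 0).mono_left (nhdsWithin_le_nhds (s := Ioi (0 : ℝ)))
      simpa using h
    have hsq : Tendsto (fun ε : ℝ => L * Real.sqrt ε) (𝓝[>] 0) (𝓝 0) := by
      have : Continuous (fun ε : ℝ => L * Real.sqrt ε) := by fun_prop
      have h := (this.tendsto 0).mono_left (nhdsWithin_le_nhds (s := Ioi (0 : ℝ)))
      simpa using h
    refine tendsto_integral_filter_of_dominated_convergence (fun s => |φ s| * (M + |L|)) ?_ ?_ ?_ ?_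
    · refine Filter.Eventually.of_forall fun ε => ?_
      have hm : StronglyMeasurable (fun s : ℝ => ∫ z, u z * pp ε (z - Gm θ s)) := by
        have hmeas : StronglyMeasurable (fun p : ℝ × (ℝ × ℝ) => u p.2 * pp ε (p.2 - Gm θ p.1)) := by
          refine Continuous.stronglyMeasurable ?_
          have := LOW.Gm_cont θ
          have := hu.continuous
          unfold pp
          fun_prop
        exact hmeas.integral_prod_right'
      exact (cφ.stronglyMeasurable.mul (stronglyMeasurable_const.mul hm)).aestronglyMeasurable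
    · have hlt : ∀ᶠ ε : ℝ in 𝓝[>] 0, ε ∈ Ioo (0 : ℝ) 1 := Ioo_mem_nhdsGT one_pos
      filter_upwards [hlt] with ε hε
      refine Filter.Eventually.of_forall fun s => ?_
      rw [Real.norm_eq_abs, abs_mul, abs_mul, abs_of_pos (Real.exp_pos _)]
      refine mul_le_mul_of_nonneg_left ?_ (abs_nonneg _)
      have e1 : Real.exp (-(κ ^ 2 * ε)) ≤ 1 := by
        rw [Real.exp_le_one_iff]
        have : 0 ≤ κ ^ 2 * ε := mul_nonneg (sq_nonneg _) hε.1.le
        linarith
      have e2 : |∫ z, u z * pp ε (z - Gm θ s)| ≤ M + |L| := by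
        have a1 := hL ε (Gm θ s) hε.1
        have a2 : L * Real.sqrt ε ≤ |L| := by
          have b1 : Real.sqrt ε ≤ 1 := by
            rw [Real.sqrt_le_left (by norm_num)]
            simpa using hε.2.le
          calc L * Real.sqrt ε ≤ |L| * Real.sqrt ε :=
                mul_le_mul_of_nonneg_right (le_abs_self L) (Real.sqrt_nonneg _)
            _ ≤ |L| * 1 := mul_le_mul_of_nonneg_left b1 (abs_nonneg _)
            _ = |L| := mul_one _
        have a3 := hM (Gm θ s)
        rw [Real.norm_eq_abs] at a3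
        have a4 := abs_sub_abs_le_abs_sub (∫ z, u z * pp ε (z - Gm θ s)) (u (Gm θ s))
        linarith
      calc Real.exp (-(κ ^ 2 * ε)) * |∫ z, u z * pp ε (z - Gm θ s)| ≤
            1 * |∫ z, u z * pp ε (z - Gm θ s)| := mul_le_mul_of_nonneg_right e1 (abs_nonneg _)
        _ ≤ M + |L| := by rw [one_mul]; exact e2
    · exact ((cφ.abs).integrable_of_hasCompactSupport sφ.abs).mul_const _
    · refine Filter.Eventually.of_forall fun s => ?_
      have hP : Tendsto (fun ε : ℝ => ∫ z, u z * pp ε (z - Gm θ s)) (𝓝[>] 0) (𝓝 (φ s)) := by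
        rw [tendsto_iff_norm_sub_tendsto_zero]
        refine squeeze_zero' (Filter.Eventually.of_forall fun ε => norm_nonneg _) ?_ hsq
        filter_upwards [self_mem_nhdsWithin] with ε hε
        exact hL ε (Gm θ s) hε
      have := (hexp.mul hP).const_mul (φ s)
      simpa using this
  have lim2 : Tendsto (fun ε : ℝ => ∫ s, ∫ t, φ s * φ t * (2 * Gf κ (2 * ε) (Gm θ s - Gm θ t)))
      (𝓝[>] 0) (𝓝 (EN κ θ φ)) := by
    have h := hLIM κ θ φ hκ h0 h1 cφ sφ
    have h2 : Tendsto (fun ε : ℝ => 2 * ε) (𝓝[>] 0) (𝓝[>] 0) := by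
      refine tendsto_nhdsWithin_iff.mpr ⟨?_, ?_⟩
      · have : Continuous (fun ε : ℝ => 2 * ε) := by fun_prop
        have h := (this.tendsto 0).mono_left (nhdsWithin_le_nhds (s := Ioi (0 : ℝ)))
        simpa using h
      · filter_upwards [self_mem_nhdsWithin] with ε hε
        have : (0 : ℝ) < ε := hε
        simp only [mem_Ioi]
        linarith
    exact h.comp h2
  have hge : 0 ≤ HH κ u - 4 * (∫ s, φ s * φ s) + 4 * (1 / 2 * EN κ θ φ) := by
    have hlim := ((tendsto_const_nhds (x := HH κ u)).sub (lim1.const_mul 4)).add ((lim2.const_mul (1 / 2)).const_mul 4)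
    refine ge_of_tendsto hlim ?_
    filter_upwards [self_mem_nhdsWithin] with ε hε
    exact ineq ε hε
  have hsq : ∫ s, φ s * φ s = ∫ s, φ s ^ 2 := by
    refine integral_congr_ae (Filter.Eventually.of_forall fun s => ?_)
    simp only []
    ring
  rw [hsq] at hge
  linarith

end Pool.Agent.T2H10.WB
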