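import Pool.Agent.T2H10.WB.Stm

set_option autoImplicit false

open MeasureTheory Set Filter Topology

namespace Pool.Agent.T2H10.WB

noncomputable section

namespace MOM

theorem main {κ : ℝ} (hκ : 0 < κ) {w : ℝ → ℝ} (hw : Measurable w) (hw0 : ∀ s, 0 ≤ w s) {c a : ℝ}
    (ha : 0 < a) (H : ∀ τ : ℝ, 0 < τ → Integrable (fun s => w s * Real.exp (-(s ^ 2 / (4 * τ)))) ∧
      ∫ s, w s * Real.exp (-(s ^ 2 / (4 * τ))) = c * τ ^ a) :
    Integrable (fun s => w s * kk κ (s ^ 2)) ∧
      ∫ s, w s * kk κ (s ^ 2) = c / (2 * Real.pi) * ((1 / κ ^ 2) ^ a * Real.Gamma a) := by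
  have hκ2 : 0 < κ ^ 2 := by positivity
  set F : ℝ × ℝ → ℝ := fun p => w p.1 * (Real.exp (-(κ ^ 2 * p.2)) *
    (Real.exp (-(p.1 ^ 2 / (4 * p.2))) / (2 * Real.pi * p.2))) with hFdef
  have hmeas : Measurable F := by
    apply (hw.comp measurable_fst).mul
    apply Measurable.mul
    · fun_prop
    · apply Measurable.div
      · exact Real.measurable_exp.comp (((measurable_fst.pow_const 2).div (measurable_snd.const_mul 4)).neg)
      · fun_prop
  have hval : ∀ y ∈ Ioi (0 : ℝ), (∫ x, F (x, y)) = c / (2 * Real.pi) * (y ^ (a - 1) * Real.exp (-(κ ^ 2 * y))) := by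
    intro y hy
    have hy' : (0 : ℝ) < y := hy
    have h1 : (fun x => F (x, y)) = fun x => (Real.exp (-(κ ^ 2 * y)) / (2 * Real.pi * y)) *
        (w x * Real.exp (-(x ^ 2 / (4 * y)))) := by
      funext x
      simp only [hFdef]
      ring
    rw [h1, integral_const_mul, (H y hy').2, Real.rpow_sub_one hy'.ne']
    have := Real.pi_pos
    field_simp
  have hintx : ∀ y ∈ Ioi (0 : ℝ), Integrable (fun x => F (x, y)) := by
    intro y hy
    have h1 : (fun x => F (x, y)) = fun x => (Real.exp (-(κ ^ 2 * y)) / (2 * Real.pi * y)) *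
        (w x * Real.exp (-(x ^ 2 / (4 * y)))) := by
      funext x
      simp only [hFdef]
      ring
    rw [h1]
    exact (H y hy).1.const_mul _
  have hinty : IntegrableOn (fun y : ℝ => c / (2 * Real.pi) * (y ^ (a - 1) * Real.exp (-(κ ^ 2 * y)))) (Ioi 0) := by
    apply Integrable.const_mul
    have h2 := integrableOn_rpow_mul_exp_neg_mul_rpow (p := 1) (s := a - 1) (b := κ ^ 2)
      (by linarith) one_pos hκ2
    refine h2.congr_fun (fun y hy => ?_) measurableSet_Ioi
    simp only [Real.rpow_one, neg_mul]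
  have hF : Integrable F ((volume : Measure ℝ).prod (volume.restrict (Ioi 0))) := by
    rw [integrable_prod_iff' hmeas.aestronglyMeasurable]
    refine ⟨(ae_restrict_iff' measurableSet_Ioi).2 (Eventually.of_forall hintx), ?_⟩
    refine hinty.congr_fun (fun y hy => ?_) measurableSet_Ioi
    have hy' : (0 : ℝ) < y := hy
    simp only
    rw [← hval y hy]
    refine integral_congr_ae (Eventually.of_forall fun x => ?_)
    simp only
    rw [Real.norm_of_nonneg]
    simp only [hFdef]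
    have := hw0 x
    have := Real.pi_pos
    positivity
  have hkk : ∀ s, w s * kk κ (s ^ 2) = ∫ y in Ioi (0 : ℝ), F (s, y) := by
    intro s
    simp only [kk, hFdef]
    rw [integral_const_mul]
  constructor
  · have := hF.integral_prod_left
    refine this.congr (Eventually.of_forall fun s => ?_)
    exact (hkk s).symm
  · simp_rw [hkk]
    have hsw := integral_integral_swap (f := fun s y => F (s, y)) (μ := (volume : Measure ℝ))
      (ν := volume.restrict (Ioi (0 : ℝ))) hF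
    rw [hsw, setIntegral_congr_fun measurableSet_Ioi hval, integral_const_mul,
      Real.integral_rpow_mul_exp_neg_mul_Ioi ha hκ2]

theorem g0 {τ : ℝ} (hτ : 0 < τ) : Integrable (fun s : ℝ => (1 : ℝ) * Real.exp (-(s ^ 2 / (4 * τ)))) ∧
    ∫ s : ℝ, (1 : ℝ) * Real.exp (-(s ^ 2 / (4 * τ))) = 2 * Real.sqrt Real.pi * τ ^ (1 / 2 : ℝ) := by
  have hb : 0 < 1 / (4 * τ) := by positivity
  have h1 : (fun s : ℝ => (1 : ℝ) * Real.exp (-(s ^ 2 / (4 * τ)))) =
      fun s : ℝ => Real.exp (-(1 / (4 * τ)) * s ^ 2) := by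
    funext s; rw [one_mul]; congr 1; ring
  rw [h1]
  refine ⟨integrable_exp_neg_mul_sq hb, ?_⟩
  rw [integral_gaussian, ← Real.sqrt_eq_rpow]
  have h2 : Real.pi / (1 / (4 * τ)) = 2 ^ 2 * (Real.pi * τ) := by field_simp; ring
  rw [h2, Real.sqrt_mul (by positivity), Real.sqrt_sq (by norm_num), Real.sqrt_mul Real.pi_pos.le]
  ring

theorem g2 {τ : ℝ} (hτ : 0 < τ) : Integrable (fun s : ℝ => s ^ 2 * Real.exp (-(s ^ 2 / (4 * τ)))) ∧
    ∫ s : ℝ, s ^ 2 * Real.exp (-(s ^ 2 / (4 * τ))) = 4 * Real.sqrt Real.pi * τ ^ (3 / 2 : ℝ) := by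
  have hb : 0 < 1 / (4 * τ) := by positivity
  have h1 : (fun s : ℝ => s ^ 2 * Real.exp (-(s ^ 2 / (4 * τ)))) =
      fun s : ℝ => s ^ 2 * Real.exp (-(1 / (4 * τ)) * s ^ 2) := by
    funext s; congr 2; ring
  rw [h1]
  constructor
  · have := integrable_rpow_mul_exp_neg_mul_sq hb (s := 2) (by norm_num)
    simpa [Real.rpow_two] using this
  · have h3 : ∫ s : ℝ, s ^ 2 * Real.exp (-(1 / (4 * τ)) * s ^ 2) =
        ∫ s : ℝ, (fun x : ℝ => x ^ (2 : ℝ) * Real.exp (-(1 / (4 * τ)) * x ^ (2 : ℝ))) |s| := by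
      refine integral_congr_ae (Eventually.of_forall fun s => ?_)
      simp only [Real.rpow_two, sq_abs]
    rw [h3, integral_comp_abs (f := fun x : ℝ => x ^ (2 : ℝ) * Real.exp (-(1 / (4 * τ)) * x ^ (2 : ℝ))), integral_rpow_mul_exp_neg_mul_rpow (by norm_num) (by norm_num) hb]
    have h4 : ((2 : ℝ) + 1) / 2 = 1 / 2 + 1 := by norm_num
    have h5 : -((2 : ℝ) + 1) / 2 = -(3 / 2) := by norm_num
    rw [h4, h5, Real.Gamma_add_one (by norm_num), Real.Gamma_one_half_eq, one_div, Real.inv_rpow (by positivity),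
      Real.rpow_neg (by positivity), inv_inv, Real.mul_rpow (by norm_num) hτ.le]
    have h6 : (4 : ℝ) ^ (3 / 2 : ℝ) = 8 := by
      have : (4 : ℝ) = 2 ^ (2 : ℝ) := by norm_num
      rw [this, ← Real.rpow_mul (by norm_num)]
      norm_num
    rw [h6]
    ring

end MOM

theorem pMOM : S_MOM := by
  intro κ hκ
  have hπ : Real.sqrt Real.pi * Real.sqrt Real.pi = Real.pi := Real.mul_self_sqrt Real.pi_pos.le
  have hπ0 := Real.pi_pos
  obtain ⟨h1, h2⟩ := MOM.main hκ (w := fun _ => 1) measurable_const (fun _ => zero_le_one)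
    (a := 1 / 2) (by norm_num) (fun τ hτ => MOM.g0 hτ)
  obtain ⟨h3, h4⟩ := MOM.main hκ (w := fun s => s ^ 2) (by fun_prop) (fun s => sq_nonneg s)
    (a := 3 / 2) (by norm_num) (fun τ hτ => MOM.g2 hτ)
  simp only [one_mul] at h1 h2
  refine ⟨h1, ?_, h3, ?_⟩
  · rw [h2, Real.Gamma_one_half_eq]
    have : (1 / κ ^ 2) ^ (1 / 2 : ℝ) = 1 / κ := by
      rw [← Real.sqrt_eq_rpow, Real.sqrt_div zero_le_one, Real.sqrt_one, Real.sqrt_sq hκ.le]
    rw [this]
    field_simp
    linear_combination hπ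
  · rw [h4]
    have h5 : (3 / 2 : ℝ) = 1 / 2 + 1 := by norm_num
    have : (1 / κ ^ 2) ^ (3 / 2 : ℝ) = 1 / κ ^ 3 := by
      rw [h5, Real.rpow_add_one (by positivity), ← Real.sqrt_eq_rpow, Real.sqrt_div zero_le_one,
        Real.sqrt_one, Real.sqrt_sq hκ.le]
      field_simp
    rw [this, h5, Real.Gamma_add_one (by norm_num), Real.Gamma_one_half_eq]
    field_simp
    linear_combination 4 * hπ

end

end Pool.Agent.T2H10.WB
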