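import Pool.Agent.T2H10.WB.Stm

/-!
# Project WB, package PAI: pairing with the regularised potential
-/

open MeasureTheory Set Filter Topology

namespace Pool.Agent.T2H10.WB

noncomputable section

namespace PAI

theorem integrable_exp_abs (c : ℝ) (hc : 0 < c) : Integrable (fun x : ℝ => Real.exp (-(c * |x|))) := by
  have h0 : IntegrableOn (fun x : ℝ => Real.exp (-(c * |x|))) (Ioi 0) := by
    refine (exp_neg_integrableOn_Ioi 0 hc).congr_fun (fun x hx => ?_) measurableSet_Ioi
    have hx' : 0 < x := hx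
    simp only [abs_of_pos hx']
    congr 1
    ring
  have h1 : IntegrableOn (fun x : ℝ => Real.exp (-(c * |x|))) (Iic 0) := by
    rw [← Measure.map_neg_eq_self (volume : Measure ℝ)]
    let m : MeasurableEmbedding fun x : ℝ => -x := (Homeomorph.neg ℝ).measurableEmbedding
    rw [m.integrableOn_map_iff]
    simp_rw [Function.comp_def, abs_neg, neg_preimage, neg_Iic, neg_zero]
    exact Iff.mpr integrableOn_Ici_iff_integrableOn_Ioi h0
  rw [← integrableOn_univ, ← Iic_union_Ioi (a := (0:ℝ))]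
  exact h1.union h0

theorem integrable_exp_prod (c : ℝ) (hc : 0 < c) :
    Integrable (fun z : ℝ × ℝ => Real.exp (-(c * (|z.1| + |z.2|)))) := by
  have h := (integrable_exp_abs c hc).mul_prod (integrable_exp_abs c hc)
  refine h.congr (ae_of_all _ fun z => ?_)
  simp only
  rw [← Real.exp_add]
  congr 1
  ring

theorem cont_Gm (θ : ℝ) : Continuous (Gm θ) := by
  unfold Gm
  fun_prop

theorem cont_DX (G : ℝ × ℝ → ℝ) (hG : ContDiff ℝ 1 G) : Continuous (DX G) :=
  (hG.continuous_fderiv (by norm_num)).clm_apply continuous_const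

theorem cont_DY (G : ℝ × ℝ → ℝ) (hG : ContDiff ℝ 1 G) : Continuous (DY G) :=
  (hG.continuous_fderiv (by norm_num)).clm_apply continuous_const

theorem exp_le_one' (c : ℝ) (hc : 0 < c) (z : ℝ × ℝ) : Real.exp (-(c * (|z.1| + |z.2|))) ≤ 1 := by
  rw [Real.exp_le_one_iff]
  have := mul_nonneg hc.le (add_nonneg (abs_nonneg z.1) (abs_nonneg z.2))
  linarith

/-- the double integrand -/
def K (κ ε θ : ℝ) (φ : ℝ → ℝ) (u : ℝ × ℝ → ℝ) (z : ℝ × ℝ) (s : ℝ) : ℝ :=
  φ s * (DX u z * Gx κ ε (z - Gm θ s) + DY u z * Gy κ ε (z - Gm θ s) + κ ^ 2 * u z * Gf κ ε (z - Gm θ s))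

end PAI

open PAI in
theorem pPAI (hGDE : S_GDE) (hPSI : S_PSI) (hREP : S_REP) : S_PAI := by
  intro κ ε θ φ u hκ hε hφ hs hu
  obtain ⟨hD, hXY⟩ := hGDE κ ε hκ hε
  obtain ⟨C, c, hC, hc, hdec⟩ := hD.dec
  obtain ⟨C', c', hC', hc', hdec'⟩ := hu.dec
  have hG := hD.smooth
  obtain ⟨-, hP⟩ := hPSI κ ε θ φ hκ hε hφ hs
  have hint : Integrable φ := hφ.integrable_of_hasCompactSupport hs
  have cGx : Continuous (Gx κ ε) := by
    have : Gx κ ε = DX (Gf κ ε) := funext fun z => ((hXY z).1).symm
    rw [this]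
    exact cont_DX _ hG
  have cGy : Continuous (Gy κ ε) := by
    have : Gy κ ε = DY (Gf κ ε) := funext fun z => ((hXY z).2).symm
    rw [this]
    exact cont_DY _ hG
  have cGf : Continuous (Gf κ ε) := hG.continuous
  have cDX : Continuous (DX u) := cont_DX u hu.smooth
  have cDY : Continuous (DY u) := cont_DY u hu.smooth
  have cu : Continuous u := hu.smooth.continuous
  have hGm := cont_Gm θ
  have bd : ∀ w, |Gf κ ε w| ≤ C ∧ |Gx κ ε w| ≤ C ∧ |Gy κ ε w| ≤ C := by
    intro w
    have h3 := exp_le_one' c hc w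
    have h4 : C * Real.exp (-(c * (|w.1| + |w.2|))) ≤ C := by nlinarith
    refine ⟨(hdec w).1.trans h4, ?_, ?_⟩
    · rw [← (hXY w).1]
      exact (hdec w).2.1.trans h4
    · rw [← (hXY w).2]
      exact (hdec w).2.2.trans h4
  -- integrability on the product
  have hcK : Continuous (Function.uncurry (K κ ε θ φ u)) := by
    unfold K Function.uncurry
    fun_prop
  have hKint : Integrable (Function.uncurry (K κ ε θ φ u)) (volume.prod volume) := by
    have hb := (integrable_exp_prod c' hc').mul_prod (hint.abs.mul_const (C' * C * (2 + κ ^ 2)))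
    refine Integrable.mono' hb hcK.aestronglyMeasurable (ae_of_all _ fun p => ?_)
    obtain ⟨z, s⟩ := p
    simp only [Function.uncurry, K]
    obtain ⟨b1, b2, b3⟩ := bd (z - Gm θ s)
    obtain ⟨d1, d2, d3⟩ := hdec' z
    set E := Real.exp (-(c' * (|z.1| + |z.2|))) with hE
    have hE0 : 0 < E := Real.exp_pos _
    rw [Real.norm_eq_abs, abs_mul]
    have m1 : |DX u z * Gx κ ε (z - Gm θ s)| ≤ (C' * E) * C := by
      rw [abs_mul]
      exact mul_le_mul d2 b2 (abs_nonneg _) (by positivity)
    have m2 : |DY u z * Gy κ ε (z - Gm θ s)| ≤ (C' * E) * C := by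
      rw [abs_mul]
      exact mul_le_mul d3 b3 (abs_nonneg _) (by positivity)
    have m3 : |κ ^ 2 * u z * Gf κ ε (z - Gm θ s)| ≤ κ ^ 2 * (C' * E) * C := by
      rw [abs_mul, abs_mul, abs_of_nonneg (sq_nonneg κ)]
      exact mul_le_mul (mul_le_mul_of_nonneg_left d1 (sq_nonneg κ)) b1 (abs_nonneg _) (by positivity)
    have m4 : |DX u z * Gx κ ε (z - Gm θ s) + DY u z * Gy κ ε (z - Gm θ s) +
        κ ^ 2 * u z * Gf κ ε (z - Gm θ s)| ≤ E * (C' * C * (2 + κ ^ 2)) := by
      refine (abs_add_three _ _ _).trans ?_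
      nlinarith
    calc |φ s| * _ ≤ |φ s| * (E * (C' * C * (2 + κ ^ 2))) := mul_le_mul_of_nonneg_left m4 (abs_nonneg _)
      _ = E * (|φ s| * (C' * C * (2 + κ ^ 2))) := by ring
  -- the left side
  have hL : ∀ z, DX u z * DX (psi κ ε θ φ) z + DY u z * DY (psi κ ε θ φ) z + κ ^ 2 * u z * psi κ ε θ φ z =
      ∫ s, K κ ε θ φ u z s := by
    intro z
    rw [(hP z).1, (hP z).2]
    unfold psi
    have i1 : Integrable (fun s => φ s * Gx κ ε (z - Gm θ s)) := by
      refine Continuous.integrable_of_hasCompactSupport (by fun_prop) hs.mul_right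
    have i2 : Integrable (fun s => φ s * Gy κ ε (z - Gm θ s)) := by
      refine Continuous.integrable_of_hasCompactSupport (by fun_prop) hs.mul_right
    have i3 : Integrable (fun s => φ s * Gf κ ε (z - Gm θ s)) := by
      refine Continuous.integrable_of_hasCompactSupport (by fun_prop) hs.mul_right
    have j1 := i1.const_mul (DX u z)
    have j2 := i2.const_mul (DY u z)
    have j3 := i3.const_mul (κ ^ 2 * u z)
    have j12 : Integrable (fun s => DX u z * (φ s * Gx κ ε (z - Gm θ s)) +
        DY u z * (φ s * Gy κ ε (z - Gm θ s))) := j1.add j2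
    rw [← integral_const_mul, ← integral_const_mul, ← integral_const_mul,
      ← integral_add j1 j2, ← integral_add j12 j3]
    refine integral_congr_ae (ae_of_all _ fun s => ?_)
    simp only [K]
    ring
  rw [integral_congr_ae (ae_of_all _ hL)]
  rw [integral_integral_swap hKint]
  refine integral_congr_ae (ae_of_all _ fun s => ?_)
  simp only [K]
  rw [integral_const_mul, hREP κ ε u hκ hε hu (Gm θ s)]

end

end Pool.Agent.T2H10.WB
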