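import Pool.Agent.T2H10.WB.Stm

/-! # Project WB: package PER -/

open MeasureTheory Set Filter Topology

namespace Pool.Agent.T2H10.WB

namespace PER

/-- `exp (-a t)` on the half line -/
theorem expI {a : ℝ} (ha : 0 < a) : IntegrableOn (fun t : ℝ => Real.exp (-(a * t))) (Ioi 0) ∧
    ∫ t in Ioi (0 : ℝ), Real.exp (-(a * t)) = 1 / a := by
  have h1 := integrableOn_exp_mul_Ioi (a := -a) (by linarith) 0
  have h2 := integral_exp_mul_Ioi (a := -a) (by linarith) 0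
  have e : (fun t : ℝ => Real.exp (-(a * t))) = fun t => Real.exp (-a * t) := by
    funext t
    rw [neg_mul]
  constructor
  · rw [e]
    exact h1
  · rw [e, h2, mul_zero, Real.exp_zero]
    rw [neg_div_neg_eq]

theorem kk_meas (κ : ℝ) : Measurable (kk κ) := by
  have h : StronglyMeasurable (Function.uncurry (fun q τ : ℝ => Real.exp (-(κ ^ 2 * τ)) *
      (Real.exp (-(q / (4 * τ))) / (2 * Real.pi * τ)))) := by
    apply Measurable.stronglyMeasurable
    unfold Function.uncurry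
    fun_prop
  exact (h.integral_prod_right (ν := volume.restrict (Ioi 0))).measurable

theorem DD_meas (κ θ : ℝ) : Measurable (Function.uncurry (fun s t => DD κ θ s t)) := by
  unfold Function.uncurry DD
  exact ((kk_meas κ).comp (by fun_prop)).sub ((kk_meas κ).comp (by fun_prop))

theorem lin3 {μ : Measure ℝ} {f g h : ℝ → ℝ} (a b c : ℝ) (hf : Integrable f μ) (hg : Integrable g μ)
    (hh : Integrable h μ) :
    ∫ x, (a * f x + b * g x + c * h x) ∂μ = a * (∫ x, f x ∂μ) + b * (∫ x, g x ∂μ) + c * ∫ x, h x ∂μ := by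
  have h1 : ∫ x, (a * f x + b * g x + c * h x) ∂μ = (∫ x, (a * f x + b * g x) ∂μ) + ∫ x, c * h x ∂μ :=
    integral_add ((hf.const_mul a).add (hg.const_mul b)) (hh.const_mul c)
  have h2 : ∫ x, (a * f x + b * g x) ∂μ = (∫ x, a * f x ∂μ) + ∫ x, b * g x ∂μ :=
    integral_add (hf.const_mul a) (hg.const_mul b)
  rw [h1, h2, integral_const_mul, integral_const_mul, integral_const_mul]

/-- the weighted sums -/
theorem core (D : ℝ → ℝ → ℝ) (hDm : Measurable (Function.uncurry D)) (c : ℝ) (hc : 0 ≤ c)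
    (hD0 : ∀ s t, 0 < s → 0 < t → 0 ≤ D s t)
    (hD1 : ∀ s t, 0 < s → 0 < t → D s t ≤ c * Real.exp (-((s + t) / 2)))
    (φ e₁ e₂ : ℝ → ℝ) (F S : ℝ) (hF : 0 ≤ F)
    (he₁ : ∀ s, 0 < s → 0 ≤ e₁ s) (he₂ : ∀ s, 0 < s → 0 ≤ e₂ s)
    (h1 : ∀ s, 0 < s → |φ s| ≤ F + e₁ s) (h2 : ∀ s, 0 < s → |φ (-s)| ≤ F + e₂ s)
    (i1 : IntegrableOn (fun s => e₁ s * Real.exp (-(s / 2))) (Ioi 0))
    (i2 : IntegrableOn (fun s => e₂ s * Real.exp (-(s / 2))) (Ioi 0))
    (j1 : ∫ s in Ioi (0 : ℝ), e₁ s * Real.exp (-(s / 2)) ≤ S)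
    (j2 : ∫ s in Ioi (0 : ℝ), e₂ s * Real.exp (-(s / 2)) ≤ S) :
    (∫ s in Ioi (0 : ℝ), ∫ t in Ioi (0 : ℝ), φ s * φ (-t) * D s t) ≤
      F ^ 2 * (∫ s in Ioi (0 : ℝ), ∫ t in Ioi (0 : ℝ), D s t) + 4 * c * F * S + c * S ^ 2 := by
  have hexp := expI (a := 1 / 2) (by norm_num)
  have hexpe : (fun t : ℝ => Real.exp (-(1 / 2 * t))) = fun t => Real.exp (-(t / 2)) := by
    funext t
    congr 2
    ring
  rw [hexpe, show (1 : ℝ) / (1 / 2) = 2 by norm_num] at hexp
  obtain ⟨hei, hev⟩ := hexp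
  have hS : 0 ≤ S := le_trans (setIntegral_nonneg measurableSet_Ioi
    (fun s hs => mul_nonneg (he₁ s hs) (Real.exp_pos _).le)) j1
  have hsplit : ∀ s t : ℝ, Real.exp (-((s + t) / 2)) = Real.exp (-(s / 2)) * Real.exp (-(t / 2)) := by
    intro s t
    rw [← Real.exp_add]
    congr 1
    ring
  -- the inner integral of `D`
  have hDi : ∀ s, 0 < s → IntegrableOn (fun t => D s t) (Ioi 0) := by
    intro s hs
    refine Integrable.mono' (hei.const_mul (c * Real.exp (-(s / 2)))) ?_ ?_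
    · exact (hDm.comp (measurable_const.prodMk measurable_id)).aestronglyMeasurable
    · filter_upwards [ae_restrict_mem measurableSet_Ioi] with t ht
      rw [Real.norm_eq_abs, abs_of_nonneg (hD0 s t hs ht)]
      have := hD1 s t hs ht
      rw [hsplit] at this
      linarith
  have hI0 : ∀ s, 0 < s → 0 ≤ ∫ t in Ioi (0 : ℝ), D s t := fun s hs =>
    setIntegral_nonneg measurableSet_Ioi (fun t ht => hD0 s t hs ht)
  have hI1 : ∀ s, 0 < s → (∫ t in Ioi (0 : ℝ), D s t) ≤ 2 * c * Real.exp (-(s / 2)) := by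
    intro s hs
    calc (∫ t in Ioi (0 : ℝ), D s t) ≤ ∫ t in Ioi (0 : ℝ), (c * Real.exp (-(s / 2))) * Real.exp (-(t / 2)) := by
          refine setIntegral_mono_on (hDi s hs) (hei.const_mul _) measurableSet_Ioi ?_
          intro t ht
          have := hD1 s t hs ht
          rw [hsplit] at this
          linarith
      _ = 2 * c * Real.exp (-(s / 2)) := by
          rw [integral_const_mul, hev]
          ring
  have hIi : IntegrableOn (fun s => ∫ t in Ioi (0 : ℝ), D s t) (Ioi 0) := by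
    refine Integrable.mono' (hei.const_mul (2 * c)) ?_ ?_
    · exact (hDm.stronglyMeasurable.integral_prod_right (f := D)).aestronglyMeasurable
    · filter_upwards [ae_restrict_mem measurableSet_Ioi] with s hs
      rw [Real.norm_eq_abs, abs_of_nonneg (hI0 s hs)]
      exact hI1 s hs
  -- pointwise bound for the inner integral
  have hin : ∀ s, 0 < s → |∫ t in Ioi (0 : ℝ), φ s * φ (-t) * D s t| ≤
      F ^ 2 * (∫ t in Ioi (0 : ℝ), D s t) + (2 * c * F + c * S) * (e₁ s * Real.exp (-(s / 2))) +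
        c * F * S * Real.exp (-(s / 2)) := by
    intro s hs
    have hb : IntegrableOn (fun t => F ^ 2 * D s t + (F * e₁ s * c * Real.exp (-(s / 2))) * Real.exp (-(t / 2)) +
        ((F + e₁ s) * c * Real.exp (-(s / 2))) * (e₂ t * Real.exp (-(t / 2)))) (Ioi 0) :=
      (((hDi s hs).const_mul _).add (hei.const_mul _)).add (i2.const_mul _)
    have h3 := norm_integral_le_of_norm_le (f := fun t => φ s * φ (-t) * D s t) hb (by
      filter_upwards [ae_restrict_mem measurableSet_Ioi] with t ht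
      have ht' : 0 < t := ht
      rw [Real.norm_eq_abs, abs_mul, abs_mul, abs_of_nonneg (hD0 s t hs ht')]
      have d0 := hD0 s t hs ht'
      have d1 := hD1 s t hs ht'
      rw [hsplit] at d1
      have a1 := h1 s hs
      have a2 := h2 t ht'
      have b1 := he₁ s hs
      have b2 := he₂ t ht'
      have a3 : |φ s| * |φ (-t)| ≤ (F + e₁ s) * (F + e₂ t) :=
        mul_le_mul a1 a2 (abs_nonneg _) (by linarith)
      have a4 : |φ s| * |φ (-t)| * D s t ≤ (F + e₁ s) * (F + e₂ t) * D s t := mul_le_mul_of_nonneg_right a3 d0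
      have a5 : F * e₁ s * D s t ≤ F * e₁ s * (c * (Real.exp (-(s / 2)) * Real.exp (-(t / 2)))) :=
        mul_le_mul_of_nonneg_left d1 (mul_nonneg hF b1)
      have a6 : (F + e₁ s) * e₂ t * D s t ≤ (F + e₁ s) * e₂ t * (c * (Real.exp (-(s / 2)) * Real.exp (-(t / 2)))) :=
        mul_le_mul_of_nonneg_left d1 (mul_nonneg (by linarith) b2)
      linarith [a4, a5, a6])
    rw [Real.norm_eq_abs] at h3
    refine h3.trans ?_
    rw [lin3 _ _ _ (hDi s hs) hei i2, hev]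
    have b1 := he₁ s hs
    have h4 : (F + e₁ s) * c * Real.exp (-(s / 2)) * (∫ t in Ioi (0 : ℝ), e₂ t * Real.exp (-(t / 2))) ≤
        (F + e₁ s) * c * Real.exp (-(s / 2)) * S :=
      mul_le_mul_of_nonneg_left j2 (mul_nonneg (mul_nonneg (by linarith) hc) (Real.exp_pos _).le)
    linarith [h4]
  have hb2 : IntegrableOn (fun s => F ^ 2 * (∫ t in Ioi (0 : ℝ), D s t) +
      (2 * c * F + c * S) * (e₁ s * Real.exp (-(s / 2))) + c * F * S * Real.exp (-(s / 2))) (Ioi 0) :=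
    ((hIi.const_mul _).add (i1.const_mul _)).add (hei.const_mul _)
  have h5 := norm_integral_le_of_norm_le (f := fun s => ∫ t in Ioi (0 : ℝ), φ s * φ (-t) * D s t) hb2 (by
    filter_upwards [ae_restrict_mem measurableSet_Ioi] with s hs
    rw [Real.norm_eq_abs]
    exact hin s hs)
  rw [Real.norm_eq_abs] at h5
  refine (le_abs_self _).trans (h5.trans ?_)
  rw [lin3 _ _ _ hIi i1 hei, hev]
  have h6 : (2 * c * F + c * S) * (∫ s in Ioi (0 : ℝ), e₁ s * Real.exp (-(s / 2))) ≤ (2 * c * F + c * S) * S :=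
    mul_le_mul_of_nonneg_left j1 (by positivity)
  linarith [h6]

/-- the remainder -/
theorem eb (k : ℝ → ℝ) (hk : Continuous k) (C c : ℝ) (hC : 0 < C) (hc : 0 < c)
    (hb : ∀ s, |k s| ≤ C * Real.exp (-(c * |s|))) (K G : ℝ) (hK0 : 0 ≤ K) (hK : K ≤ 2) (hG : 0 ≤ G) :
    IntegrableOn (fun s => (K * Real.sqrt |s| * G + |k s|) * Real.exp (-(s / 2))) (Ioi 0) ∧
    ∫ s in Ioi (0 : ℝ), (K * Real.sqrt |s| * G + |k s|) * Real.exp (-(s / 2)) ≤
      32 * G + Real.sqrt (∫ s, k s ^ 2) := by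
  obtain ⟨q1, q2⟩ := expI (a := 1 / 4) (by norm_num)
  obtain ⟨p1, p2⟩ := expI (a := 1) (by norm_num)
  rw [show (1 : ℝ) / (1 / 4) = 4 by norm_num] at q2
  -- the root part
  have hr : ∀ s : ℝ, 0 < s → K * Real.sqrt |s| * G * Real.exp (-(s / 2)) ≤ 8 * G * Real.exp (-(1 / 4 * s)) := by
    intro s hs
    rw [abs_of_pos hs]
    have h1 : Real.sqrt s ≤ 4 * Real.exp (1 / 4 * s) := by
      have h2 := Real.add_one_le_exp (1 / 4 * s)
      have h3 : Real.sqrt s ≤ 1 + s := by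
        rw [Real.sqrt_le_left (by linarith)]
        nlinarith
      linarith
    have h4 : Real.exp (-(s / 2)) * Real.exp (1 / 4 * s) = Real.exp (-(1 / 4 * s)) := by
      rw [← Real.exp_add]
      congr 1
      ring
    have h5 : K * Real.sqrt s ≤ 8 * Real.exp (1 / 4 * s) := by
      have h6 : 0 ≤ Real.sqrt s := Real.sqrt_nonneg _
      have h7 : K * Real.sqrt s ≤ 2 * Real.sqrt s := mul_le_mul_of_nonneg_right hK h6
      linarith
    calc K * Real.sqrt s * G * Real.exp (-(s / 2)) ≤ 8 * Real.exp (1 / 4 * s) * G * Real.exp (-(s / 2)) :=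
          mul_le_mul_of_nonneg_right (mul_le_mul_of_nonneg_right h5 hG) (Real.exp_pos _).le
      _ = 8 * G * (Real.exp (-(s / 2)) * Real.exp (1 / 4 * s)) := by ring
      _ = _ := by rw [h4]
  have ir : IntegrableOn (fun s => K * Real.sqrt |s| * G * Real.exp (-(s / 2))) (Ioi 0) := by
    refine Integrable.mono' (q1.const_mul (8 * G)) (by
      apply Measurable.aestronglyMeasurable
      fun_prop) ?_
    filter_upwards [ae_restrict_mem measurableSet_Ioi] with s hs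
    rw [Real.norm_eq_abs, abs_of_nonneg (by positivity)]
    exact hr s hs
  have jr : ∫ s in Ioi (0 : ℝ), K * Real.sqrt |s| * G * Real.exp (-(s / 2)) ≤ 32 * G := by
    calc ∫ s in Ioi (0 : ℝ), K * Real.sqrt |s| * G * Real.exp (-(s / 2)) ≤
          ∫ s in Ioi (0 : ℝ), 8 * G * Real.exp (-(1 / 4 * s)) :=
            setIntegral_mono_on ir (q1.const_mul _) measurableSet_Ioi (fun s hs => hr s hs)
      _ = _ := by
          rw [integral_const_mul, q2]
          ring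
  -- the function `k`
  have hk2 : Integrable (fun s => k s ^ 2) := by
    have hg : Integrable (fun s : ℝ => C ^ 2 * Real.exp (-(2 * c * |s|))) := by
      apply Integrable.const_mul
      have h1 : IntegrableOn (fun t : ℝ => Real.exp (-(2 * c * |t|))) (Ioi 0) := by
        refine (expI (a := 2 * c) (by linarith)).1.congr_fun ?_ measurableSet_Ioi
        intro t ht
        show Real.exp (-(2 * c * t)) = Real.exp (-(2 * c * |t|))
        rw [abs_of_pos ht]
      have h2 : IntegrableOn (fun t : ℝ => Real.exp (-(2 * c * |t|))) (Iic 0) := by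
        rw [← neg_zero, ← Set.image_neg_Ici (a := (0 : ℝ))]
        have := (integrableOn_Ici_iff_integrableOn_Ioi (b := (0 : ℝ)) (f := fun t : ℝ => Real.exp (-(2 * c * |t|)))
          (μ := volume)).mpr h1
        rw [show (fun x : ℝ => -x) '' Ici 0 = Neg.neg '' Ici 0 from rfl]
        rw [(Measure.measurePreserving_neg (volume : Measure ℝ)).integrableOn_image
          (MeasurableEquiv.neg ℝ).measurableEmbedding]
        refine this.congr_fun ?_ measurableSet_Ici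
        intro t _
        show Real.exp (-(2 * c * |t|)) = Real.exp (-(2 * c * |-t|))
        rw [abs_neg]
      rw [← integrableOn_univ, ← Iic_union_Ioi (a := (0 : ℝ))]
      exact h2.union h1
    refine hg.mono' (hk.pow 2).aestronglyMeasurable (Eventually.of_forall ?_)
    intro s
    rw [Real.norm_eq_abs, abs_pow]
    have h1 := pow_le_pow_left₀ (abs_nonneg _) (hb s) 2
    refine h1.trans_eq ?_
    rw [mul_pow, ← Real.exp_nat_mul]
    congr 2
    push_cast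
    ring
  have hkb : ∀ s : ℝ, |k s| ≤ C := by
    intro s
    refine (hb s).trans ?_
    have : Real.exp (-(c * |s|)) ≤ 1 := Real.exp_le_one_iff.mpr (by
      have := mul_nonneg hc.le (abs_nonneg s)
      linarith)
    nlinarith
  obtain ⟨r1, r2⟩ := expI (a := 1 / 2) (by norm_num)
  have ik : IntegrableOn (fun s => |k s| * Real.exp (-(s / 2))) (Ioi 0) := by
    refine Integrable.mono' (r1.const_mul C) (by
      apply Continuous.aestronglyMeasurable
      fun_prop) ?_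
    filter_upwards [ae_restrict_mem measurableSet_Ioi] with s hs
    rw [Real.norm_eq_abs, abs_of_nonneg (by positivity)]
    have e : Real.exp (-(s / 2)) = Real.exp (-(1 / 2 * s)) := by
      congr 1
      ring
    rw [e]
    exact mul_le_mul_of_nonneg_right (hkb s) (Real.exp_pos _).le
  have jk : ∫ s in Ioi (0 : ℝ), |k s| * Real.exp (-(s / 2)) ≤ Real.sqrt (∫ s, k s ^ 2) := by
    set A := ∫ s in Ioi (0 : ℝ), |k s| * Real.exp (-(s / 2)) with hA
    apply Real.le_sqrt_of_sq_le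
    have hnn : 0 ≤ ∫ s in Ioi (0 : ℝ), (|k s| - A * Real.exp (-(s / 2))) ^ 2 :=
      setIntegral_nonneg measurableSet_Ioi (fun s _ => sq_nonneg _)
    have e : ∀ s : ℝ, (|k s| - A * Real.exp (-(s / 2))) ^ 2 =
        1 * k s ^ 2 + -(2 * A) * (|k s| * Real.exp (-(s / 2))) + A ^ 2 * Real.exp (-(1 * s)) := by
      intro s
      have h1 : Real.exp (-(1 * s)) = Real.exp (-(s / 2)) ^ 2 := by
        rw [← Real.exp_nat_mul]
        congr 1
        push_cast
        ring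
      rw [h1, ← sq_abs (k s)]
      ring
    simp_rw [e] at hnn
    rw [lin3 _ _ _ hk2.integrableOn ik p1, p2, ← hA] at hnn
    have h3 : ∫ s in Ioi (0 : ℝ), k s ^ 2 ≤ ∫ s, k s ^ 2 :=
      setIntegral_le_integral hk2 (Eventually.of_forall fun s => sq_nonneg _)
    nlinarith
  have e : (fun s => (K * Real.sqrt |s| * G + |k s|) * Real.exp (-(s / 2))) =
      fun s => K * Real.sqrt |s| * G * Real.exp (-(s / 2)) + |k s| * Real.exp (-(s / 2)) := by
    funext s
    ring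
  rw [e]
  refine ⟨ir.add ik, ?_⟩
  rw [integral_add ir ik]
  linarith

theorem k4 {θ k : ℝ} (h0 : 0 ≤ θ) (h1 : θ ≤ 1) (hk : 0 ≤ k) (hk2 : k ≤ 1 + θ ^ 2) : k ^ 2 ≤ 1 + 3 * θ ^ 2 := by
  have a1 : k ^ 2 ≤ (1 + θ ^ 2) ^ 2 := pow_le_pow_left₀ hk hk2 2
  have a2 : θ ^ 2 ≤ 1 := by nlinarith
  have a3 : θ ^ 2 * θ ^ 2 ≤ θ ^ 2 * 1 := mul_le_mul_of_nonneg_left a2 (sq_nonneg _)
  linarith [a1, a3]

theorem hssq (G H : ℝ) : (32 * G + H) ^ 2 ≤ 2048 * (G ^ 2 + H ^ 2) := by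
  have a1 := sq_nonneg (32 * G - H)
  have a2 := sq_nonneg H
  linarith [a1, a2]

theorem arith {θ F G H I J C₁ C₂ w : ℝ} (hθ : 0 < θ) (t1 : θ < 1) (hF0 : 0 ≤ F) (hG0 : 0 ≤ G) (hH0 : 0 ≤ H)
    (hC₁ : 0 < C₁) (hC₂ : 0 < C₂) (hFsq : F ^ 2 ≤ (1 + 3 * θ ^ 2) * w ^ 2)
    (hmain : J ≤ F ^ 2 * I + 4 * (C₁ * θ ^ 2) * F * (32 * G + H) + C₁ * θ ^ 2 * (32 * G + H) ^ 2)
    (hUU : I ≤ θ ^ 2 / (6 * Real.pi) + C₂ * θ ^ 4) :
    2 * J ≤ (θ ^ 2 / (3 * Real.pi) + (1 + 4 * (2 * C₂ + 4 * C₁) + 16384 * C₁) * θ ^ 3) * w ^ 2 +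
      (1 + 4 * (2 * C₂ + 4 * C₁) + 16384 * C₁) * θ * (G ^ 2 + H ^ 2) := by
  have hSsq := hssq G H
  have hS0 : 0 ≤ 32 * G + H := by positivity
  set S := 32 * G + H with hSdef
  set B := 2 * C₂ + 4 * C₁ with hB
  set p := θ ^ 2 / (3 * Real.pi) with hp
  set N := G ^ 2 + H ^ 2 with hN
  have hN0 : 0 ≤ N := by positivity
  have hB0 : 0 < B := by positivity
  have hpi : 0 < Real.pi := Real.pi_pos
  have hpi3 : 3 < Real.pi := Real.pi_gt_three
  have hp0 : 0 ≤ p := by positivity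
  have hp2 : θ ^ 2 / (6 * Real.pi) = p / 2 := by
    rw [hp]
    field_simp
    norm_num
  rw [hp2] at hUU
  have hp3 : p ≤ θ ^ 2 / 3 := by
    rw [hp]
    apply div_le_div_of_nonneg_left (by positivity) (by norm_num)
    linarith
  clear_value p
  have hcross : θ ^ 2 * (F * S) ≤ (θ ^ 3 * F ^ 2 + θ * S ^ 2) / 2 := by
    have := mul_nonneg hθ.le (sq_nonneg (θ * F - S))
    linarith
  have k1 : F ^ 2 * I ≤ F ^ 2 * (p / 2 + C₂ * θ ^ 4) := mul_le_mul_of_nonneg_left hUU (sq_nonneg _)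
  have k2 : 2 * J ≤ F ^ 2 * (p + 2 * C₂ * θ ^ 4) + 8 * C₁ * (θ ^ 2 * (F * S)) +
      2 * (C₁ * θ ^ 2 * S ^ 2) := by
    linarith [hmain, k1]
  clear hmain k1 hUU hSdef hB hN hp hp2
  have k3 : 8 * C₁ * (θ ^ 2 * (F * S)) ≤ 4 * C₁ * (θ ^ 3 * F ^ 2 + θ * S ^ 2) := by
    have := mul_le_mul_of_nonneg_left hcross (show 0 ≤ 8 * C₁ by positivity)
    linarith
  have hθ4 : θ ^ 4 ≤ θ ^ 3 := pow_le_pow_of_le_one hθ.le t1.le (by norm_num)
  have hθ5 : θ ^ 5 ≤ θ ^ 3 := pow_le_pow_of_le_one hθ.le t1.le (by norm_num)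
  have hθ22 : θ ^ 2 ≤ θ := by
    have := pow_le_pow_of_le_one hθ.le t1.le (show 1 ≤ 2 by norm_num)
    rwa [pow_one] at this
  have k4 : F ^ 2 * (2 * C₂ * θ ^ 4) ≤ F ^ 2 * (2 * C₂ * θ ^ 3) :=
    mul_le_mul_of_nonneg_left (mul_le_mul_of_nonneg_left hθ4 (by positivity)) (sq_nonneg _)
  have k5 : 2 * (C₁ * θ ^ 2 * S ^ 2) ≤ 2 * C₁ * (θ * S ^ 2) := by
    have h1 : θ ^ 2 * S ^ 2 ≤ θ * S ^ 2 := mul_le_mul_of_nonneg_right hθ22 (sq_nonneg _)
    have h2 := mul_le_mul_of_nonneg_left h1 (show 0 ≤ 2 * C₁ by positivity)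
    linarith
  have k8 : 6 * C₁ * (θ * S ^ 2) ≤ 6 * C₁ * (θ * (2048 * N)) :=
    mul_le_mul_of_nonneg_left (mul_le_mul_of_nonneg_left hSsq hθ.le) (by positivity)
  have k6 : 2 * J ≤ F ^ 2 * (p + (2 * C₂ + 4 * C₁) * θ ^ 3) + 6 * C₁ * (θ * S ^ 2) := by
    linarith [k2, k3, k4, k5]
  have k6' : 2 * J ≤ F ^ 2 * (p + B * θ ^ 3) + 6 * C₁ * (θ * (2048 * N)) := k6.trans (by
    have : 2 * C₂ + 4 * C₁ = B := rfl
    rw [this]
    linarith [k8])
  clear k2 k3 k4 k5 k6 k8 hcross hSsq hS0 hG0 hH0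
  clear_value B N S
  have hq0 : 0 ≤ p + B * θ ^ 3 := by positivity
  have k9 : F ^ 2 * (p + B * θ ^ 3) ≤ (1 + 3 * θ ^ 2) * w ^ 2 * (p + B * θ ^ 3) :=
    mul_le_mul_of_nonneg_right hFsq hq0
  have k10 : (1 + 3 * θ ^ 2) * (p + B * θ ^ 3) ≤ p + (1 + 4 * B) * θ ^ 3 := by
    have a1 : 3 * θ ^ 2 * p ≤ θ ^ 4 := by
      have := mul_le_mul_of_nonneg_left hp3 (show 0 ≤ 3 * θ ^ 2 by positivity)
      linarith
    have a2 := mul_le_mul_of_nonneg_left hθ5 (show 0 ≤ 3 * B by positivity)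
    linarith
  have k11 := mul_le_mul_of_nonneg_left k10 (sq_nonneg w)
  have k12 : 0 ≤ θ ^ 3 * w ^ 2 := by positivity
  have k13 : 0 ≤ θ * N := by positivity
  have k15 : 0 ≤ C₁ * (θ ^ 3 * w ^ 2) := mul_nonneg hC₁.le k12
  have k16 : 0 ≤ C₁ * (θ * N) := mul_nonneg hC₁.le k13
  have k17 : 0 ≤ B * (θ * N) := mul_nonneg hB0.le k13
  linarith [k6', k9, k11, k12, k13, k15, k16, k17]

end PER

theorem pPER (hDBD : S_DBD) (hDUP : S_DUP) (hSOB : S_SOB) : S_PER := by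
  obtain ⟨C₁, θ₁, hC₁, hθ₁, hD⟩ := hDBD
  obtain ⟨C₂, θ₂, hC₂, hθ₂, hU⟩ := hDUP
  refine ⟨1 + 4 * (2 * C₂ + 4 * C₁) + 16384 * C₁, min 1 (min θ₁ θ₂), by positivity, by positivity, ?_⟩
  intro κ θ hκ hκ2 hθ hθlt φ f g hFG
  have t1 : θ < 1 := lt_of_lt_of_le hθlt (min_le_left _ _)
  have t2 : θ < θ₁ := lt_of_lt_of_le hθlt ((min_le_right _ _).trans (min_le_left _ _))
  have t3 : θ < θ₂ := lt_of_lt_of_le hθlt ((min_le_right _ _).trans (min_le_right _ _))
  obtain ⟨-, hS⟩ := hSOB κ φ f g hFG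
  obtain ⟨Cp, cp, hCp, hcp, hφ⟩ := hFG.ed.dec
  obtain ⟨Cf, cf, hCf, hcf, hf⟩ := hFG.dec
  have fc : Continuous f := by
    rw [continuous_iff_continuousAt]
    exact fun s => (hFG.df s).continuousAt
  set h : ℝ → ℝ := fun s => κ ^ 2 * f s - φ s with hh
  have hcont : Continuous h := (continuous_const.mul fc).sub hFG.ed.cont
  have hκsq : κ ^ 2 ≤ 2 := by nlinarith
  have hbound : ∀ s, |h s| ≤ (2 * Cf + Cp) * Real.exp (-(min cp cf * |s|)) := by
    intro s
    have a1 := (hf s).1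
    have a2 := hφ s
    have e1 : Real.exp (-(cf * |s|)) ≤ Real.exp (-(min cp cf * |s|)) := by
      apply Real.exp_le_exp.mpr
      have := mul_le_mul_of_nonneg_right (min_le_right cp cf) (abs_nonneg s)
      linarith
    have e2 : Real.exp (-(cp * |s|)) ≤ Real.exp (-(min cp cf * |s|)) := by
      apply Real.exp_le_exp.mpr
      have := mul_le_mul_of_nonneg_right (min_le_left cp cf) (abs_nonneg s)
      linarith
    have a3 : |f s| ≤ Cf * Real.exp (-(min cp cf * |s|)) := a1.trans (mul_le_mul_of_nonneg_left e1 hCf.le)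
    have a4 : |φ s| ≤ Cp * Real.exp (-(min cp cf * |s|)) := a2.trans (mul_le_mul_of_nonneg_left e2 hCp.le)
    have a5 : |κ ^ 2 * f s| ≤ 2 * (Cf * Real.exp (-(min cp cf * |s|))) := by
      rw [abs_mul, abs_of_nonneg (sq_nonneg κ)]
      exact mul_le_mul hκsq a3 (abs_nonneg _) (by norm_num)
    calc |h s| ≤ |κ ^ 2 * f s| + |φ s| := abs_sub _ _
      _ ≤ _ := by linarith
  have hminpos : 0 < min cp cf := lt_min hcp hcf
  set G := Real.sqrt (∫ s, g s ^ 2) with hG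
  set H := Real.sqrt (∫ s, h s ^ 2) with hH
  have hG0 : 0 ≤ G := Real.sqrt_nonneg _
  have hH0 : 0 ≤ H := Real.sqrt_nonneg _
  have hG2 : G ^ 2 = ∫ s, g s ^ 2 := Real.sq_sqrt (integral_nonneg fun s => sq_nonneg _)
  have hH2 : H ^ 2 = ∫ s, h s ^ 2 := Real.sq_sqrt (integral_nonneg fun s => sq_nonneg _)
  obtain ⟨i1, j1⟩ := PER.eb h hcont (2 * Cf + Cp) (min cp cf) (by positivity) hminpos hbound (κ ^ 2) G
    (sq_nonneg _) hκsq hG0
  obtain ⟨i2, j2⟩ := PER.eb (fun s => h (-s)) (hcont.comp continuous_neg) (2 * Cf + Cp) (min cp cf)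
    (by positivity) hminpos
    (fun s => by
      have := hbound (-s)
      rw [abs_neg] at this
      exact this) (κ ^ 2) G (sq_nonneg _) hκsq hG0
  rw [integral_neg_eq_self (fun s => h s ^ 2) volume] at j2
  rw [← hH] at j1 j2
  have hDD := fun s t (hs : 0 < s) (ht : 0 < t) => hD κ θ s t hκ hθ t2 hs ht
  have hφb : ∀ s, |φ s| ≤ κ ^ 2 * |f 0| + (κ ^ 2 * Real.sqrt |s| * G + |h s|) := by
    intro s
    have e1 : φ s = κ ^ 2 * f 0 + κ ^ 2 * (f s - f 0) - h s := by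
      rw [hh]
      ring
    have a1 := hS s
    have a2 : |κ ^ 2 * (f s - f 0)| ≤ κ ^ 2 * (Real.sqrt |s| * G) := by
      rw [abs_mul, abs_of_nonneg (sq_nonneg κ)]
      exact mul_le_mul_of_nonneg_left a1 (sq_nonneg κ)
    have a3 : |κ ^ 2 * f 0| = κ ^ 2 * |f 0| := by rw [abs_mul, abs_of_nonneg (sq_nonneg κ)]
    have a4 : |φ s| ≤ |κ ^ 2 * f 0| + |κ ^ 2 * (f s - f 0)| + |h s| := by
      rw [e1]
      exact (abs_sub _ _).trans (add_le_add (abs_add_le _ _) le_rfl)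
    linarith
  have hmain := PER.core (fun s t => DD κ θ s t) (PER.DD_meas κ θ) (C₁ * θ ^ 2) (by positivity)
    (fun s t hs ht => (hDD s t hs ht).1) (fun s t hs ht => (hDD s t hs ht).2) φ
    (fun s => κ ^ 2 * Real.sqrt |s| * G + |h s|) (fun s => κ ^ 2 * Real.sqrt |s| * G + |h (-s)|)
    (κ ^ 2 * |f 0|) (32 * G + H) (by positivity) (fun s _ => by positivity) (fun s _ => by positivity)
    (fun s _ => hφb s) (fun s _ => by
      have := hφb (-s)
      rw [abs_neg] at this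
      exact this) i1 i2 j1 j2
  have hUU := hU κ θ hκ hθ t3
  set I := ∫ s in Ioi (0 : ℝ), ∫ t in Ioi (0 : ℝ), DD κ θ s t with hI
  set J := ∫ s in Ioi (0 : ℝ), ∫ t in Ioi (0 : ℝ), φ s * φ (-t) * DD κ θ s t with hJ
  rw [← hG2, ← hH2]
  have hFsq : (κ ^ 2 * |f 0|) ^ 2 ≤ (1 + 3 * θ ^ 2) * f 0 ^ 2 := by
    rw [mul_pow, sq_abs]
    apply mul_le_mul_of_nonneg_right _ (sq_nonneg _)
    exact PER.k4 hθ.le t1.le (sq_nonneg κ) hκ2
  exact PER.arith hθ t1 (by positivity) hG0 hH0 hC₁ hC₂ hFsq hmain hUU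

end Pool.Agent.T2H10.WB
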