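import Pool.Agent.T2H10.WB.Stm

/-!
# Project WB, package PSI: the regularised potential
-/

open MeasureTheory Set Filter Topology

namespace Pool.Agent.T2H10.WB

noncomputable section

namespace PSI

theorem cont_Gm (θ : ℝ) : Continuous (Gm θ) := by
  unfold Gm
  fun_prop

theorem fderiv_eq (G : ℝ × ℝ → ℝ) (w v : ℝ × ℝ) :
    fderiv ℝ G w v = v.1 * DX G w + v.2 * DY G w := by
  have h : v = v.1 • ((1 : ℝ), (0 : ℝ)) + v.2 • ((0 : ℝ), (1 : ℝ)) := by
    ext <;> simp
  calc fderiv ℝ G w v = fderiv ℝ G w (v.1 • ((1 : ℝ), (0 : ℝ)) + v.2 • ((0 : ℝ), (1 : ℝ))) := by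
        rw [← h]
    _ = v.1 * DX G w + v.2 * DY G w := by
        rw [map_add, map_smul, map_smul]
        rfl

theorem norm_fderiv_le (G : ℝ × ℝ → ℝ) (w : ℝ × ℝ) (C : ℝ) (hC : 0 ≤ C)
    (h1 : |DX G w| ≤ C) (h2 : |DY G w| ≤ C) : ‖fderiv ℝ G w‖ ≤ 2 * C := by
  refine ContinuousLinearMap.opNorm_le_bound _ (by linarith) fun v => ?_
  rw [fderiv_eq, Real.norm_eq_abs]
  have ha : |v.1| ≤ ‖v‖ := by
    have := norm_fst_le v
    rwa [Real.norm_eq_abs] at this
  have hb : |v.2| ≤ ‖v‖ := by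
    have := norm_snd_le v
    rwa [Real.norm_eq_abs] at this
  calc |v.1 * DX G w + v.2 * DY G w| ≤ |v.1 * DX G w| + |v.2 * DY G w| := abs_add_le _ _
    _ = |v.1| * |DX G w| + |v.2| * |DY G w| := by rw [abs_mul, abs_mul]
    _ ≤ ‖v‖ * C + ‖v‖ * C := by
        gcongr
    _ = 2 * C * ‖v‖ := by ring

theorem exp_le_one' (c : ℝ) (hc : 0 < c) (z : ℝ × ℝ) : Real.exp (-(c * (|z.1| + |z.2|))) ≤ 1 := by
  rw [Real.exp_le_one_iff]
  have := mul_nonneg hc.le (add_nonneg (abs_nonneg z.1) (abs_nonneg z.2))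
  linarith

theorem bound_conv (θ : ℝ) (φ : ℝ → ℝ) (hφ : Continuous φ) (hs : HasCompactSupport φ) (C c R : ℝ)
    (hC : 0 < C) (hc : 0 < c) (hR : ∀ s, φ s ≠ 0 → |s| ≤ R) (H : ℝ × ℝ → ℝ)
    (hH : ∀ z, |H z| ≤ C * Real.exp (-(c * (|z.1| + |z.2|)))) (z : ℝ × ℝ) :
    |∫ s, φ s * H (z - Gm θ s)| ≤
      (((∫ s, |φ s|) + 1) * (C * Real.exp (c * (2 * R)))) * Real.exp (-(c * (|z.1| + |z.2|))) := by
  have hint : Integrable φ := hφ.integrable_of_hasCompactSupport hs
  have hb : ∀ s, ‖φ s * H (z - Gm θ s)‖ ≤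
      |φ s| * ((C * Real.exp (c * (2 * R))) * Real.exp (-(c * (|z.1| + |z.2|)))) := by
    intro s
    rw [Real.norm_eq_abs, abs_mul]
    by_cases h0 : φ s = 0
    · rw [h0]
      simp
    · refine mul_le_mul_of_nonneg_left ?_ (abs_nonneg _)
      refine (hH _).trans ?_
      rw [mul_assoc, ← Real.exp_add]
      refine mul_le_mul_of_nonneg_left ?_ hC.le
      rw [Real.exp_le_exp]
      have hsR := hR s h0
      have e1 : |(Gm θ s).1| ≤ R := by
        have : (Gm θ s).1 = s * Real.cos (θ / 2) := rfl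
        rw [this, abs_mul]
        calc |s| * |Real.cos (θ / 2)| ≤ |s| * 1 :=
              mul_le_mul_of_nonneg_left (Real.abs_cos_le_one _) (abs_nonneg _)
          _ ≤ R := by linarith
      have e2 : |(Gm θ s).2| ≤ R := by
        have : (Gm θ s).2 = |s| * Real.sin (θ / 2) := rfl
        rw [this, abs_mul, abs_abs]
        calc |s| * |Real.sin (θ / 2)| ≤ |s| * 1 :=
              mul_le_mul_of_nonneg_left (Real.abs_sin_le_one _) (abs_nonneg _)
          _ ≤ R := by linarith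
      have f1 : |z.1| - |(Gm θ s).1| ≤ |(z - Gm θ s).1| := by
        rw [Prod.fst_sub]
        exact abs_sub_abs_le_abs_sub _ _
      have f2 : |z.2| - |(Gm θ s).2| ≤ |(z - Gm θ s).2| := by
        rw [Prod.snd_sub]
        exact abs_sub_abs_le_abs_sub _ _
      nlinarith
  have hM : 0 ≤ (C * Real.exp (c * (2 * R))) * Real.exp (-(c * (|z.1| + |z.2|))) := by positivity
  calc |∫ s, φ s * H (z - Gm θ s)|
      ≤ ∫ s, |φ s| * ((C * Real.exp (c * (2 * R))) * Real.exp (-(c * (|z.1| + |z.2|)))) := by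
        rw [← Real.norm_eq_abs]
        exact norm_integral_le_of_norm_le (hint.abs.mul_const _) (ae_of_all _ hb)
    _ = (∫ s, |φ s|) * ((C * Real.exp (c * (2 * R))) * Real.exp (-(c * (|z.1| + |z.2|)))) :=
        integral_mul_const _ _
    _ ≤ ((∫ s, |φ s|) + 1) * ((C * Real.exp (c * (2 * R))) * Real.exp (-(c * (|z.1| + |z.2|)))) := by
        refine mul_le_mul_of_nonneg_right (by linarith) hM
    _ = _ := by ring

theorem exists_radius (φ : ℝ → ℝ) (hs : HasCompactSupport φ) : ∃ R : ℝ, ∀ s, φ s ≠ 0 → |s| ≤ R := by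
  obtain ⟨R, hR⟩ := hs.isBounded.exists_norm_le
  refine ⟨R, fun s h => ?_⟩
  have := hR s (subset_tsupport _ h)
  rwa [Real.norm_eq_abs] at this

section

variable (θ : ℝ) (φ : ℝ → ℝ) (G : ℝ × ℝ → ℝ)

/-- the derivative of the potential -/
def A (z : ℝ × ℝ) : ℝ × ℝ →L[ℝ] ℝ := ∫ s, φ s • fderiv ℝ G (z - Gm θ s)

variable (hφ : Continuous φ) (hs : HasCompactSupport φ) (hG : ContDiff ℝ 1 G) (K : ℝ)
  (hK : ∀ w, ‖fderiv ℝ G w‖ ≤ K)

include hφ hG in
theorem meas' (z : ℝ × ℝ) : Continuous (fun s => φ s • fderiv ℝ G (z - Gm θ s)) := by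
  have h1 : Continuous (fderiv ℝ G) := hG.continuous_fderiv (by norm_num)
  exact hφ.smul (h1.comp (continuous_const.sub (cont_Gm θ)))

include hφ hs hG hK in
theorem hasFDerivAt_conv (z : ℝ × ℝ) :
    HasFDerivAt (fun z => ∫ s, φ s * G (z - Gm θ s)) (A θ φ G z) z := by
  have hint : Integrable φ := hφ.integrable_of_hasCompactSupport hs
  refine hasFDerivAt_integral_of_dominated_of_fderiv_le (𝕜 := ℝ)
    (F := fun z s => φ s * G (z - Gm θ s)) (F' := fun z s => φ s • fderiv ℝ G (z - Gm θ s))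
    (bound := fun s => |φ s| * K) (s := univ) univ_mem ?_ ?_ ?_ ?_ ?_ ?_
  · refine Eventually.of_forall fun w => ?_
    exact (hφ.mul (hG.continuous.comp (continuous_const.sub (cont_Gm θ)))).aestronglyMeasurable
  · refine Continuous.integrable_of_hasCompactSupport
      (hφ.mul (hG.continuous.comp (continuous_const.sub (cont_Gm θ)))) ?_
    exact hs.mul_right
  · exact (meas' θ φ G hφ hG z).aestronglyMeasurable
  · refine ae_of_all _ fun s w _ => ?_
    rw [norm_smul, Real.norm_eq_abs]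
    exact mul_le_mul_of_nonneg_left (hK _) (abs_nonneg _)
  · exact hint.abs.mul_const _
  · refine ae_of_all _ fun s w _ => ?_
    have h1 : HasFDerivAt G (fderiv ℝ G (w - Gm θ s)) (w - Gm θ s) :=
      (hG.differentiable (by norm_num) _).hasFDerivAt
    have h2 : HasFDerivAt (fun w : ℝ × ℝ => w - Gm θ s) (ContinuousLinearMap.id ℝ (ℝ × ℝ)) w :=
      (hasFDerivAt_id w).sub_const _
    have h3 := h1.comp w h2
    have h4 := h3.const_mul (φ s)
    simpa using h4

include hφ hs hG hK in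
theorem cont_A : Continuous (A θ φ G) := by
  have hint : Integrable φ := hφ.integrable_of_hasCompactSupport hs
  have h1 : Continuous (fderiv ℝ G) := hG.continuous_fderiv (by norm_num)
  refine continuous_of_dominated (bound := fun s => |φ s| * K) ?_ ?_ ?_ ?_
  · intro z
    exact (meas' θ φ G hφ hG z).aestronglyMeasurable
  · intro z
    refine ae_of_all _ fun s => ?_
    rw [norm_smul, Real.norm_eq_abs]
    exact mul_le_mul_of_nonneg_left (hK _) (abs_nonneg _)
  · exact hint.abs.mul_const _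
  · refine ae_of_all _ fun s => ?_
    have h2 : Continuous (fun x : ℝ × ℝ => fderiv ℝ G (x - Gm θ s)) :=
      h1.comp (continuous_id.sub continuous_const)
    exact h2.const_smul (φ s)

include hφ hs hG hK in
theorem A_apply (z v : ℝ × ℝ) : A θ φ G z v = ∫ s, φ s * fderiv ℝ G (z - Gm θ s) v := by
  have hint : Integrable φ := hφ.integrable_of_hasCompactSupport hs
  have hI : Integrable (fun s => φ s • fderiv ℝ G (z - Gm θ s)) := by
    refine Integrable.mono' (hint.abs.mul_const K) (meas' θ φ G hφ hG z).aestronglyMeasurable ?_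
    refine ae_of_all _ fun s => ?_
    rw [norm_smul, Real.norm_eq_abs]
    exact mul_le_mul_of_nonneg_left (hK _) (abs_nonneg _)
  unfold A
  rw [ContinuousLinearMap.integral_apply hI]
  rfl

end

end PSI

open PSI in
theorem pPSI (hGDE : S_GDE) : S_PSI := by
  intro κ ε θ φ hκ hε hφ hs
  obtain ⟨hD, hXY⟩ := hGDE κ ε hκ hε
  obtain ⟨C, c, hC, hc, hdec⟩ := hD.dec
  have hG := hD.smooth
  obtain ⟨R, hR⟩ := exists_radius φ hs
  have hK : ∀ w, ‖fderiv ℝ (Gf κ ε) w‖ ≤ 2 * C := by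
    intro w
    have h1 := (hdec w).2.1
    have h2 := (hdec w).2.2
    have h3 := exp_le_one' c hc w
    have h4 : C * Real.exp (-(c * (|w.1| + |w.2|))) ≤ C := by nlinarith
    exact norm_fderiv_le _ _ C hC.le (h1.trans h4) (h2.trans h4)
  have hder : ∀ z, HasFDerivAt (psi κ ε θ φ) (A θ φ (Gf κ ε) z) z :=
    fun z => hasFDerivAt_conv θ φ (Gf κ ε) hφ hs hG (2 * C) hK z
  have hfd : ∀ z, fderiv ℝ (psi κ ε θ φ) z = A θ φ (Gf κ ε) z := fun z => (hder z).fderiv
  have hDX : ∀ z, DX (psi κ ε θ φ) z = ∫ s, φ s * Gx κ ε (z - Gm θ s) := by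
    intro z
    unfold DX
    rw [hfd, A_apply θ φ (Gf κ ε) hφ hs hG (2 * C) hK]
    refine integral_congr_ae (ae_of_all _ fun s => ?_)
    have := (hXY (z - Gm θ s)).1
    unfold DX at this
    simp only [this]
  have hDY : ∀ z, DY (psi κ ε θ φ) z = ∫ s, φ s * Gy κ ε (z - Gm θ s) := by
    intro z
    unfold DY
    rw [hfd, A_apply θ φ (Gf κ ε) hφ hs hG (2 * C) hK]
    refine integral_congr_ae (ae_of_all _ fun s => ?_)
    have := (hXY (z - Gm θ s)).2
    unfold DY at this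
    simp only [this]
  refine ⟨⟨?_, ?_⟩, fun z => ⟨hDX z, hDY z⟩⟩
  · rw [contDiff_one_iff_fderiv]
    refine ⟨fun z => (hder z).differentiableAt, ?_⟩
    have : fderiv ℝ (psi κ ε θ φ) = A θ φ (Gf κ ε) := funext hfd
    rw [this]
    exact cont_A θ φ (Gf κ ε) hφ hs hG (2 * C) hK
  · have hpos : 0 < ((∫ s, |φ s|) + 1) * (C * Real.exp (c * (2 * R))) := by
      have : 0 ≤ ∫ s, |φ s| := integral_nonneg fun s => abs_nonneg _
      positivity
    refine ⟨_, c, hpos, hc, fun z => ⟨?_, ?_, ?_⟩⟩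
    · exact bound_conv θ φ hφ hs C c R hC hc hR (Gf κ ε) (fun w => (hdec w).1) z
    · rw [hDX z]
      refine bound_conv θ φ hφ hs C c R hC hc hR (Gx κ ε) (fun w => ?_) z
      rw [← (hXY w).1]
      exact (hdec w).2.1
    · rw [hDY z]
      refine bound_conv θ φ hφ hs C c R hC hc hR (Gy κ ε) (fun w => ?_) z
      rw [← (hXY w).2]
      exact (hdec w).2.2

end

end Pool.Agent.T2H10.WB
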