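import Pool.Agent.T2H10.WB.Stm

/-! # Project WB, package QIN -/

open MeasureTheory Set Filter Topology

namespace Pool.Agent.T2H10.WB

namespace QIN

/-- the convolution is bounded -/
theorem bdd {k ψ : ℝ → ℝ} (hk0 : ∀ r, 0 ≤ k r) (hki : Integrable k) (hψ : Continuous ψ)
    (hψc : HasCompactSupport ψ) : ∃ M : ℝ, ∀ r, ‖∫ t, ψ t * k (r - t)‖ ≤ M := by
  obtain ⟨M, hM⟩ := hψ.bounded_above_of_compact_support hψc
  refine ⟨M * ∫ t, k t, fun r => ?_⟩
  have h1 : ‖∫ t, ψ t * k (r - t)‖ ≤ ∫ t, M * k (r - t) := by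
    refine norm_integral_le_of_norm_le ((hki.comp_sub_left r).const_mul M) (Eventually.of_forall fun t => ?_)
    rw [norm_mul, Real.norm_of_nonneg (hk0 _)]
    exact mul_le_mul_of_nonneg_right (hM t) (hk0 _)
  rw [integral_const_mul, integral_sub_left_eq_self (fun t => k t) volume r] at h1
  exact h1

theorem int1 {k ψ : ℝ → ℝ} (hki : Integrable k) (hψ : Continuous ψ)
    (hψc : HasCompactSupport ψ) (r : ℝ) : Integrable (fun t => ψ t * k (r - t)) := by
  obtain ⟨M, hM⟩ := hψ.bounded_above_of_compact_support hψc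
  exact (hki.comp_sub_left r).bdd_mul hψ.aestronglyMeasurable (Eventually.of_forall hM)

theorem int2 {k ψ : ℝ → ℝ} (hki : Integrable k) (hψ : Continuous ψ)
    (hψc : HasCompactSupport ψ) : Integrable (fun r => ∫ t, ψ t * k (r - t)) :=
  (hψ.integrable_of_hasCompactSupport hψc).integrable_convolution (ContinuousLinearMap.mul ℝ ℝ) hki

/-- the square of the convolution is integrable -/
theorem int3 {k ψ : ℝ → ℝ} (hk0 : ∀ r, 0 ≤ k r) (hki : Integrable k) (hψ : Continuous ψ)
    (hψc : HasCompactSupport ψ) : Integrable (fun r => (∫ t, ψ t * k (r - t)) * ∫ t, ψ t * k (r - t)) := by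
  obtain ⟨M, hM⟩ := bdd hk0 hki hψ hψc
  exact (int2 hki hψ hψc).bdd_mul (int2 hki hψ hψc).aestronglyMeasurable (Eventually.of_forall hM)

theorem core {k φ : ℝ → ℝ} (hkm : Measurable k) (hk0 : ∀ r, 0 ≤ k r) (hki : Integrable k)
    (heven : ∀ r, k (-r) = k r) (hφ : Continuous φ) (hφc : HasCompactSupport φ) (e : ℝ → ℝ → ℝ)
    (he : ∀ s t, s ≠ t → ∫ r, k (s - r) * k (r - t) = e s t) :
    (∫ s, ∫ t, φ s * φ t * k (s - t)) ≤
      1 / 2 * (∫ s, φ s ^ 2) + 1 / 2 * ∫ s, ∫ t, φ s * φ t * e s t := by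
  have hφm : Measurable φ := hφ.measurable
  set Tf : ℝ → ℝ := fun r => ∫ t, φ t * k (r - t) with hTf
  have hTi : Integrable Tf := int2 hki hφ hφc
  have hTT : Integrable (fun r => Tf r * Tf r) := int3 hk0 hki hφ hφc
  have hφi : Integrable φ := hφ.integrable_of_hasCompactSupport hφc
  obtain ⟨M, hM⟩ := hφ.bounded_above_of_compact_support hφc
  have hφφ : Integrable (fun s => φ s ^ 2) := by
    simp only [pow_two]
    exact hφi.bdd_mul hφ.aestronglyMeasurable (Eventually.of_forall hM)
  have hφT : Integrable (fun s => φ s * Tf s) :=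
    hTi.bdd_mul hφ.aestronglyMeasurable (Eventually.of_forall hM)
  -- the left side
  have e1 : (∫ s, ∫ t, φ s * φ t * k (s - t)) = ∫ s, φ s * Tf s := by
    refine integral_congr_ae (Eventually.of_forall fun s => ?_)
    simp only [hTf, mul_assoc]
    rw [integral_const_mul]
  -- positivity
  have e2 : 0 ≤ (∫ s, φ s ^ 2) - 2 * (∫ s, φ s * Tf s) + ∫ s, Tf s * Tf s := by
    have h0 : 0 ≤ ∫ s, (φ s - Tf s) ^ 2 := integral_nonneg fun s => sq_nonneg _
    have h1 : ∫ s, (φ s - Tf s) ^ 2 = (∫ s, φ s ^ 2) - 2 * (∫ s, φ s * Tf s) + ∫ s, Tf s * Tf s := by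
      have hs : Integrable (fun s => φ s ^ 2 - 2 * (φ s * Tf s)) := hφφ.sub (hφT.const_mul 2)
      rw [← integral_const_mul, ← integral_sub hφφ (hφT.const_mul 2), ← integral_add hs hTT]
      refine integral_congr_ae (Eventually.of_forall fun s => ?_)
      ring
    rw [← h1]
    exact h0
  -- the last integral
  have hG : Integrable (fun p : ℝ × ℝ × ℝ =>
      (φ p.2.1 * k (p.1 - p.2.1)) * (φ p.2.2 * k (p.1 - p.2.2))) (volume.prod (volume.prod volume)) := by
    rw [integrable_prod_iff]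
    · refine ⟨Eventually.of_forall fun r => ?_, ?_⟩
      · exact (int1 hki hφ hφc r).mul_prod (int1 hki hφ hφc r)
      · have hψ : Continuous (fun s => |φ s|) := hφ.abs
        have hψc : HasCompactSupport (fun s => |φ s|) := hφc.comp_left (g := fun x : ℝ => |x|) abs_zero
        have h1 : (fun r : ℝ => ∫ y : ℝ × ℝ, ‖(φ y.1 * k (r - y.1)) * (φ y.2 * k (r - y.2))‖
            ∂(volume.prod volume)) =
            fun r => (∫ t, |φ t| * k (r - t)) * ∫ t, |φ t| * k (r - t) := by
          funext r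
          rw [← integral_prod_mul (fun t => |φ t| * k (r - t)) (fun t => |φ t| * k (r - t))]
          refine integral_congr_ae (Eventually.of_forall fun y => ?_)
          simp only [norm_mul, Real.norm_eq_abs, abs_of_nonneg (hk0 _)]
        change Integrable (fun r : ℝ => ∫ y : ℝ × ℝ, ‖(φ y.1 * k (r - y.1)) * (φ y.2 * k (r - y.2))‖
            ∂(volume.prod volume)) volume
        rw [h1]
        exact int3 hk0 hki hψ hψc
    · apply Measurable.aestronglyMeasurable
      fun_prop
  have e3 : (∫ s, Tf s * Tf s) = ∫ s, ∫ t, φ s * φ t * e s t := by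
    have h1 : (∫ s, Tf s * Tf s) = ∫ r, ∫ y : ℝ × ℝ, (φ y.1 * k (r - y.1)) * (φ y.2 * k (r - y.2))
        ∂(volume.prod volume) := by
      refine integral_congr_ae (Eventually.of_forall fun r => ?_)
      simp only [hTf]
      rw [← integral_prod_mul (fun t => φ t * k (r - t)) (fun t => φ t * k (r - t))]
    rw [h1, integral_integral_swap hG]
    have h2 := hG.integral_prod_right
    rw [integral_prod _ h2]
    refine integral_congr_ae (Eventually.of_forall fun s => ?_)
    refine integral_congr_ae ?_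
    have h3 : ∀ᵐ t : ℝ, t ≠ s := compl_mem_ae_iff.2 (measure_singleton s)
    filter_upwards [h3] with t ht
    rw [← he s t (Ne.symm ht), ← integral_const_mul]
    refine integral_congr_ae (Eventually.of_forall fun r => ?_)
    simp only
    rw [← heven (r - s), neg_sub]
    ring
  rw [e1, ← e3]
  linarith

end QIN

theorem pQIN (hMOM : S_MOM) (hCNV : S_CNV) (hBAS : S_BAS) : S_QIN := by
  intro κ φ hκ hφ hφc
  obtain ⟨hm, -, -, h0, -⟩ := hBAS κ hκ
  obtain ⟨hi, -⟩ := hMOM κ hκ
  have h := QIN.core (k := fun r => kk κ (r ^ 2)) (hm.comp (measurable_id.pow_const 2)) (fun r => h0 _) hi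
    (fun r => by simp only [neg_sq]) hφ hφc (fun s t => Real.exp (-(κ * |s - t|)) / (2 * κ))
    (fun s t hst => (hCNV κ s t hκ hst).2)
  exact h

end Pool.Agent.T2H10.WB
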