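import Pool.Agent.T2H10.WB.Stm

/-!
# Package REP: the representation formula of the regularised Green function
-/

open MeasureTheory Set Filter Topology

namespace Pool.Agent.T2H10.WB

noncomputable section

namespace REP

lemma int_exp_abs {c : ℝ} (hc : 0 < c) : Integrable (fun x : ℝ => Real.exp (-(c * |x|))) := by
  have h1 : IntegrableOn (fun x : ℝ => Real.exp (-(c * |x|))) (Ioi 0) := by
    refine (exp_neg_integrableOn_Ioi 0 hc).congr_fun (fun x hx => ?_) measurableSet_Ioi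
    have hx' : (0 : ℝ) < x := hx
    simp only [abs_of_pos hx', neg_mul]
  have h2 : IntegrableOn (fun x : ℝ => Real.exp (-(c * |x|))) (Iic 0) := by
    refine (integrableOn_exp_mul_Iic hc 0).congr_fun (fun x hx => ?_) measurableSet_Iic
    have hx' : x ≤ (0 : ℝ) := hx
    simp only [abs_of_nonpos hx', mul_neg, neg_neg]
  have h3 := h2.union h1
  rwa [Iic_union_Ioi, integrableOn_univ] at h3

lemma int_e {c : ℝ} (hc : 0 < c) :
    Integrable (fun z : ℝ × ℝ => Real.exp (-(c * (|z.1| + |z.2|)))) := by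
  have h := (int_exp_abs hc).mul_prod (int_exp_abs hc)
  refine h.congr (Eventually.of_forall fun z => ?_)
  simp only
  rw [← Real.exp_add]
  congr 1
  ring

lemma pp_nonneg {τ : ℝ} (hτ : 0 < τ) (z : ℝ × ℝ) : 0 ≤ pp τ z := by
  unfold pp
  have := Real.pi_pos
  positivity

/-- the constant -/
def KK (ε : ℝ) : ℝ := (1 / (4 * ε) + 1) * (1 / (4 * Real.pi * ε))

lemma KK_pos {ε : ℝ} (hε : 0 < ε) : 0 < KK ε := by
  unfold KK
  have := Real.pi_pos
  positivity

lemma pp_le {ε τ : ℝ} (hε : 0 < ε) (hτ : ε < τ) (z : ℝ × ℝ) : |pp τ z| ≤ KK ε := by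
  have hτ0 : 0 < τ := hε.trans hτ
  have hpi := Real.pi_pos
  rw [abs_of_nonneg (pp_nonneg hτ0 z)]
  unfold pp KK
  have h1 : Real.exp (-((z.1 ^ 2 + z.2 ^ 2) / (4 * τ))) ≤ 1 := by
    rw [Real.exp_le_one_iff]
    have : 0 ≤ (z.1 ^ 2 + z.2 ^ 2) / (4 * τ) := by positivity
    linarith
  calc Real.exp (-((z.1 ^ 2 + z.2 ^ 2) / (4 * τ))) / (4 * Real.pi * τ)
      ≤ 1 / (4 * Real.pi * ε) := by
        apply div_le_div₀ zero_le_one h1 (by positivity)
        exact mul_le_mul_of_nonneg_left hτ.le (by positivity)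
    _ ≤ (1 / (4 * ε) + 1) * (1 / (4 * Real.pi * ε)) := by
        have h3 : 0 ≤ 1 / (4 * Real.pi * ε) := by positivity
        have h4 : 1 ≤ 1 / (4 * ε) + 1 := by
          have : 0 ≤ 1 / (4 * ε) := by positivity
          linarith
        nlinarith

/-- a coordinate times the Gaussian -/
lemma ppx_le {ε τ : ℝ} (hε : 0 < ε) (hτ : ε < τ) (z : ℝ × ℝ) (x : ℝ) (hx : x ^ 2 ≤ z.1 ^ 2 + z.2 ^ 2) :
    |-(x / (2 * τ)) * pp τ z| ≤ KK ε := by
  have hτ0 : 0 < τ := hε.trans hτ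
  have hpi := Real.pi_pos
  rw [abs_mul, abs_neg, abs_of_nonneg (pp_nonneg hτ0 z)]
  unfold pp KK
  rw [← mul_div_assoc, div_eq_mul_one_div]
  have hw : 0 ≤ x ^ 2 / (4 * τ) := by positivity
  have h1 : Real.exp (-((z.1 ^ 2 + z.2 ^ 2) / (4 * τ))) ≤ 1 / (1 + x ^ 2 / (4 * τ)) := by
    have h2 : Real.exp (-((z.1 ^ 2 + z.2 ^ 2) / (4 * τ))) ≤ Real.exp (-(x ^ 2 / (4 * τ))) := by
      apply Real.exp_le_exp.2
      have : x ^ 2 / (4 * τ) ≤ (z.1 ^ 2 + z.2 ^ 2) / (4 * τ) :=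
        div_le_div_of_nonneg_right hx (by positivity)
      linarith
    refine h2.trans ?_
    rw [Real.exp_neg, ← one_div]
    apply one_div_le_one_div_of_le (by positivity)
    have := Real.add_one_le_exp (x ^ 2 / (4 * τ))
    linarith
  have h3 : |x / (2 * τ)| ≤ 1 / (4 * τ) + x ^ 2 / (4 * τ) := by
    rw [abs_div, abs_of_pos (by positivity : (0 : ℝ) < 2 * τ), ← add_div,
      div_le_div_iff₀ (by positivity) (by positivity)]
    have h5 : 2 * |x| ≤ 1 + x ^ 2 := by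
      have := sq_nonneg (|x| - 1)
      rw [← sq_abs x]
      nlinarith
    nlinarith
  have h4 : |x / (2 * τ)| * Real.exp (-((z.1 ^ 2 + z.2 ^ 2) / (4 * τ))) ≤ 1 / (4 * ε) + 1 := by
    calc |x / (2 * τ)| * Real.exp (-((z.1 ^ 2 + z.2 ^ 2) / (4 * τ)))
        ≤ (1 / (4 * τ) + x ^ 2 / (4 * τ)) * (1 / (1 + x ^ 2 / (4 * τ))) := by
          apply mul_le_mul h3 h1 (Real.exp_pos _).le (by positivity)
      _ ≤ 1 / (4 * τ) + 1 := by
          rw [mul_one_div, div_le_iff₀ (by positivity)]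
          have h6 : 0 ≤ 1 / (4 * τ) := by positivity
          nlinarith [mul_nonneg h6 hw]
      _ ≤ 1 / (4 * ε) + 1 := by
          have : 1 / (4 * τ) ≤ 1 / (4 * ε) :=
            one_div_le_one_div_of_le (by positivity) (by linarith)
          linarith
  apply mul_le_mul h4 _ (by positivity) (by positivity)
  apply one_div_le_one_div_of_le (by positivity)
  exact mul_le_mul_of_nonneg_left hτ.le (by positivity)

/-- the integrand -/
def FF (κ : ℝ) (u : ℝ × ℝ → ℝ) (a : ℝ × ℝ) (τ : ℝ) (z : ℝ × ℝ) : ℝ :=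
  Real.exp (-(κ ^ 2 * τ)) * ((DX u z * (-((z.1 - a.1) / (2 * τ)) * pp τ (z - a)) +
    DY u z * (-((z.2 - a.2) / (2 * τ)) * pp τ (z - a))) + κ ^ 2 * (u z * pp τ (z - a)))

lemma meas_pp : Measurable (fun p : ℝ × (ℝ × ℝ) => pp p.1 p.2) := by
  unfold pp
  fun_prop

lemma meas_pp2 (a : ℝ × ℝ) : Measurable (fun p : ℝ × (ℝ × ℝ) => pp p.1 (p.2 - a)) := by
  unfold pp
  fun_prop

lemma meas_ppz (τ : ℝ) (a : ℝ × ℝ) : Measurable (fun z : ℝ × ℝ => pp τ (z - a)) := by
  unfold pp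
  fun_prop

lemma meas_ppt (z : ℝ × ℝ) : Measurable (fun τ : ℝ => pp τ z) := by
  unfold pp
  fun_prop

lemma cont_DX {u : ℝ × ℝ → ℝ} (hu : ContDiff ℝ 1 u) : Continuous (DX u) := by
  unfold DX
  exact (hu.continuous_fderiv one_ne_zero).clm_apply continuous_const

lemma cont_DY {u : ℝ × ℝ → ℝ} (hu : ContDiff ℝ 1 u) : Continuous (DY u) := by
  unfold DY
  exact (hu.continuous_fderiv one_ne_zero).clm_apply continuous_const

lemma meas_FF (κ : ℝ) {u : ℝ × ℝ → ℝ} (hu : ContDiff ℝ 1 u) (a : ℝ × ℝ) :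
    Measurable (fun p : ℝ × (ℝ × ℝ) => FF κ u a p.1 p.2) := by
  unfold FF
  have h1 := meas_pp2 a
  have h2 : Measurable (fun p : ℝ × (ℝ × ℝ) => DX u p.2) := (cont_DX hu).measurable.comp measurable_snd
  have h3 : Measurable (fun p : ℝ × (ℝ × ℝ) => DY u p.2) := (cont_DY hu).measurable.comp measurable_snd
  have h4 : Measurable (fun p : ℝ × (ℝ × ℝ) => u p.2) := hu.continuous.measurable.comp measurable_snd
  have h5 : Measurable (fun p : ℝ × (ℝ × ℝ) => Real.exp (-(κ ^ 2 * p.1))) := by fun_prop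
  have h6 : Measurable (fun p : ℝ × (ℝ × ℝ) => -((p.2.1 - a.1) / (2 * p.1))) := by fun_prop
  have h7 : Measurable (fun p : ℝ × (ℝ × ℝ) => -((p.2.2 - a.2) / (2 * p.1))) := by fun_prop
  exact h5.mul (((h2.mul (h6.mul h1)).add (h3.mul (h7.mul h1))).add ((h4.mul h1).const_mul _))

lemma FF_le {κ ε : ℝ} (hε : 0 < ε) {u : ℝ × ℝ → ℝ} {C c : ℝ}
    (h : ∀ z, |u z| ≤ C * Real.exp (-(c * (|z.1| + |z.2|))) ∧
    |DX u z| ≤ C * Real.exp (-(c * (|z.1| + |z.2|))) ∧ |DY u z| ≤ C * Real.exp (-(c * (|z.1| + |z.2|))))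
    (a : ℝ × ℝ) {τ : ℝ} (hτ : ε < τ) (z : ℝ × ℝ) :
    |FF κ u a τ z| ≤ (Real.exp (-κ ^ 2 * τ)) * ((C * KK ε * (2 + κ ^ 2)) * Real.exp (-(c * (|z.1| + |z.2|)))) := by
  obtain ⟨h1, h2, h3⟩ := h z
  have hK := (KK_pos hε).le
  have hC : 0 ≤ C * Real.exp (-(c * (|z.1| + |z.2|))) := (abs_nonneg _).trans h1
  unfold FF
  have hk : -κ ^ 2 * τ = -(κ ^ 2 * τ) := by ring
  rw [abs_mul, abs_of_pos (Real.exp_pos _), hk]
  apply mul_le_mul_of_nonneg_left _ (Real.exp_pos _).le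
  have e1 : |-((z.1 - a.1) / (2 * τ)) * pp τ (z - a)| ≤ KK ε :=
    ppx_le hε hτ (z - a) _ (by
      have : (z - a).1 = z.1 - a.1 := rfl
      rw [this]
      nlinarith [sq_nonneg (z - a).2])
  have e2 : |-((z.2 - a.2) / (2 * τ)) * pp τ (z - a)| ≤ KK ε :=
    ppx_le hε hτ (z - a) _ (by
      have : (z - a).2 = z.2 - a.2 := rfl
      rw [this]
      nlinarith [sq_nonneg (z - a).1])
  have e3 : |pp τ (z - a)| ≤ KK ε := pp_le hε hτ _
  have f1 := mul_le_mul h2 e1 (abs_nonneg _) hC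
  have f2 := mul_le_mul h3 e2 (abs_nonneg _) hC
  have f3 := mul_le_mul h1 e3 (abs_nonneg _) hC
  rw [← abs_mul] at f1 f2 f3
  have g1 := abs_add_le (DX u z * (-((z.1 - a.1) / (2 * τ)) * pp τ (z - a)) +
    DY u z * (-((z.2 - a.2) / (2 * τ)) * pp τ (z - a))) (κ ^ 2 * (u z * pp τ (z - a)))
  have g2 := abs_add_le (DX u z * (-((z.1 - a.1) / (2 * τ)) * pp τ (z - a)))
    (DY u z * (-((z.2 - a.2) / (2 * τ)) * pp τ (z - a)))
  rw [abs_mul (κ ^ 2), abs_of_nonneg (sq_nonneg κ)] at g1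
  have f4 := mul_le_mul_of_nonneg_left f3 (sq_nonneg κ)
  nlinarith

lemma int_FF {κ ε : ℝ} (hκ : 0 < κ) (hε : 0 < ε) {u : ℝ × ℝ → ℝ} (hu : Dec u) (a : ℝ × ℝ) :
    Integrable (Function.uncurry (FF κ u a)) ((volume.restrict (Ioi ε)).prod volume) := by
  obtain ⟨C, c, hC, hc, h⟩ := hu.dec
  have hi : Integrable (fun p : ℝ × (ℝ × ℝ) => Real.exp (-κ ^ 2 * p.1) *
      ((C * KK ε * (2 + κ ^ 2)) * Real.exp (-(c * (|p.2.1| + |p.2.2|)))))
      ((volume.restrict (Ioi ε)).prod volume) :=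
    Integrable.mul_prod (f := fun τ : ℝ => Real.exp (-κ ^ 2 * τ))
      (g := fun z : ℝ × ℝ => (C * KK ε * (2 + κ ^ 2)) * Real.exp (-(c * (|z.1| + |z.2|))))
      (exp_neg_integrableOn_Ioi ε (by positivity)) ((int_e hc).const_mul _)
  refine hi.mono' (meas_FF κ hu.smooth a).aestronglyMeasurable ?_
  have : ∀ᵐ p : ℝ × (ℝ × ℝ) ∂((volume.restrict (Ioi ε)).prod volume), ε < p.1 := by
    have h1 : (volume.restrict (Ioi ε)).prod (volume : Measure (ℝ × ℝ)) =
        ((volume : Measure ℝ).prod (volume : Measure (ℝ × ℝ))).restrict (Ioi ε ×ˢ univ) := by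
      rw [← Measure.prod_restrict, Measure.restrict_univ]
    rw [h1]
    filter_upwards [ae_restrict_mem (measurableSet_Ioi.prod MeasurableSet.univ)] with p hp
    exact hp.1
  filter_upwards [this] with p hp
  rw [Real.norm_eq_abs]
  exact FF_le hε h a hp p.2

end REP

open REP in
theorem pREP (hIBP : S_IBP) (hHEA : S_HEA) : S_REP := by
  intro κ ε u hκ hε hu a
  obtain ⟨C, c, hC, hc, h⟩ := hu.dec
  have hint := int_FF hκ hε hu a
  -- integrability in `τ`
  have hexp : IntegrableOn (fun τ : ℝ => Real.exp (-κ ^ 2 * τ)) (Ioi ε) :=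
    exp_neg_integrableOn_Ioi ε (by positivity)
  have mpp : ∀ z : ℝ × ℝ, Measurable (fun τ : ℝ => pp τ z) := meas_ppt
  have i0 : ∀ z : ℝ × ℝ, IntegrableOn (fun τ : ℝ => Real.exp (-(κ ^ 2 * τ)) * pp τ z) (Ioi ε) := by
    intro z
    refine (hexp.mul_const (KK ε)).mono' ?_ ?_
    · have := mpp z
      exact (by fun_prop : Measurable fun τ : ℝ => Real.exp (-(κ ^ 2 * τ)) * pp τ z).aestronglyMeasurable
    · filter_upwards [ae_restrict_mem measurableSet_Ioi] with τ hτ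
      have hk : -κ ^ 2 * τ = -(κ ^ 2 * τ) := by ring
      rw [Real.norm_eq_abs, abs_mul, abs_of_pos (Real.exp_pos _), hk]
      exact mul_le_mul_of_nonneg_left (pp_le hε hτ z) (Real.exp_pos _).le
  have i1 : ∀ (z : ℝ × ℝ) (x : ℝ), x ^ 2 ≤ z.1 ^ 2 + z.2 ^ 2 →
      IntegrableOn (fun τ : ℝ => Real.exp (-(κ ^ 2 * τ)) * (-(x / (2 * τ)) * pp τ z)) (Ioi ε) := by
    intro z x hx
    refine (hexp.mul_const (KK ε)).mono' ?_ ?_
    · have := mpp z
      exact (by fun_prop : Measurable fun τ : ℝ =>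
        Real.exp (-(κ ^ 2 * τ)) * (-(x / (2 * τ)) * pp τ z)).aestronglyMeasurable
    · filter_upwards [ae_restrict_mem measurableSet_Ioi] with τ hτ
      have hk : -κ ^ 2 * τ = -(κ ^ 2 * τ) := by ring
      rw [Real.norm_eq_abs, abs_mul, abs_of_pos (Real.exp_pos _), hk]
      exact mul_le_mul_of_nonneg_left (ppx_le hε hτ z x hx) (Real.exp_pos _).le
  have step1 : ∀ z : ℝ × ℝ, DX u z * Gx κ ε (z - a) + DY u z * Gy κ ε (z - a) +
      κ ^ 2 * u z * Gf κ ε (z - a) = ∫ τ in Ioi ε, FF κ u a τ z := by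
    intro z
    have j1 := (i1 (z - a) (z - a).1 (by nlinarith [sq_nonneg (z - a).2])).const_mul (DX u z)
    have j2 := (i1 (z - a) (z - a).2 (by nlinarith [sq_nonneg (z - a).1])).const_mul (DY u z)
    have j0 := (i0 (z - a)).const_mul (κ ^ 2 * u z)
    unfold Gx Gy Gf FF
    have j12 : Integrable (fun x => DX u z * (Real.exp (-(κ ^ 2 * x)) * (-((z - a).1 / (2 * x)) *
        pp x (z - a))) + DY u z * (Real.exp (-(κ ^ 2 * x)) * (-((z - a).2 / (2 * x)) * pp x (z - a))))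
        (volume.restrict (Ioi ε)) := j1.add j2
    rw [← integral_const_mul, ← integral_const_mul, ← integral_const_mul, ← integral_add j1 j2,
      ← integral_add j12 j0]
    refine integral_congr_ae (Eventually.of_forall fun τ => ?_)
    simp only [Prod.fst_sub, Prod.snd_sub]
    ring
  calc (∫ z, (DX u z * Gx κ ε (z - a) + DY u z * Gy κ ε (z - a) + κ ^ 2 * u z * Gf κ ε (z - a)))
      = ∫ z, ∫ τ in Ioi ε, FF κ u a τ z := integral_congr_ae (Eventually.of_forall step1)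
    _ = ∫ τ in Ioi ε, ∫ z, FF κ u a τ z := (integral_integral_swap hint).symm
    _ = 0 - (-(Real.exp (-(κ ^ 2 * ε)) * ∫ z, u z * pp ε (z - a))) := ?_
    _ = _ := by ring
  obtain ⟨M, hM⟩ := (hHEA.2 u hu a).2
  have hder := (hHEA.2 u hu a).1
  -- for fixed `τ > 0`
  have step2 : ∀ τ : ℝ, ε < τ → HasDerivAt (fun τ : ℝ => -(Real.exp (-(κ ^ 2 * τ)) *
      ∫ z, u z * pp τ (z - a))) (∫ z, FF κ u a τ z) τ := by
    intro τ hτ
    have hτ0 : 0 < τ := hε.trans hτ
    have h1 : HasDerivAt (fun τ : ℝ => Real.exp (-(κ ^ 2 * τ)))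
        (Real.exp (-(κ ^ 2 * τ)) * (-(κ ^ 2))) τ := by
      have h2 : HasDerivAt (fun τ : ℝ => -(κ ^ 2 * τ)) (-(κ ^ 2 * 1)) τ :=
        ((hasDerivAt_id τ).const_mul _).neg
      rw [mul_one] at h2
      exact h2.exp
    have h3 := (h1.mul (hder τ hτ0)).neg
    refine h3.congr_deriv ?_
    -- the integral of `FF`
    have mp := meas_ppz τ a
    have q1 : Integrable (fun z => DX u z * (-((z.1 - a.1) / (2 * τ)) * pp τ (z - a))) := by
      refine ((int_e hc).const_mul (C * KK ε)).mono' ?_ (Eventually.of_forall fun z => ?_)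
      · have m1 : Measurable fun z : ℝ × ℝ => -((z.1 - a.1) / (2 * τ)) := by fun_prop
        exact ((cont_DX hu.smooth).measurable.mul (m1.mul mp)).aestronglyMeasurable
      · have e1 : |-((z.1 - a.1) / (2 * τ)) * pp τ (z - a)| ≤ KK ε :=
          ppx_le hε hτ (z - a) _ (by
            have : (z - a).1 = z.1 - a.1 := rfl
            rw [this]
            nlinarith [sq_nonneg (z - a).2])
        have := mul_le_mul (h z).2.1 e1 (abs_nonneg _) ((abs_nonneg _).trans (h z).1)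
        rw [Real.norm_eq_abs, abs_mul]
        calc _ ≤ _ := this
          _ = _ := by ring
    have q2 : Integrable (fun z => DY u z * (-((z.2 - a.2) / (2 * τ)) * pp τ (z - a))) := by
      refine ((int_e hc).const_mul (C * KK ε)).mono' ?_ (Eventually.of_forall fun z => ?_)
      · have m1 : Measurable fun z : ℝ × ℝ => -((z.2 - a.2) / (2 * τ)) := by fun_prop
        exact ((cont_DY hu.smooth).measurable.mul (m1.mul mp)).aestronglyMeasurable
      · have e1 : |-((z.2 - a.2) / (2 * τ)) * pp τ (z - a)| ≤ KK ε :=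
          ppx_le hε hτ (z - a) _ (by
            have : (z - a).2 = z.2 - a.2 := rfl
            rw [this]
            nlinarith [sq_nonneg (z - a).1])
        have := mul_le_mul (h z).2.2 e1 (abs_nonneg _) ((abs_nonneg _).trans (h z).1)
        rw [Real.norm_eq_abs, abs_mul]
        calc _ ≤ _ := this
          _ = _ := by ring
    have k1 : Integrable (fun z => DX u z * (-((z.1 - a.1) / (2 * τ)) * pp τ (z - a)) +
        DY u z * (-((z.2 - a.2) / (2 * τ)) * pp τ (z - a))) := q1.add q2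
    have k2 : Integrable (fun z => u z * pp τ (z - a)) := by
      refine ((int_e hc).const_mul (C * KK ε)).mono' ?_ (Eventually.of_forall fun z => ?_)
      · exact (hu.smooth.continuous.measurable.mul mp).aestronglyMeasurable
      · have := mul_le_mul (h z).1 (pp_le hε hτ (z - a)) (abs_nonneg _) ((abs_nonneg _).trans (h z).1)
        rw [Real.norm_eq_abs, abs_mul]
        calc _ ≤ _ := this
          _ = _ := by ring
    unfold FF
    rw [integral_const_mul, integral_add k1 (k2.const_mul _), integral_const_mul,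
      hIBP u hu τ a hτ0]
    ring
  refine integral_Ioi_of_hasDerivAt_of_tendsto (f := fun τ : ℝ => -(Real.exp (-(κ ^ 2 * τ)) *
      ∫ z, u z * pp τ (z - a))) ?_ (fun τ hτ => step2 τ hτ) hint.integral_prod_left ?_
  · have h1 : ContinuousAt (fun τ : ℝ => ∫ z, u z * pp τ (z - a)) ε := (hder ε hε).continuousAt
    have h2 : ContinuousAt (fun τ : ℝ => Real.exp (-(κ ^ 2 * τ))) ε := by fun_prop
    exact (h2.mul h1).neg.continuousWithinAt
  · have h1 : Tendsto (fun τ : ℝ => Real.exp (-(κ ^ 2 * τ))) atTop (𝓝 0) := by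
      have h2 : Tendsto (fun τ : ℝ => κ ^ 2 * τ) atTop atTop :=
        tendsto_id.const_mul_atTop (by positivity)
      exact Real.tendsto_exp_neg_atTop_nhds_zero.comp h2
    rw [← neg_zero]
    refine Tendsto.neg ?_
    refine squeeze_zero_norm' (a := fun τ : ℝ => Real.exp (-(κ ^ 2 * τ)) * M) ?_ ?_
    · filter_upwards [eventually_gt_atTop 0] with τ hτ
      rw [norm_mul, Real.norm_eq_abs, abs_of_pos (Real.exp_pos _)]
      exact mul_le_mul_of_nonneg_left (hM τ hτ) (Real.exp_pos _).le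
    · simpa using h1.mul_const M

end

end Pool.Agent.T2H10.WB
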