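import Pool.Agent.T2H10.WB.Stm

/-! # Package SCA: scaling -/

set_option autoImplicit false

open MeasureTheory Set Filter Topology
open scoped Pointwise

namespace Pool.Agent.T2H10.WB

noncomputable section

namespace SCA

/-- dilation -/
def dil (c : ℝ) (u : ℝ × ℝ → ℂ) (z : ℝ × ℝ) : ℂ := (c : ℂ) * u (c • z)

lemma dil_smooth (c : ℝ) {u : ℝ × ℝ → ℂ} (hu : ContDiff ℝ 1 u) : ContDiff ℝ 1 (dil c u) := by
  unfold dil
  exact contDiff_const.mul (hu.comp (contDiff_const_smul c))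

lemma dil_supp {c : ℝ} (hc : c ≠ 0) {u : ℝ × ℝ → ℂ} (hu : HasCompactSupport u) :
    HasCompactSupport (dil c u) := by
  unfold dil
  exact (hu.comp_smul hc).mul_left

lemma dil_dil {c : ℝ} (hc : c ≠ 0) (u : ℝ × ℝ → ℂ) : dil c (dil c⁻¹ u) = u := by
  funext z
  unfold dil
  rw [smul_smul, inv_mul_cancel₀ hc, one_smul, ← mul_assoc]
  rw [← Complex.ofReal_mul, mul_inv_cancel₀ hc, Complex.ofReal_one, one_mul]

lemma fderiv_dil (c : ℝ) {u : ℝ × ℝ → ℂ} (hu : ContDiff ℝ 1 u) (z e : ℝ × ℝ) :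
    fderiv ℝ (dil c u) z e = ((c ^ 2 : ℝ) : ℂ) * fderiv ℝ u (c • z) e := by
  have h1 : HasFDerivAt (fun z : ℝ × ℝ => c • z) (c • ContinuousLinearMap.id ℝ (ℝ × ℝ)) z :=
    (hasFDerivAt_id z).const_smul c
  have h2 : HasFDerivAt u (fderiv ℝ u (c • z)) (c • z) :=
    (hu.differentiable (by norm_num) (c • z)).hasFDerivAt
  have h3 := (h2.comp z h1).const_mul (c : ℂ)
  have h4 : fderiv ℝ (dil c u) z = (c : ℂ) • (fderiv ℝ u (c • z)).comp
      (c • ContinuousLinearMap.id ℝ (ℝ × ℝ)) := h3.fderiv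
  rw [h4]
  simp only [ContinuousLinearMap.smul_apply, ContinuousLinearMap.comp_apply,
    ContinuousLinearMap.id_apply, map_smul, smul_eq_mul, Complex.real_smul]
  push_cast
  ring

lemma int_dil {c : ℝ} (hc : 0 < c) (F : ℝ × ℝ → ℝ) :
    ∫ z : ℝ × ℝ, F (c • z) = (c ^ 2)⁻¹ * ∫ z, F z := by
  rw [Measure.integral_comp_smul]
  simp only [Module.finrank_prod, Module.finrank_self, smul_eq_mul]
  rw [abs_of_nonneg (by positivity)]

lemma Gm_smul {c : ℝ} (hc : 0 < c) (θ s : ℝ) : c • Gm θ s = Gm θ (c * s) := by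
  unfold Gm
  rw [abs_mul, abs_of_pos hc]
  ext
  · simp only [Prod.smul_mk, smul_eq_mul]
    ring
  · simp only [Prod.smul_mk, smul_eq_mul]
    ring

lemma norm_dil {c : ℝ} (hc : 0 < c) (u : ℝ × ℝ → ℂ) (z : ℝ × ℝ) :
    ‖dil c u z‖ ^ 2 = c ^ 2 * ‖u (c • z)‖ ^ 2 := by
  unfold dil
  rw [norm_mul, mul_pow, Complex.norm_real, Real.norm_of_nonneg hc.le]

lemma l2_dil {c : ℝ} (hc : 0 < c) (u : ℝ × ℝ → ℂ) :
    ∫ z, ‖dil c u z‖ ^ 2 = ∫ z, ‖u z‖ ^ 2 := by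
  simp only [norm_dil hc]
  rw [integral_const_mul, int_dil hc (fun z => ‖u z‖ ^ 2), ← mul_assoc,
    mul_inv_cancel₀ (by positivity), one_mul]

lemma form_dil {α : ℝ} (hα : 0 < α) (θ : ℝ) {u : ℝ × ℝ → ℂ} (hu : ContDiff ℝ 1 u) :
    form α θ (dil (α / 2) u) = α ^ 2 / 4 * form 2 θ u := by
  have hc : 0 < α / 2 := by positivity
  unfold form
  have h1 : ∀ z e : ℝ × ℝ, ‖fderiv ℝ (dil (α / 2) u) z e‖ ^ 2 =
      (α / 2) ^ 4 * ‖fderiv ℝ u ((α / 2) • z) e‖ ^ 2 := by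
    intro z e
    rw [fderiv_dil _ hu, norm_mul, mul_pow, Complex.norm_real, Real.norm_of_nonneg (by positivity)]
    ring
  simp only [h1, norm_dil hc, Gm_smul hc]
  simp only [← mul_add]
  rw [integral_const_mul, integral_const_mul,
    int_dil hc (fun z => ‖fderiv ℝ u z (1, 0)‖ ^ 2 + ‖fderiv ℝ u z (0, 1)‖ ^ 2),
    Measure.integral_comp_mul_left (fun s => ‖u (Gm θ s)‖ ^ 2) (α / 2)]
  rw [abs_of_pos (by positivity : 0 < (α / 2)⁻¹), smul_eq_mul]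
  field_simp
  ring

end SCA

theorem pSCA : S_SCA := by
  intro α θ hα
  have hc : 0 < α / 2 := by positivity
  unfold lam
  have hset : {E : ℝ | ∃ u : ℝ × ℝ → ℂ, ContDiff ℝ 1 u ∧ HasCompactSupport u ∧
      (∫ z, ‖u z‖ ^ 2) = 1 ∧ E = form α θ u} =
      (α ^ 2 / 4) • {E : ℝ | ∃ u : ℝ × ℝ → ℂ, ContDiff ℝ 1 u ∧ HasCompactSupport u ∧
        (∫ z, ‖u z‖ ^ 2) = 1 ∧ E = form 2 θ u} := by
    ext E
    constructor
    · rintro ⟨v, hv1, hv2, hv3, rfl⟩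
      refine ⟨form 2 θ (SCA.dil (α / 2)⁻¹ v), ⟨SCA.dil (α / 2)⁻¹ v, SCA.dil_smooth _ hv1,
        SCA.dil_supp (inv_ne_zero hc.ne') hv2, ?_, rfl⟩, ?_⟩
      · rw [SCA.l2_dil (inv_pos.2 hc), hv3]
      · have h := SCA.form_dil hα θ (SCA.dil_smooth (α / 2)⁻¹ hv1)
        rw [SCA.dil_dil hc.ne'] at h
        simp only [smul_eq_mul]
        exact h.symm
    · rintro ⟨E', ⟨u, hu1, hu2, hu3, rfl⟩, rfl⟩
      refine ⟨SCA.dil (α / 2) u, SCA.dil_smooth _ hu1, SCA.dil_supp hc.ne' hu2, ?_, ?_⟩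
      · rw [SCA.l2_dil hc, hu3]
      · simp only [smul_eq_mul]
        exact (SCA.form_dil hα θ hu1).symm
  rw [hset, Real.sInf_smul_of_nonneg (by positivity), smul_eq_mul]

end

end Pool.Agent.T2H10.WB
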