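import Pool.Agent.T2H10.WB.Stm

set_option autoImplicit false

open MeasureTheory Set Filter Topology

namespace Pool.Agent.T2H10.WB

noncomputable section

namespace SOB

lemma integ_exp (c : ℝ) (hc : 0 < c) : Integrable (fun s : ℝ => Real.exp (-(c * |s|))) := by
  rw [← integrableOn_univ, ← Iic_union_Ioi (a := (0 : ℝ))]
  refine IntegrableOn.union ?_ ?_
  · refine (integrableOn_exp_mul_Iic hc 0).congr_fun ?_ measurableSet_Iic
    intro x hx
    show Real.exp (c * x) = Real.exp (-(c * |x|))
    rw [abs_of_nonpos hx]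
    congr 1; ring
  · refine (integrableOn_exp_mul_Ioi (neg_lt_zero.2 hc) 0).congr_fun ?_ measurableSet_Ioi
    intro x hx
    show Real.exp (-c * x) = Real.exp (-(c * |x|))
    rw [abs_of_pos hx]
    congr 1; ring

/-- Cauchy-Schwarz -/
lemma cs (μ : Measure ℝ) (f g : ℝ → ℝ) (hf : Integrable (fun s => f s ^ 2) μ)
    (hg : Integrable (fun s => g s ^ 2) μ) (hfg : Integrable (fun s => |f s * g s|) μ) :
    (∫ s, |f s * g s| ∂μ) ≤ Real.sqrt (∫ s, f s ^ 2 ∂μ) * Real.sqrt (∫ s, g s ^ 2 ∂μ) := by
  set A := ∫ s, f s ^ 2 ∂μ with hA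
  set B := ∫ s, |f s * g s| ∂μ with hB
  set D := ∫ s, g s ^ 2 ∂μ with hD
  have hA0 : 0 ≤ A := integral_nonneg fun s => sq_nonneg _
  have h : ∀ x : ℝ, 0 ≤ A * (x * x) + (-(2 * B)) * x + D := by
    intro x
    have h1 : 0 ≤ ∫ s, (x * |f s| - |g s|) ^ 2 ∂μ := integral_nonneg fun s => sq_nonneg _
    have h2 : (∫ s, (x * |f s| - |g s|) ^ 2 ∂μ) = x ^ 2 * A - 2 * x * B + D := by
      rw [hA, hB, hD, ← integral_const_mul, ← integral_const_mul, ← integral_sub, ← integral_add]
      · refine integral_congr_ae (Eventually.of_forall fun s => ?_)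
        show (x * |f s| - |g s|) ^ 2 = x ^ 2 * f s ^ 2 - 2 * x * |f s * g s| + g s ^ 2
        rw [abs_mul]
        nlinarith [sq_abs (f s), sq_abs (g s)]
      · exact (hf.const_mul _).sub (hfg.const_mul _)
      · exact hg
      · exact hf.const_mul _
      · exact hfg.const_mul _
    rw [h2] at h1
    linarith
  have hd := discrim_le_zero h
  unfold discrim at hd
  have h3 : B ^ 2 ≤ A * D := by nlinarith
  rw [← Real.sqrt_mul hA0]
  exact Real.le_sqrt_of_sq_le h3

end SOB

open SOB

theorem pSOB : S_SOB := by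
  intro κ φ f g h
  obtain ⟨C, c, hC, hc, hdec⟩ := h.dec
  have hfc : Continuous f := continuous_iff_continuousAt.2 fun s => (h.df s).continuousAt
  have hgc : Continuous g := continuous_iff_continuousAt.2 fun s => (h.dg s).continuousAt
  have hE := integ_exp c hc
  have he1 : ∀ s : ℝ, Real.exp (-(c * |s|)) ≤ 1 := by
    intro s
    rw [Real.exp_le_one_iff]
    have : 0 ≤ c * |s| := by positivity
    linarith
  have hfb : ∀ s, |f s| ≤ C := fun s => ((hdec s).1).trans (by nlinarith [he1 s])
  have hgb : ∀ s, |g s| ≤ C := fun s => ((hdec s).2).trans (by nlinarith [he1 s])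
  have prod : ∀ u v : ℝ → ℝ, Continuous u → Continuous v → (∀ s, |u s| ≤ C) →
      (∀ s, |v s| ≤ C * Real.exp (-(c * |s|))) → Integrable (fun s => u s * v s) := by
    intro u v hu hv h1 h2
    refine ((hE.const_mul (C * C))).mono' (hu.mul hv).aestronglyMeasurable
      (Eventually.of_forall fun s => ?_)
    rw [Real.norm_eq_abs, abs_mul]
    calc |u s| * |v s| ≤ C * (C * Real.exp (-(c * |s|))) :=
          mul_le_mul (h1 s) (h2 s) (abs_nonneg _) hC.le
      _ = _ := by ring
  have iff' : Integrable fun s => f s ^ 2 := by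
    simpa [sq] using prod f f hfc hfc hfb fun s => (hdec s).1
  have igg : Integrable fun s => g s ^ 2 := by
    simpa [sq] using prod g g hgc hgc hgb fun s => (hdec s).2
  have ifg : Integrable fun s => f s * g s := prod f g hfc hgc hfb fun s => (hdec s).2
  refine ⟨?_, ?_⟩
  · -- derivative of the square
    have hd : ∀ s, HasDerivAt (fun s => f s ^ 2) (2 * (f s * g s)) s := by
      intro s
      have h1 := (h.df s).mul (h.df s)
      refine (h1.congr_deriv (by ring)).congr_of_eventuallyEq
        (Eventually.of_forall fun x => ?_)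
      show f x ^ 2 = f x * f x
      ring
    have habs : ∀ s, f s ^ 2 ≤ C ^ 2 * Real.exp (-(c * |s|)) := by
      intro s
      have h1 := hfb s
      have h2 := (hdec s).1
      rw [← sq_abs]
      calc |f s| ^ 2 = |f s| * |f s| := by ring
        _ ≤ C * (C * Real.exp (-(c * |s|))) := mul_le_mul h1 h2 (abs_nonneg _) hC.le
        _ = _ := by ring
    have t1 : Tendsto (fun s => f s ^ 2) atTop (𝓝 0) := by
      have h0 : Tendsto (fun s : ℝ => C ^ 2 * Real.exp (-(c * |s|))) atTop (𝓝 (C ^ 2 * 0)) := by
        refine Tendsto.const_mul _ (Real.tendsto_exp_neg_atTop_nhds_zero.comp ?_)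
        exact Tendsto.const_mul_atTop hc tendsto_abs_atTop_atTop
      rw [mul_zero] at h0
      exact squeeze_zero (fun s => sq_nonneg _) habs h0
    have t2 : Tendsto (fun s => f s ^ 2) atBot (𝓝 0) := by
      have h0 : Tendsto (fun s : ℝ => C ^ 2 * Real.exp (-(c * |s|))) atBot (𝓝 (C ^ 2 * 0)) := by
        refine Tendsto.const_mul _ (Real.tendsto_exp_neg_atTop_nhds_zero.comp ?_)
        exact Tendsto.const_mul_atTop hc tendsto_abs_atBot_atTop
      rw [mul_zero] at h0
      exact squeeze_zero (fun s => sq_nonneg _) habs h0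
    have i2 : Integrable fun s => 2 * (f s * g s) := ifg.const_mul 2
    have e1 := integral_Ioi_of_hasDerivAt_of_tendsto' (a := (0 : ℝ)) (fun s _ => hd s)
      i2.integrableOn t1
    have e2 := integral_Iic_of_hasDerivAt_of_tendsto' (a := (0 : ℝ)) (fun s _ => hd s)
      i2.integrableOn t2
    have iab : Integrable fun s => |f s * g s| := ifg.abs
    have b1 : -(∫ s in Ioi (0 : ℝ), 2 * (f s * g s)) ≤ 2 * ∫ s in Ioi (0 : ℝ), |f s * g s| := by
      rw [← integral_neg, ← integral_const_mul]
      refine integral_mono i2.integrableOn.neg (iab.integrableOn.const_mul 2) fun s => ?_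
      show -(2 * (f s * g s)) ≤ 2 * |f s * g s|
      linarith [neg_abs_le (f s * g s)]
    have b2 : (∫ s in Iic (0 : ℝ), 2 * (f s * g s)) ≤ 2 * ∫ s in Iic (0 : ℝ), |f s * g s| := by
      rw [← integral_const_mul]
      refine integral_mono i2.integrableOn (iab.integrableOn.const_mul 2) fun s => ?_
      show 2 * (f s * g s) ≤ 2 * |f s * g s|
      linarith [le_abs_self (f s * g s)]
    have hsum : (∫ s in Iic (0 : ℝ), |f s * g s|) + ∫ s in Ioi (0 : ℝ), |f s * g s| =
        ∫ s, |f s * g s| := by
      have h0 := integral_add_compl (μ := volume) (s := Iic (0 : ℝ)) measurableSet_Iic iab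
      rw [compl_Iic] at h0
      exact h0
    have hcs := cs volume f g iff' igg iab
    linarith
  · intro s
    have hint : ∀ a b : ℝ, IntervalIntegrable g volume a b := fun a b => hgc.intervalIntegrable a b
    have e1 : (∫ x in (0 : ℝ)..s, g x) = f s - f 0 :=
      intervalIntegral.integral_eq_sub_of_hasDerivAt (fun x _ => h.df x) (hint 0 s)
    rw [← e1, ← Real.norm_eq_abs]
    refine (intervalIntegral.norm_integral_le_integral_norm_uIoc).trans ?_
    have h1 : Integrable (fun _ : ℝ => (1 : ℝ) ^ 2) (volume.restrict (uIoc 0 s)) := by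
      rw [one_pow]
      rw [integrable_const_iff]
      right
      refine ⟨?_⟩
      rw [Measure.restrict_apply_univ, Real.volume_uIoc]
      exact ENNReal.ofReal_lt_top
    have ig : Integrable g (volume.restrict (uIoc 0 s)) := by
      have := (hint 0 s).def'
      exact this
    have h2 := cs (volume.restrict (uIoc 0 s)) (fun _ => 1) g h1 igg.integrableOn
      (by simpa using ig.abs)
    simp only [one_mul, one_pow] at h2
    refine le_trans (le_of_eq ?_) (h2.trans ?_)
    · refine integral_congr_ae (Eventually.of_forall fun x => ?_)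
      exact Real.norm_eq_abs _
    · have h3 : (∫ _ in uIoc 0 s, (1 : ℝ)) = |s| := by
        rw [setIntegral_const, smul_eq_mul, mul_one, Measure.real, Real.volume_uIoc, sub_zero,
          ENNReal.toReal_ofReal (abs_nonneg _)]
      rw [h3]
      exact mul_le_mul_of_nonneg_left (Real.sqrt_le_sqrt
        (setIntegral_le_integral igg (Eventually.of_forall fun x => sq_nonneg _)))
        (Real.sqrt_nonneg _)

end

end Pool.Agent.T2H10.WB
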