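import Pool.Agent.T2H10.WB.Stm

/-!
# Project WB (MP_687a20_mp), package SPL: splitting of the energy
-/

open MeasureTheory Set Filter Topology

namespace Pool.Agent.T2H10.WB

namespace SPL

lemma sd_same (θ s t : ℝ) (h : (0 < s ∧ 0 < t) ∨ (s ≤ 0 ∧ t ≤ 0)) :
    sd (Gm θ s) (Gm θ t) = (s - t) ^ 2 := by
  have h1 := Real.cos_sq_add_sin_sq (θ / 2)
  rcases h with ⟨hs, ht⟩ | ⟨hs, ht⟩
  · simp only [sd, Gm, abs_of_pos hs, abs_of_pos ht]
    linear_combination (s - t) ^ 2 * h1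
  · simp only [sd, Gm, abs_of_nonpos hs, abs_of_nonpos ht]
    linear_combination (s - t) ^ 2 * h1

lemma sd_comm (z w : ℝ × ℝ) : sd z w = sd w z := by
  simp only [sd]; ring

lemma sd_mixed (θ s t : ℝ) (hs : 0 < s) (ht : 0 < t) :
    sd (Gm θ s) (Gm θ (-t)) = s ^ 2 + t ^ 2 + 2 * s * t * Real.cos θ := by
  have h1 := Real.cos_sq_add_sin_sq (θ / 2)
  have h2 : Real.cos θ = 2 * Real.cos (θ / 2) ^ 2 - 1 := by
    rw [← Real.cos_two_mul]; congr 1; ring
  have h3 : |(-t)| = t := by rw [abs_neg, abs_of_pos ht]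
  simp only [sd, Gm, abs_of_pos hs, h3]
  rw [h2]
  linear_combination (s - t) ^ 2 * h1

end SPL

open SPL in
theorem pSPL (hINT : S_INT) : S_SPL := by
  intro κ θ φ hκ hθ hθ2 hφ
  obtain ⟨hI1, hI2, -⟩ := hINT κ θ φ hκ hθ hθ2 hφ
  set F : ℝ × ℝ → ℝ := fun p => φ p.1 * φ p.2 * kk κ (sd (Gm θ p.1) (Gm θ p.2)) -
    φ p.1 * φ p.2 * kk κ ((p.1 - p.2) ^ 2) with hF
  have hFi : Integrable F := hI1.sub hI2
  set G : ℝ × ℝ → ℝ := (Ioi (0 : ℝ) ×ˢ Iic (0 : ℝ)).indicator F with hG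
  have hm : MeasurableSet (Ioi (0 : ℝ) ×ˢ Iic (0 : ℝ)) := measurableSet_Ioi.prod measurableSet_Iic
  have hGi : Integrable G := hFi.indicator hm
  have hGs : Integrable (fun p : ℝ × ℝ => G p.swap) := hGi.swap
  have hFG : F = fun p => G p + G p.swap := by
    funext p
    obtain ⟨s, t⟩ := p
    simp only [hG, Set.indicator_apply, Set.mem_prod, Set.mem_Ioi, Set.mem_Iic, Prod.swap_prod_mk]
    rcases lt_or_ge 0 s with hs | hs <;> rcases lt_or_ge 0 t with ht | ht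
    · rw [if_neg (fun h => absurd h.2 (not_le.2 ht)), if_neg (fun h => absurd h.2 (not_le.2 hs))]
      simp only [hF, sd_same θ s t (Or.inl ⟨hs, ht⟩)]
      ring
    · rw [if_pos ⟨hs, ht⟩, if_neg (fun h => absurd h.1 (not_lt.2 ht))]
      ring
    · rw [if_neg (fun h => absurd h.1 (not_lt.2 hs)), if_pos ⟨ht, hs⟩]
      simp only [hF]
      rw [sd_comm (Gm θ t) (Gm θ s), show (t - s) ^ 2 = (s - t) ^ 2 by ring]
      ring
    · rw [if_neg (fun h => absurd h.1 (not_lt.2 hs)), if_neg (fun h => absurd h.1 (not_lt.2 ht))]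
      simp only [hF, sd_same θ s t (Or.inr ⟨hs, ht⟩)]
      ring
  have h1 : EN κ θ φ = ∫ p : ℝ × ℝ, φ p.1 * φ p.2 * kk κ (sd (Gm θ p.1) (Gm θ p.2)) := by
    rw [Measure.volume_eq_prod, integral_prod _ (by rwa [Measure.volume_eq_prod] at hI1)]
    rfl
  have h2 : E0 κ φ = ∫ p : ℝ × ℝ, φ p.1 * φ p.2 * kk κ ((p.1 - p.2) ^ 2) := by
    rw [Measure.volume_eq_prod, integral_prod _ (by rwa [Measure.volume_eq_prod] at hI2)]
    rfl
  have h3 : EN κ θ φ - E0 κ φ = ∫ p, F p := by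
    rw [h1, h2, ← integral_sub hI1 hI2]
  have h4 : (∫ p, F p) = 2 * ∫ p, G p := by
    rw [hFG, integral_add hGi hGs]
    have : (∫ p : ℝ × ℝ, G p.swap) = ∫ p, G p := by
      rw [Measure.volume_eq_prod]
      exact integral_prod_swap G
    rw [this]; ring
  have h5 : (∫ p, G p) = ∫ s in Ioi (0 : ℝ), ∫ t in Ioi (0 : ℝ), φ s * φ (-t) * DD κ θ s t := by
    rw [hG, integral_indicator hm, Measure.volume_eq_prod,
      setIntegral_prod F (by
        have := hFi.integrableOn (s := Ioi (0 : ℝ) ×ˢ Iic (0 : ℝ))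
        rwa [Measure.volume_eq_prod] at this)]
    refine setIntegral_congr_fun measurableSet_Ioi (fun s hs => ?_)
    have h6 := integral_comp_neg_Ioi (0 : ℝ) (fun t => F (s, t))
    rw [neg_zero] at h6
    rw [← h6]
    refine setIntegral_congr_fun measurableSet_Ioi (fun t ht => ?_)
    simp only [hF, DD]
    rw [sd_mixed θ s t hs ht, show (s - -t) ^ 2 = (s + t) ^ 2 by ring]
    ring
  have h7 : EN κ θ φ = E0 κ φ + (EN κ θ φ - E0 κ φ) := by ring
  rw [h7, h3, h4, h5]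

end Pool.Agent.T2H10.WB
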