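import Pool.Agent.T2H10.WB.Stm

set_option autoImplicit false

open MeasureTheory Set Filter Topology

namespace Pool.Agent.T2H10.WB

noncomputable section

namespace TLO

theorem absmax (s r : ℝ) : |s| + |s - r| = max |r| |2 * s - r| := by
  rcases abs_cases s with h1 | h1 <;> rcases abs_cases (s - r) with h2 | h2 <;>
    rcases abs_cases r with h3 | h3 <;> rcases abs_cases (2 * s - r) with h4 | h4 <;>
    rcases max_cases |r| |2 * s - r| with h5 | h5 <;> linarith

theorem expint {ν : ℝ} (hν : 0 < ν) (c : ℝ) : IntegrableOn (fun x : ℝ => Real.exp (-(ν * x))) (Ioi c) := by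
  have := integrableOn_exp_mul_Ioi (a := -ν) (by linarith) c
  simpa [neg_mul] using this

theorem absint {ν : ℝ} (hν : 0 < ν) : Integrable (fun s : ℝ => Real.exp (-(ν * |s|))) := by
  have hA : IntegrableOn (fun s : ℝ => Real.exp (-(ν * |s|))) (Ioi 0) := by
    refine (expint hν 0).congr_fun (fun s hs => ?_) measurableSet_Ioi
    have hs' : (0 : ℝ) < s := hs
    simp only [abs_of_pos hs']
  have hB : IntegrableOn (fun s : ℝ => Real.exp (-(ν * |s|))) (Iic 0) := by
    refine (integrableOn_exp_mul_Iic hν 0).congr_fun (fun s hs => ?_) measurableSet_Iic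
    have hs' : s ≤ 0 := hs
    simp only [abs_of_nonpos hs', mul_neg, neg_neg]
  rw [← integrableOn_univ, ← Iic_union_Ioi (a := (0 : ℝ))]
  exact hB.union hA

theorem expval {ν : ℝ} (hν : 0 < ν) : ∫ x in Ioi (0 : ℝ), Real.exp (-(ν * x)) = 1 / ν := by
  have := integral_exp_mul_Ioi (a := -ν) (by linarith) 0
  simp only [neg_mul, mul_zero, neg_zero, Real.exp_zero] at this
  rw [this]
  field_simp

theorem Kint {ν m : ℝ} (hν : 0 < ν) (hm : 0 ≤ m) :
    IntegrableOn (fun x : ℝ => Real.exp (-(ν * max m x))) (Ioi 0) := by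
  refine (expint hν 0).mono' (by fun_prop) (Eventually.of_forall fun x => ?_)
  rw [Real.norm_of_nonneg (Real.exp_pos _).le]
  apply Real.exp_le_exp.2
  have : ν * x ≤ ν * max m x := by
    gcongr
    exact le_max_right _ _
  linarith

theorem Klow {ν m : ℝ} (hν : 0 < ν) (hm : 0 ≤ m) :
    1 / ν - ν * m ^ 2 / 2 ≤ ∫ x in Ioi (0 : ℝ), Real.exp (-(ν * max m x)) := by
  have hsub : Ioi m ⊆ Ioi (0 : ℝ) := Ioi_subset_Ioi hm
  rw [← intervalIntegral.integral_interval_add_Ioi (Kint hν hm) ((Kint hν hm).mono_set hsub)]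
  have h1 := intervalIntegral.integral_interval_add_Ioi (expint hν 0) (expint hν m)
  rw [expval hν] at h1
  have h2 : ∫ x in Ioi m, Real.exp (-(ν * max m x)) = ∫ x in Ioi m, Real.exp (-(ν * x)) := by
    refine setIntegral_congr_fun measurableSet_Ioi fun x hx => ?_
    rw [max_eq_right (le_of_lt hx)]
  rw [h2]
  have h3 : ∫ x in (0 : ℝ)..m, (Real.exp (-(ν * x)) - ν * (m - x)) ≤
      ∫ x in (0 : ℝ)..m, Real.exp (-(ν * max m x)) := by
    apply intervalIntegral.integral_mono_on hm
    · exact Continuous.intervalIntegrable (by fun_prop) _ _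
    · exact Continuous.intervalIntegrable (by fun_prop) _ _
    · intro x hx
      rw [max_eq_left hx.2]
      have h4 : Real.exp (-(ν * m)) = Real.exp (-(ν * x)) * Real.exp (-(ν * (m - x))) := by
        rw [← Real.exp_add]; congr 1; ring
      have h5 : 1 - ν * (m - x) ≤ Real.exp (-(ν * (m - x))) := by
        have := Real.add_one_le_exp (-(ν * (m - x)))
        linarith
      have h6 : Real.exp (-(ν * x)) ≤ 1 := by
        apply Real.exp_le_one_iff.2
        have := mul_nonneg hν.le hx.1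
        linarith
      have h7 : 0 < Real.exp (-(ν * x)) := Real.exp_pos _
      have h8 : 0 ≤ ν * (m - x) := mul_nonneg hν.le (by linarith [hx.2])
      rw [h4]
      nlinarith
  rw [intervalIntegral.integral_sub (Continuous.intervalIntegrable (by fun_prop) _ _)
    (Continuous.intervalIntegrable (by fun_prop) _ _)] at h3
  have h4 : ∫ x in (0 : ℝ)..m, ν * (m - x) = ν * m ^ 2 / 2 := by
    rw [intervalIntegral.integral_const_mul, intervalIntegral.integral_sub (by simp) (by simp)]
    simp
    ring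
  rw [h4] at h3
  linarith

theorem low {ν : ℝ} (hν : 0 < ν) (r : ℝ) :
    1 / ν - ν * r ^ 2 / 2 ≤ ∫ s, Real.exp (-(ν * |s|)) * Real.exp (-(ν * |s - r|)) := by
  have h1 : (∫ s, Real.exp (-(ν * |s|)) * Real.exp (-(ν * |s - r|))) =
      ∫ s, (fun y => (fun x => (fun z => Real.exp (-(ν * max |r| z))) |x|) (y - r)) (2 * s) := by
    refine integral_congr_ae (Eventually.of_forall fun s => ?_)
    simp only
    rw [← Real.exp_add, ← absmax s r]
    congr 1
    ring
  rw [h1, Measure.integral_comp_mul_left (fun y => (fun x => (fun z => Real.exp (-(ν * max |r| z))) |x|) (y - r)),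
    integral_sub_right_eq_self (fun x => (fun z => Real.exp (-(ν * max |r| z))) |x|),
    integral_comp_abs (f := fun z => Real.exp (-(ν * max |r| z)))]
  have h2 := Klow hν (abs_nonneg r)
  rw [sq_abs] at h2
  rw [smul_eq_mul, abs_of_pos (by norm_num)]
  linarith

end TLO

theorem pTLO (hMOM : S_MOM) (hBAS : S_BAS) : S_TLO := by
  intro κ ν hκ hν
  obtain ⟨i1, v1, i2, v2⟩ := hMOM κ hκ
  obtain ⟨hm, -, -, hk0, -⟩ := hBAS κ hκ
  unfold E0
  have hs1 : ∀ s : ℝ, (∫ t, (fun s => Real.exp (-(ν * |s|))) s * (fun s => Real.exp (-(ν * |s|))) t *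
      kk κ ((s - t) ^ 2)) =
      ∫ r, Real.exp (-(ν * |s|)) * Real.exp (-(ν * |s - r|)) * kk κ (r ^ 2) := by
    intro s
    rw [← integral_sub_left_eq_self
      (fun r => Real.exp (-(ν * |s|)) * Real.exp (-(ν * |s - r|)) * kk κ (r ^ 2)) volume s]
    refine integral_congr_ae (Eventually.of_forall fun t => ?_)
    simp only [sub_sub_cancel]
  simp_rw [hs1]
  have hφ : Integrable (fun s : ℝ => Real.exp (-(ν * |s|))) := by
    exact TLO.absint hν
  have hG : Integrable (fun p : ℝ × ℝ => Real.exp (-(ν * |p.1|)) * Real.exp (-(ν * |p.1 - p.2|)) *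
      kk κ (p.2 ^ 2)) (volume.prod volume) := by
    have h1 := hφ.mul_prod i1
    refine h1.mono' ?_ (Eventually.of_forall fun p => ?_)
    · apply Measurable.aestronglyMeasurable
      exact Measurable.mul (by fun_prop) (hm.comp (by fun_prop))
    · have h2 : Real.exp (-(ν * |p.1 - p.2|)) ≤ 1 := by
        apply Real.exp_le_one_iff.2
        have := mul_nonneg hν.le (abs_nonneg (p.1 - p.2))
        linarith
      have h3 := hk0 (p.2 ^ 2)
      have h4 := Real.exp_pos (-(ν * |p.1|))
      rw [Real.norm_of_nonneg (by positivity)]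
      calc _ ≤ Real.exp (-(ν * |p.1|)) * 1 * kk κ (p.2 ^ 2) := by gcongr
        _ = _ := by ring
  rw [integral_integral_swap (f := fun s r => Real.exp (-(ν * |s|)) * Real.exp (-(ν * |s - r|)) *
      kk κ (r ^ 2)) hG]
  have hR := hG.integral_prod_right
  simp only at hR
  have hL : Integrable (fun r : ℝ => 1 / ν * kk κ (r ^ 2) - ν / 2 * (r ^ 2 * kk κ (r ^ 2))) :=
    (i1.const_mul _).sub (i2.const_mul _)
  have hLv : ∫ r : ℝ, (1 / ν * kk κ (r ^ 2) - ν / 2 * (r ^ 2 * kk κ (r ^ 2))) =
      1 / (ν * κ) - ν / (2 * κ ^ 3) := by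
    rw [integral_sub (i1.const_mul _) (i2.const_mul _), integral_const_mul, integral_const_mul, v1, v2]
    field_simp
  rw [← hLv]
  refine integral_mono hL hR fun r => ?_
  simp only
  rw [integral_mul_const]
  have h5 := TLO.low hν r
  have h6 := hk0 (r ^ 2)
  have h7 : (1 / ν - ν * r ^ 2 / 2) * kk κ (r ^ 2) ≤
      (∫ s, Real.exp (-(ν * |s|)) * Real.exp (-(ν * |s - r|))) * kk κ (r ^ 2) := by gcongr
  linarith

end

end Pool.Agent.T2H10.WB
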