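import Pool.Agent.T2H10.WB.Stm

set_option autoImplicit false

open MeasureTheory Set Filter Topology

namespace Pool.Agent.T2H10.WB

noncomputable section

namespace UBA

theorem ed {ν : ℝ} (hν : 0 < ν) : Ed (fun s => Real.exp (-(ν * |s|))) := by
  refine ⟨by fun_prop, 1, ν, one_pos, hν, fun s => ?_⟩
  rw [abs_of_pos (Real.exp_pos _), one_mul]

end UBA

theorem pUBA (hDLO : S_DLO) (hTLO : S_TLO) (hSPL : S_SPL) : S_UBA := by
  obtain ⟨C, θ0, hC, hθ0, hD⟩ := hDLO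
  have hC100 : 0 < 1 / (100 * C) := by positivity
  refine ⟨C, min θ0 (min 1 (1 / (100 * C))), hC, by positivity, fun κ θ hκ hθ hθ1 hκ2 => ?_⟩
  have h1 : θ < θ0 := lt_of_lt_of_le hθ1 (min_le_left _ _)
  have h2 : θ < 1 := lt_of_lt_of_le hθ1 ((min_le_right _ _).trans (min_le_left _ _))
  have h3 : θ < 1 / (100 * C) := lt_of_lt_of_le hθ1 ((min_le_right _ _).trans (min_le_right _ _))
  have hCθ : C * θ < 1 / 100 := by
    rw [lt_div_iff₀ (by positivity)] at h3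
    linarith
  have hpi := Real.pi_gt_three
  have hpi2 := Real.pi_lt_d2
  set ν := θ ^ 2 / (3 * Real.pi) with hν
  have hνpos : 0 < ν := by positivity
  have hν2 : ν ^ 2 = θ ^ 4 / (9 * Real.pi ^ 2) := by
    rw [hν]; field_simp; ring
  have hνθ : ν ≤ θ ^ 2 := by
    rw [hν]
    exact div_le_self (by positivity) (by linarith)
  have hθ2 : θ ^ 2 ≤ 1 := by nlinarith
  -- kappa
  have hη : C * θ ^ 5 ≤ ν ^ 2 := by
    rw [hν2]
    have h9 : 9 * Real.pi ^ 2 < 100 := by nlinarith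
    have : θ ^ 4 / 100 ≤ θ ^ 4 / (9 * Real.pi ^ 2) := by
      apply div_le_div_of_nonneg_left (by positivity) (by positivity) h9.le
    have h5 : C * θ ^ 5 = (C * θ) * θ ^ 4 := by ring
    have h6 : (C * θ) * θ ^ 4 ≤ 1 / 100 * θ ^ 4 := by gcongr
    linarith
  rw [← hν2] at hκ2
  have hκ1' : 1 ≤ κ ^ 2 := by rw [hκ2]; linarith
  have hκ1 : 1 ≤ κ := by nlinarith
  have hν1 : ν ^ 2 ≤ θ ^ 2 := by nlinarith
  have hκθ : κ ^ 2 ≤ 1 + θ ^ 2 := by
    rw [hκ2]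
    have : 0 ≤ C * θ ^ 5 := by positivity
    linarith
  have hA := hD κ θ ν hκ1 hκθ hθ h1 hνpos.le hνθ
  have hB := hTLO κ ν hκ hνpos
  have hS := hSPL κ θ _ hκ hθ (by linarith) (UBA.ed hνpos)
  have hint : (∫ s in Ioi (0 : ℝ), ∫ t in Ioi (0 : ℝ),
      (fun s => Real.exp (-(ν * |s|))) s * (fun s => Real.exp (-(ν * |s|))) (-t) * DD κ θ s t) =
      ∫ s in Ioi (0 : ℝ), ∫ t in Ioi (0 : ℝ), Real.exp (-(ν * s)) * Real.exp (-(ν * t)) * DD κ θ s t := by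
    refine setIntegral_congr_fun measurableSet_Ioi fun s hs => ?_
    refine setIntegral_congr_fun measurableSet_Ioi fun t ht => ?_
    simp only [abs_neg]
    rw [abs_of_pos hs, abs_of_pos ht]
  rw [hint] at hS
  rw [hS]
  have hinv : 1 - (ν ^ 2 - C * θ ^ 5) / 2 ≤ 1 / κ := by
    rw [le_div_iff₀ hκ]
    have : ν ^ 2 - C * θ ^ 5 = κ ^ 2 - 1 := by rw [hκ2]; ring
    rw [this]
    nlinarith [mul_nonneg (sq_nonneg (κ - 1)) (by linarith : 0 ≤ κ + 2)]
  have h5 : 1 / (ν * κ) = 1 / ν * (1 / κ) := by field_simp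
  have h6 : ν / (2 * κ ^ 3) ≤ ν / 2 := by
    apply div_le_div_of_nonneg_left hνpos.le (by norm_num)
    have : 1 ≤ κ ^ 3 := one_le_pow₀ hκ1
    linarith
  have h7 : 1 / ν * (1 - (ν ^ 2 - C * θ ^ 5) / 2) ≤ 1 / ν * (1 / κ) := by
    apply mul_le_mul_of_nonneg_left hinv (by positivity)
  have h8 : 1 / ν * (1 - (ν ^ 2 - C * θ ^ 5) / 2) = 1 / ν - ν / 2 + (3 * Real.pi / 2) * C * θ ^ 3 := by
    have : 1 / ν = 3 * Real.pi / θ ^ 2 := by rw [hν]; field_simp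
    have h9 : 1 / ν * ν = 1 := by field_simp
    have h10 : 1 / ν * (C * θ ^ 5) = 3 * Real.pi * C * θ ^ 3 := by
      rw [this]; field_simp
    linear_combination (-ν / 2) * h9 + (1 / 2 : ℝ) * h10
  have h11 : θ ^ 2 / (6 * Real.pi) = ν / 2 := by rw [hν]; field_simp; ring
  rw [h11] at hA
  rw [h5] at hB
  have h12 : 4 * (C * θ ^ 3) ≤ (3 * Real.pi / 2) * C * θ ^ 3 := by
    have : 0 ≤ C * θ ^ 3 := by positivity
    nlinarith
  have h13 : 0 < C * θ ^ 3 := by positivity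
  linarith

end

end Pool.Agent.T2H10.WB
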