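import Pool.Agent.T2H10.WB.Stm

open MeasureTheory Set Filter Topology

namespace Pool.Agent.T2H10.WB

namespace UPL

theorem int_exp {c : ℝ} (hc : 0 < c) : Integrable (fun t : ℝ => Real.exp (-(c * |t|))) := by
  rw [← integrableOn_univ, ← Iic_union_Ioi (a := (0 : ℝ))]
  refine IntegrableOn.union ?_ ?_
  · refine (integrableOn_exp_mul_Iic hc 0).congr_fun ?_ measurableSet_Iic
    intro x hx
    simp only [abs_of_nonpos (show x ≤ 0 from hx)]
    congr 1
    ring
  · refine (exp_neg_integrableOn_Ioi 0 hc).congr_fun ?_ measurableSet_Ioi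
    intro x hx
    simp only [abs_of_pos (show 0 < x from hx)]
    congr 1
    ring

theorem integral_exp {c : ℝ} (hc : 0 < c) : ∫ t : ℝ, Real.exp (-(c * |t|)) = 2 / c := by
  rw [integral_comp_abs (f := fun x => Real.exp (-(c * x)))]
  have h := integral_exp_mul_Ioi (a := -c) (by linarith) 0
  have h2 : ∫ x in Ioi (0 : ℝ), Real.exp (-(c * x)) = ∫ x in Ioi (0 : ℝ), Real.exp (-c * x) := by
    simp only [neg_mul]
  rw [h2, h]
  simp
  ring

/-- the function -/
noncomputable def ph (ν s : ℝ) : ℝ := Real.exp (-(ν * |s|))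

/-- the cut off -/
noncomputable def cut (n : ℕ) (s : ℝ) : ℝ := max 0 (min 1 ((n : ℝ) - |s|))

theorem cut_nonneg (n : ℕ) (s : ℝ) : 0 ≤ cut n s := le_max_left _ _

theorem cut_le (n : ℕ) (s : ℝ) : cut n s ≤ 1 := max_le zero_le_one (min_le_left _ _)

theorem cut_cont (n : ℕ) : Continuous (cut n) := by
  unfold cut
  fun_prop

theorem cut_supp (n : ℕ) : HasCompactSupport (cut n) := by
  refine HasCompactSupport.of_support_subset_isCompact (isCompact_Icc (a := -(n : ℝ)) (b := n)) ?_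
  intro s hs
  by_contra h
  apply hs
  have h1 : (n : ℝ) < |s| := by
    by_contra h2
    exact h (abs_le.1 (not_lt.1 h2))
  unfold cut
  apply max_eq_left
  exact (min_le_right _ _).trans (by linarith)

theorem cut_lim (s : ℝ) : Tendsto (fun n : ℕ => cut n s) atTop (𝓝 1) := by
  refine tendsto_const_nhds.congr' ?_
  obtain ⟨N, hN⟩ := exists_nat_ge (|s| + 1)
  filter_upwards [eventually_ge_atTop N] with n hn
  have h1 : (N : ℝ) ≤ n := by exact_mod_cast hn
  unfold cut
  rw [min_eq_left (by linarith), max_eq_right zero_le_one]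

theorem ph_nonneg (ν s : ℝ) : 0 ≤ ph ν s := (Real.exp_pos _).le

theorem ph_cont (ν : ℝ) : Continuous (ph ν) := by
  unfold ph
  fun_prop

theorem ph_ed {ν : ℝ} (hν : 0 < ν) : Ed (ph ν) :=
  ⟨ph_cont ν, 1, ν, one_pos, hν, fun s => by rw [abs_of_nonneg (ph_nonneg ν s), one_mul]; rfl⟩

theorem phc_ed {ν : ℝ} (hν : 0 < ν) (n : ℕ) : Ed (fun s => ph ν s * cut n s) :=
  ⟨(ph_cont ν).mul (cut_cont n), 1, ν, one_pos, hν, fun s => by
    rw [abs_of_nonneg (mul_nonneg (ph_nonneg ν s) (cut_nonneg n s)), one_mul]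
    calc ph ν s * cut n s ≤ ph ν s * 1 := mul_le_mul_of_nonneg_left (cut_le n s) (ph_nonneg ν s)
      _ = _ := by rw [mul_one]; rfl⟩

end UPL

open UPL in
theorem pUPL (hU : S_UPP) (hL : S_LIM) (hI : S_INT) : S_UPL := by
  intro κ θ ν hκ h0 h1 hν hT
  have hint := (hI κ θ (ph ν) hκ h0 h1 (ph_ed hν)).1
  have hEN : ∀ φ : ℝ → ℝ, Ed φ → EN κ θ φ =
      ∫ p : ℝ × ℝ, φ p.1 * φ p.2 * kk κ (sd (Gm θ p.1) (Gm θ p.2)) := by
    intro φ hφ
    exact (integral_prod _ (hI κ θ φ hκ h0 h1 hφ).1).symm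
  have hE : EN κ θ (fun s => Real.exp (-(ν * |s|))) =
      ∫ p : ℝ × ℝ, ph ν p.1 * ph ν p.2 * kk κ (sd (Gm θ p.1) (Gm θ p.2)) := hEN _ (ph_ed hν)
  rw [hE]
  have hlim : Tendsto (fun n : ℕ => EN κ θ (fun s => ph ν s * cut n s)) atTop
      (𝓝 (∫ p : ℝ × ℝ, ph ν p.1 * ph ν p.2 * kk κ (sd (Gm θ p.1) (Gm θ p.2)))) := by
    have h2 : ∀ n : ℕ, EN κ θ (fun s => ph ν s * cut n s) =
        ∫ p : ℝ × ℝ, (ph ν p.1 * cut n p.1) * (ph ν p.2 * cut n p.2) *
          kk κ (sd (Gm θ p.1) (Gm θ p.2)) := fun n => hEN _ (phc_ed hν n)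
    simp only [h2]
    refine tendsto_integral_of_dominated_convergence _
      (fun n => (hI κ θ _ hκ h0 h1 (phc_ed hν n)).1.aestronglyMeasurable) hint.norm
      (fun n => Eventually.of_forall fun p => ?_) (Eventually.of_forall fun p => ?_)
    · rw [norm_mul, norm_mul (ph ν p.1 * ph ν p.2)]
      refine mul_le_mul_of_nonneg_right ?_ (norm_nonneg _)
      rw [Real.norm_of_nonneg (by
        have := ph_nonneg ν p.1; have := ph_nonneg ν p.2; have := cut_nonneg n p.1
        have := cut_nonneg n p.2; positivity), Real.norm_of_nonneg (mul_nonneg (ph_nonneg _ _) (ph_nonneg _ _))]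
      exact mul_le_mul (mul_le_of_le_one_right (ph_nonneg _ _) (cut_le _ _))
        (mul_le_of_le_one_right (ph_nonneg _ _) (cut_le _ _))
        (mul_nonneg (ph_nonneg _ _) (cut_nonneg _ _)) (ph_nonneg _ _)
    · have a1 : Tendsto (fun n : ℕ => ph ν p.1 * cut n p.1) atTop (𝓝 (ph ν p.1)) := by
        simpa using (cut_lim p.1).const_mul (ph ν p.1)
      have a2 : Tendsto (fun n : ℕ => ph ν p.2 * cut n p.2) atTop (𝓝 (ph ν p.2)) := by
        simpa using (cut_lim p.2).const_mul (ph ν p.2)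
      exact (a1.mul a2).mul_const _
  refine le_of_tendsto hlim (Eventually.of_forall fun n => ?_)
  have hc : Continuous (fun s => ph ν s * cut n s) := (ph_cont ν).mul (cut_cont n)
  have hs : HasCompactSupport (fun s => ph ν s * cut n s) := (cut_supp n).mul_left
  have h3 : EN κ θ (fun s => ph ν s * cut n s) ≤ ∫ s, (ph ν s * cut n s) ^ 2 := by
    refine le_of_tendsto (hL κ θ _ hκ h0 h1 hc hs) ?_
    filter_upwards [self_mem_nhdsWithin] with ε hε
    exact hU κ θ hκ hT _ hc hs (fun s => mul_nonneg (ph_nonneg _ _) (cut_nonneg _ _)) ε hε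
  refine h3.trans ?_
  have h4 : (∫ s, Real.exp (-((2 * ν) * |s|))) = 1 / ν := by
    rw [integral_exp (by positivity)]
    field_simp
  rw [← h4]
  refine integral_mono_of_nonneg (Eventually.of_forall fun s => sq_nonneg _) (int_exp (by positivity))
    (Eventually.of_forall fun s => ?_)
  have h5 : Real.exp (-((2 * ν) * |s|)) = ph ν s ^ 2 := by
    unfold ph
    rw [← Real.exp_nat_mul]
    congr 1
    push_cast
    ring
  simp only
  rw [h5]
  exact pow_le_pow_left₀ (mul_nonneg (ph_nonneg _ _) (cut_nonneg _ _))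
    (mul_le_of_le_one_right (ph_nonneg _ _) (cut_le _ _)) 2

end Pool.Agent.T2H10.WB
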