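import Pool.Agent.T2H10.WB.Stm

open MeasureTheory Set Filter Topology

namespace Pool.Agent.T2H10.WB

namespace UPP

lemma pp_nonneg (σ : ℝ) (hσ : 0 < σ) (z : ℝ × ℝ) : 0 ≤ pp σ z := by
  unfold pp
  have := Real.pi_pos
  positivity

lemma int_on (κ ε : ℝ) (z : ℝ × ℝ) (hκ : 0 < κ) (hε : 0 < ε) :
    IntegrableOn (fun τ : ℝ => Real.exp (-(κ ^ 2 * τ)) * pp τ z) (Ioi ε) := by
  have hpi := Real.pi_pos
  have h1 : IntegrableOn (fun τ : ℝ => Real.exp (-(κ ^ 2) * τ)) (Ioi ε) :=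
    exp_neg_integrableOn_Ioi ε (by positivity)
  have h2 : IntegrableOn (fun τ : ℝ => Real.exp (-(κ ^ 2) * τ) * (1 / (4 * Real.pi * ε))) (Ioi ε) :=
    h1.mul_const _
  refine Integrable.mono' h2 ?_ ?_
  · refine ContinuousOn.aestronglyMeasurable ?_ measurableSet_Ioi
    have hne : ∀ x ∈ Ioi ε, (4 * x : ℝ) ≠ 0 := fun x hx => by
      have : 0 < x := hε.trans hx
      positivity
    have hne2 : ∀ x ∈ Ioi ε, (4 * Real.pi * x : ℝ) ≠ 0 := fun x hx => by
      have : 0 < x := hε.trans hx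
      positivity
    unfold pp
    refine ContinuousOn.mul (by fun_prop) ?_
    refine ContinuousOn.div ?_ (by fun_prop) hne2
    refine Real.continuous_exp.comp_continuousOn ?_
    refine ContinuousOn.neg ?_
    exact ContinuousOn.div (by fun_prop) (by fun_prop) hne
  · refine (ae_restrict_iff' measurableSet_Ioi).mpr (Eventually.of_forall fun τ hτ => ?_)
    have hτ0 : 0 < τ := hε.trans hτ
    rw [Real.norm_eq_abs, abs_of_nonneg (mul_nonneg (Real.exp_pos _).le (pp_nonneg τ hτ0 z))]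
    have e1 : Real.exp (-(κ ^ 2 * τ)) = Real.exp (-(κ ^ 2) * τ) := by congr 1; ring
    rw [e1]
    refine mul_le_mul_of_nonneg_left ?_ (Real.exp_pos _).le
    unfold pp
    have h3 : Real.exp (-((z.1 ^ 2 + z.2 ^ 2) / (4 * τ))) ≤ 1 := by
      rw [Real.exp_le_one_iff]
      have : 0 ≤ (z.1 ^ 2 + z.2 ^ 2) / (4 * τ) := by positivity
      linarith
    rw [div_le_div_iff₀ (by positivity) (by positivity)]
    have h4 : ε ≤ τ := le_of_lt hτ
    have h5 : 0 ≤ Real.exp (-((z.1 ^ 2 + z.2 ^ 2) / (4 * τ))) := (Real.exp_pos _).le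
    calc Real.exp (-((z.1 ^ 2 + z.2 ^ 2) / (4 * τ))) * (4 * Real.pi * ε) ≤ 1 * (4 * Real.pi * τ) := by
          gcongr
      _ = 1 * (4 * Real.pi * τ) := rfl

lemma mono (κ ε : ℝ) (z : ℝ × ℝ) (hκ : 0 < κ) (hε : 0 < ε) : Gf κ (2 * ε) z ≤ Gf κ ε z := by
  unfold Gf
  refine setIntegral_mono_set (int_on κ ε z hκ hε) ?_ ?_
  · refine (ae_restrict_iff' measurableSet_Ioi).mpr (Eventually.of_forall fun τ hτ => ?_)
    exact mul_nonneg (Real.exp_pos _).le (pp_nonneg τ (hε.trans hτ) z)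
  · exact (Ioi_subset_Ioi (by linarith)).eventuallyLE

lemma cont_Gm (θ : ℝ) : Continuous (Gm θ) := by
  unfold Gm
  fun_prop

lemma sq_int (f : ℝ → ℝ) (hf : Continuous f) (C c : ℝ) (hc : 0 < c)
    (h : ∀ s, |f s| ≤ C * Real.exp (-(c * |s|))) : Integrable (fun s => f s ^ 2) := by
  have hC : 0 ≤ C := by
    have := (abs_nonneg (f 0)).trans (h 0)
    simpa using this
  obtain ⟨m, hm, hm1, hm2⟩ : ∃ m : ℝ, 0 < m ∧ m ≤ 1 ∧ m ≤ 2 * c ^ 2 :=
    ⟨min 1 (2 * c ^ 2), by positivity, min_le_left _ _, min_le_right _ _⟩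
  have hI : Integrable (fun s : ℝ => C ^ 2 / m * (1 + s ^ 2)⁻¹) := integrable_inv_one_add_sq.const_mul _
  refine Integrable.mono' hI (hf.pow 2).aestronglyMeasurable (Eventually.of_forall fun s => ?_)
  rw [Real.norm_eq_abs, abs_of_nonneg (sq_nonneg _), ← sq_abs]
  have h1 : |f s| ^ 2 ≤ (C * Real.exp (-(c * |s|))) ^ 2 := pow_le_pow_left₀ (abs_nonneg _) (h s) 2
  have h2 : (C * Real.exp (-(c * |s|))) ^ 2 = C ^ 2 * (Real.exp (2 * c * |s|))⁻¹ := by
    rw [mul_pow, ← Real.exp_neg, ← Real.exp_nat_mul]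
    congr 2
    push_cast; ring
  have hs : |s| ^ 2 = s ^ 2 := sq_abs s
  have h3 : 1 + 2 * c * |s| + (2 * c * |s|) ^ 2 / 2 ≤ Real.exp (2 * c * |s|) :=
    Real.quadratic_le_exp_of_nonneg (by positivity)
  have h4 : m * (1 + s ^ 2) ≤ Real.exp (2 * c * |s|) := by
    have h5 : 0 ≤ 2 * c * |s| := by positivity
    have h6 : (2 * c * |s|) ^ 2 / 2 = 2 * c ^ 2 * s ^ 2 := by rw [mul_pow, hs]; ring
    have h7 : m * s ^ 2 ≤ 2 * c ^ 2 * s ^ 2 := mul_le_mul_of_nonneg_right hm2 (sq_nonneg s)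
    nlinarith
  calc |f s| ^ 2 ≤ C ^ 2 * (Real.exp (2 * c * |s|))⁻¹ := by rw [← h2]; exact h1
    _ ≤ C ^ 2 * (m * (1 + s ^ 2))⁻¹ := by
        refine mul_le_mul_of_nonneg_left ?_ (sq_nonneg _)
        exact inv_anti₀ (by positivity) h4
    _ = C ^ 2 / m * (1 + s ^ 2)⁻¹ := by
        rw [mul_inv]; ring

end UPP

theorem pUPP (hE : S_EXT) (hP : S_PSI) (hN : S_ENE) (hG : S_GDE) : S_UPP := by
  intro κ θ hκ hTR φ hφ hφc hφ0 ε hε
  have hpsi := (hP κ ε θ φ hκ hε hφ hφc).1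
  have hpsi2 := (hP κ (2 * ε) θ φ hκ (by positivity) hφ hφc).1
  have hGc : Continuous (Gf κ ε) := (hG κ ε hκ hε).1.smooth.continuous
  have hGc2 : Continuous (Gf κ (2 * ε)) := (hG κ (2 * ε) hκ (by positivity)).1.smooth.continuous
  have hΓ := UPP.cont_Gm θ
  set ψ : ℝ → ℝ := fun s => psi κ ε θ φ (Gm θ s) with hψ
  set ψ2 : ℝ → ℝ := fun s => psi κ (2 * ε) θ φ (Gm θ s) with hψ2
  have hψc : Continuous ψ := hpsi.smooth.continuous.comp hΓ
  have hψ2c : Continuous ψ2 := hpsi2.smooth.continuous.comp hΓ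
  -- inner integrals
  have hin : ∀ s, (∫ t, φ s * φ t * Gf κ ε (Gm θ s - Gm θ t)) = φ s * ψ s := by
    intro s
    rw [hψ]
    simp only [psi]
    rw [← integral_const_mul]
    congr 1; funext t; ring
  have hin2 : ∀ s, (∫ t, φ s * φ t * Gf κ (2 * ε) (Gm θ s - Gm θ t)) = φ s * ψ2 s := by
    intro s
    rw [hψ2]
    simp only [psi]
    rw [← integral_const_mul]
    congr 1; funext t; ring
  have hleft : (∫ s, ∫ t, φ s * φ t * (2 * Gf κ ε (Gm θ s - Gm θ t))) = 2 * ∫ s, φ s * ψ s := by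
    rw [← integral_const_mul]
    congr 1; funext s
    rw [← hin s, ← integral_const_mul]
    congr 1; funext t; ring
  -- integrability
  have hi1 : Integrable (fun s => φ s * ψ s) :=
    (hφ.mul hψc).integrable_of_hasCompactSupport (hφc.mul_right)
  have hi2 : Integrable (fun s => φ s * ψ2 s) :=
    (hφ.mul hψ2c).integrable_of_hasCompactSupport (hφc.mul_right)
  have hiφ : Integrable (fun s => φ s ^ 2) := by
    have : (fun s => φ s ^ 2) = fun s => φ s * φ s := by funext s; ring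
    rw [this]
    exact (hφ.mul hφ).integrable_of_hasCompactSupport (hφc.mul_right)
  have hiψ : Integrable (fun s => ψ s ^ 2) := by
    obtain ⟨C, c, hC, hc, h⟩ := hpsi.dec
    refine UPP.sq_int ψ hψc C c hc fun s => ?_
    refine ((h (Gm θ s)).1).trans ?_
    refine mul_le_mul_of_nonneg_left ?_ hC.le
    rw [Real.exp_le_exp]
    have e1 : |(Gm θ s).1| = |s| * |Real.cos (θ / 2)| := by simp [Gm, abs_mul]
    have e2 : |(Gm θ s).2| = |s| * |Real.sin (θ / 2)| := by simp [Gm, abs_mul]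
    have e3 : 1 ≤ |Real.cos (θ / 2)| + |Real.sin (θ / 2)| := by
      have h1 := Real.sin_sq_add_cos_sq (θ / 2)
      have h2 := sq_abs (Real.cos (θ / 2))
      have h3 := sq_abs (Real.sin (θ / 2))
      have h4 := abs_nonneg (Real.cos (θ / 2))
      have h5 := abs_nonneg (Real.sin (θ / 2))
      have h6 := Real.abs_cos_le_one (θ / 2)
      have h7 := Real.abs_sin_le_one (θ / 2)
      nlinarith
    have e4 : |s| ≤ |(Gm θ s).1| + |(Gm θ s).2| := by
      rw [e1, e2, ← mul_add]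
      exact le_mul_of_one_le_right (abs_nonneg s) e3
    have e5 := mul_le_mul_of_nonneg_left e4 hc.le
    linarith
  -- monotonicity
  have hmono : (∫ s, φ s * ψ2 s) ≤ ∫ s, φ s * ψ s := by
    refine integral_mono hi2 hi1 fun s => ?_
    refine mul_le_mul_of_nonneg_left ?_ (hφ0 s)
    simp only [hψ, hψ2, psi]
    refine integral_mono ?_ ?_ fun t => ?_
    · refine Continuous.integrable_of_hasCompactSupport ?_ (hφc.mul_right)
      exact hφ.mul (hGc2.comp (continuous_const.sub hΓ))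
    · refine Continuous.integrable_of_hasCompactSupport ?_ (hφc.mul_right)
      exact hφ.mul (hGc.comp (continuous_const.sub hΓ))
    · exact mul_le_mul_of_nonneg_left (UPP.mono κ ε _ hκ hε) (hφ0 t)
  have hHH : HH κ (psi κ ε θ φ) = ∫ s, φ s * ψ2 s := by
    rw [hN κ ε θ φ hκ hε hφ hφc]
    congr 1; funext s
    exact hin2 s
  have hext : 2 * ∫ s, ψ s ^ 2 ≤ HH κ (psi κ ε θ φ) := hE κ θ hκ hTR _ hpsi
  have hsq : 0 ≤ ∫ s, (φ s - 2 * ψ s) ^ 2 := integral_nonneg fun s => sq_nonneg _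
  have hexp : ∫ s, (φ s - 2 * ψ s) ^ 2 = (∫ s, φ s ^ 2) - 4 * (∫ s, φ s * ψ s) + 4 * ∫ s, ψ s ^ 2 := by
    have : (fun s => (φ s - 2 * ψ s) ^ 2) = fun s => (φ s ^ 2 - 4 * (φ s * ψ s)) + 4 * ψ s ^ 2 := by
      funext s; ring
    have ha : Integrable (fun s => φ s ^ 2 - 4 * (φ s * ψ s)) := hiφ.sub (hi1.const_mul 4)
    rw [this, integral_add ha (hiψ.const_mul 4),
      integral_sub hiφ (hi1.const_mul 4), integral_const_mul, integral_const_mul]
  rw [hleft]
  rw [hexp] at hsq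
  rw [hHH] at hext
  linarith

end Pool.Agent.T2H10.WB
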