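import Pool.Agent.T2H10.WB.Stm

/-!
# Project WB: assembly
-/

open MeasureTheory Set Filter Topology

namespace Pool.Agent.T2H10.WB

/-- lower bound from a trace inequality -/
theorem lam_ge (hCPX : S_CPX) (κ θ : ℝ) (hκ : 0 < κ) (h : TR κ θ) : -κ ^ 2 ≤ lam 2 θ := by
  have h1 := (hCPX κ θ hκ).1 h
  unfold lam
  rcases Set.eq_empty_or_nonempty {E : ℝ | ∃ u : ℝ × ℝ → ℂ, ContDiff ℝ 1 u ∧ HasCompactSupport u ∧
    (∫ z, ‖u z‖ ^ 2) = 1 ∧ E = form 2 θ u} with he | hne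
  · rw [he, Real.sInf_empty]
    nlinarith [sq_nonneg κ]
  · apply le_csInf hne
    rintro E ⟨u, hu, hc, h2, rfl⟩
    exact h1 u hu hc h2

/-- failure of a trace inequality from a large value of `lam` -/
theorem tr_of_lam (hCPX : S_CPX) (κ κ' θ : ℝ) (hκ : 0 < κ) (hκ' : 0 < κ') (h : TR κ' θ) (hl : -κ ^ 2 < lam 2 θ) :
    TR κ θ := by
  apply (hCPX κ θ hκ).2
  intro u hu hc h2
  have hb := (hCPX κ' θ hκ').1 h
  have hB : BddBelow {E : ℝ | ∃ u : ℝ × ℝ → ℂ, ContDiff ℝ 1 u ∧ HasCompactSupport u ∧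
      (∫ z, ‖u z‖ ^ 2) = 1 ∧ E = form 2 θ u} := by
    refine ⟨-κ' ^ 2, ?_⟩
    rintro E ⟨v, hv, hcv, h3, rfl⟩
    exact hb v hv hcv h3
  have h4 : lam 2 θ ≤ form 2 θ u := csInf_le hB ⟨u, hu, hc, h2, rfl⟩
  linarith

theorem fin2 (hLOW : S_LOW) (hLBA : S_LBA) (hUPL : S_UPL) (hUBA : S_UBA) (hCPX : S_CPX) :
    ∃ C θ0 : ℝ, 0 < θ0 ∧ ∀ θ : ℝ, 0 < θ → θ < θ0 →
      |lam 2 θ + 1 + θ ^ 4 / (9 * Real.pi ^ 2)| ≤ C * θ ^ 5 := by
  obtain ⟨C1, t1, hC1, ht1, h1⟩ := hLBA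
  obtain ⟨C2, t2, hC2, ht2, h2⟩ := hUBA
  refine ⟨max C1 C2, min (min t1 t2) (min (1 : ℝ) (1 / (2 * C2))), ?_, ?_⟩
  · refine lt_min (lt_min ht1 ht2) (lt_min one_pos ?_)
    positivity
  intro θ hθ hlt
  have hθ1 : θ < t1 := lt_of_lt_of_le hlt ((min_le_left _ _).trans (min_le_left _ _))
  have hθ2 : θ < t2 := lt_of_lt_of_le hlt ((min_le_left _ _).trans (min_le_right _ _))
  have hθ3 : θ < 1 := lt_of_lt_of_le hlt ((min_le_right _ _).trans (min_le_left _ _))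
  have hθ4 : θ < 1 / (2 * C2) := lt_of_lt_of_le hlt ((min_le_right _ _).trans (min_le_right _ _))
  have hpi : θ < Real.pi / 2 := by linarith [Real.pi_gt_three]
  have hpi0 : (0 : ℝ) < 9 * Real.pi ^ 2 := by positivity
  -- lower bound
  set q1 : ℝ := 1 + θ ^ 4 / (9 * Real.pi ^ 2) + C1 * θ ^ 5 with hq1
  have hq1p : 0 < q1 := by positivity
  have hk1 : 0 < Real.sqrt q1 := Real.sqrt_pos.mpr hq1p
  have hTR1 : TR (Real.sqrt q1) θ :=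
    hLOW _ _ hk1 hθ hpi (h1 _ θ hk1 hθ hθ1 (Real.sq_sqrt hq1p.le))
  have hL := lam_ge hCPX _ θ hk1 hTR1
  rw [Real.sq_sqrt hq1p.le] at hL
  -- upper bound
  set q2 : ℝ := 1 + θ ^ 4 / (9 * Real.pi ^ 2) - C2 * θ ^ 5 with hq2
  have hq2p : 0 < q2 := by
    have h3 : C2 * θ ^ 5 ≤ 1 / 2 := by
      have h4 : C2 * θ < 1 / 2 := by
        rw [lt_div_iff₀ (by positivity)] at hθ4
        linarith
      have h5 : θ ^ 4 ≤ 1 := pow_le_one₀ hθ.le hθ3.le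
      calc C2 * θ ^ 5 = (C2 * θ) * θ ^ 4 := by ring
        _ ≤ 1 / 2 * 1 := mul_le_mul h4.le h5 (by positivity) (by norm_num)
        _ = 1 / 2 := by norm_num
    have h6 : 0 < θ ^ 4 / (9 * Real.pi ^ 2) := by positivity
    rw [hq2]
    linarith
  have hk2 : 0 < Real.sqrt q2 := Real.sqrt_pos.mpr hq2p
  have hU : lam 2 θ ≤ -q2 := by
    by_contra hcon
    push Not at hcon
    have h3 : TR (Real.sqrt q2) θ := by
      apply tr_of_lam hCPX _ _ θ hk2 hk1 hTR1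
      rw [Real.sq_sqrt hq2p.le]
      exact hcon
    have h4 := h2 _ θ hk2 hθ hθ2 (Real.sq_sqrt hq2p.le)
    have h5 := hUPL _ θ (θ ^ 2 / (3 * Real.pi)) hk2 hθ hpi (by positivity) h3
    linarith
  have hm1 : C1 * θ ^ 5 ≤ max C1 C2 * θ ^ 5 := mul_le_mul_of_nonneg_right (le_max_left _ _) (by positivity)
  have hm2 : C2 * θ ^ 5 ≤ max C1 C2 * θ ^ 5 := mul_le_mul_of_nonneg_right (le_max_right _ _) (by positivity)
  rw [abs_le]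
  constructor <;> linarith

theorem main (hLOW : S_LOW) (hLBA : S_LBA) (hUPL : S_UPL) (hUBA : S_UBA) (hCPX : S_CPX) (hSCA : S_SCA) :
    ∀ α : ℝ, 0 < α → ∃ C θ0 : ℝ, 0 < θ0 ∧ ∀ θ : ℝ, 0 < θ → θ < θ0 →
      |lam α θ - (-(1 / 4) * α ^ 2 - α ^ 2 / (36 * Real.pi ^ 2) * θ ^ 4)| ≤ C * θ ^ 5 := by
  obtain ⟨C, θ0, h0, h⟩ := fin2 hLOW hLBA hUPL hUBA hCPX
  intro α hα
  refine ⟨α ^ 2 / 4 * C, θ0, h0, fun θ hθ hlt => ?_⟩
  have h1 := h θ hθ hlt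
  rw [hSCA α θ hα]
  have h2 : α ^ 2 / 4 * lam 2 θ - (-(1 / 4) * α ^ 2 - α ^ 2 / (36 * Real.pi ^ 2) * θ ^ 4) =
      α ^ 2 / 4 * (lam 2 θ + 1 + θ ^ 4 / (9 * Real.pi ^ 2)) := by
    have : Real.pi ≠ 0 := Real.pi_ne_zero
    field_simp
    ring
  rw [h2, abs_mul, abs_of_pos (by positivity : 0 < α ^ 2 / 4), mul_assoc]
  exact mul_le_mul_of_nonneg_left h1 (by positivity)

end Pool.Agent.T2H10.WB
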