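import Pool.Agent.T2H10.WB.Stm

open MeasureTheory Set Filter Topology

namespace Pool.Agent.T2H10.WB.CPX

theorem gm_cont (θ : ℝ) : Continuous (Gm θ) := by
  unfold Gm
  fun_prop

theorem gm_norm (θ s : ℝ) : |s| / 2 ≤ ‖Gm θ s‖ := by
  have h1 : |(Gm θ s).1| ≤ ‖Gm θ s‖ := norm_fst_le (Gm θ s)
  have h2 : |(Gm θ s).2| ≤ ‖Gm θ s‖ := norm_snd_le (Gm θ s)
  have h3 : (Gm θ s).1 ^ 2 + (Gm θ s).2 ^ 2 = s ^ 2 := by
    unfold Gm
    simp only
    rw [mul_pow, mul_pow, sq_abs, ← mul_add, Real.cos_sq_add_sin_sq, mul_one]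
  by_contra hcon
  push Not at hcon
  have h4 : |(Gm θ s).1| < |s| / 2 := lt_of_le_of_lt h1 hcon
  have h5 : |(Gm θ s).2| < |s| / 2 := lt_of_le_of_lt h2 hcon
  have h6 := sq_abs (Gm θ s).1
  have h7 := sq_abs (Gm θ s).2
  have h8 := sq_abs s
  have h9 := abs_nonneg (Gm θ s).1
  have h10 := abs_nonneg (Gm θ s).2
  nlinarith

theorem gm_supp {F : Type*} [NormedAddCommGroup F] (θ : ℝ) {u : ℝ × ℝ → F}
    (hu : HasCompactSupport u) : HasCompactSupport (fun s => u (Gm θ s)) := by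
  obtain ⟨R, hR⟩ := hu.isCompact.isBounded.exists_norm_le
  refine HasCompactSupport.intro (isCompact_Icc (a := -(2 * R + 1)) (b := 2 * R + 1)) ?_
  intro s hs
  by_contra hne
  have h1 : Gm θ s ∈ tsupport u := subset_tsupport u hne
  have h2 := hR _ h1
  have h3 := gm_norm θ s
  apply hs
  rw [mem_Icc]
  have h4 : |s| ≤ 2 * R + 1 := by linarith
  exact ⟨by have := neg_abs_le s; linarith, by have := le_abs_self s; linarith⟩

theorem cc_int {X : Type*} [TopologicalSpace X] [MeasurableSpace X] [OpensMeasurableSpace X]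
    {μ : Measure X} [IsFiniteMeasureOnCompacts μ] {f : X → ℝ} (hf : Continuous f)
    (hc : HasCompactSupport f) : Integrable f μ :=
  hf.integrable_of_hasCompactSupport hc

theorem sq_supp {X : Type*} [TopologicalSpace X] {F : Type*} [NormedAddCommGroup F] {u : X → F}
    (hu : HasCompactSupport u) : HasCompactSupport (fun x => ‖u x‖ ^ 2) := by
  refine hu.comp_left (g := fun y : F => ‖y‖ ^ 2) ?_
  simp

theorem sq_supp' {X : Type*} [TopologicalSpace X] {u : X → ℝ}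
    (hu : HasCompactSupport u) : HasCompactSupport (fun x => u x ^ 2) := by
  refine hu.comp_left (g := fun y : ℝ => y ^ 2) ?_
  simp

theorem d_cont {F : Type*} [NormedAddCommGroup F] [NormedSpace ℝ F] {u : ℝ × ℝ → F}
    (hu : ContDiff ℝ 1 u) (v : ℝ × ℝ) : Continuous (fun z => fderiv ℝ u z v) :=
  (hu.continuous_fderiv (by norm_num)).clm_apply continuous_const

theorem d_supp {F : Type*} [NormedAddCommGroup F] [NormedSpace ℝ F] {u : ℝ × ℝ → F}
    (hu : HasCompactSupport u) (v : ℝ × ℝ) : HasCompactSupport (fun z => fderiv ℝ u z v) := by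
  refine (hu.fderiv (𝕜 := ℝ)).comp_left (g := fun L : (ℝ × ℝ) →L[ℝ] F => L v) ?_
  simp

theorem HH_split (κ : ℝ) {u : ℝ × ℝ → ℝ} (hu : ContDiff ℝ 1 u) (hc : HasCompactSupport u) :
    HH κ u = (∫ z, (DX u z ^ 2 + DY u z ^ 2)) + κ ^ 2 * ∫ z, u z ^ 2 := by
  unfold HH
  rw [← integral_const_mul, ← integral_add]
  · have h1 : Integrable (fun z => DX u z ^ 2) :=
      cc_int ((d_cont hu _).pow 2) (sq_supp' (d_supp hc _))
    have h2 : Integrable (fun z => DY u z ^ 2) :=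
      cc_int ((d_cont hu _).pow 2) (sq_supp' (d_supp hc _))
    exact h1.add h2
  · exact (cc_int (hu.continuous.pow 2) (sq_supp' hc)).const_mul _

theorem part1 (κ θ : ℝ) (h : TR κ θ) (u : ℝ × ℝ → ℂ) (hu : ContDiff ℝ 1 u)
    (hc : HasCompactSupport u) (h1 : (∫ z, ‖u z‖ ^ 2) = 1) : -κ ^ 2 ≤ form 2 θ u := by
  have hre : ContDiff ℝ 1 (fun z => (u z).re) := Complex.reCLM.contDiff.comp hu
  have him : ContDiff ℝ 1 (fun z => (u z).im) := Complex.imCLM.contDiff.comp hu
  have cre : HasCompactSupport (fun z => (u z).re) := hc.comp_left (g := Complex.re) rfl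
  have cim : HasCompactSupport (fun z => (u z).im) := hc.comp_left (g := Complex.im) rfl
  have a1 := h _ hre cre
  have a2 := h _ him cim
  rw [HH_split κ hre cre] at a1
  rw [HH_split κ him cim] at a2
  have hdiff : ∀ z, DifferentiableAt ℝ u z := fun z => hu.differentiable (by norm_num) z
  have dre : ∀ z v, fderiv ℝ (fun z => (u z).re) z v = (fderiv ℝ u z v).re := by
    intro z v
    have := (Complex.reCLM.hasFDerivAt.comp z (hdiff z).hasFDerivAt).fderiv
    change fderiv ℝ (fun z => (u z).re) z = _ at this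
    rw [this]; rfl
  have dim : ∀ z v, fderiv ℝ (fun z => (u z).im) z v = (fderiv ℝ u z v).im := by
    intro z v
    have := (Complex.imCLM.hasFDerivAt.comp z (hdiff z).hasFDerivAt).fderiv
    change fderiv ℝ (fun z => (u z).im) z = _ at this
    rw [this]; rfl
  have nsq : ∀ w : ℂ, ‖w‖ ^ 2 = w.re ^ 2 + w.im ^ 2 := by
    intro w
    rw [Complex.sq_norm, Complex.normSq_apply]; ring
  -- the three integrals
  have i1 : ∫ s, ‖u (Gm θ s)‖ ^ 2 = (∫ s, (u (Gm θ s)).re ^ 2) + ∫ s, (u (Gm θ s)).im ^ 2 := by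
    rw [← integral_add]
    · exact integral_congr_ae (Eventually.of_forall fun s => nsq _)
    · exact cc_int ((hre.continuous.comp (gm_cont θ)).pow 2) (sq_supp' (gm_supp θ cre))
    · exact cc_int ((him.continuous.comp (gm_cont θ)).pow 2) (sq_supp' (gm_supp θ cim))
  have i2 : (1 : ℝ) = (∫ z, (u z).re ^ 2) + ∫ z, (u z).im ^ 2 := by
    rw [← h1, ← integral_add]
    · exact integral_congr_ae (Eventually.of_forall fun s => nsq _)
    · exact cc_int (hre.continuous.pow 2) (sq_supp' cre)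
    · exact cc_int (him.continuous.pow 2) (sq_supp' cim)
  have gi : ∀ {w : ℝ × ℝ → ℝ}, ContDiff ℝ 1 w → HasCompactSupport w →
      Integrable (fun z => DX w z ^ 2 + DY w z ^ 2) := by
    intro w hw hwc
    have h1 : Integrable (fun z => DX w z ^ 2) :=
      cc_int ((d_cont hw _).pow 2) (sq_supp' (d_supp hwc _))
    have h2 : Integrable (fun z => DY w z ^ 2) :=
      cc_int ((d_cont hw _).pow 2) (sq_supp' (d_supp hwc _))
    exact h1.add h2
  have i3 : (∫ z, (‖fderiv ℝ u z (1, 0)‖ ^ 2 + ‖fderiv ℝ u z (0, 1)‖ ^ 2)) =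
      (∫ z, (DX (fun z => (u z).re) z ^ 2 + DY (fun z => (u z).re) z ^ 2)) +
      ∫ z, (DX (fun z => (u z).im) z ^ 2 + DY (fun z => (u z).im) z ^ 2) := by
    rw [← integral_add (gi hre cre) (gi him cim)]
    refine integral_congr_ae (Eventually.of_forall fun z => ?_)
    simp only [DX, DY, dre, dim, nsq]
    ring
  unfold form
  rw [i1, i3]
  have e2 : κ ^ 2 = κ ^ 2 * (∫ z, (u z).re ^ 2) + κ ^ 2 * ∫ z, (u z).im ^ 2 := by
    rw [← mul_add, ← i2, mul_one]
  linarith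

theorem part2 (κ θ : ℝ) (h : ∀ u : ℝ × ℝ → ℂ, ContDiff ℝ 1 u → HasCompactSupport u →
    (∫ z, ‖u z‖ ^ 2) = 1 → -κ ^ 2 ≤ form 2 θ u) : TR κ θ := by
  intro u hu hc
  rw [HH_split κ hu hc]
  have hint : Integrable (fun z => u z ^ 2) := cc_int (hu.continuous.pow 2) (sq_supp' hc)
  rcases (integral_nonneg (fun z => sq_nonneg (u z)) : (0 : ℝ) ≤ ∫ z, u z ^ 2).eq_or_lt with h0 | h0
  · -- u = 0
    have h2 : (fun z => u z ^ 2) =ᵐ[volume] 0 :=
      (integral_eq_zero_iff_of_nonneg (fun z => sq_nonneg (u z)) hint).1 h0.symm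
    have h3 : (fun z => u z ^ 2) = 0 :=
      Continuous.ae_eq_iff_eq volume (hu.continuous.pow 2) continuous_const |>.1 h2
    have h4 : ∀ z, u z = 0 := fun z => by
      have := congrFun h3 z
      simpa using this
    have h5 : (∫ s, u (Gm θ s) ^ 2) = 0 := by
      simp [h4]
    rw [h5, ← h0]
    have : 0 ≤ ∫ z, (DX u z ^ 2 + DY u z ^ 2) := integral_nonneg fun z => by positivity
    linarith
  · obtain ⟨N, hN⟩ : ∃ N, N = ∫ z, u z ^ 2 := ⟨_, rfl⟩
    rw [← hN] at h0 ⊢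
    obtain ⟨c, hcdef⟩ : ∃ c : ℝ, c = 1 / Real.sqrt N := ⟨_, rfl⟩
    have hc2 : c ^ 2 = 1 / N := by rw [hcdef, div_pow, one_pow, Real.sq_sqrt h0.le]
    have hv : ContDiff ℝ 1 (fun z => ((c * u z : ℝ) : ℂ)) :=
      Complex.ofRealCLM.contDiff.comp (contDiff_const.mul hu)
    have hvc : HasCompactSupport (fun z => ((c * u z : ℝ) : ℂ)) :=
      hc.comp_left (g := fun y : ℝ => ((c * y : ℝ) : ℂ)) (by simp)
    have hnorm : ∀ y : ℝ, ‖((c * y : ℝ) : ℂ)‖ ^ 2 = 1 / N * y ^ 2 := by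
      intro y
      rw [Complex.norm_real, Real.norm_eq_abs, sq_abs, mul_pow, hc2]
    have h1 : (∫ z, ‖((c * u z : ℝ) : ℂ)‖ ^ 2) = 1 := by
      simp only [hnorm]
      rw [integral_const_mul, ← hN]
      field_simp
    have key := h _ hv hvc h1
    unfold form at key
    have hd : ∀ z v, fderiv ℝ (fun z => ((c * u z : ℝ) : ℂ)) z v = ((c * fderiv ℝ u z v : ℝ) : ℂ) := by
      intro z v
      have hdu : DifferentiableAt ℝ u z := hu.differentiable (by norm_num) z
      have := (Complex.ofRealCLM.hasFDerivAt.comp z (hdu.hasFDerivAt.const_mul c)).fderiv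
      change fderiv ℝ (fun z => ((c * u z : ℝ) : ℂ)) z = _ at this
      rw [this]; rfl
    simp only [hd, hnorm] at key
    have e1 : (∫ z, (1 / N * (fderiv ℝ u z (1, 0)) ^ 2 + 1 / N * (fderiv ℝ u z (0, 1)) ^ 2)) =
        1 / N * ∫ z, (DX u z ^ 2 + DY u z ^ 2) := by
      rw [← integral_const_mul]
      refine integral_congr_ae (Eventually.of_forall fun z => ?_)
      simp only [DX, DY]; ring
    rw [e1, integral_const_mul] at key
    have h6 : N * (-κ ^ 2) ≤ N * (1 / N * (∫ z, (DX u z ^ 2 + DY u z ^ 2)) -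
        2 * (1 / N * ∫ s, u (Gm θ s) ^ 2)) := mul_le_mul_of_nonneg_left key h0.le
    have h7 : N * (1 / N * (∫ z, (DX u z ^ 2 + DY u z ^ 2)) -
        2 * (1 / N * ∫ s, u (Gm θ s) ^ 2)) =
        (∫ z, (DX u z ^ 2 + DY u z ^ 2)) - 2 * ∫ s, u (Gm θ s) ^ 2 := by
      field_simp
    rw [h7] at h6
    linarith

end Pool.Agent.T2H10.WB.CPX

namespace Pool.Agent.T2H10.WB

theorem pCPX : S_CPX := fun κ θ _ => ⟨CPX.part1 κ θ, CPX.part2 κ θ⟩

end Pool.Agent.T2H10.WB
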