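import Mathlib

/-!
# MP_687a20_mp: weak bending of a leaky broken line, definitions
-/

open MeasureTheory Set Filter Topology

namespace Pool.Agent.T2H10.WB

noncomputable section

/-- The broken line: two half lines issuing from the origin in the directions `(± cos (θ/2), sin (θ/2))`, which
form the angle `π - θ`, parametrised by arc length. -/
def Gm (θ s : ℝ) : ℝ × ℝ := (s * Real.cos (θ / 2), |s| * Real.sin (θ / 2))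

/-- The quadratic form of `-Δ - α δ(· - Γ)`. -/
def form (α θ : ℝ) (u : ℝ × ℝ → ℂ) : ℝ :=
  (∫ z, (‖fderiv ℝ u z (1, 0)‖ ^ 2 + ‖fderiv ℝ u z (0, 1)‖ ^ 2)) - α * ∫ s, ‖u (Gm θ s)‖ ^ 2

/-- The bottom of the spectrum: the infimum of the form over normalised `C¹` functions of compact support. -/
def lam (α θ : ℝ) : ℝ :=
  sInf {E : ℝ | ∃ u : ℝ × ℝ → ℂ, ContDiff ℝ 1 u ∧ HasCompactSupport u ∧ (∫ z, ‖u z‖ ^ 2) = 1 ∧ E = form α θ u}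

/-- Square of the Euclidean distance. -/
def sd (z w : ℝ × ℝ) : ℝ := (z.1 - w.1) ^ 2 + (z.2 - w.2) ^ 2

def DX (u : ℝ × ℝ → ℝ) (z : ℝ × ℝ) : ℝ := fderiv ℝ u z (1, 0)

def DY (u : ℝ × ℝ → ℝ) (z : ℝ × ℝ) : ℝ := fderiv ℝ u z (0, 1)

/-- `‖∇ u‖² + κ² ‖u‖²` -/
def HH (κ : ℝ) (u : ℝ × ℝ → ℝ) : ℝ := ∫ z, (DX u z ^ 2 + DY u z ^ 2 + κ ^ 2 * u z ^ 2)

/-- `2 ∫_Γ u² ≤ ‖∇ u‖² + κ² ‖u‖²` for all real `C¹` functions of compact support -/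
def TR (κ θ : ℝ) : Prop := ∀ u : ℝ × ℝ → ℝ, ContDiff ℝ 1 u → HasCompactSupport u →
  2 * ∫ s, u (Gm θ s) ^ 2 ≤ HH κ u

/-- `C¹` functions with exponential decay (with their first derivatives) -/
structure Dec (u : ℝ × ℝ → ℝ) : Prop where
  smooth : ContDiff ℝ 1 u
  dec : ∃ C c : ℝ, 0 < C ∧ 0 < c ∧ ∀ z, |u z| ≤ C * Real.exp (-(c * (|z.1| + |z.2|))) ∧
    |DX u z| ≤ C * Real.exp (-(c * (|z.1| + |z.2|))) ∧ |DY u z| ≤ C * Real.exp (-(c * (|z.1| + |z.2|)))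

/-- heat kernel of the plane -/
def pp (τ : ℝ) (z : ℝ × ℝ) : ℝ := Real.exp (-((z.1 ^ 2 + z.2 ^ 2) / (4 * τ))) / (4 * Real.pi * τ)

/-- regularised Green function of `-Δ + κ²` -/
def Gf (κ ε : ℝ) (z : ℝ × ℝ) : ℝ := ∫ τ in Ioi ε, Real.exp (-(κ ^ 2 * τ)) * pp τ z

def Gx (κ ε : ℝ) (z : ℝ × ℝ) : ℝ := ∫ τ in Ioi ε, Real.exp (-(κ ^ 2 * τ)) * (-(z.1 / (2 * τ)) * pp τ z)

def Gy (κ ε : ℝ) (z : ℝ × ℝ) : ℝ := ∫ τ in Ioi ε, Real.exp (-(κ ^ 2 * τ)) * (-(z.2 / (2 * τ)) * pp τ z)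

/-- regularised potential of the density `φ` on the broken line -/
def psi (κ ε θ : ℝ) (φ : ℝ → ℝ) (z : ℝ × ℝ) : ℝ := ∫ s, φ s * Gf κ ε (z - Gm θ s)

/-- `kk κ q = 2 ∫_0^∞ exp (- κ² τ) exp (- q / (4 τ)) / (4 π τ) dτ` (twice the Green function at distance `√ q`;
it is `K₀ (κ √ q) / π`) -/
def kk (κ q : ℝ) : ℝ := ∫ τ in Ioi (0 : ℝ), Real.exp (-(κ ^ 2 * τ)) * (Real.exp (-(q / (4 * τ))) / (2 * Real.pi * τ))

/-- the energy of the density `φ` on the broken line -/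
def EN (κ θ : ℝ) (φ : ℝ → ℝ) : ℝ := ∫ s, ∫ t, φ s * φ t * kk κ (sd (Gm θ s) (Gm θ t))

/-- the energy of the density `φ` on the straight line -/
def E0 (κ : ℝ) (φ : ℝ → ℝ) : ℝ := ∫ s, ∫ t, φ s * φ t * kk κ ((s - t) ^ 2)

/-- the effect of the bending on the kernel, `s, t > 0` on different half lines -/
def DD (κ θ s t : ℝ) : ℝ := kk κ (s ^ 2 + t ^ 2 + 2 * s * t * Real.cos θ) - kk κ ((s + t) ^ 2)

/-- continuous functions with exponential decay -/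
structure Ed (φ : ℝ → ℝ) : Prop where
  cont : Continuous φ
  dec : ∃ C c : ℝ, 0 < C ∧ 0 < c ∧ ∀ s, |φ s| ≤ C * Real.exp (-(c * |s|))

/-- `g = f'`, `f'' = κ² f - φ` -/
structure FG (κ : ℝ) (φ f g : ℝ → ℝ) : Prop where
  ed : Ed φ
  df : ∀ s, HasDerivAt f (g s) s
  dg : ∀ s, HasDerivAt g (κ ^ 2 * f s - φ s) s
  dec : ∃ C c : ℝ, 0 < C ∧ 0 < c ∧ ∀ s, |f s| ≤ C * Real.exp (-(c * |s|)) ∧ |g s| ≤ C * Real.exp (-(c * |s|))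

end

end Pool.Agent.T2H10.WB
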