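import Pool.Agent.T2H10.WB.Stm

/-!
# Package EXT: the trace inequality for functions with exponential decay
-/

open MeasureTheory Set Filter Topology

namespace Pool.Agent.T2H10.WB

namespace EXT

lemma int1 {c : ℝ} (hc : 0 < c) : Integrable (fun s : ℝ => Real.exp (-(c * |s|))) := by
  have h1 : IntegrableOn (fun s : ℝ => Real.exp (-(c * |s|))) (Ioi 0) := by
    refine (exp_neg_integrableOn_Ioi 0 hc).congr_fun (fun s hs => ?_) measurableSet_Ioi
    simp only
    rw [abs_of_pos hs]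
    congr 1; ring
  have h2 : IntegrableOn (fun s : ℝ => Real.exp (-(c * |s|))) (Iic 0) := by
    refine (integrableOn_exp_mul_Iic hc 0).congr_fun (fun s hs => ?_) measurableSet_Iic
    simp only
    rw [abs_of_nonpos hs]
    congr 1; ring
  have := h2.union h1
  rwa [Iic_union_Ioi, integrableOn_univ] at this

lemma int2 {c : ℝ} (hc : 0 < c) :
    Integrable (fun z : ℝ × ℝ => Real.exp (-(c * (|z.1| + |z.2|)))) := by
  have h := (int1 hc).mul_prod (int1 hc)
  refine h.congr (Eventually.of_forall fun z => ?_)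
  simp only
  rw [← Real.exp_add]
  congr 1
  ring

lemma Gm_low (θ s : ℝ) : |s| ≤ |(Gm θ s).1| + |(Gm θ s).2| := by
  unfold Gm
  simp only [abs_mul, abs_abs]
  rw [← mul_add]
  have h1 := Real.sin_sq_add_cos_sq (θ / 2)
  have h2 := Real.abs_sin_le_one (θ / 2)
  have h3 := Real.abs_cos_le_one (θ / 2)
  have h4 : 1 ≤ |Real.cos (θ / 2)| + |Real.sin (θ / 2)| := by
    nlinarith [sq_abs (Real.sin (θ / 2)), sq_abs (Real.cos (θ / 2)), abs_nonneg (Real.sin (θ / 2)),
      abs_nonneg (Real.cos (θ / 2))]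
  calc |s| = |s| * 1 := (mul_one _).symm
    _ ≤ |s| * (|Real.cos (θ / 2)| + |Real.sin (θ / 2)|) := mul_le_mul_of_nonneg_left h4 (abs_nonneg _)

lemma Gm_cont (θ : ℝ) : Continuous (Gm θ) := by
  unfold Gm
  fun_prop

/-- a cut-off function -/
lemma bump : ∃ χ : ℝ × ℝ → ℝ, ContDiff ℝ 1 χ ∧ HasCompactSupport χ ∧ (∀ z, 0 ≤ χ z ∧ χ z ≤ 1) ∧ χ 0 = 1 ∧
    ∃ M : ℝ, 0 ≤ M ∧ ∀ z, ‖fderiv ℝ χ z‖ ≤ M := by
  let b : ContDiffBump (0 : ℝ × ℝ) := ⟨1, 2, by norm_num, by norm_num⟩
  have h1 : ContDiff ℝ 1 (b : ℝ × ℝ → ℝ) := b.contDiff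
  refine ⟨b, h1, b.hasCompactSupport, fun z => ⟨b.nonneg, b.le_one⟩, ?_, ?_⟩
  · exact b.one_of_mem_closedBall (Metric.mem_closedBall_self (by norm_num))
  · have h2 : Continuous (fderiv ℝ (b : ℝ × ℝ → ℝ)) := h1.continuous_fderiv (by norm_num)
    obtain ⟨M, hM⟩ := (b.hasCompactSupport.fderiv (𝕜 := ℝ)).exists_bound_of_continuous h2
    exact ⟨M, (norm_nonneg _).trans (hM 0), hM⟩

lemma fd (χ u : ℝ × ℝ → ℝ) (h1 : ContDiff ℝ 1 χ) (h2 : ContDiff ℝ 1 u) (c : ℝ) (z v : ℝ × ℝ) :
    fderiv ℝ (fun z => χ (c • z) * u z) z v =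
      χ (c • z) * fderiv ℝ u z v + u z * (c * fderiv ℝ χ (c • z) v) := by
  have hχ : HasFDerivAt χ (fderiv ℝ χ (c • z)) (c • z) :=
    ((h1.differentiable (by norm_num)) (c • z)).hasFDerivAt
  have hc : HasFDerivAt (fun z : ℝ × ℝ => c • z) (c • ContinuousLinearMap.id ℝ (ℝ × ℝ)) z :=
    (hasFDerivAt_id z).const_smul c
  have hu : HasFDerivAt u (fderiv ℝ u z) z := ((h2.differentiable (by norm_num)) z).hasFDerivAt
  have h := (hχ.comp z hc).mul hu
  have e : fderiv ℝ (fun z => χ (c • z) * u z) z = _ := h.fderiv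
  rw [e]
  simp

lemma main (κ θ : ℝ) (hTR : TR κ θ) (u : ℝ × ℝ → ℝ) (hu : Dec u) :
    2 * ∫ s, u (Gm θ s) ^ 2 ≤ HH κ u := by
  obtain ⟨χ, hχ1, hχ2, hχ3, hχ4, M, hM0, hM⟩ := bump
  obtain ⟨hs, C, c, hC, hc, hdec⟩ := hu
  have hucont : Continuous u := hs.continuous
  have hDcont : Continuous (fderiv ℝ u) := hs.continuous_fderiv (by norm_num)
  have hχcont : Continuous χ := hχ1.continuous
  have hχDcont : Continuous (fderiv ℝ χ) := hχ1.continuous_fderiv (by norm_num)
  set cn : ℕ → ℝ := fun n => 1 / ((n : ℝ) + 1) with hcn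
  have cn0 : ∀ n, 0 < cn n := fun n => by rw [hcn]; positivity
  have cn1 : ∀ n, cn n ≤ 1 := fun n => by
    rw [hcn]
    simp only
    rw [div_le_one (by positivity)]
    have := Nat.cast_nonneg (α := ℝ) n
    linarith
  have cnlim : Tendsto cn atTop (𝓝 0) := tendsto_one_div_add_atTop_nhds_zero_nat
  set un : ℕ → ℝ × ℝ → ℝ := fun n z => χ (cn n • z) * u z with hun
  have hfd : ∀ n z v, fderiv ℝ (un n) z v =
      χ (cn n • z) * fderiv ℝ u z v + u z * (cn n * fderiv ℝ χ (cn n • z) v) := fun n z v =>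
    fd χ u hχ1 hs (cn n) z v
  have hunC : ∀ n, ContDiff ℝ 1 (un n) := fun n => by
    refine ContDiff.mul (hχ1.comp (contDiff_id.const_smul (cn n))) hs
  have hunS : ∀ n, HasCompactSupport (un n) := fun n => by
    refine HasCompactSupport.mul_right ?_
    have := hχ2.comp_smul (cn0 n).ne'
    exact this
  have key : ∀ n, 2 * ∫ s, un n (Gm θ s) ^ 2 ≤ HH κ (un n) := fun n => hTR (un n) (hunC n) (hunS n)
  -- the pointwise limits
  have hχlim : ∀ z : ℝ × ℝ, Tendsto (fun n => χ (cn n • z)) atTop (𝓝 1) := fun z => by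
    have h1 : Tendsto (fun n => cn n • z) atTop (𝓝 ((0 : ℝ) • z)) := cnlim.smul_const z
    rw [zero_smul] at h1
    have h2 := (hχcont.tendsto 0).comp h1
    rwa [hχ4] at h2
  have hχDlim : ∀ z v : ℝ × ℝ, Tendsto (fun n => cn n * fderiv ℝ χ (cn n • z) v) atTop (𝓝 0) := fun z v => by
    have h1 : Tendsto (fun n => cn n • z) atTop (𝓝 ((0 : ℝ) • z)) := cnlim.smul_const z
    have h2 := (hχDcont.tendsto _).comp h1
    have h3 : Tendsto (fun n => fderiv ℝ χ (cn n • z) v) atTop (𝓝 (fderiv ℝ χ ((0 : ℝ) • z) v)) :=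
      ((ContinuousLinearMap.apply ℝ ℝ v).continuous.tendsto _).comp h2
    have h4 := cnlim.mul h3
    rwa [zero_mul] at h4
  have hul : ∀ z, Tendsto (fun n => un n z) atTop (𝓝 (u z)) := fun z => by
    have := (hχlim z).mul_const (u z)
    rwa [one_mul] at this
  have hDl : ∀ z v, Tendsto (fun n => fderiv ℝ (un n) z v) atTop (𝓝 (fderiv ℝ u z v)) := fun z v => by
    simp only [hfd]
    have := ((hχlim z).mul_const (fderiv ℝ u z v)).add ((hχDlim z v).const_mul (u z))
    rwa [one_mul, mul_zero, add_zero] at this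
  -- the bounds
  have hub : ∀ n z, |un n z| ≤ C * Real.exp (-(c * (|z.1| + |z.2|))) := fun n z => by
    rw [hun]
    simp only
    rw [abs_mul, abs_of_nonneg (hχ3 _).1]
    calc χ (cn n • z) * |u z| ≤ 1 * |u z| := mul_le_mul_of_nonneg_right (hχ3 _).2 (abs_nonneg _)
      _ = |u z| := one_mul _
      _ ≤ _ := (hdec z).1
  have hDb : ∀ n z (v : ℝ × ℝ), ‖v‖ ≤ 1 → |fderiv ℝ u z v| ≤ C * Real.exp (-(c * (|z.1| + |z.2|))) →
      |fderiv ℝ (un n) z v| ≤ (1 + M) * (C * Real.exp (-(c * (|z.1| + |z.2|)))) := fun n z v hv hb => by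
    rw [hfd]
    have h1 : |χ (cn n • z) * fderiv ℝ u z v| ≤ C * Real.exp (-(c * (|z.1| + |z.2|))) := by
      rw [abs_mul, abs_of_nonneg (hχ3 _).1]
      calc χ (cn n • z) * |fderiv ℝ u z v| ≤ 1 * |fderiv ℝ u z v| :=
            mul_le_mul_of_nonneg_right (hχ3 _).2 (abs_nonneg _)
        _ = |fderiv ℝ u z v| := one_mul _
        _ ≤ _ := hb
    have h2 : |cn n * fderiv ℝ χ (cn n • z) v| ≤ M := by
      rw [abs_mul, abs_of_pos (cn0 n)]
      have h3 : |fderiv ℝ χ (cn n • z) v| ≤ M := by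
        calc |fderiv ℝ χ (cn n • z) v| ≤ ‖fderiv ℝ χ (cn n • z)‖ * ‖v‖ :=
              (fderiv ℝ χ (cn n • z)).le_opNorm v
          _ ≤ M * 1 := mul_le_mul (hM _) hv (norm_nonneg _) hM0
          _ = M := mul_one _
      calc cn n * |fderiv ℝ χ (cn n • z) v| ≤ 1 * M :=
            mul_le_mul (cn1 n) h3 (abs_nonneg _) zero_le_one
        _ = M := one_mul _
    have h4 : |u z * (cn n * fderiv ℝ χ (cn n • z) v)| ≤ C * Real.exp (-(c * (|z.1| + |z.2|))) * M := by
      rw [abs_mul]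
      exact mul_le_mul (hdec z).1 h2 (abs_nonneg _) (by positivity)
    calc _ ≤ |χ (cn n • z) * fderiv ℝ u z v| + |u z * (cn n * fderiv ℝ χ (cn n • z) v)| := abs_add_le _ _
      _ ≤ C * Real.exp (-(c * (|z.1| + |z.2|))) + C * Real.exp (-(c * (|z.1| + |z.2|))) * M :=
          add_le_add h1 h4
      _ = _ := by ring
  -- left side
  have hL : Tendsto (fun n => 2 * ∫ s, un n (Gm θ s) ^ 2) atTop (𝓝 (2 * ∫ s, u (Gm θ s) ^ 2)) := by
    refine Tendsto.const_mul 2 ?_
    refine tendsto_integral_of_dominated_convergence (fun s => C ^ 2 * Real.exp (-(2 * c * |s|))) ?_ ?_ ?_ ?_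
    · intro n
      exact (((hunC n).continuous.comp (Gm_cont θ)).pow 2).aestronglyMeasurable
    · exact (int1 (by positivity)).const_mul _
    · intro n
      refine Eventually.of_forall fun s => ?_
      rw [Real.norm_eq_abs, abs_pow]
      have h1 : |un n (Gm θ s)| ≤ C * Real.exp (-(c * |s|)) := by
        refine (hub n _).trans ?_
        refine mul_le_mul_of_nonneg_left (Real.exp_le_exp.2 ?_) hC.le
        have := mul_le_mul_of_nonneg_left (Gm_low θ s) hc.le
        linarith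
      calc |un n (Gm θ s)| ^ 2 ≤ (C * Real.exp (-(c * |s|))) ^ 2 :=
            pow_le_pow_left₀ (abs_nonneg _) h1 2
        _ = C ^ 2 * Real.exp (-(2 * c * |s|)) := by
            rw [mul_pow, ← Real.exp_nat_mul]
            congr 2
            push_cast
            ring
    · refine Eventually.of_forall fun s => ?_
      exact (hul _).pow 2
  have hR : Tendsto (fun n => HH κ (un n)) atTop (𝓝 (HH κ u)) := by
    unfold HH
    refine tendsto_integral_of_dominated_convergence (fun z => ((1 + M) ^ 2 * C ^ 2 + (1 + M) ^ 2 * C ^ 2 +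
      κ ^ 2 * C ^ 2) * Real.exp (-(2 * c * (|z.1| + |z.2|)))) ?_ ?_ ?_ ?_
    · intro n
      have h1 : Continuous (un n) := (hunC n).continuous
      have h2 : Continuous (fderiv ℝ (un n)) := (hunC n).continuous_fderiv (by norm_num)
      have h3 : ∀ v : ℝ × ℝ, Continuous fun z => fderiv ℝ (un n) z v := fun v =>
        h2.clm_apply continuous_const
      refine Continuous.aestronglyMeasurable ?_
      exact (((h3 _).pow 2).add ((h3 _).pow 2)).add (continuous_const.mul (h1.pow 2))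
    · exact (int2 (by positivity)).const_mul _
    · intro n
      refine Eventually.of_forall fun z => ?_
      have e : Real.exp (-(2 * c * (|z.1| + |z.2|))) = Real.exp (-(c * (|z.1| + |z.2|))) ^ 2 := by
        rw [← Real.exp_nat_mul]
        congr 1
        push_cast
        ring
      have hX : DX (un n) z ^ 2 ≤ (1 + M) ^ 2 * C ^ 2 * Real.exp (-(c * (|z.1| + |z.2|))) ^ 2 := by
        have h := hDb n z (1, 0) (by simp [Prod.norm_def]) (hdec z).2.1
        have h' := pow_le_pow_left₀ (abs_nonneg _) h 2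
        rw [sq_abs] at h'
        unfold DX
        calc _ ≤ _ := h'
          _ = _ := by ring
      have hY : DY (un n) z ^ 2 ≤ (1 + M) ^ 2 * C ^ 2 * Real.exp (-(c * (|z.1| + |z.2|))) ^ 2 := by
        have h := hDb n z (0, 1) (by simp [Prod.norm_def]) (hdec z).2.2
        have h' := pow_le_pow_left₀ (abs_nonneg _) h 2
        rw [sq_abs] at h'
        unfold DY
        calc _ ≤ _ := h'
          _ = _ := by ring
      have hU : un n z ^ 2 ≤ C ^ 2 * Real.exp (-(c * (|z.1| + |z.2|))) ^ 2 := by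
        have h' := pow_le_pow_left₀ (abs_nonneg _) (hub n z) 2
        rw [sq_abs] at h'
        calc _ ≤ _ := h'
          _ = _ := by ring
      rw [Real.norm_eq_abs, abs_of_nonneg (by positivity), e]
      have hU' := mul_le_mul_of_nonneg_left hU (sq_nonneg κ)
      calc _ ≤ (1 + M) ^ 2 * C ^ 2 * Real.exp (-(c * (|z.1| + |z.2|))) ^ 2 +
            (1 + M) ^ 2 * C ^ 2 * Real.exp (-(c * (|z.1| + |z.2|))) ^ 2 +
            κ ^ 2 * (C ^ 2 * Real.exp (-(c * (|z.1| + |z.2|))) ^ 2) :=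
            add_le_add (add_le_add hX hY) hU'
        _ = _ := by ring
    · refine Eventually.of_forall fun z => ?_
      exact (((hDl z _).pow 2).add ((hDl z _).pow 2)).add (((hul z).pow 2).const_mul _)
  exact le_of_tendsto_of_tendsto' hL hR key

end EXT

theorem pEXT : S_EXT := fun κ θ _ hTR u hu => EXT.main κ θ hTR u hu

end Pool.Agent.T2H10.WB
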