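import Pool.Agent.T2H10.WB.Defs

/-!
# Project WB (MP_687a20_mp, weak bending of a leaky broken line): statements of the packages with proofs

MAIN THEOREM (assembly, helper10): for every `α > 0` there are `C` and `θ₀ > 0` such that
`|lam α θ + α²/4 + (α²/(36 π²)) θ⁴| ≤ C θ⁵` for `0 < θ < θ₀`. (Full positive answer, with the constant.)

Idea. By scaling `α = 2`. Duality (Birman-Schwinger): `2 ∫_Γ u² ≤ ‖∇u‖² + κ² ‖u‖²` for all `u` iff the energy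
`EN κ θ φ = ∫∫ φ(s) φ(t) kk κ |Γ(s) - Γ(t)|²` is `≤ ∫ φ²` for all `φ` (packages GDE PSI IBP HEA APX REP SEM PAI ENE
BAS INT LIM LOW EXT UPP UPL; all kernels are mixtures of Gaussians). One dimensional part: the straight line
operator is `T = (κ² - ∂²)^(-1/2)` and `T ≤ (1 + T²)/2`; the bending is a positive perturbation `DD` of size `θ²` near the
corner with `∫∫ = θ²/(3 π) + O(θ⁴)` (MOM LAP CNV QIN FGH SOB DBD DUP DLO SPL PER LBA TLO UBA).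

Every package `X`: file `Pool/Agent/T2H10/WB/X.lean`, `import Pool.Agent.T2H10.WB.Stm`, in
`namespace Pool.Agent.T2H10.WB`, theorem `pX (h.. : S_..) : S_X` where the hypotheses are those named under `Deps`.
Put your lemmas in a sub-namespace `X`.
-/

open MeasureTheory Set Filter Topology

namespace Pool.Agent.T2H10.WB

noncomputable section

/-- GDE (50 min). Deps: none. The regularised Green function is `C¹` with the expected derivatives, and decays.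
Proof. For `τ > ε`: `|pp τ z|`, `|(z.1/(2τ)) pp τ z|`, and the second derivatives are bounded by `C(ε)`, so one can
differentiate under the integral (`hasFDerivAt_integral_of_dominated_of_fderiv_le`, bound `C exp (-κ² τ)`), and `Gx`, `Gy` are
continuous (dominated convergence). Decay: `κ² τ / 2 + |z|²/(8 τ) ≥ κ |z| / 2 ≥ κ (|z.1| + |z.2|)/4` (AM-GM), so
`exp (-κ² τ) exp (-|z|²/(4τ)) ≤ exp (- κ (|z.1| + |z.2|)/4) exp (-κ² τ/2) exp (-|z|²/(8τ))`, and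
`|z.1/(2τ)| exp (-|z|²/(8τ)) ≤ C/√τ ≤ C/√ε`. -/
def S_GDE : Prop := ∀ κ ε : ℝ, 0 < κ → 0 < ε →
  Dec (Gf κ ε) ∧ ∀ z, DX (Gf κ ε) z = Gx κ ε z ∧ DY (Gf κ ε) z = Gy κ ε z

/-- PSI (45 min). Deps: GDE. Same for the potential (`φ` has compact support, `|Gm θ s| ≤ 2 R` there:
`|z.1 - a.1| ≥ |z.1| - |a.1|`; differentiate under the integral, bound `C |φ s|`). -/
def S_PSI : Prop := ∀ (κ ε θ : ℝ) (φ : ℝ → ℝ), 0 < κ → 0 < ε → Continuous φ → HasCompactSupport φ →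
  Dec (psi κ ε θ φ) ∧ ∀ z, DX (psi κ ε θ φ) z = ∫ s, φ s * Gx κ ε (z - Gm θ s) ∧
    DY (psi κ ε θ φ) z = ∫ s, φ s * Gy κ ε (z - Gm θ s)

/-- IBP (40 min). Deps: none. Integration by parts in each variable:
`∂₁ (-(x/(2τ)) pp τ) = (x²/(4τ²) - 1/(2τ)) pp τ`, same for `y`; e.g.
`integral_bilinear_hasLineDerivAt_right_eq_neg_left_of_integrable` or Fubini and the one-dimensional
`integral_mul_deriv_eq_deriv_mul_of_integrable`. -/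
def S_IBP : Prop := ∀ u : ℝ × ℝ → ℝ, Dec u → ∀ (τ : ℝ) (a : ℝ × ℝ), 0 < τ →
  (∫ z, (DX u z * (-((z.1 - a.1) / (2 * τ)) * pp τ (z - a)) +
      DY u z * (-((z.2 - a.2) / (2 * τ)) * pp τ (z - a)))) =
    -∫ z, u z * ((sd z a / (4 * τ ^ 2) - 1 / τ) * pp τ (z - a))

/-- HEA (40 min). Deps: none. `∂_τ pp τ z = (|z|²/(4τ²) - 1/τ) pp τ z`; differentiate under the integral on
`(τ/2, 2τ)` (dominated by `C (1 + |z-a|²) exp (-|z-a|²/(8τ))`). `∫ pp τ = 1` is a product of two Gaussian integrals;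
`|∫ u pp| ≤ sup |u|`. -/
def S_HEA : Prop := (∀ τ : ℝ, 0 < τ → Integrable (pp τ) ∧ ∫ z, pp τ z = 1) ∧
  ∀ u : ℝ × ℝ → ℝ, Dec u → ∀ a : ℝ × ℝ,
    (∀ τ : ℝ, 0 < τ → HasDerivAt (fun τ => ∫ z, u z * pp τ (z - a))
      (∫ z, u z * ((sd z a / (4 * τ ^ 2) - 1 / τ) * pp τ (z - a))) τ) ∧
    ∃ M : ℝ, ∀ τ : ℝ, 0 < τ → |∫ z, u z * pp τ (z - a)| ≤ M

/-- APX (35 min). Deps: none. `u` is Lipschitz (bounded derivative), `|u z - u a| ≤ L |z - a|`, `∫ pp τ = 1` and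
`∫ |z| pp τ ≤ (∫ |z|² pp τ)^(1/2) = (4 τ)^(1/2)` (or directly `|z.1| + |z.2|` and one-dimensional Gaussian integrals). -/
def S_APX : Prop := ∀ u : ℝ × ℝ → ℝ, Dec u → ∃ L : ℝ, ∀ (τ : ℝ) (a : ℝ × ℝ), 0 < τ →
  |(∫ z, u z * pp τ (z - a)) - u a| ≤ L * Real.sqrt τ

/-- REP (50 min). Deps: IBP HEA. Fubini (the integrands are dominated by `C exp (-κ² τ) |∇u|` etc., for `τ > ε`), then by
IBP and HEA the left side is `∫_{τ > ε} exp (-κ² τ) (κ² P τ - P' τ) = ∫ -(exp (-κ² τ) P τ)'`, `P τ = ∫ u pp τ (· - a)`, which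
is `exp (-κ² ε) P ε` (`integral_Ioi_of_hasDerivAt_of_tendsto`; `P` is bounded and `P'` too for `τ > ε`). -/
def S_REP : Prop := ∀ (κ ε : ℝ) (u : ℝ × ℝ → ℝ), 0 < κ → 0 < ε → Dec u → ∀ a : ℝ × ℝ,
  (∫ z, (DX u z * Gx κ ε (z - a) + DY u z * Gy κ ε (z - a) + κ ^ 2 * u z * Gf κ ε (z - a))) =
    Real.exp (-(κ ^ 2 * ε)) * ∫ z, u z * pp ε (z - a)

/-- SEM (45 min). Deps: none. Semigroup property: complete the square in each variable (product of two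
one-dimensional Gaussian convolutions); second part: Fubini and the substitution `w = τ + ε`. -/
def S_SEM : Prop := (∀ (τ σ : ℝ) (a b : ℝ × ℝ), 0 < τ → 0 < σ →
    ∫ z, pp τ (z - a) * pp σ (z - b) = pp (τ + σ) (a - b)) ∧
  ∀ (κ ε : ℝ) (a b : ℝ × ℝ), 0 < κ → 0 < ε →
    Real.exp (-(κ ^ 2 * ε)) * ∫ z, Gf κ ε (z - a) * pp ε (z - b) = Gf κ (2 * ε) (a - b)

/-- PAI (40 min). Deps: GDE PSI REP. Insert the formulas of PSI, Fubini (everything is dominated by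
`C exp (-c (|z.1| + |z.2|)) |φ s|`), and REP with `a = Gm θ s`. -/
def S_PAI : Prop := ∀ (κ ε θ : ℝ) (φ : ℝ → ℝ) (u : ℝ × ℝ → ℝ), 0 < κ → 0 < ε → Continuous φ →
  HasCompactSupport φ → Dec u →
    (∫ z, (DX u z * DX (psi κ ε θ φ) z + DY u z * DY (psi κ ε θ φ) z + κ ^ 2 * u z * psi κ ε θ φ z)) =
      ∫ s, φ s * (Real.exp (-(κ ^ 2 * ε)) * ∫ z, u z * pp ε (z - Gm θ s))

/-- ENE (40 min). Deps: GDE PSI PAI SEM HEA. PAI with `u = psi`, Fubini, SEM; `Gf` is even. -/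
def S_ENE : Prop := ∀ (κ ε θ : ℝ) (φ : ℝ → ℝ), 0 < κ → 0 < ε → Continuous φ → HasCompactSupport φ →
  HH κ (psi κ ε θ φ) = ∫ s, ∫ t, φ s * φ t * Gf κ (2 * ε) (Gm θ s - Gm θ t)

/-- BAS (40 min). Deps: none. Basic facts on `kk` (for `q > 0` the integrand is bounded by
`C(q) exp (-κ² τ)`, since `exp (-q/(4τ))/τ ≤ 4/q`); the last two parts: `2 pp τ z exp (-κ² τ)` is the integrand of `kk`, the
integral over `Ioi ε` increases to the integral over `Ioi 0`. -/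
def S_BAS : Prop := ∀ κ : ℝ, 0 < κ → Measurable (kk κ) ∧
  (∀ q : ℝ, 0 < q → IntegrableOn (fun τ : ℝ => Real.exp (-(κ ^ 2 * τ)) *
    (Real.exp (-(q / (4 * τ))) / (2 * Real.pi * τ))) (Ioi 0)) ∧
  (∀ q : ℝ, 0 < q → 0 < kk κ q) ∧ (∀ q : ℝ, 0 ≤ kk κ q) ∧ (∀ q r : ℝ, 0 < q → q ≤ r → kk κ r ≤ kk κ q) ∧
  (∀ (ε : ℝ) (z : ℝ × ℝ), 0 < ε → 0 ≤ Gf κ ε z ∧ (z ≠ 0 → 2 * Gf κ ε z ≤ kk κ (z.1 ^ 2 + z.2 ^ 2))) ∧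
  (∀ z : ℝ × ℝ, z ≠ 0 → Tendsto (fun ε => 2 * Gf κ ε z) (𝓝[>] 0) (𝓝 (kk κ (z.1 ^ 2 + z.2 ^ 2))))

/-- MOM (45 min). Deps: none. Moments, by Tonelli: `∫ exp (-s²/(4τ)) ds = √(4πτ)`, so
`∫ kk κ (s²) ds = ∫_0^∞ exp (-κ² τ)/√(πτ) dτ = 1/κ`; `∫ s² exp (-s²/(4τ)) ds = 2 τ √(4πτ)`, so the second moment is
`∫_0^∞ 2 √(τ/π) exp (-κ² τ) dτ = 1/κ³`. -/
def S_MOM : Prop := ∀ κ : ℝ, 0 < κ → Integrable (fun s : ℝ => kk κ (s ^ 2)) ∧ (∫ s : ℝ, kk κ (s ^ 2)) = 1 / κ ∧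
  Integrable (fun s : ℝ => s ^ 2 * kk κ (s ^ 2)) ∧ (∫ s : ℝ, s ^ 2 * kk κ (s ^ 2)) = 1 / κ ^ 3

/-- INT (35 min). Deps: MOM BAS. For `0 < θ < π/2` one has `sd (Gm θ s) (Gm θ t) ≥ (s - t)² cos² (θ/2) ≥ (s - t)²/2`, so
`kk κ (sd ..) ≤ kk κ ((s-t)²/2)` for `s ≠ t`, and `x ↦ kk κ (x²/2)` is integrable (substitution in MOM); Tonelli. -/
def S_INT : Prop := ∀ (κ θ : ℝ) (φ : ℝ → ℝ), 0 < κ → 0 < θ → θ < Real.pi / 2 → Ed φ →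
  Integrable (fun p : ℝ × ℝ => φ p.1 * φ p.2 * kk κ (sd (Gm θ p.1) (Gm θ p.2))) ∧
  Integrable (fun p : ℝ × ℝ => φ p.1 * φ p.2 * kk κ ((p.1 - p.2) ^ 2)) ∧
  ∃ M : ℝ, ∀ s : ℝ, (∫ t, |φ t| * kk κ (sd (Gm θ s) (Gm θ t))) ≤ M

/-- LIM (30 min). Deps: BAS INT. Dominated convergence on `ℝ × ℝ` (the diagonal `s = t` is a null set; for `s ≠ t`
`Gm θ s ≠ Gm θ t`, and `sd` of the two points is `z.1² + z.2²` for their difference `z`). -/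
def S_LIM : Prop := ∀ (κ θ : ℝ) (φ : ℝ → ℝ), 0 < κ → 0 < θ → θ < Real.pi / 2 → Continuous φ →
  HasCompactSupport φ →
    Tendsto (fun ε => ∫ s, ∫ t, φ s * φ t * (2 * Gf κ ε (Gm θ s - Gm θ t))) (𝓝[>] 0) (𝓝 (EN κ θ φ))

/-- LOW (45 min). Deps: PSI PAI ENE LIM APX. Let `φ s = u (Gm θ s)` (compact support since `|Gm θ s| ≥ |s|/2`), `ψ = psi κ ε θ φ`.
`0 ≤ HH κ (u - 2 ψ) = HH κ u - 4 ∫ (∇u·∇ψ + κ² u ψ) + 4 HH κ ψ`. As `ε → 0`: by PAI and APX the second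
integral tends to `∫ φ²`; by ENE and LIM (at `2 ε`) `HH κ ψ → EN κ θ φ / 2 ≤ (∫ φ²)/2`. So `HH κ u ≥ 2 ∫ φ²`. -/
def S_LOW : Prop := ∀ κ θ : ℝ, 0 < κ → 0 < θ → θ < Real.pi / 2 →
  (∀ φ : ℝ → ℝ, Continuous φ → HasCompactSupport φ → EN κ θ φ ≤ ∫ s, φ s ^ 2) → TR κ θ

/-- EXT (45 min). Deps: none. Cut-off: `u_n z = χ (z/n) u z` with a smooth bump function `χ` (`χ = 1` near `0`,
`0 ≤ χ ≤ 1`, compact support). `DX u_n → DX u` etc. pointwise, dominated by `C exp (-c (|z.1| + |z.2|))`, and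
`u_n (Gm θ s) → u (Gm θ s)`, dominated by `C exp (-c |s|/2)` (`|(Gm θ s).1| + |(Gm θ s).2| ≥ |s|/2`). -/
def S_EXT : Prop := ∀ κ θ : ℝ, 0 < κ → TR κ θ → ∀ u : ℝ × ℝ → ℝ, Dec u → 2 * ∫ s, u (Gm θ s) ^ 2 ≤ HH κ u

/-- UPP (40 min). Deps: EXT PSI ENE GDE. With `ψ = psi κ ε θ φ`, `I = ∫∫ φ φ Gf κ ε (Γ - Γ) = ∫ φ(s) ψ (Γ(s)) ds` (`Gf` is
even): `I² ≤ ∫ φ² ∫ ψ(Γ)² ≤ ∫ φ² HH κ ψ / 2`, and `HH κ ψ = ∫∫ φ φ Gf κ (2ε) ≤ I` since `Gf` decreases in `ε` (integral of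
a nonnegative function over a smaller set) and `φ ≥ 0`. So `I ≤ (∫ φ²)/2` (if `I > 0`; otherwise trivial). -/
def S_UPP : Prop := ∀ κ θ : ℝ, 0 < κ → TR κ θ → ∀ φ : ℝ → ℝ, Continuous φ → HasCompactSupport φ → (∀ s, 0 ≤ φ s) →
  ∀ ε : ℝ, 0 < ε → (∫ s, ∫ t, φ s * φ t * (2 * Gf κ ε (Gm θ s - Gm θ t))) ≤ ∫ s, φ s ^ 2

/-- UPL (40 min). Deps: UPP LIM INT. By UPP and LIM, `EN κ θ φ ≤ ∫ φ²` for all `φ ≥ 0` continuous with compact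
support; apply it to `φ_n s = exp (-ν |s|) max 0 (min 1 (n - |s|))` and let `n → ∞` (dominated convergence, INT for
`exp (-ν |s|)`; `∫ exp (-2 ν |s|) = 1/ν`). -/
def S_UPL : Prop := ∀ κ θ ν : ℝ, 0 < κ → 0 < θ → θ < Real.pi / 2 → 0 < ν → TR κ θ →
  EN κ θ (fun s => Real.exp (-(ν * |s|))) ≤ 1 / ν

/-- LAP (45 min). Deps: none. Classical: e.g. both sides are `C²` in `x > 0`... or the substitution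
`v = κ √w - |x|/(2 √w)`, or differentiate the explicit primitive with erf-like integrals; another way: for `x ≥ 0`
`F(x) = ∫ exp (-κ² w - x²/(4w)) w^(-1/2) dw` satisfies `F'(x) = -κ F(x)` by the substitution `w ↦ x²/(4 κ² w)`
(`F'(x) = -(x/2) ∫ w^(-3/2) exp (..) dw = -κ F(x)`), and `F(0) = √π/κ`. -/
def S_LAP : Prop := ∀ κ x : ℝ, 0 < κ →
  (∫ w in Ioi (0 : ℝ), Real.exp (-(κ ^ 2 * w)) * (Real.exp (-(x ^ 2 / (4 * w))) / Real.sqrt (4 * Real.pi * w))) =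
    Real.exp (-(κ * |x|)) / (2 * κ)

/-- CNV (60 min). Deps: LAP. Tonelli: `∫ exp (-(s-r)²/(4τ)) exp (-(r-t)²/(4σ)) dr = √(4πτσ/(τ+σ)) exp (-(s-t)²/(4(τ+σ)))`;
with `w = τ + σ`, `∫_0^w (τ (w - τ))^(-1/2) dτ = π` (Beta(1/2, 1/2)), the left side is
`∫_0^∞ exp (-κ² w) (4πw)^(-1/2) exp (-(s-t)²/(4w)) dw`. (Also the integrand of the left side is integrable.) -/
def S_CNV : Prop := ∀ κ s t : ℝ, 0 < κ → s ≠ t →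
  Integrable (fun r : ℝ => kk κ ((s - r) ^ 2) * kk κ ((r - t) ^ 2)) ∧
  (∫ r : ℝ, kk κ ((s - r) ^ 2) * kk κ ((r - t) ^ 2)) = Real.exp (-(κ * |s - t|)) / (2 * κ)

/-- QIN (45 min). Deps: MOM CNV BAS. `T φ s = ∫ kk κ ((s-t)²) φ t dt` is bounded and in `L²` (bounded and integrable).
`0 ≤ ∫ (φ - T φ)² = ∫ φ² - 2 E0 κ φ + ∫ (T φ)²`, and `∫ (T φ)² = ∫∫ φ(s) φ(t) exp (-κ |s-t|)/(2κ)` by Fubini and CNV. -/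
def S_QIN : Prop := ∀ (κ : ℝ) (φ : ℝ → ℝ), 0 < κ → Continuous φ → HasCompactSupport φ →
  E0 κ φ ≤ 1 / 2 * (∫ s, φ s ^ 2) + 1 / 2 * ∫ s, ∫ t, φ s * φ t * (Real.exp (-(κ * |s - t|)) / (2 * κ))

/-- FGH (50 min). Deps: none. `f s = ∫ exp (-κ|s-t|)/(2κ) φ t dt = (1/(2κ)) (e^{-κs} ∫_{-∞}^s e^{κt} φ + e^{κs} ∫_s^∞ e^{-κt} φ)`,
`g = f'`, `g' = κ² f - φ`; both are multiples of `e^{-κ|s|}` far away. With `h = κ² f - φ = f''`: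
`∫ φ² - ∫ φ f = ∫ (κ² f - h)((κ²-1) f - h) = κ²(κ²-1) ∫ f² - (2κ²-1) ∫ f h + ∫ h²`, `-∫ f f'' = ∫ g²`. -/
def S_FGH : Prop := ∀ (κ : ℝ) (φ : ℝ → ℝ), 1 ≤ κ → Continuous φ → HasCompactSupport φ →
  ∃ f g : ℝ → ℝ, FG κ φ f g ∧
    (∫ s, ∫ t, φ s * φ t * (Real.exp (-(κ * |s - t|)) / (2 * κ))) = ∫ s, φ s * f s ∧
    (∫ s, φ s ^ 2) - (∫ s, φ s * f s) = κ ^ 2 * (κ ^ 2 - 1) * (∫ s, f s ^ 2) +
      (2 * κ ^ 2 - 1) * (∫ s, g s ^ 2) + ∫ s, (κ ^ 2 * f s - φ s) ^ 2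

/-- SOB (35 min). Deps: none. `f 0² = 2 ∫_{-∞}^0 f g = -2 ∫_0^∞ f g`, so `2 f 0² ≤ 2 ∫ |f g|`; Cauchy-Schwarz.
`|f s - f 0| ≤ |∫_0^s g|`; Cauchy-Schwarz. -/
def S_SOB : Prop := ∀ (κ : ℝ) (φ f g : ℝ → ℝ), FG κ φ f g →
  f 0 ^ 2 ≤ Real.sqrt (∫ s, f s ^ 2) * Real.sqrt (∫ s, g s ^ 2) ∧
  ∀ s, |f s - f 0| ≤ Real.sqrt |s| * Real.sqrt (∫ s, g s ^ 2)

/-- DBD (45 min). Deps: BAS. Let `r = s + t`, `d = 2 s t (1 - cos θ) ≤ r² θ²/4`, so `s² + t² + 2 s t cos θ = r² - d > 0`. Then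
`DD = ∫ exp (-κ² τ) (2πτ)⁻¹ exp (-r²/(4τ)) (exp (d/(4τ)) - 1) dτ ≥ 0` and `exp x - 1 ≤ x exp x` gives
`DD ≤ ∫ exp (-τ) (d/(8πτ²)) exp (-(r²-d)/(4τ)) dτ`; `τ + r²/(16τ) ≥ r/2` and `r² - d - r²/4 ≥ r²/2`, so
`DD ≤ exp (-r/2) ∫ (d/(8πτ²)) exp (-r²/(8τ)) dτ = exp (-r/2) d/(π r²) ≤ θ²/(4π) exp (-r/2)`. -/
def S_DBD : Prop := ∃ C θ1 : ℝ, 0 < C ∧ 0 < θ1 ∧ ∀ κ θ s t : ℝ, 1 ≤ κ → 0 < θ → θ < θ1 → 0 < s → 0 < t →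
  0 ≤ DD κ θ s t ∧ DD κ θ s t ≤ C * θ ^ 2 * Real.exp (-((s + t) / 2))

/-- DUP (60 min). Deps: DBD BAS. With `r`, `d` as in DBD and `x = d/(4τ) ≤ r² θ²/(16τ)`, `exp x - 1 ≤ x + x² exp x`. Tonelli:
`∫∫ x exp (-r²/(4τ)) ds dt = ((1 - cos θ)/(2τ)) ∫∫ s t exp (-(s+t)²/(4τ)) = ((1 - cos θ)/(2τ)) (4/3) τ²` (since
`∫∫ s t F(s+t) = ∫ (r³/6) F(r) dr`), which gives `∫ exp (-κ² τ) (2πτ)⁻¹ (2/3) τ (1 - cos θ) dτ = (1 - cos θ)/(3π κ²) ≤ θ²/(6π)`;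
the term `x² exp x` gives at most `C θ⁴` (`∫∫ (r⁴θ⁴/(256τ²)) exp (-3r²/(16τ)) ≤ C θ⁴ τ`). -/
def S_DUP : Prop := ∃ C θ1 : ℝ, 0 < C ∧ 0 < θ1 ∧ ∀ κ θ : ℝ, 1 ≤ κ → 0 < θ → θ < θ1 →
  (∫ s in Ioi (0 : ℝ), ∫ t in Ioi (0 : ℝ), DD κ θ s t) ≤ θ ^ 2 / (6 * Real.pi) + C * θ ^ 4

/-- DLO (60 min). Deps: DBD BAS. `exp x - 1 ≥ x` gives
`∫∫ DD ≥ (1 - cos θ)/(3π κ²) ≥ (θ²/2 - θ⁴/24) (1 - θ²)/(3π)` (computation as in DUP), and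
`exp (-ν s) exp (-ν t) ≥ 1 - ν (s + t)`, where `∫∫ ν (s+t) DD ≤ C ν θ²` by DBD. -/
def S_DLO : Prop := ∃ C θ1 : ℝ, 0 < C ∧ 0 < θ1 ∧ ∀ κ θ ν : ℝ, 1 ≤ κ → κ ^ 2 ≤ 1 + θ ^ 2 → 0 < θ → θ < θ1 → 0 ≤ ν →
  ν ≤ θ ^ 2 → θ ^ 2 / (6 * Real.pi) - C * θ ^ 3 ≤
    ∫ s in Ioi (0 : ℝ), ∫ t in Ioi (0 : ℝ), Real.exp (-(ν * s)) * Real.exp (-(ν * t)) * DD κ θ s t

/-- SPL (45 min). Deps: INT. Split `ℝ × ℝ` into the four quadrants: for `s`, `t` of the same sign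
`sd (Gm θ s) (Gm θ t) = (s - t)²`; for `s > 0 > -t`: `sd (Gm θ s) (Gm θ (-t)) = s² + t² + 2 s t cos θ` and
`(s - (-t))² = (s + t)²`; the two mixed quadrants give the same integral (symmetry). -/
def S_SPL : Prop := ∀ (κ θ : ℝ) (φ : ℝ → ℝ), 0 < κ → 0 < θ → θ < Real.pi / 2 → Ed φ →
  EN κ θ φ = E0 κ φ + 2 * ∫ s in Ioi (0 : ℝ), ∫ t in Ioi (0 : ℝ), φ s * φ (-t) * DD κ θ s t

/-- PER (60 min). Deps: DBD DUP SOB. `h = κ² f - φ`, `G = (∫ g²)^(1/2)`, `H = (∫ h²)^(1/2)`, `F = κ² |f 0|`,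
`e s = κ² √|s| G + |h s|`: by SOB `|φ s| ≤ F + e s`, so `φ s φ (-t) ≤ F² + F (e s + e (-t)) + e s e (-t)`. `DD ≥ 0`, hence:
`∫∫ DD F² ≤ F² (θ²/(6π) + C θ⁴)` (DUP); `∫_0^∞ e^{-s/2} e(s) ds ≤ C (G + H)` (Cauchy-Schwarz), so by DBD
`∫∫ DD F e ≤ C θ² F (G + H) ≤ C θ (θ² F² + G² + H²)` and `∫∫ DD e e ≤ C θ² (G² + H²)`; `κ⁴ ≤ (1 + θ²)²`. -/
def S_PER : Prop := ∃ C θ1 : ℝ, 0 < C ∧ 0 < θ1 ∧ ∀ κ θ : ℝ, 1 ≤ κ → κ ^ 2 ≤ 1 + θ ^ 2 → 0 < θ → θ < θ1 →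
  ∀ φ f g : ℝ → ℝ, FG κ φ f g →
    2 * (∫ s in Ioi (0 : ℝ), ∫ t in Ioi (0 : ℝ), φ s * φ (-t) * DD κ θ s t) ≤
      (θ ^ 2 / (3 * Real.pi) + C * θ ^ 3) * f 0 ^ 2 +
        C * θ * ((∫ s, g s ^ 2) + ∫ s, (κ ^ 2 * f s - φ s) ^ 2)

/-- LBA (50 min). Deps: QIN FGH SOB PER SPL. Let `ν² = κ² - 1 = θ⁴/(9π²) + C θ⁵`. By SPL, QIN, FGH the claim
`EN κ θ φ ≤ ∫ φ²` follows from `2 ∫∫ φ φ DD ≤ (1/2) (κ² ν² ∫ f² + (2κ²-1) ∫ g² + ∫ h²)`. By PER (constant `C₀`) and SOB the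
left side is `≤ (θ²/(3π) + C₀ θ³) √(∫ f²) √(∫ g²) + C₀ θ (∫ g² + ∫ h²)`. AM-GM:
`(1/2) ν² ∫ f² + (1/2 - C₀ θ) ∫ g² ≥ ν √(1 - 2 C₀ θ) √(∫ f²) √(∫ g²)`, and
`ν² (1 - 2 C₀ θ) ≥ (θ²/(3π) + C₀ θ³)²` if `C` is large and then `θ` small. -/
def S_LBA : Prop := ∃ C θ1 : ℝ, 0 < C ∧ 0 < θ1 ∧ ∀ κ θ : ℝ, 0 < κ → 0 < θ → θ < θ1 →
  κ ^ 2 = 1 + θ ^ 4 / (9 * Real.pi ^ 2) + C * θ ^ 5 →
    ∀ φ : ℝ → ℝ, Continuous φ → HasCompactSupport φ → EN κ θ φ ≤ ∫ s, φ s ^ 2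

/-- TLO (50 min). Deps: MOM BAS. `E0 = ∫ kk κ (r²) (∫ exp (-ν|s|) exp (-ν|s-r|) ds) dr` (Tonelli), the inner integral is
`exp (-ν|r|) (|r| + 1/ν) ≥ (1/ν) (1 - ν² r²/2)`, as `e^{-x} (1 + x) ≥ 1 - x²/2` for `x ≥ 0`; use MOM. -/
def S_TLO : Prop := ∀ κ ν : ℝ, 0 < κ → 0 < ν →
  1 / (ν * κ) - ν / (2 * κ ^ 3) ≤ E0 κ (fun s => Real.exp (-(ν * |s|)))

/-- UBA (40 min). Deps: DLO TLO SPL. With `η = C θ⁵`, `κ² = 1 + ν² - η ≥ 1` for small `θ`: `1/κ ≥ 1 - (ν² - η)/2`, so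
`1/(νκ) - ν/(2κ³) ≥ 1/ν - ν + η/(2ν)`; the bending part is `≥ θ²/(3π) - 2 C₀ θ³ = ν - 2 C₀ θ³` (DLO), and
`η/(2ν) = (3π/2) C θ³ > 2 C₀ θ³` for `C` large. -/
def S_UBA : Prop := ∃ C θ1 : ℝ, 0 < C ∧ 0 < θ1 ∧ ∀ κ θ : ℝ, 0 < κ → 0 < θ → θ < θ1 →
  κ ^ 2 = 1 + θ ^ 4 / (9 * Real.pi ^ 2) - C * θ ^ 5 →
    1 / (θ ^ 2 / (3 * Real.pi)) < EN κ θ (fun s => Real.exp (-(θ ^ 2 / (3 * Real.pi) * |s|)))

/-- CPX (45 min). Deps: none. Real and imaginary parts; conversely, a real function is a complex one, and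
normalise (if `∫ u² = 0` then `u = 0` by continuity). -/
def S_CPX : Prop := ∀ κ θ : ℝ, 0 < κ →
  (TR κ θ → ∀ u : ℝ × ℝ → ℂ, ContDiff ℝ 1 u → HasCompactSupport u → (∫ z, ‖u z‖ ^ 2) = 1 → -κ ^ 2 ≤ form 2 θ u) ∧
  ((∀ u : ℝ × ℝ → ℂ, ContDiff ℝ 1 u → HasCompactSupport u → (∫ z, ‖u z‖ ^ 2) = 1 → -κ ^ 2 ≤ form 2 θ u) → TR κ θ)

/-- SCA (50 min). Deps: none. For `c = α/2` and `v z = c u (c z)`: `∫ |v|² = ∫ |u|²`, `∫ |∇v|² = c² ∫ |∇u|²`,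
`∫ |v (Γ s)|² ds = c ∫ |u (Γ s)|² ds` (as `c Γ(s) = Γ(c s)`), so `form α θ v = c² form 2 θ u`, and the sets of the two
infima correspond (`Real.sInf_smul_of_nonneg`). -/
def S_SCA : Prop := ∀ α θ : ℝ, 0 < α → lam α θ = α ^ 2 / 4 * lam 2 θ

end

end Pool.Agent.T2H10.WB
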